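import Mathlib

/-!
From the differential inequality to stretched exponential decay (log-average trick).
-/

open Finset Filter Topology

namespace Pool.Agent.F368

theorem decay_of_diffineq (θ : ℕ → ℝ → ℝ) (D : ℕ → ℝ → ℝ) {p0 p1 c : ℝ} (h01 : p0 < p1)
    (hc : 0 < c)
    (hnn : ∀ n p, p0 ≤ p → p ≤ p1 → 0 ≤ θ n p)
    (hle : ∀ n p, p0 ≤ p → p ≤ p1 → θ n p ≤ 1)
    (hpos : ∀ p, p0 ≤ p → p ≤ p1 → 0 < θ 0 p)
    (hn : ∀ n p, p0 ≤ p → p ≤ p1 → θ (n + 1) p ≤ θ n p)
    (hp : ∀ n p q, p0 ≤ p → p ≤ q → q ≤ p1 → θ n q ≤ θ n p)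
    (hD : ∀ n p, p0 ≤ p → p ≤ p1 → HasDerivAt (θ n) (D n p) p)
    (hineq : ∀ n p, 1 ≤ n → p0 ≤ p → p ≤ p1 →
      c * n * θ n p ≤ (∑ j ∈ range (n + 1), θ j p) * (-(D n p)))
    (h : Tendsto (fun n => θ n p0) atTop (𝓝 0)) :
    ∃ C : ℝ, ∀ n : ℕ, θ n p1 ≤ C * Real.exp (-Real.sqrt n) := by
  set Sg : ℕ → ℝ → ℝ := fun n p => ∑ j ∈ range (n + 1), θ j p with hSg
  have Sg_pos : ∀ n p, p0 ≤ p → p ≤ p1 → 0 < Sg n p := by
    intro n p h1 h2
    refine Finset.sum_pos' (fun i _ => hnn i p h1 h2) ⟨0, by simp, hpos p h1 h2⟩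
  have Sg_succ : ∀ n p, Sg (n + 1) p = Sg n p + θ (n + 1) p := fun n p => by
    simp only [hSg]; rw [Finset.sum_range_succ]
  set pm : ℝ := (p0 + p1) / 2 with hpm
  have hpm0 : p0 < pm := by rw [hpm]; linarith
  have hpm1 : pm < p1 := by rw [hpm]; linarith
  have Sg_anti : ∀ n p q, p0 ≤ p → p ≤ q → q ≤ p1 → Sg n q ≤ Sg n p := fun n p q h1 h2 h3 =>
    Finset.sum_le_sum fun j _ => hp j p q h1 h2 h3
  -- the inequality for the derivative in a convenient form
  have hD' : ∀ n p, 1 ≤ n → p0 ≤ p → p ≤ p1 → D n p ≤ -(c * n * (θ n p / Sg n p)) := by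
    intro n p h1 h2 h3
    have a1 := hineq n p h1 h2 h3
    have a2 := Sg_pos n p h2 h3
    have a3 : c * n * θ n p / Sg n p ≤ -(D n p) := by
      rw [div_le_iff₀ a2]
      calc c * n * θ n p ≤ Sg n p * (-(D n p)) := a1
        _ = -D n p * Sg n p := by ring
    have a4 : c * n * (θ n p / Sg n p) = c * n * θ n p / Sg n p := by ring
    rw [a4]; linarith
  -- telescoping
  have htel : ∀ n p, p0 ≤ p → p ≤ p1 →
      Real.log (Sg (n + 1) p) - Real.log (Sg 1 p) ≤ ∑ i ∈ Icc 1 n, θ i p / Sg i p := by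
    intro n p h1 h2
    induction n with
    | zero => simp
    | succ n ih =>
      rw [Finset.sum_Icc_succ_top (by omega)]
      have b1 := Sg_pos (n + 1) p h1 h2
      have b2 := Sg_pos (n + 1 + 1) p h1 h2
      have b3 : Real.log (Sg (n + 1 + 1) p / Sg (n + 1) p) ≤ Sg (n + 1 + 1) p / Sg (n + 1) p - 1 :=
        Real.log_le_sub_one_of_pos (div_pos b2 b1)
      rw [Real.log_div b2.ne' b1.ne'] at b3
      have b4 : Sg (n + 1 + 1) p / Sg (n + 1) p - 1 ≤ θ (n + 1) p / Sg (n + 1) p := by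
        rw [div_sub_one b1.ne', Sg_succ (n + 1) p]
        apply div_le_div_of_nonneg_right _ b1.le
        have := hn (n + 1) p h1 h2
        linarith
      linarith
  have hSg1 : ∀ p, p0 ≤ p → p ≤ p1 → Real.log (Sg 1 p) ≤ 1 := by
    intro p h1 h2
    have b1 := Sg_pos 1 p h1 h2
    have b2 : Sg 1 p ≤ 2 := by
      rw [Sg_succ]
      have : Sg 0 p = θ 0 p := by simp [hSg]
      rw [this]
      linarith [hle 0 p h1 h2, hle 1 p h1 h2]
    have := Real.log_le_sub_one_of_pos b1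
    linarith
  -- the logarithmic average
  set T : ℕ → ℝ → ℝ := fun n p => ∑ i ∈ Icc 1 n, θ i p / i with hT
  have hTd : ∀ n p, p0 ≤ p → p ≤ p1 →
      HasDerivAt (T n) (∑ i ∈ Icc 1 n, D i p / i) p := by
    intro n p h1 h2
    have := HasDerivAt.fun_sum (u := Icc 1 n) (A := fun i q => θ i q / i)
      (A' := fun i => D i p / i) (x := p) (fun i _ => (hD i p h1 h2).div_const _)
    exact this
  have hstep1 : ∀ n, c * (Real.log (Sg n pm) - 1) * (pm - p0) ≤ T n p0 := by
    intro n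
    have hder : ∀ p, p0 ≤ p → p ≤ pm →
        (∑ i ∈ Icc 1 n, D i p / i) ≤ -(c * (Real.log (Sg n pm) - 1)) := by
      intro p h1 h2
      have h3 : p ≤ p1 := h2.trans hpm1.le
      have e1 : (∑ i ∈ Icc 1 n, D i p / i) ≤ ∑ i ∈ Icc 1 n, -(c * (θ i p / Sg i p)) := by
        refine Finset.sum_le_sum fun i hi => ?_
        have hi1 : 1 ≤ i := (Finset.mem_Icc.1 hi).1
        have hi' : (0 : ℝ) < i := by exact_mod_cast hi1
        rw [div_le_iff₀ hi']
        have := hD' i p hi1 h1 h3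
        calc D i p ≤ -(c * i * (θ i p / Sg i p)) := this
          _ = _ := by ring
      have e2 : ∑ i ∈ Icc 1 n, -(c * (θ i p / Sg i p)) = -(c * ∑ i ∈ Icc 1 n, θ i p / Sg i p) := by
        rw [Finset.sum_neg_distrib, Finset.mul_sum]
      have e3 := htel n p h1 h3
      have e4 : Real.log (Sg n pm) ≤ Real.log (Sg (n + 1) p) := by
        apply Real.log_le_log (Sg_pos n pm hpm0.le hpm1.le)
        calc Sg n pm ≤ Sg n p := Sg_anti n p pm h1 h2 hpm1.le
          _ ≤ Sg (n + 1) p := by rw [Sg_succ]; linarith [hnn (n + 1) p h1 h3]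
      have e5 := hSg1 p h1 h3
      rw [e2] at e1
      refine e1.trans (neg_le_neg ?_)
      exact mul_le_mul_of_nonneg_left (by linarith) hc.le
    have hmv := Convex.image_sub_le_mul_sub_of_deriv_le (convex_Icc p0 pm) (f := T n)
      (fun x hx => (hTd n x hx.1 (hx.2.trans hpm1.le)).continuousAt.continuousWithinAt)
      (fun x hx => by
        rw [interior_Icc] at hx
        exact (hTd n x hx.1.le (hx.2.le.trans hpm1.le)).differentiableAt.differentiableWithinAt)
      (C := -(c * (Real.log (Sg n pm) - 1)))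
      (fun x hx => by
        rw [interior_Icc] at hx
        rw [(hTd n x hx.1.le (hx.2.le.trans hpm1.le)).deriv]
        exact hder x hx.1.le hx.2.le)
      p0 ⟨le_rfl, hpm0.le⟩ pm ⟨hpm0.le, le_rfl⟩ hpm0.le
    have hTm : 0 ≤ T n pm := Finset.sum_nonneg fun i _ =>
      div_nonneg (hnn i pm hpm0.le hpm1.le) (Nat.cast_nonneg _)
    linarith
  -- T n p0 = o(log n)
  set ε : ℝ := c * (pm - p0) / 4 with hε
  have hεpos : 0 < ε := by rw [hε]; have := sub_pos.2 hpm0; positivity
  obtain ⟨N, hN⟩ : ∃ N : ℕ, ∀ n ≥ N, θ n p0 ≤ ε := by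
    have := h.eventually (ge_mem_nhds hεpos)
    exact eventually_atTop.1 this
  have hstep2 : ∀ n : ℕ, T n p0 ≤ (harmonic N : ℝ) + ε * (harmonic n : ℝ) := by
    intro n
    have hh : ∀ m : ℕ, (harmonic m : ℝ) = ∑ i ∈ Icc 1 m, ((i : ℝ))⁻¹ := by
      intro m
      rw [harmonic_eq_sum_Icc]
      push_cast
      rfl
    have e1 : T n p0 ≤ ∑ i ∈ Icc 1 n, ((if i ≤ N then ((i : ℝ))⁻¹ else 0) + ε * ((i : ℝ))⁻¹) := by
      refine Finset.sum_le_sum fun i hi => ?_
      have hi' : (0 : ℝ) ≤ ((i : ℝ))⁻¹ := inv_nonneg.2 (Nat.cast_nonneg _)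
      rw [div_eq_mul_inv]
      split_ifs with hiN
      · have := mul_le_mul_of_nonneg_right (hle i p0 le_rfl h01.le) hi'
        have := mul_nonneg hεpos.le hi'
        linarith
      · have := mul_le_mul_of_nonneg_right (hN i (by omega)) hi'
        linarith
    refine e1.trans ?_
    rw [Finset.sum_add_distrib, ← Finset.mul_sum, ← hh n, ← Finset.sum_filter]
    have : ∑ i ∈ (Icc 1 n).filter (fun i => i ≤ N), ((i : ℝ))⁻¹ ≤ (harmonic N : ℝ) := by
      rw [hh N]
      refine Finset.sum_le_sum_of_subset_of_nonneg ?_ fun i _ _ => inv_nonneg.2 (Nat.cast_nonneg _)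
      intro i hi
      rw [Finset.mem_filter, Finset.mem_Icc] at hi
      exact Finset.mem_Icc.2 ⟨hi.1.1, hi.2⟩
    linarith
  -- bound of Sg n pm
  set C2 : ℝ := 1 + ((harmonic N : ℝ) + ε) / (c * (pm - p0)) with hC2
  have hcp : 0 < c * (pm - p0) := mul_pos hc (sub_pos.2 hpm0)
  have hstep3 : ∀ n : ℕ, 1 ≤ n → Real.log (Sg n pm) ≤ C2 + Real.log n / 4 := by
    intro n hn1
    have h1 := hstep1 n
    have h2 := hstep2 n
    have h3 : (harmonic n : ℝ) ≤ 1 + Real.log n := harmonic_le_one_add_log n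
    have h4 : c * (pm - p0) * (Real.log (Sg n pm) - 1) ≤
        ((harmonic N : ℝ) + ε) + ε * Real.log n := by
      have := mul_le_mul_of_nonneg_left h3 hεpos.le
      nlinarith
    have h5 : Real.log (Sg n pm) - 1 ≤
        (((harmonic N : ℝ) + ε) + ε * Real.log n) / (c * (pm - p0)) := by
      rw [le_div_iff₀ hcp]; linarith
    have h6 : (((harmonic N : ℝ) + ε) + ε * Real.log n) / (c * (pm - p0)) =
        ((harmonic N : ℝ) + ε) / (c * (pm - p0)) + Real.log n / 4 := by
      rw [add_div]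
      congr 1
      rw [div_eq_div_iff hcp.ne' (by norm_num : (4 : ℝ) ≠ 0), hε]; ring
    rw [h6] at h5
    rw [hC2]; linarith
  -- final decay
  set c3 : ℝ := c / Real.exp C2 * (p1 - pm) with hc3
  have hc3pos : 0 < c3 := by rw [hc3]; have := sub_pos.2 hpm1; positivity
  have hstep4 : ∀ n : ℕ, 1 ≤ n → θ n p1 ≤ Real.exp (-(c3 * (Real.sqrt (Real.sqrt n)) ^ 3)) := by
    intro n hn1
    set x : ℝ := Real.sqrt (Real.sqrt n) with hx
    have hn' : (1 : ℝ) ≤ n := by exact_mod_cast hn1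
    have hx1 : 1 ≤ x := by
      rw [hx]; rw [Real.one_le_sqrt, Real.one_le_sqrt]; exact hn'
    have hx4 : x ^ 4 = n := by
      have h1 : x ^ 2 = Real.sqrt n := Real.sq_sqrt (Real.sqrt_nonneg _)
      have h2 : (Real.sqrt n) ^ 2 = n := Real.sq_sqrt (by linarith)
      have h3 : x ^ 4 = (x ^ 2) ^ 2 := by ring
      rw [h3, h1, h2]
    have hlogx : Real.log n / 4 = Real.log x := by
      rw [← hx4, Real.log_pow]; push_cast; ring
    have hSgn : Sg n pm ≤ Real.exp C2 * x := by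
      have h1 := hstep3 n hn1
      rw [hlogx] at h1
      have h2 : Sg n pm = Real.exp (Real.log (Sg n pm)) :=
        (Real.exp_log (Sg_pos n pm hpm0.le hpm1.le)).symm
      rw [h2]
      calc Real.exp (Real.log (Sg n pm)) ≤ Real.exp (C2 + Real.log x) := Real.exp_le_exp.2 h1
        _ = Real.exp C2 * x := by rw [Real.exp_add, Real.exp_log (by linarith)]
    set L : ℝ := c / Real.exp C2 * x ^ 3 with hL
    have hLpos : 0 < L := by rw [hL]; positivity
    have hder : ∀ p, pm ≤ p → p ≤ p1 → D n p + L * θ n p ≤ 0 := by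
      intro p h1 h2
      have h3 : p0 ≤ p := hpm0.le.trans h1
      have h4 := hD' n p hn1 h3 h2
      have h5 : Sg n p ≤ Real.exp C2 * x := (Sg_anti n pm p hpm0.le h1 h2).trans hSgn
      have h6 : L * θ n p ≤ c * n * (θ n p / Sg n p) := by
        have h7 := Sg_pos n p h3 h2
        have h8 := hnn n p h3 h2
        have e1 : L * θ n p = c * n * θ n p / (Real.exp C2 * x) := by
          rw [hL, ← hx4]; field_simp
        have e2 : c * n * (θ n p / Sg n p) = c * n * θ n p / Sg n p := by ring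
        rw [e1, e2]
        exact div_le_div_of_nonneg_left (by positivity) h7 h5
      linarith
    set g : ℝ → ℝ := fun p => θ n p * Real.exp (L * (p - pm)) with hg
    have hgd : ∀ p, pm ≤ p → p ≤ p1 →
        HasDerivAt g ((D n p + L * θ n p) * Real.exp (L * (p - pm))) p := by
      intro p h1 h2
      have h3 : HasDerivAt (fun q => Real.exp (L * (q - pm))) (Real.exp (L * (p - pm)) * L) p := by
        have := ((hasDerivAt_id p).sub_const pm).const_mul L
        have := this.exp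
        simpa using this
      have h4 := (hD n p (hpm0.le.trans h1) h2).mul h3
      refine h4.congr_deriv ?_
      ring
    have hanti : AntitoneOn g (Set.Icc pm p1) := by
      refine antitoneOn_of_deriv_nonpos (convex_Icc pm p1)
        (fun x hx => (hgd x hx.1 hx.2).continuousAt.continuousWithinAt)
        (fun x hx => by
          rw [interior_Icc] at hx
          exact (hgd x hx.1.le hx.2.le).differentiableAt.differentiableWithinAt)
        (fun x hx => ?_)
      rw [interior_Icc] at hx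
      rw [(hgd x hx.1.le hx.2.le).deriv]
      exact mul_nonpos_of_nonpos_of_nonneg (hder x hx.1.le hx.2.le) (Real.exp_pos _).le
    have hfin := hanti ⟨le_rfl, hpm1.le⟩ ⟨hpm1.le, le_rfl⟩ hpm1.le
    simp only [hg, sub_self, mul_zero, Real.exp_zero, mul_one] at hfin
    have h9 : θ n p1 * Real.exp (L * (p1 - pm)) ≤ 1 := hfin.trans (hle n pm hpm0.le hpm1.le)
    have h10 : c3 * x ^ 3 = L * (p1 - pm) := by rw [hc3, hL]; ring
    rw [h10, Real.exp_neg, ← one_div, le_div_iff₀ (Real.exp_pos _)]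
    exact h9
  refine ⟨max 1 (Real.exp ((1 / c3) ^ 2)), fun n => ?_⟩
  rcases Nat.eq_zero_or_pos n with hn0 | hn0
  · subst hn0
    simp only [Nat.cast_zero, Real.sqrt_zero, neg_zero, Real.exp_zero, mul_one]
    exact (hle 0 p1 h01.le le_rfl).trans (le_max_left _ _)
  · refine (hstep4 n hn0).trans ?_
    set x : ℝ := Real.sqrt (Real.sqrt n) with hx
    have hx0 : 0 ≤ x := Real.sqrt_nonneg _
    have hx2 : Real.sqrt n = x ^ 2 := (Real.sq_sqrt (Real.sqrt_nonneg _)).symm
    have h1 : x ^ 2 - c3 * x ^ 3 ≤ (1 / c3) ^ 2 := by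
      by_cases hxc : 1 / c3 ≤ x
      · have : 1 ≤ c3 * x := by
          have := mul_le_mul_of_nonneg_left hxc hc3pos.le
          rwa [mul_one_div_cancel hc3pos.ne'] at this
        have h2 : x ^ 2 * 1 ≤ x ^ 2 * (c3 * x) := mul_le_mul_of_nonneg_left this (by positivity)
        have h3 : 0 ≤ (1 / c3) ^ 2 := by positivity
        nlinarith
      · push Not at hxc
        have h2 : x ^ 2 ≤ (1 / c3) ^ 2 := by
          apply pow_le_pow_left₀ hx0 hxc.le
        have h3 : 0 ≤ c3 * x ^ 3 := by positivity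
        linarith
    calc Real.exp (-(c3 * x ^ 3)) = Real.exp (x ^ 2 - c3 * x ^ 3) * Real.exp (-(x ^ 2)) := by
          rw [← Real.exp_add]; congr 1; ring
      _ ≤ Real.exp ((1 / c3) ^ 2) * Real.exp (-(x ^ 2)) :=
          mul_le_mul_of_nonneg_right (Real.exp_le_exp.2 h1) (Real.exp_pos _).le
      _ ≤ max 1 (Real.exp ((1 / c3) ^ 2)) * Real.exp (-Real.sqrt n) := by
          rw [hx2]
          exact mul_le_mul_of_nonneg_right (le_max_right _ _) (Real.exp_pos _).le

end Pool.Agent.F368
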