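import Pool.Agent.F368.Geom

/-!
Choice of the parameters: pure analysis.
-/

open Filter Topology

namespace Pool.Agent.F368

theorem box_card (d n : ℕ) : (box d n).card = (2 * n + 1) ^ d := by
  unfold box
  rw [Pi.card_Icc]
  simp only [Int.card_Icc, Finset.prod_const, Finset.card_univ, Fintype.card_fin]
  congr 1
  omega

theorem tendsto_exp_quad (c : ℝ) {c' : ℝ} (hc' : 0 < c') :
    Tendsto (fun q : ℕ => Real.exp (c * q - c' * (q : ℝ) ^ 2)) atTop (𝓝 0) := by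
  refine Real.tendsto_exp_atBot.comp ?_
  have h1 : Tendsto (fun q : ℕ => (q : ℝ) * (c - c' * q)) atTop atBot := by
    refine Tendsto.atTop_mul_atBot₀ tendsto_natCast_atTop_atTop ?_
    refine tendsto_atBot_add_const_left _ c ?_ |>.congr fun q => (sub_eq_add_neg _ _).symm
    exact tendsto_neg_atTop_atBot.comp
      (Tendsto.const_mul_atTop hc' tendsto_natCast_atTop_atTop)
  refine h1.congr fun q => ?_
  ring

theorem tendsto_pow_exp (c : ℝ) (k : ℕ) :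
    Tendsto (fun u : ℕ => c * ((u : ℝ) ^ k * Real.exp (-u))) atTop (𝓝 0) := by
  have h1 := (Real.tendsto_pow_mul_exp_neg_atTop_nhds_zero k).comp tendsto_natCast_atTop_atTop
  have h2 := h1.const_mul c
  rw [mul_zero] at h2
  exact h2

theorem le_exp_self (x : ℝ) : x ≤ Real.exp x := by
  have := Real.add_one_le_exp x
  linarith

theorem le_exp_mul {x q : ℝ} (hx : 0 ≤ x) (hq : 1 ≤ q) : x ≤ Real.exp (x * q) := by
  refine (le_exp_self x).trans (Real.exp_le_exp.2 ?_)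
  nlinarith

theorem pow_le_exp {q : ℝ} (hq : 0 ≤ q) (k : ℕ) : q ^ k ≤ Real.exp (k * q) := by
  rw [Real.exp_nat_mul]
  exact pow_le_pow_left₀ hq (le_exp_self q) k

theorem two_pow_le_exp (q : ℕ) : (2 : ℝ) ^ q ≤ Real.exp q := by
  have h1 : (2 : ℝ) ≤ Real.exp 1 := by
    have := Real.add_one_le_exp (1 : ℝ)
    linarith
  calc (2 : ℝ) ^ q ≤ Real.exp 1 ^ q := pow_le_pow_left₀ (by norm_num) h1 q
    _ = Real.exp q := by rw [← Real.exp_nat_mul, mul_one]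

/-- number of steps in a window -/
noncomputable def Jf (D : ℕ) (a η : ℝ) (q : ℕ) : ℕ := ⌈((D * ((q : ℝ) ^ 2 * a)) ^ 2 + 1) / η⌉₊

theorem Jf_le (D : ℕ) {a η : ℝ} (hη : 0 < η) {q : ℕ} (hq : 1 ≤ q) :
    (Jf D a η q : ℝ) ≤ ((D ^ 2 * a ^ 2 + 1) / η + 1) * (q : ℝ) ^ 4 := by
  have hqR : (1 : ℝ) ≤ q := by exact_mod_cast hq
  have h4 : (1 : ℝ) ≤ (q : ℝ) ^ 4 := one_le_pow₀ hqR
  have h1 : (Jf D a η q : ℝ) < ((D * ((q : ℝ) ^ 2 * a)) ^ 2 + 1) / η + 1 :=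
    Nat.ceil_lt_add_one (by positivity)
  have h2 : ((D * ((q : ℝ) ^ 2 * a)) ^ 2 + 1) / η ≤ (D ^ 2 * a ^ 2 + 1) / η * (q : ℝ) ^ 4 := by
    rw [div_mul_eq_mul_div]
    apply div_le_div_of_nonneg_right _ hη.le
    have : (D * ((q : ℝ) ^ 2 * a)) ^ 2 = D ^ 2 * a ^ 2 * (q : ℝ) ^ 4 := by ring
    rw [this]
    nlinarith
  nlinarith

theorem le_Jf (D : ℕ) {a η : ℝ} (hη : 0 < η) (q : ℕ) :
    (D * (((q ^ 2 : ℕ) : ℝ) * a)) ^ 2 + 1 ≤ Jf D a η q * η := by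
  have h1 : ((D * ((q : ℝ) ^ 2 * a)) ^ 2 + 1) / η ≤ Jf D a η q := Nat.le_ceil _
  rw [div_le_iff₀ hη] at h1
  push_cast
  exact h1

theorem box_bound (d D Nq : ℕ) {a η : ℝ} (hη : 0 < η) {q : ℕ} (hq : 1 ≤ q) :
    ((box d (2 ^ q * (Jf D a η q * q ^ 4) + Nq)).card : ℝ) ≤
      Real.exp (d * (2 * ((D ^ 2 * a ^ 2 + 1) / η + 1) + 2 * Nq + 10) * q) := by
  have hqR : (1 : ℝ) ≤ q := by exact_mod_cast hq
  set cJ : ℝ := (D ^ 2 * a ^ 2 + 1) / η + 1 with hcJ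
  have hcJ0 : 0 ≤ cJ := by rw [hcJ]; positivity
  have hJ := Jf_le D (a := a) hη hq
  rw [← hcJ] at hJ
  rw [box_card]
  push_cast
  have h8 : (1 : ℝ) ≤ (q : ℝ) ^ 8 := one_le_pow₀ hqR
  have h2q : (1 : ℝ) ≤ (2 : ℝ) ^ q := one_le_pow₀ (by norm_num)
  have h28 : (1 : ℝ) ≤ (2 : ℝ) ^ q * (q : ℝ) ^ 8 := one_le_mul_of_one_le_of_one_le h2q h8
  have h1 : 2 * ((2 : ℝ) ^ q * (Jf D a η q * (q : ℝ) ^ 4) + Nq) + 1 ≤
      (2 * cJ + 2 * Nq + 1) * ((2 : ℝ) ^ q * (q : ℝ) ^ 8) := by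
    have e1 : (Jf D a η q : ℝ) * (q : ℝ) ^ 4 ≤ cJ * (q : ℝ) ^ 8 := by
      have := mul_le_mul_of_nonneg_right hJ (show (0 : ℝ) ≤ (q : ℝ) ^ 4 by positivity)
      calc (Jf D a η q : ℝ) * (q : ℝ) ^ 4 ≤ cJ * (q : ℝ) ^ 4 * (q : ℝ) ^ 4 := this
        _ = cJ * (q : ℝ) ^ 8 := by ring
    have e2 : (2 : ℝ) ^ q * (Jf D a η q * (q : ℝ) ^ 4) ≤ (2 : ℝ) ^ q * (cJ * (q : ℝ) ^ 8) :=
      mul_le_mul_of_nonneg_left e1 (by positivity)
    have e3 : (2 * (Nq : ℝ) + 1) * 1 ≤ (2 * (Nq : ℝ) + 1) * ((2 : ℝ) ^ q * (q : ℝ) ^ 8) :=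
      mul_le_mul_of_nonneg_left h28 (by positivity)
    nlinarith
  have h2 : (2 * cJ + 2 * Nq + 1) * ((2 : ℝ) ^ q * (q : ℝ) ^ 8) ≤
      Real.exp ((2 * cJ + 2 * Nq + 10) * q) := by
    have e1 : 2 * cJ + 2 * Nq + 1 ≤ Real.exp ((2 * cJ + 2 * Nq + 1) * q) :=
      le_exp_mul (by positivity) hqR
    have e2 := two_pow_le_exp q
    have e3 := pow_le_exp (show (0 : ℝ) ≤ q by positivity) 8
    calc (2 * cJ + 2 * Nq + 1) * ((2 : ℝ) ^ q * (q : ℝ) ^ 8)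
        ≤ Real.exp ((2 * cJ + 2 * Nq + 1) * q) * (Real.exp q * Real.exp ((8 : ℕ) * q)) := by
          gcongr
      _ = Real.exp ((2 * cJ + 2 * Nq + 10) * q) := by
          rw [← Real.exp_add, ← Real.exp_add]
          congr 1; push_cast; ring
  calc (2 * ((2 : ℝ) ^ q * (Jf D a η q * (q : ℝ) ^ 4) + Nq) + 1) ^ d
      ≤ (Real.exp ((2 * cJ + 2 * Nq + 10) * q)) ^ d :=
        pow_le_pow_left₀ (by positivity) (h1.trans h2) d
    _ = Real.exp (d * (2 * cJ + 2 * Nq + 10) * q) := by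
        rw [← Real.exp_nat_mul]; congr 1; ring

theorem box_mono_card (d : ℕ) {m n : ℕ} (h : m ≤ n) : (box d m).card ≤ (box d n).card := by
  rw [box_card, box_card]
  exact Nat.pow_le_pow_left (by omega) d

/-- the density term -/
theorem term2_le (d : ℕ) (hd : 1 ≤ d) (D Nq : ℕ) {a η β c2 : ℝ} (ha : 0 < a) (hη : 0 < η)
    (hβ : 0 ≤ β) (hc2 : 0 < c2) {q : ℕ} (hq : 1 ≤ q) :
    (2 : ℝ) ^ q * ((box d (2 ^ q * (Jf D a η q * q ^ 4) + Nq)).card *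
      Real.exp (β - c2 * (((q ^ 2 : ℕ) : ℝ) * a) ^ d)) ≤
    Real.exp ((1 + d * (2 * ((D ^ 2 * a ^ 2 + 1) / η + 1) + 2 * Nq + 10) + β) * q -
      (c2 * a ^ d) * (q : ℝ) ^ 2) := by
  have hqR : (1 : ℝ) ≤ q := by exact_mod_cast hq
  have h1 := two_pow_le_exp q
  have h2 := box_bound d D Nq (a := a) hη hq
  have h3 : Real.exp (β - c2 * (((q ^ 2 : ℕ) : ℝ) * a) ^ d) ≤
      Real.exp (β * q - (c2 * a ^ d) * (q : ℝ) ^ 2) := by
    apply Real.exp_le_exp.2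
    have e1 : β ≤ β * q := by nlinarith
    have e2 : (q : ℝ) ^ 2 ≤ ((q : ℝ) ^ 2) ^ d := by
      have : (1 : ℝ) ≤ (q : ℝ) ^ 2 := one_le_pow₀ hqR
      calc (q : ℝ) ^ 2 = ((q : ℝ) ^ 2) ^ 1 := by ring
        _ ≤ ((q : ℝ) ^ 2) ^ d := pow_le_pow_right₀ this hd
    have e3 : c2 * (((q ^ 2 : ℕ) : ℝ) * a) ^ d = (c2 * a ^ d) * ((q : ℝ) ^ 2) ^ d := by
      push_cast; rw [mul_pow]; ring
    rw [e3]
    have e4 : 0 ≤ c2 * a ^ d := by positivity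
    have := mul_le_mul_of_nonneg_left e2 e4
    linarith
  calc (2 : ℝ) ^ q * ((box d (2 ^ q * (Jf D a η q * q ^ 4) + Nq)).card *
      Real.exp (β - c2 * (((q ^ 2 : ℕ) : ℝ) * a) ^ d))
      ≤ Real.exp q * (Real.exp (d * (2 * ((D ^ 2 * a ^ 2 + 1) / η + 1) + 2 * Nq + 10) * q) *
        Real.exp (β * q - (c2 * a ^ d) * (q : ℝ) ^ 2)) := by gcongr
    _ = _ := by
        rw [← Real.exp_add, ← Real.exp_add]
        congr 1; ring

/-- the slow term -/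
theorem term3_le (d : ℕ) (D : ℕ) {a η C : ℝ} (hη : 0 < η) (hC : 0 ≤ C) {q : ℕ} (hq : 1 ≤ q) :
    (2 : ℝ) ^ q * (Jf D a η q * ((box d (2 ^ q * (Jf D a η q * q ^ 4))).card *
      (C * Real.exp (-Real.sqrt ((q ^ 4 : ℕ) : ℝ))))) ≤
    Real.exp ((1 + (((D ^ 2 * a ^ 2 + 1) / η + 1) + 4) +
      d * (2 * ((D ^ 2 * a ^ 2 + 1) / η + 1) + 2 * (0 : ℕ) + 10) + C) * q -
      1 * (q : ℝ) ^ 2) := by
  have hqR : (1 : ℝ) ≤ q := by exact_mod_cast hq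
  have h1 := two_pow_le_exp q
  have h2 := box_bound d D 0 (a := a) hη hq
  rw [add_zero] at h2
  have h3 : (Jf D a η q : ℝ) ≤ Real.exp ((((D ^ 2 * a ^ 2 + 1) / η + 1) + 4) * q) := by
    refine (Jf_le D hη hq).trans ?_
    have e1 : (D ^ 2 * a ^ 2 + 1) / η + 1 ≤ Real.exp (((D ^ 2 * a ^ 2 + 1) / η + 1) * q) :=
      le_exp_mul (by positivity) hqR
    have e2 := pow_le_exp (show (0 : ℝ) ≤ q by positivity) 4
    calc ((D ^ 2 * a ^ 2 + 1) / η + 1) * (q : ℝ) ^ 4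
        ≤ Real.exp (((D ^ 2 * a ^ 2 + 1) / η + 1) * q) * Real.exp ((4 : ℕ) * q) := by gcongr
      _ = _ := by rw [← Real.exp_add]; congr 1; push_cast; ring
  have h4 : C ≤ Real.exp (C * q) := le_exp_mul hC hqR
  have h5 : Real.sqrt ((q ^ 4 : ℕ) : ℝ) = (q : ℝ) ^ 2 := by
    have : ((q ^ 4 : ℕ) : ℝ) = ((q : ℝ) ^ 2) ^ 2 := by push_cast; ring
    rw [this, Real.sqrt_sq (by positivity)]
  rw [h5]
  calc (2 : ℝ) ^ q * (Jf D a η q * ((box d (2 ^ q * (Jf D a η q * q ^ 4))).card *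
      (C * Real.exp (-(q : ℝ) ^ 2))))
      ≤ Real.exp q * (Real.exp ((((D ^ 2 * a ^ 2 + 1) / η + 1) + 4) * q) *
        (Real.exp (d * (2 * ((D ^ 2 * a ^ 2 + 1) / η + 1) + 2 * (0 : ℕ) + 10) * q) *
          (Real.exp (C * q) * Real.exp (-(q : ℝ) ^ 2)))) := by gcongr
    _ = _ := by
        rw [← Real.exp_add, ← Real.exp_add, ← Real.exp_add, ← Real.exp_add]
        congr 1; ring

/-- number of sites near the target -/
theorem box_LK (d K : ℕ) {L : ℕ} (hL : 1 ≤ L) :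
    ((box d (L + K)).card : ℝ) ≤ (2 * K + 3) ^ d * (L : ℝ) ^ d := by
  rw [box_card]
  push_cast
  rw [← mul_pow]
  have hLR : (1 : ℝ) ≤ L := by exact_mod_cast hL
  have hK0 : (0 : ℝ) ≤ K := by positivity
  refine pow_le_pow_left₀ (by positivity) ?_ d
  nlinarith

end Pool.Agent.F368
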