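import Pool.Agent.F368.Asymp

/-!
Choice of the parameters: conclusion.
-/

open Filter Topology

namespace Pool.Agent.F368

theorem part1_le (d D : ℕ) {a η C : ℝ} (hη : 0 < η) (hC : 0 ≤ C) {u : ℕ} (hu : 1 ≤ u) :
    ((box d (Jf D a η ((u ^ 2) ^ (d + 3)) * ((u ^ 2) ^ (d + 3)) ^ 4)).card : ℝ) *
      (C * Real.exp (-Real.sqrt ((u ^ 2 : ℕ) : ℝ))) ≤
    (2 * ((D ^ 2 * a ^ 2 + 1) / η + 1) + 1) ^ d * C *
      ((u : ℝ) ^ (2 * (d + 3) * 8 * d) * Real.exp (-u)) := by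
  set q : ℕ := (u ^ 2) ^ (d + 3) with hq
  have hq1 : 1 ≤ q := Nat.one_le_pow _ _ (Nat.pos_of_ne_zero (by positivity))
  have hqR : (1 : ℝ) ≤ q := by exact_mod_cast hq1
  set cJ : ℝ := (D ^ 2 * a ^ 2 + 1) / η + 1 with hcJ
  have hcJ0 : 0 ≤ cJ := by rw [hcJ]; positivity
  have hJ := Jf_le D (a := a) hη hq1
  rw [← hcJ] at hJ
  have h5 : Real.sqrt ((u ^ 2 : ℕ) : ℝ) = u := by
    push_cast
    rw [Real.sqrt_sq (by positivity)]
  have h6 : ((box d (Jf D a η q * q ^ 4)).card : ℝ) ≤ ((2 * cJ + 1) * (q : ℝ) ^ 8) ^ d := by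
    rw [box_card]
    push_cast
    refine pow_le_pow_left₀ (by positivity) ?_ d
    have h8 : (1 : ℝ) ≤ (q : ℝ) ^ 8 := one_le_pow₀ hqR
    have e1 : (Jf D a η q : ℝ) * (q : ℝ) ^ 4 ≤ cJ * (q : ℝ) ^ 8 := by
      have := mul_le_mul_of_nonneg_right hJ (show (0 : ℝ) ≤ (q : ℝ) ^ 4 by positivity)
      calc (Jf D a η q : ℝ) * (q : ℝ) ^ 4 ≤ cJ * (q : ℝ) ^ 4 * (q : ℝ) ^ 4 := this
        _ = cJ * (q : ℝ) ^ 8 := by ring
    nlinarith
  have h7 : ((2 * cJ + 1) * (q : ℝ) ^ 8) ^ d =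
      (2 * cJ + 1) ^ d * (u : ℝ) ^ (2 * (d + 3) * 8 * d) := by
    rw [mul_pow, hq]
    push_cast
    rw [← pow_mul, ← pow_mul, ← pow_mul]
    congr 2
    ring
  rw [h5]
  calc ((box d (Jf D a η q * q ^ 4)).card : ℝ) * (C * Real.exp (-u))
      ≤ ((2 * cJ + 1) ^ d * (u : ℝ) ^ (2 * (d + 3) * 8 * d)) * (C * Real.exp (-u)) := by
        rw [← h7]
        exact mul_le_mul_of_nonneg_right h6 (by positivity)
    _ = _ := by ring

theorem part2_le (d : ℕ) (hd : 1 ≤ d) (D K : ℕ) {a η A ε1 : ℝ} (hη : 0 < η) (hA : 0 ≤ A)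
    (hε1 : 0 < ε1) {L : ℕ} (hL : 1 ≤ L) :
    ((box d (Jf D a η (L ^ (d + 3)) * (L ^ (d + 3)) ^ 4)).card : ℝ) *
      (Real.exp (A * (box d (L + K)).card) /
        2 ^ (⌊ε1 * ((((L ^ (d + 3)) ^ 2 : ℕ) : ℝ)) ^ d⌋₊ + 1)) ≤
    Real.exp ((d * (2 * ((D ^ 2 * a ^ 2 + 1) / η + 1) + 2 * (0 : ℕ) + 10) +
      A * (2 * K + 3) ^ d) * (L ^ (d + 3) : ℕ) -
      (ε1 * Real.log 2) * ((L ^ (d + 3) : ℕ) : ℝ) ^ 2) := by
  set q : ℕ := L ^ (d + 3) with hq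
  have hq1 : 1 ≤ q := Nat.one_le_pow _ _ hL
  have hqR : (1 : ℝ) ≤ q := by exact_mod_cast hq1
  have hlog : 0 < Real.log 2 := Real.log_pos (by norm_num)
  have h1 : ((box d (Jf D a η q * q ^ 4)).card : ℝ) ≤
      Real.exp (d * (2 * ((D ^ 2 * a ^ 2 + 1) / η + 1) + 2 * (0 : ℕ) + 10) * q) := by
    refine le_trans ?_ (box_bound d D 0 (a := a) hη hq1)
    rw [add_zero]
    have : Jf D a η q * q ^ 4 ≤ 2 ^ q * (Jf D a η q * q ^ 4) :=
      Nat.le_mul_of_pos_left _ (by positivity)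
    exact_mod_cast box_mono_card d this
  have h2 : A * ((box d (L + K)).card : ℝ) ≤ A * (2 * K + 3) ^ d * q := by
    have e1 := box_LK d K hL
    have e2 : (L : ℝ) ^ d ≤ q := by
      rw [hq]
      exact_mod_cast Nat.pow_le_pow_right hL (by omega)
    have e3 : ((box d (L + K)).card : ℝ) ≤ (2 * K + 3) ^ d * q :=
      e1.trans (mul_le_mul_of_nonneg_left e2 (by positivity))
    calc A * ((box d (L + K)).card : ℝ) ≤ A * ((2 * K + 3) ^ d * q) :=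
          mul_le_mul_of_nonneg_left e3 hA
      _ = _ := by ring
  have h3 : Real.exp ((ε1 * Real.log 2) * (q : ℝ) ^ 2) ≤
      (2 : ℝ) ^ (⌊ε1 * (((q ^ 2 : ℕ) : ℝ)) ^ d⌋₊ + 1) := by
    have e1 : ε1 * (((q ^ 2 : ℕ) : ℝ)) ^ d < (⌊ε1 * (((q ^ 2 : ℕ) : ℝ)) ^ d⌋₊ + 1 : ℕ) := by
      push_cast
      exact Nat.lt_floor_add_one _
    have e2 : (q : ℝ) ^ 2 ≤ (((q ^ 2 : ℕ) : ℝ)) ^ d := by
      push_cast
      have : (1 : ℝ) ≤ (q : ℝ) ^ 2 := one_le_pow₀ hqR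
      calc (q : ℝ) ^ 2 = ((q : ℝ) ^ 2) ^ 1 := by ring
        _ ≤ ((q : ℝ) ^ 2) ^ d := pow_le_pow_right₀ this hd
    set k : ℕ := ⌊ε1 * (((q ^ 2 : ℕ) : ℝ)) ^ d⌋₊ + 1 with hk
    have e3 : (2 : ℝ) ^ k = Real.exp (k * Real.log 2) := by
      rw [Real.exp_nat_mul, Real.exp_log (by norm_num)]
    rw [e3]
    apply Real.exp_le_exp.2
    have e4 : ε1 * (q : ℝ) ^ 2 ≤ k := (mul_le_mul_of_nonneg_left e2 hε1.le).trans e1.le
    have := mul_le_mul_of_nonneg_right e4 hlog.le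
    linarith
  have h4 : Real.exp (A * (box d (L + K)).card) /
        2 ^ (⌊ε1 * (((q ^ 2 : ℕ) : ℝ)) ^ d⌋₊ + 1) ≤
      Real.exp (A * (2 * K + 3) ^ d * q) / Real.exp ((ε1 * Real.log 2) * (q : ℝ) ^ 2) :=
    div_le_div₀ (Real.exp_pos _).le (Real.exp_le_exp.2 h2) (Real.exp_pos _) h3
  refine (mul_le_mul h1 h4 (by positivity) (Real.exp_pos _).le).trans (le_of_eq ?_)
  rw [← Real.exp_sub, ← Real.exp_add]
  congr 1
  ring

theorem term1_le (d K : ℕ) {a ck : ℝ} (ha : 0 < a) (hck : 0 ≤ ck) {L : ℕ} (hL : 1 ≤ L) :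
    (1 - Real.exp (-(ck * (1 + (Real.sqrt d * (a * (((L + K : ℕ) : ℝ) + 1))) ^ 2) *
      (box d (L + K)).card)) / 2) ^ (2 ^ (L ^ (d + 3))) ≤
    Real.exp (-(1 / 2 * (L * Real.log 2 -
      ck * (1 + d * a ^ 2 * (K + 2) ^ 2) * (2 * K + 3) ^ d))) := by
  set q : ℕ := L ^ (d + 3) with hq
  have hLR : (1 : ℝ) ≤ L := by exact_mod_cast hL
  set x : ℝ := ck * (1 + (Real.sqrt d * (a * (((L + K : ℕ) : ℝ) + 1))) ^ 2) *
      (box d (L + K)).card with hx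
  set c5 : ℝ := ck * (1 + d * a ^ 2 * (K + 2) ^ 2) * (2 * K + 3) ^ d with hc5
  have hx0 : 0 ≤ x := by rw [hx]; positivity
  have hc50 : 0 ≤ c5 := by rw [hc5]; positivity
  have hxle : x ≤ c5 * (L : ℝ) ^ (d + 2) := by
    have e1 := box_LK d K hL
    have e2 : 1 + (Real.sqrt d * (a * (((L + K : ℕ) : ℝ) + 1))) ^ 2 ≤
        (1 + d * a ^ 2 * (K + 2) ^ 2) * (L : ℝ) ^ 2 := by
      have e3 : (Real.sqrt d * (a * (((L + K : ℕ) : ℝ) + 1))) ^ 2 =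
          d * a ^ 2 * (((L + K : ℕ) : ℝ) + 1) ^ 2 := by
        rw [mul_pow, Real.sq_sqrt (by positivity)]; ring
      rw [e3]
      have e4 : (((L + K : ℕ) : ℝ) + 1) ≤ (K + 2) * L := by
        push_cast
        have : (0 : ℝ) ≤ K := by positivity
        nlinarith
      have e5 : (((L + K : ℕ) : ℝ) + 1) ^ 2 ≤ ((K + 2) * (L : ℝ)) ^ 2 :=
        pow_le_pow_left₀ (by positivity) e4 2
      have e6 : (0 : ℝ) ≤ d * a ^ 2 := by positivity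
      have e7 := mul_le_mul_of_nonneg_left e5 e6
      have e8 : (1 : ℝ) ≤ (L : ℝ) ^ 2 := one_le_pow₀ hLR
      calc 1 + d * a ^ 2 * (((L + K : ℕ) : ℝ) + 1) ^ 2
          ≤ (L : ℝ) ^ 2 + d * a ^ 2 * ((K + 2) * (L : ℝ)) ^ 2 := add_le_add e8 e7
        _ = _ := by ring
    calc x ≤ ck * ((1 + d * a ^ 2 * (K + 2) ^ 2) * (L : ℝ) ^ 2) *
          ((2 * K + 3) ^ d * (L : ℝ) ^ d) := by
          rw [hx]
          gcongr
      _ = c5 * (L : ℝ) ^ (d + 2) := by rw [hc5]; ring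
  set κ : ℝ := Real.exp (-x) with hκ
  have hκ0 : 0 < κ := Real.exp_pos _
  have hκ1 : κ ≤ 1 := Real.exp_le_one_iff.2 (by linarith)
  have h1 : (1 - κ / 2) ^ (2 ^ q) ≤ Real.exp (-(2 ^ q * (κ / 2))) := by
    have e1 : 1 - κ / 2 ≤ Real.exp (-(κ / 2)) := by
      have := Real.add_one_le_exp (-(κ / 2))
      linarith
    calc (1 - κ / 2) ^ (2 ^ q) ≤ (Real.exp (-(κ / 2))) ^ (2 ^ q) :=
          pow_le_pow_left₀ (by linarith) e1 _
      _ = Real.exp (-(2 ^ q * (κ / 2))) := by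
          rw [← Real.exp_nat_mul]; congr 1; push_cast; ring
  refine h1.trans (Real.exp_le_exp.2 (neg_le_neg ?_))
  have h2 : (2 : ℝ) ^ q * (κ / 2) = 1 / 2 * Real.exp (q * Real.log 2 - x) := by
    rw [Real.exp_sub, Real.exp_nat_mul, Real.exp_log (by norm_num), hκ, Real.exp_neg]
    ring
  rw [h2]
  apply mul_le_mul_of_nonneg_left _ (by norm_num)
  by_cases hpos : L * Real.log 2 - c5 ≤ 0
  · exact hpos.trans (Real.exp_pos _).le
  · push Not at hpos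
    refine (le_exp_self _).trans (Real.exp_le_exp.2 ?_)
    have e1 : (1 : ℝ) ≤ (L : ℝ) ^ (d + 2) := one_le_pow₀ hLR
    have e2 : (q : ℝ) * Real.log 2 - c5 * (L : ℝ) ^ (d + 2) =
        (L : ℝ) ^ (d + 2) * (L * Real.log 2 - c5) := by
      rw [hq]; push_cast; ring
    have e3 : L * Real.log 2 - c5 ≤ (L : ℝ) ^ (d + 2) * (L * Real.log 2 - c5) := by
      nlinarith
    linarith

theorem asymp (d : ℕ) (hd : 1 ≤ d) (K D Nq : ℕ) {a η ck β c2 C ε1 A : ℝ} (ha : 0 < a)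
    (hη : 0 < η) (hck : 0 ≤ ck) (hβ : 0 ≤ β) (hc2 : 0 < c2) (hC : 0 ≤ C) (hε1 : 0 < ε1)
    (hA : 0 ≤ A) {ε : ℝ} (hε : 0 < ε) :
    ∃ L q J : ℕ, 0 < q ∧ L + K ≤ q ^ 2 ∧ (D * (((q ^ 2 : ℕ) : ℝ) * a)) ^ 2 + 1 ≤ J * η ∧
      ((box d (J * q ^ 4)).card : ℝ) * (C * Real.exp (-Real.sqrt L) +
        Real.exp (A * (box d (L + K)).card) /
          2 ^ (⌊ε1 * (((q ^ 2 : ℕ) : ℝ)) ^ d⌋₊ + 1)) ≤ 1 / 2 ∧
      (1 - Real.exp (-(ck * (1 + (Real.sqrt d * (a * (((L + K : ℕ) : ℝ) + 1))) ^ 2) *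
        (box d (L + K)).card)) / 2) ^ (2 ^ q) +
      (2 : ℝ) ^ q * ((box d (2 ^ q * (J * q ^ 4) + Nq)).card *
        Real.exp (β - c2 * (((q ^ 2 : ℕ) : ℝ) * a) ^ d)) +
      (2 : ℝ) ^ q * (J * ((box d (2 ^ q * (J * q ^ 4))).card *
        (C * Real.exp (-Real.sqrt ((q ^ 4 : ℕ) : ℝ))))) ≤ ε := by
  have hlog : 0 < Real.log 2 := Real.log_pos (by norm_num)
  set qf : ℕ → ℕ := fun u => (u ^ 2) ^ (d + 3) with hqf
  have hu2 : Tendsto (fun u : ℕ => u ^ 2) atTop atTop := tendsto_pow_atTop (by norm_num)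
  have hq : Tendsto qf atTop atTop :=
    (tendsto_pow_atTop (show d + 3 ≠ 0 by omega)).comp hu2
  have t1 : Tendsto (fun u : ℕ => Real.exp (-(1 / 2 * (((u ^ 2 : ℕ) : ℝ) * Real.log 2 -
      ck * (1 + d * a ^ 2 * (K + 2) ^ 2) * (2 * K + 3) ^ d)))) atTop (𝓝 0) := by
    refine Real.tendsto_exp_atBot.comp (tendsto_neg_atTop_atBot.comp ?_)
    refine Tendsto.const_mul_atTop (by norm_num) ?_
    refine tendsto_atTop_add_const_right _ _ ?_ |>.congr fun u => (sub_eq_add_neg _ _).symm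
    exact Tendsto.atTop_mul_const hlog (tendsto_natCast_atTop_atTop.comp hu2)
  have t2 := (tendsto_exp_quad (1 + d * (2 * ((D ^ 2 * a ^ 2 + 1) / η + 1) + 2 * Nq + 10) + β)
    (show 0 < c2 * a ^ d by positivity)).comp hq
  have t3 := (tendsto_exp_quad (1 + (((D ^ 2 * a ^ 2 + 1) / η + 1) + 4) +
      d * (2 * ((D ^ 2 * a ^ 2 + 1) / η + 1) + 2 * (0 : ℕ) + 10) + C)
    (show (0 : ℝ) < 1 by norm_num)).comp hq
  have t4 := tendsto_pow_exp ((2 * ((D ^ 2 * a ^ 2 + 1) / η + 1) + 1) ^ d * C)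
    (2 * (d + 3) * 8 * d)
  have t5 := (tendsto_exp_quad (d * (2 * ((D ^ 2 * a ^ 2 + 1) / η + 1) + 2 * (0 : ℕ) + 10) +
      A * (2 * K + 3) ^ d) (show 0 < ε1 * Real.log 2 by positivity)).comp hq
  have t123 := (t1.add t2).add t3
  have t45 := t4.add t5
  rw [add_zero, add_zero] at t123
  rw [add_zero] at t45
  have ev1 := t123.eventually (gt_mem_nhds hε)
  have ev2 := t45.eventually (gt_mem_nhds (show (0 : ℝ) < 1 / 2 by norm_num))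
  have ev3 := eventually_ge_atTop (max 1 (K + 1))
  obtain ⟨u, h1, h2, h3⟩ := (ev1.and (ev2.and ev3)).exists
  have hu1 : 1 ≤ u := (le_max_left _ _).trans h3
  have huK : K + 1 ≤ u := (le_max_right _ _).trans h3
  have hL : 1 ≤ u ^ 2 := Nat.one_le_pow _ _ hu1
  have hq1 : 1 ≤ qf u := Nat.one_le_pow _ _ hL
  have hqu : u ^ 2 ≤ qf u := by
    simp only [hqf]
    calc u ^ 2 = (u ^ 2) ^ 1 := (pow_one _).symm
      _ ≤ (u ^ 2) ^ (d + 3) := Nat.pow_le_pow_right hL (by omega)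
  refine ⟨u ^ 2, qf u, Jf D a η (qf u), hq1, ?_, le_Jf D hη (qf u), ?_, ?_⟩
  · have e1 : u ≤ u ^ 2 := by nlinarith
    have e2 : 2 ≤ u ^ 2 ∨ u = 1 := by
      rcases Nat.lt_or_ge u 2 with h | h
      · right; omega
      · left; nlinarith
    rcases e2 with e2 | e2
    · have e3 : (u ^ 2) * 2 ≤ qf u * qf u := Nat.mul_le_mul hqu (e2.trans hqu)
      nlinarith
    · have e4 : K = 0 := by omega
      subst e4
      rw [e2]
      have : 1 ≤ qf 1 ^ 2 := Nat.one_le_pow _ _ (by rw [e2] at hq1; exact hq1)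
      simpa using this
  · have e1 := part1_le d D (a := a) hη hC hu1
    have e2 := part2_le d hd D K (a := a) hη hA hε1 hL
    rw [mul_add]
    simp only [Function.comp] at h2
    have e3 : ((box d (Jf D a η (qf u) * (qf u) ^ 4)).card : ℝ) *
      (C * Real.exp (-Real.sqrt ((u ^ 2 : ℕ) : ℝ))) ≤ _ := e1
    have e4 : ((box d (Jf D a η (qf u) * (qf u) ^ 4)).card : ℝ) *
      (Real.exp (A * (box d (u ^ 2 + K)).card) /
        2 ^ (⌊ε1 * ((((qf u) ^ 2 : ℕ) : ℝ)) ^ d⌋₊ + 1)) ≤ _ := e2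
    exact (add_le_add e3 e4).trans h2.le
  · have e1 := term1_le d K ha hck hL
    have e2 := term2_le d hd D Nq ha hη hβ hc2 hq1
    have e3 := term3_le d D (a := a) hη hC hq1
    simp only [Function.comp] at h1
    exact (add_le_add (add_le_add e1 e2) e3).trans h1.le

end Pool.Agent.F368
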