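import Pool.Agent.F368.Explore

/-!
A random set of sites whose void probabilities are `(1-p)^|J|` is a Bernoulli(p) random set.
-/

open MeasureTheory ProbabilityTheory Finset
open scoped ENNReal NNReal

namespace Pool.Agent.F368

section

variable {Ω : Type*} [MeasurableSpace Ω] {P : Measure Ω} [IsProbabilityMeasure P]
variable {ι : Type*} [DecidableEq ι]

open Classical in
theorem bits_law {O : Ω → Set ι} (hO : ∀ c, MeasurableSet {ω | c ∈ O ω}) {p : ℝ}
    (hvoid : ∀ J : Finset ι, P.real {ω | ∀ c ∈ J, c ∉ O ω} = (1 - p) ^ J.card)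
    (F : Finset ι) : ∀ (J s : Finset ι), Disjoint J F → s ⊆ F →
    P.real {ω | (∀ c ∈ J, c ∉ O ω) ∧ F.filter (fun c => c ∈ O ω) = s} =
      (1 - p) ^ J.card * (p ^ s.card * (1 - p) ^ (F \ s).card) := by
  have hmJ : ∀ J : Finset ι, MeasurableSet {ω | ∀ c ∈ J, c ∉ O ω} := by
    intro J
    have : {ω | ∀ c ∈ J, c ∉ O ω} = ⋂ c ∈ J, {ω | c ∈ O ω}ᶜ := by
      ext ω; simp
    rw [this]
    exact Finset.measurableSet_biInter _ fun c _ => (hO c).compl
  have hmF : ∀ F s : Finset ι, MeasurableSet {ω | F.filter (fun c => c ∈ O ω) = s} := by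
    intro F s
    by_cases hs : s ⊆ F
    · have : {ω | F.filter (fun c => c ∈ O ω) = s} =
          (⋂ c ∈ s, {ω | c ∈ O ω}) ∩ (⋂ c ∈ F \ s, {ω | c ∈ O ω}ᶜ) := by
        ext ω
        simp only [Set.mem_setOf_eq, Set.mem_inter_iff, Set.mem_iInter, Set.mem_compl_iff,
          Finset.mem_sdiff]
        constructor
        · rintro rfl
          refine ⟨fun c hc => (Finset.mem_filter.1 hc).2, fun c hc hcO => ?_⟩
          exact hc.2 (Finset.mem_filter.2 ⟨hc.1, hcO⟩)
        · rintro ⟨h1, h2⟩
          ext c
          rw [Finset.mem_filter]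
          constructor
          · rintro ⟨h3, h4⟩
            by_contra h5
            exact h2 c ⟨h3, h5⟩ h4
          · intro h3; exact ⟨hs h3, h1 c h3⟩
      rw [this]
      exact (Finset.measurableSet_biInter _ fun c _ => hO c).inter
        (Finset.measurableSet_biInter _ fun c _ => (hO c).compl)
    · have : {ω | F.filter (fun c => c ∈ O ω) = s} = ∅ := by
        ext ω
        simp only [Set.mem_setOf_eq, Set.mem_empty_iff_false, iff_false]
        rintro rfl
        exact hs (Finset.filter_subset _ _)
      rw [this]; exact MeasurableSet.empty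
  induction F using Finset.induction_on with
  | empty =>
    intro J s _ hs
    rw [Finset.subset_empty.1 hs]
    simp only [Finset.filter_empty, and_true, Finset.card_empty, pow_zero, Finset.sdiff_self,
      mul_one]
    exact hvoid J
  | insert i F hi ih =>
    intro J s hJ hs
    have hiJ : i ∉ J := fun h => (Finset.disjoint_left.1 hJ h) (Finset.mem_insert_self i F)
    have hJF : Disjoint J F := hJ.mono_right (Finset.subset_insert i F)
    have hJiF : Disjoint (insert i J) F := Finset.disjoint_insert_left.2 ⟨hi, hJF⟩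
    by_cases his : i ∈ s
    · have hsF : s.erase i ⊆ F := by
        intro x hx
        have h1 := Finset.mem_erase.1 hx
        exact (Finset.mem_insert.1 (hs h1.2)).resolve_left h1.1
      have e : {ω | (∀ c ∈ J, c ∉ O ω) ∧ (insert i F).filter (fun c => c ∈ O ω) = s} =
          {ω | (∀ c ∈ J, c ∉ O ω) ∧ F.filter (fun c => c ∈ O ω) = s.erase i} \
          {ω | (∀ c ∈ insert i J, c ∉ O ω) ∧ F.filter (fun c => c ∈ O ω) = s.erase i} := by
        ext ω
        simp only [Set.mem_setOf_eq, Set.mem_diff]
        constructor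
        · rintro ⟨h1, h2⟩
          have hiO : i ∈ O ω := by
            rw [← h2] at his; exact (Finset.mem_filter.1 his).2
          refine ⟨⟨h1, ?_⟩, fun h3 => h3.1 i (Finset.mem_insert_self i J) hiO⟩
          rw [← h2, Finset.filter_insert, if_pos hiO, Finset.erase_insert]
          simp [hi]
        · rintro ⟨⟨h1, h2⟩, h3⟩
          have hiO : i ∈ O ω := by
            by_contra hiO
            exact h3 ⟨fun c hc => (Finset.mem_insert.1 hc).elim (fun h => h ▸ hiO) (h1 c), h2⟩
          refine ⟨h1, ?_⟩
          rw [Finset.filter_insert, if_pos hiO, h2, Finset.insert_erase his]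
      rw [e, measureReal_diff]
      · rw [ih J (s.erase i) hJF hsF, ih (insert i J) (s.erase i) hJiF hsF,
          Finset.card_insert_of_notMem hiJ, Finset.card_erase_of_mem his]
        have h1 : (insert i F \ s).card = (F \ s.erase i).card := by
          congr 1
          ext x
          simp only [Finset.mem_sdiff, Finset.mem_insert, Finset.mem_erase]
          constructor
          · rintro ⟨h3 | h3, h4⟩
            · exact absurd (h3 ▸ his) h4
            · exact ⟨h3, fun h => h4 h.2⟩
          · rintro ⟨h3, h4⟩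
            refine ⟨Or.inr h3, fun h5 => h4 ⟨fun h6 => hi (h6 ▸ h3), h5⟩⟩
        have h2 : 0 < s.card := Finset.card_pos.2 ⟨i, his⟩
        rw [h1]
        have h3 : p ^ s.card = p ^ (s.card - 1) * p := by
          rw [← pow_succ]; congr 1; omega
        rw [h3, pow_succ]; ring
      · rintro ω ⟨h1, h2⟩
        exact ⟨fun c hc => h1 c (Finset.mem_insert_of_mem hc), h2⟩
      · exact (hmJ _).inter (hmF F _)
    · have hsF : s ⊆ F := fun x hx =>
        (Finset.mem_insert.1 (hs hx)).resolve_left fun h => his (h ▸ hx)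
      have e : {ω | (∀ c ∈ J, c ∉ O ω) ∧ (insert i F).filter (fun c => c ∈ O ω) = s} =
          {ω | (∀ c ∈ insert i J, c ∉ O ω) ∧ F.filter (fun c => c ∈ O ω) = s} := by
        ext ω
        simp only [Set.mem_setOf_eq]
        constructor
        · rintro ⟨h1, h2⟩
          have hiO : i ∉ O ω := by
            intro hiO
            apply his
            rw [← h2]; exact Finset.mem_filter.2 ⟨Finset.mem_insert_self i F, hiO⟩
          refine ⟨fun c hc => (Finset.mem_insert.1 hc).elim (fun h => h ▸ hiO) (h1 c), ?_⟩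
          rwa [Finset.filter_insert, if_neg hiO] at h2
        · rintro ⟨h1, h2⟩
          have hiO : i ∉ O ω := h1 i (Finset.mem_insert_self i J)
          refine ⟨fun c hc => h1 c (Finset.mem_insert_of_mem hc), ?_⟩
          rw [Finset.filter_insert, if_neg hiO]; exact h2
      rw [e, ih (insert i J) s hJiF hsF, Finset.card_insert_of_notMem hiJ]
      have h1 : (insert i F \ s).card = (F \ s).card + 1 := by
        rw [Finset.insert_sdiff_of_notMem _ his, Finset.card_insert_of_notMem]
        simp [hi]
      rw [h1]; ring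

open Classical in
theorem bits_prob {O : Ω → Set ι} (hO : ∀ c, MeasurableSet {ω | c ∈ O ω}) {p : ℝ}
    (hvoid : ∀ J : Finset ι, P.real {ω | ∀ c ∈ J, c ∉ O ω} = (1 - p) ^ J.card)
    (F : Finset ι) (D : Set (Finset ι)) :
    P.real {ω | F.filter (fun c => c ∈ O ω) ∈ D} = Ex F p (fun s => if s ∈ D then 1 else 0) := by
  have hmF : ∀ s : Finset ι, MeasurableSet {ω | F.filter (fun c => c ∈ O ω) = s} := by
    intro s
    by_cases hs : s ⊆ F
    · have : {ω | F.filter (fun c => c ∈ O ω) = s} =
          (⋂ c ∈ s, {ω | c ∈ O ω}) ∩ (⋂ c ∈ F \ s, {ω | c ∈ O ω}ᶜ) := by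
        ext ω
        simp only [Set.mem_setOf_eq, Set.mem_inter_iff, Set.mem_iInter, Set.mem_compl_iff,
          Finset.mem_sdiff]
        constructor
        · rintro rfl
          refine ⟨fun c hc => (Finset.mem_filter.1 hc).2, fun c hc hcO => ?_⟩
          exact hc.2 (Finset.mem_filter.2 ⟨hc.1, hcO⟩)
        · rintro ⟨h1, h2⟩
          ext c
          rw [Finset.mem_filter]
          constructor
          · rintro ⟨h3, h4⟩
            by_contra h5
            exact h2 c ⟨h3, h5⟩ h4
          · intro h3; exact ⟨hs h3, h1 c h3⟩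
      rw [this]
      exact (Finset.measurableSet_biInter _ fun c _ => hO c).inter
        (Finset.measurableSet_biInter _ fun c _ => (hO c).compl)
    · have : {ω | F.filter (fun c => c ∈ O ω) = s} = ∅ := by
        ext ω
        simp only [Set.mem_setOf_eq, Set.mem_empty_iff_false, iff_false]
        rintro rfl
        exact hs (Finset.filter_subset _ _)
      rw [this]; exact MeasurableSet.empty
  have e : {ω | F.filter (fun c => c ∈ O ω) ∈ D} =
      ⋃ s ∈ F.powerset.filter (fun s => s ∈ D), {ω | F.filter (fun c => c ∈ O ω) = s} := by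
    ext ω
    simp only [Set.mem_setOf_eq, Set.mem_iUnion, Finset.mem_filter, Finset.mem_powerset,
      exists_prop]
    constructor
    · intro h; exact ⟨_, ⟨Finset.filter_subset _ _, h⟩, rfl⟩
    · rintro ⟨s, ⟨_, h2⟩, h3⟩; rw [h3]; exact h2
  rw [e, measureReal_biUnion_finset]
  · unfold Ex
    rw [Finset.sum_filter]
    refine Finset.sum_congr rfl fun s hs => ?_
    have h1 := bits_law hO hvoid F ∅ s (Finset.disjoint_empty_left _) (Finset.mem_powerset.1 hs)
    simp only [Finset.notMem_empty, IsEmpty.forall_iff, implies_true, true_and,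
      Finset.card_empty, pow_zero, one_mul] at h1
    by_cases h : s ∈ D
    · simp only [h, if_true, h1, mul_one]
    · simp only [h, if_false, mul_zero]
  · intro s _ t _ hst
    rw [Function.onFun, Set.disjoint_left]
    intro ω h1 h2
    exact hst (h1.symm.trans h2)
  · intro s _; exact hmF s

end

variable {d : ℕ}
variable {Ω : Type*} [MeasurableSpace Ω] {P : Measure Ω} [IsProbabilityMeasure P]

/-- measurability of the event `Reach` -/
theorem measurableSet_reach {S : Finset (V d)} {K : ℕ} (hK : S ⊆ box d K) {O : Ω → Set (V d)}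
    (hO : ∀ c, MeasurableSet {ω | c ∈ O ω}) (x : V d) (n : ℕ) :
    MeasurableSet {ω | Reach S (O ω) x n} := by
  classical
  set F : Finset (V d) := box d (nrm x + n + K) with hF
  have hloc : ∀ z, nrm (z - x) ≤ n + K → z ∈ F := by
    intro z hz
    have := nrm_le_add z x
    exact mem_box.2 (by omega)
  have e : {ω | Reach S (O ω) x n} =
      ⋃ s ∈ F.powerset.filter (fun s : Finset (V d) => Reach S (↑s) x n),
        {ω | F.filter (fun c => c ∈ O ω) = s} := by
    ext ω
    have key : Reach S (O ω) x n ↔ Reach S (↑(F.filter (fun c => c ∈ O ω))) x n := by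
      refine reach_congr hK fun z hz => ?_
      simp [hloc z hz]
    simp only [Set.mem_setOf_eq, Set.mem_iUnion, Finset.mem_filter, Finset.mem_powerset,
      exists_prop]
    constructor
    · intro h
      exact ⟨_, ⟨Finset.filter_subset _ _, key.1 h⟩, rfl⟩
    · rintro ⟨s, ⟨_, h2⟩, h3⟩
      rw [key, h3]; exact h2
  rw [e]
  refine Finset.measurableSet_biUnion _ fun s hs => ?_
  have hs' : s ⊆ F := Finset.mem_powerset.1 (Finset.mem_filter.1 hs).1
  have : {ω | F.filter (fun c => c ∈ O ω) = s} =
      (⋂ c ∈ s, {ω | c ∈ O ω}) ∩ (⋂ c ∈ F \ s, {ω | c ∈ O ω}ᶜ) := by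
    ext ω
    simp only [Set.mem_setOf_eq, Set.mem_inter_iff, Set.mem_iInter, Set.mem_compl_iff,
      Finset.mem_sdiff]
    constructor
    · rintro rfl
      refine ⟨fun c hc => (Finset.mem_filter.1 hc).2, fun c hc hcO => ?_⟩
      exact hc.2 (Finset.mem_filter.2 ⟨hc.1, hcO⟩)
    · rintro ⟨h1, h2⟩
      ext c
      rw [Finset.mem_filter]
      constructor
      · rintro ⟨h3, h4⟩
        by_contra h5
        exact h2 c ⟨h3, h5⟩ h4
      · intro h3; exact ⟨hs' h3, h1 c h3⟩
  rw [this]
  exact (Finset.measurableSet_biInter _ fun c _ => hO c).inter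
    (Finset.measurableSet_biInter _ fun c _ => (hO c).compl)

/-- probability of `Reach` for a Bernoulli random set -/
theorem prob_reach {S : Finset (V d)} {K : ℕ} (hK : S ⊆ box d K) {O : Ω → Set (V d)}
    (hO : ∀ c, MeasurableSet {ω | c ∈ O ω}) {p : ℝ}
    (hvoid : ∀ J : Finset (V d), P.real {ω | ∀ c ∈ J, c ∉ O ω} = (1 - p) ^ J.card)
    (x : V d) (n : ℕ) : P.real {ω | Reach S (O ω) x n} = theta S K n p := by
  classical
  set F : Finset (V d) := box d (nrm x + n + K) with hF
  have hloc : ∀ z, nrm (z - x) ≤ n + K → z ∈ F := by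
    intro z hz
    have := nrm_le_add z x
    exact mem_box.2 (by omega)
  have e : {ω | Reach S (O ω) x n} =
      {ω | F.filter (fun c => c ∈ O ω) ∈ {s : Finset (V d) | Reach S (↑s) x n}} := by
    ext ω
    simp only [Set.mem_setOf_eq]
    refine reach_congr hK fun z hz => ?_
    simp [hloc z hz]
  rw [e, bits_prob hO hvoid, ← Ex_ind hK x n p hloc]
  refine Ex_congr fun s _ => ?_
  simp only [Set.mem_setOf_eq, ind]

end Pool.Agent.F368
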