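import Mathlib

/-! Module B (Brownian motion estimates). -/

open MeasureTheory ProbabilityTheory Filter Topology
open scoped ENNReal NNReal

namespace Pool.Agent.F368

section Grid

lemma bm_grid_dense {f : ℝ≥0 → ℝ} (hf : Continuous f) {T : ℝ≥0} {A : ℝ}
    (h : ∃ t ≤ T, A < |f t|) :
    ∃ n k : ℕ, k ≤ 2 ^ n ∧ A < |f ((k : ℝ≥0) * T / 2 ^ n)| := by
  obtain ⟨t, ht, hA⟩ := h
  rcases eq_or_ne T 0 with rfl | hT
  · have h0 : t = 0 := le_antisymm ht zero_le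
    subst h0
    exact ⟨0, 0, by simp, by simpa using hA⟩
  have hTpos : 0 < (T : ℝ) := by exact_mod_cast pos_of_ne_zero hT
  have ha : 0 ≤ (t : ℝ) / T := by positivity
  have hpow : Tendsto (fun n : ℕ => (2 : ℝ) ^ n) atTop atTop :=
    tendsto_pow_atTop_atTop_of_one_lt (by norm_num)
  have h1 : Tendsto (fun n : ℕ => (⌊(t : ℝ) / T * 2 ^ n⌋₊ : ℝ) / 2 ^ n) atTop (𝓝 ((t : ℝ) / T)) :=
    (tendsto_nat_floor_mul_div_atTop ha).comp hpow
  have h2 : Tendsto (fun n : ℕ => ((⌊(t : ℝ) / T * 2 ^ n⌋₊ : ℝ≥0) * T / 2 ^ n)) atTop (𝓝 t) := by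
    rw [← NNReal.tendsto_coe]
    have h3 := h1.mul_const (T : ℝ)
    rw [div_mul_cancel₀ _ hTpos.ne'] at h3
    refine h3.congr fun n => ?_
    push_cast
    ring
  have h4 : Tendsto (fun n : ℕ => |f ((⌊(t : ℝ) / T * 2 ^ n⌋₊ : ℝ≥0) * T / 2 ^ n)|) atTop
      (𝓝 |f t|) := ((continuous_abs.comp hf).tendsto t).comp h2
  obtain ⟨n, hn⟩ := (h4.eventually (lt_mem_nhds hA)).exists
  refine ⟨n, ⌊(t : ℝ) / T * 2 ^ n⌋₊, ?_, hn⟩
  have h5 : (t : ℝ) / T ≤ 1 := by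
    rw [div_le_one hTpos]; exact_mod_cast ht
  have h6 : (t : ℝ) / T * 2 ^ n ≤ ((2 ^ n : ℕ) : ℝ) := by
    push_cast
    have : (0 : ℝ) < 2 ^ n := by positivity
    nlinarith
  exact Nat.floor_le_of_le h6

end Grid

section Sigma

variable {Ω : Type*} [mΩ : MeasurableSpace Ω] {P : Measure Ω} {B : ℝ≥0 → Ω → ℝ}

/-- the past of a process up to a time -/
@[reducible] def pastS (B : ℝ≥0 → Ω → ℝ) (t₀ : ℝ≥0) : MeasurableSpace Ω :=
  MeasurableSpace.comap (fun ω (t : Set.Iic t₀) ↦ B t ω) inferInstance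

/-- the future increments after a time -/
@[reducible] def futS (B : ℝ≥0 → Ω → ℝ) (t₀ : ℝ≥0) : MeasurableSpace Ω :=
  MeasurableSpace.comap (fun ω (t : ℝ≥0) ↦ B (t₀ + t) ω - B t₀ ω) inferInstance

omit mΩ in
lemma past_meas {t t₀ : ℝ≥0} (ht : t ≤ t₀) : Measurable[pastS B t₀] (B t) := by
  have h : Measurable[pastS B t₀] (fun ω (t : Set.Iic t₀) ↦ B t ω) := comap_measurable _
  exact (measurable_pi_apply (⟨t, ht⟩ : Set.Iic t₀)).comp h

omit mΩ in
lemma fut_meas (t₀ t : ℝ≥0) : Measurable[futS B t₀] (fun ω => B (t₀ + t) ω - B t₀ ω) := by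
  have h : Measurable[futS B t₀] (fun ω (t : ℝ≥0) ↦ B (t₀ + t) ω - B t₀ ω) := comap_measurable _
  exact (measurable_pi_apply t).comp h

lemma indep_fut_past (hB : IsPreBrownianReal B P) (t₀ : ℝ≥0) :
    Indep (futS B t₀) (pastS B t₀) P :=
  (IndepFun_iff_Indep _ _ _).1 (hB.indepFun_shift t₀)

lemma past_le (hm : ∀ t, Measurable (B t)) (t₀ : ℝ≥0) : pastS B t₀ ≤ mΩ :=
  Measurable.comap_le (measurable_pi_lambda _ fun _ => hm _)

lemma fut_le (hm : ∀ t, Measurable (B t)) (t₀ : ℝ≥0) : futS B t₀ ≤ mΩ :=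
  Measurable.comap_le (measurable_pi_lambda _ fun _ => (hm _).sub (hm _))

lemma bm_sq (hB : IsPreBrownianReal B P) (t : ℝ≥0) : ∫ ω, B t ω ^ 2 ∂P = t := by
  have h := (hB.hasLaw_eval t).variance_eq
  rw [variance_id_gaussianReal] at h
  rw [← h, variance_of_integral_eq_zero (hB.aemeasurable t) (hB.integral_eval t)]

lemma bm_memLp (hB : IsPreBrownianReal B P) (t : ℝ≥0) : MemLp (B t) 2 P :=
  (hB.isGaussianProcess.hasGaussianLaw_eval t).memLp_two

/-- Kolmogorov inequality along a monotone sequence of times. -/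
lemma bm_kolmogorov (hB : IsPreBrownianReal B P) (hm : ∀ t, Measurable (B t))
    {t : ℕ → ℝ≥0} (ht : Monotone t) (N : ℕ) {A : ℝ} (hA : 0 < A) :
    P.real {ω | ∃ k ≤ N, A < |B (t k) ω|} ≤ t N / A ^ 2 := by
  have hP : IsProbabilityMeasure P := hB.isGaussianProcess.isProbabilityMeasure
  set E : ℕ → Set Ω := fun k => {ω | A < |B (t k) ω| ∧ ∀ j < k, |B (t j) ω| ≤ A} with hE
  have hEpast : ∀ k, MeasurableSet[pastS B (t k)] (E k) := by
    intro k
    have h1 : E k = {ω | A < |B (t k) ω|} ∩ ⋂ j : ℕ, ⋂ (_ : j < k), {ω | |B (t j) ω| ≤ A} := by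
      ext ω; simp [hE]
    rw [h1]
    let _ : MeasurableSpace Ω := pastS B (t k)
    refine MeasurableSet.inter ?_ (MeasurableSet.iInter fun j => MeasurableSet.iInter fun hj => ?_)
    · exact measurableSet_lt measurable_const (past_meas (B := B) le_rfl).norm
    · exact measurableSet_le (past_meas (B := B) (ht hj.le)).norm measurable_const
  have hEm : ∀ k, MeasurableSet (E k) := fun k => past_le hm (t k) _ (hEpast k)
  -- cross terms vanish
  have hcross : ∀ k ≤ N, ∫ ω, (E k).indicator (B (t k)) ω * (B (t N) ω - B (t k) ω) ∂P = 0 := by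
    intro k hk
    have hX : Measurable[pastS B (t k)] ((E k).indicator (B (t k))) :=
      (past_meas (B := B) le_rfl).indicator (hEpast k)
    have hY : Measurable[futS B (t k)] (fun ω => B (t N) ω - B (t k) ω) := by
      have := fut_meas (B := B) (t k) (t N - t k)
      rwa [add_tsub_cancel_of_le (ht hk)] at this
    have hind : IndepFun ((E k).indicator (B (t k))) (fun ω => B (t N) ω - B (t k) ω) P := by
      rw [IndepFun_iff_Indep]
      exact (indep_of_indep_of_le_left (indep_of_indep_of_le_right (indep_fut_past hB (t k)).symm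
        hY.comap_le) hX.comap_le)
    rw [hind.integral_fun_mul_eq_mul_integral ((hm (t k)).indicator (hEm k)).aestronglyMeasurable
      ((hm _).sub (hm _)).aestronglyMeasurable]
    have : ∫ ω, (B (t N) ω - B (t k) ω) ∂P = 0 := by
      rw [integral_sub (hB.integrable_eval _) (hB.integrable_eval _), hB.integral_eval,
        hB.integral_eval, sub_zero]
    rw [this, mul_zero]
  have hintc : ∀ k, Integrable
      (fun ω => (E k).indicator (B (t k)) ω * (B (t N) ω - B (t k) ω)) P := by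
    intro k
    exact ((bm_memLp hB (t k)).indicator (hEm k)).integrable_mul
      ((bm_memLp hB (t N)).sub (bm_memLp hB (t k)))
  have hpt : ∀ ω, ∑ k ∈ Finset.range (N + 1), ((E k).indicator (fun _ => A ^ 2) ω +
      2 * ((E k).indicator (B (t k)) ω * (B (t N) ω - B (t k) ω))) ≤ B (t N) ω ^ 2 := by
    intro ω
    by_cases h : ∃ k ∈ Finset.range (N + 1), ω ∈ E k
    · obtain ⟨k, hk, hkE⟩ := h
      rw [Finset.sum_eq_single k]
      · simp only [Set.indicator_of_mem hkE]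
        have h1 : A < |B (t k) ω| := hkE.1
        have h2 : A ^ 2 ≤ B (t k) ω ^ 2 := by
          rw [← sq_abs (B (t k) ω)]
          exact pow_le_pow_left₀ hA.le h1.le 2
        nlinarith [sq_nonneg (B (t N) ω - B (t k) ω)]
      · intro j _ hjk
        have hj : ω ∉ E j := by
          intro hj
          rcases lt_or_gt_of_ne hjk with h | h
          · exact absurd (hkE.2 j h) (not_le.2 hj.1)
          · exact absurd (hj.2 k h) (not_le.2 hkE.1)
        simp [Set.indicator_of_notMem hj]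
      · intro h; exact absurd hk h
    · push Not at h
      rw [Finset.sum_eq_zero]
      · positivity
      · intro k hk
        simp [Set.indicator_of_notMem (h k hk)]
  have hint : ∑ k ∈ Finset.range (N + 1), (A ^ 2 * P.real (E k)) ≤ t N := by
    have h1 : ∫ ω, ∑ k ∈ Finset.range (N + 1), ((E k).indicator (fun _ => A ^ 2) ω +
      2 * ((E k).indicator (B (t k)) ω * (B (t N) ω - B (t k) ω))) ∂P ≤ ∫ ω, B (t N) ω ^ 2 ∂P := by
      refine integral_mono ?_ ?_ hpt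
      · refine integrable_finsetSum _ fun k _ => ?_
        exact ((integrable_const _).indicator (hEm k)).add ((hintc k).const_mul 2)
      · exact (bm_memLp hB (t N)).integrable_sq
    rw [bm_sq hB, integral_finsetSum] at h1
    · refine le_trans (le_of_eq ?_) h1
      refine Finset.sum_congr rfl fun k hk => ?_
      rw [integral_add ((integrable_const _).indicator (hEm k)) ((hintc k).const_mul 2),
        integral_const_mul, hcross k (Nat.lt_succ_iff.1 (Finset.mem_range.1 hk)), mul_zero,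
        add_zero, integral_indicator_const _ (hEm k), smul_eq_mul, mul_comm]
    · intro k _
      exact ((integrable_const _).indicator (hEm k)).add ((hintc k).const_mul 2)
  have hsub : {ω | ∃ k ≤ N, A < |B (t k) ω|} ⊆ ⋃ k ∈ Finset.range (N + 1), E k := by
    intro ω hω
    obtain ⟨k, hk, hkA⟩ := hω
    classical
    have hex : ∃ k, A < |B (t k) ω| := ⟨k, hkA⟩
    have hle : Nat.find hex ≤ k := Nat.find_min' hex hkA
    simp only [Set.mem_iUnion, Finset.mem_range]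
    refine ⟨Nat.find hex, by omega, Nat.find_spec hex, fun j hj => ?_⟩
    exact not_lt.1 (Nat.find_min hex hj)
  have h2 : P.real {ω | ∃ k ≤ N, A < |B (t k) ω|} ≤ ∑ k ∈ Finset.range (N + 1), P.real (E k) :=
    (measureReal_mono hsub (measure_ne_top _ _)).trans (measureReal_biUnion_finset_le _ _)
  rw [← Finset.mul_sum] at hint
  rw [le_div_iff₀ (by positivity)]
  have h3 : P.real {ω | ∃ k ≤ N, A < |B (t k) ω|} * A ^ 2
      ≤ (∑ k ∈ Finset.range (N + 1), P.real (E k)) * A ^ 2 :=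
    mul_le_mul_of_nonneg_right h2 (by positivity)
  refine h3.trans ?_
  rw [mul_comm]
  exact hint

/-- The grid version of the maximal inequality. -/
lemma bm_max_grid (hB : IsPreBrownianReal B P) (hm : ∀ t, Measurable (B t)) (T : ℝ≥0) {A : ℝ}
    (hA : 0 < A) :
    P {ω | ∃ n k : ℕ, k ≤ 2 ^ n ∧ A < |B ((k : ℝ≥0) * T / 2 ^ n) ω|} ≤
      ENNReal.ofReal (T / A ^ 2) := by
  have hP : IsProbabilityMeasure P := hB.isGaussianProcess.isProbabilityMeasure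
  set F : ℕ → Set Ω := fun n => {ω | ∃ k : ℕ, k ≤ 2 ^ n ∧ A < |B ((k : ℝ≥0) * T / 2 ^ n) ω|}
    with hF
  have hmono : Monotone F := by
    refine monotone_nat_of_le_succ fun n ω hω => ?_
    obtain ⟨k, hk, hkA⟩ := hω
    refine ⟨2 * k, by rw [pow_succ]; omega, ?_⟩
    have : ((2 * k : ℕ) : ℝ≥0) * T / 2 ^ (n + 1) = (k : ℝ≥0) * T / 2 ^ n := by
      push_cast
      rw [pow_succ]
      field_simp
    rw [this]
    exact hkA
  have hU : {ω | ∃ n k : ℕ, k ≤ 2 ^ n ∧ A < |B ((k : ℝ≥0) * T / 2 ^ n) ω|} = ⋃ n, F n := by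
    ext ω; simp [hF]
  rw [hU, hmono.measure_iUnion]
  refine iSup_le fun n => ?_
  have h1 := bm_kolmogorov hB hm (t := fun k => (k : ℝ≥0) * T / 2 ^ n) (fun a b hab => by
    dsimp only; gcongr) (2 ^ n) hA
  have h2 : (((2 ^ n : ℕ) : ℝ≥0) * T / 2 ^ n : ℝ≥0) = T := by
    push_cast
    field_simp
  rw [h2] at h1
  rw [← ofReal_measureReal]
  exact ENNReal.ofReal_le_ofReal h1

end Sigma

/-- A measurable version at every time. -/
lemma bm_version {Ω : Type*} [MeasurableSpace Ω] {P : Measure Ω} {B : ℝ≥0 → Ω → ℝ}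
    (hB : IsPreBrownianReal B P) : ∃ B' : ℝ≥0 → Ω → ℝ, IsPreBrownianReal B' P ∧
      (∀ t, Measurable (B' t)) ∧ ∀ t, B t =ᵐ[P] B' t :=
  ⟨fun t => (hB.aemeasurable t).mk, hB.congr fun t => (hB.aemeasurable t).ae_eq_mk,
    fun t => (hB.aemeasurable t).measurable_mk, fun t => (hB.aemeasurable t).ae_eq_mk⟩

theorem bm_max1 {Ω : Type*} [MeasurableSpace Ω] {P : Measure Ω} {B : ℝ≥0 → Ω → ℝ}
    (hB : IsBrownianReal B P) (T : ℝ≥0) {A : ℝ} (hA : 0 < A) :
    P {ω | ∃ t ≤ T, A < |B t ω|} ≤ ENNReal.ofReal (T / A ^ 2) := by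
  obtain ⟨B', hB', hm, hBB⟩ := bm_version hB.toIsPreBrownianReal
  refine le_trans (measure_mono_ae ?_) (bm_max_grid hB' hm T hA)
  have h1 : ∀ᵐ ω ∂P, ∀ n k : ℕ, B ((k : ℝ≥0) * T / 2 ^ n) ω = B' ((k : ℝ≥0) * T / 2 ^ n) ω :=
    ae_all_iff.2 fun n => ae_all_iff.2 fun k => hBB _
  filter_upwards [h1, hB.cont] with ω h2 h3 h4
  obtain ⟨n, k, hk, h5⟩ := bm_grid_dense h3 h4
  exact ⟨n, k, hk, by rwa [← h2]⟩

theorem bm_max {Ω : Type*} [MeasurableSpace Ω] {P : Measure Ω} {B : ℝ≥0 → Ω → ℝ}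
    (hB : IsBrownianReal B P) (T : ℝ≥0) {A : ℝ} (hA : 0 < A) :
    P {ω | ∃ t ≤ T, A < |B t ω|} ≤ ENNReal.ofReal (4 * T / A ^ 2) := by
  refine (bm_max1 hB T hA).trans (ENNReal.ofReal_le_ofReal ?_)
  have : (0 : ℝ) ≤ T := T.2
  gcongr
  linarith

lemma gauss_low {τ : ℝ≥0} (hτ : τ ≠ 0) {a : ℝ} (h1 : -2 ≤ a) (h2 : a ≤ 1) :
    ENNReal.ofReal (1 / 27) ≤
      gaussianReal 0 τ (Set.Icc (a * √(τ : ℝ)) ((a + 1) * √(τ : ℝ))) := by
  have hτ' : (0 : ℝ) < τ := by exact_mod_cast pos_of_ne_zero hτ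
  have hs : 0 < √(τ : ℝ) := Real.sqrt_pos.2 hτ'
  have hsq : √(τ : ℝ) ^ 2 = τ := Real.sq_sqrt hτ'.le
  rw [gaussianReal_apply 0 hτ]
  have hlow : ∀ x ∈ Set.Icc (a * √(τ : ℝ)) ((a + 1) * √(τ : ℝ)),
      ENNReal.ofReal (1 / (27 * √(τ : ℝ))) ≤ gaussianPDF 0 τ x := by
    intro x hx
    unfold gaussianPDF gaussianPDFReal
    refine ENNReal.ofReal_le_ofReal ?_
    have hx1 : -(2 * √(τ : ℝ)) ≤ x := le_trans (by nlinarith) hx.1
    have hx2 : x ≤ 2 * √(τ : ℝ) := le_trans hx.2 (by nlinarith)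
    have hx3 : x ^ 2 ≤ 4 * τ := by rw [← hsq]; nlinarith
    have h3 : -2 ≤ -(x - 0) ^ 2 / (2 * (τ : ℝ)) := by
      rw [le_div_iff₀ (by positivity)]
      nlinarith
    have h4 : (1 : ℝ) / 9 ≤ Real.exp (-2) := by
      have h5 : Real.exp 1 < 3 := by linarith [Real.exp_one_lt_d9]
      have h6 : Real.exp 2 = Real.exp 1 * Real.exp 1 := by rw [← Real.exp_add]; norm_num
      have h7 : Real.exp 2 ≤ 9 := by
        rw [h6]; nlinarith [Real.exp_pos 1]
      rw [Real.exp_neg, one_div]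
      exact inv_anti₀ (Real.exp_pos _) h7
    have h8 : √(2 * Real.pi * (τ : ℝ)) ≤ 3 * √(τ : ℝ) := by
      rw [Real.sqrt_le_left (by positivity)]
      rw [mul_pow, hsq]
      have := Real.pi_lt_d2
      nlinarith
    have h9 : 1 / (3 * √(τ : ℝ)) ≤ (√(2 * Real.pi * (τ : ℝ)))⁻¹ := by
      rw [one_div]
      exact inv_anti₀ (Real.sqrt_pos.2 (by positivity)) h8
    calc 1 / (27 * √(τ : ℝ)) = 1 / (3 * √(τ : ℝ)) * (1 / 9) := by field_simp; norm_num
      _ ≤ (√(2 * Real.pi * (τ : ℝ)))⁻¹ * Real.exp (-(x - 0) ^ 2 / (2 * (τ : ℝ))) := by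
          gcongr
          exact h4.trans (Real.exp_le_exp.2 h3)
  calc ENNReal.ofReal (1 / 27)
      = ENNReal.ofReal (1 / (27 * √(τ : ℝ))) *
          volume (Set.Icc (a * √(τ : ℝ)) ((a + 1) * √(τ : ℝ))) := by
        rw [Real.volume_Icc, ← ENNReal.ofReal_mul (by positivity)]
        congr 1
        have : (a + 1) * √(τ : ℝ) - a * √(τ : ℝ) = √(τ : ℝ) := by ring
        rw [this]
        field_simp
    _ = ∫⁻ _ in Set.Icc (a * √(τ : ℝ)) ((a + 1) * √(τ : ℝ)),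
          ENNReal.ofReal (1 / (27 * √(τ : ℝ))) := by
        rw [setLIntegral_const]
    _ ≤ _ := setLIntegral_mono' measurableSet_Icc hlow

section Follow

variable {Ω : Type*} [mΩ : MeasurableSpace Ω] {P : Measure Ω} {B : ℝ≥0 → Ω → ℝ}

lemma step_low (hB : IsPreBrownianReal B P) (hm : ∀ t, Measurable (B t)) {τ : ℝ≥0} (hτ : τ ≠ 0)
    {a : ℝ} (h1 : -2 ≤ a) (h2 : a ≤ 1) :
    ENNReal.ofReal (3 / 100) ≤ P ({ω | B τ ω ∈ Set.Icc (a * √(τ : ℝ)) ((a + 1) * √(τ : ℝ))} ∩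
      {ω | ∀ n k : ℕ, k ≤ 2 ^ n → |B ((k : ℝ≥0) * τ / 2 ^ n) ω| ≤ 100 * √(τ : ℝ)}) := by
  have hP : IsProbabilityMeasure P := hB.isGaussianProcess.isProbabilityMeasure
  have hτ' : (0 : ℝ) < τ := by exact_mod_cast pos_of_ne_zero hτ
  have hs : 0 < √(τ : ℝ) := Real.sqrt_pos.2 hτ'
  have hsq : √(τ : ℝ) ^ 2 = τ := Real.sq_sqrt hτ'.le
  set I := {ω | B τ ω ∈ Set.Icc (a * √(τ : ℝ)) ((a + 1) * √(τ : ℝ))} with hI
  set J := {ω | ∀ n k : ℕ, k ≤ 2 ^ n → |B ((k : ℝ≥0) * τ / 2 ^ n) ω| ≤ 100 * √(τ : ℝ)} with hJ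
  have hIl : ENNReal.ofReal (1 / 27) ≤ P I := by
    have h3 := gauss_low hτ h1 h2
    rw [← (hB.hasLaw_eval τ).map_eq, Measure.map_apply (hm τ) measurableSet_Icc] at h3
    exact h3
  have hJc : P Jᶜ ≤ ENNReal.ofReal (1 / 10000) := by
    have h3 := bm_max_grid hB hm τ (A := 100 * √(τ : ℝ)) (by positivity)
    have h4 : (τ : ℝ) / (100 * √(τ : ℝ)) ^ 2 = 1 / 10000 := by
      rw [mul_pow, hsq]; field_simp; norm_num
    rw [h4] at h3
    refine le_trans (measure_mono ?_) h3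
    intro ω hω
    simp only [hJ, Set.mem_compl_iff, Set.mem_ofPred_eq, not_forall, not_le] at hω
    obtain ⟨n, k, hk, h5⟩ := hω
    exact ⟨n, k, hk, h5⟩
  have h5 : P I ≤ P (I ∩ J) + P Jᶜ := by
    refine (measure_mono (t := (I ∩ J) ∪ Jᶜ) ?_).trans (measure_union_le _ _)
    intro ω hω
    by_cases h : ω ∈ J
    · exact Or.inl ⟨hω, h⟩
    · exact Or.inr h
  have h6 : ENNReal.ofReal (1 / 27) ≤ P (I ∩ J) + ENNReal.ofReal (1 / 10000) :=
    hIl.trans (h5.trans (by gcongr))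
  have h7 : ENNReal.ofReal (1 / 27) - ENNReal.ofReal (1 / 10000) ≤ P (I ∩ J) :=
    tsub_le_iff_right.2 h6
  refine le_trans ?_ h7
  rw [← ENNReal.ofReal_sub _ (by norm_num)]
  exact ENNReal.ofReal_le_ofReal (by norm_num)

/-- the good event up to step `m` -/
def HE (B : ℝ≥0 → Ω → ℝ) (τ : ℝ≥0) (v : ℝ) (m : ℕ) : Set Ω :=
  {ω | (∀ k : ℕ, k ≤ m → |B ((k : ℝ≥0) * τ) ω + v * (k * τ)| ≤ √(τ : ℝ)) ∧
    ∀ k : ℕ, k < m → ∀ n j : ℕ, j ≤ 2 ^ n →
      |B ((k : ℝ≥0) * τ + (j : ℝ≥0) * τ / 2 ^ n) ω - B ((k : ℝ≥0) * τ) ω| ≤ 100 * √(τ : ℝ)}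

lemma grid_le (τ : ℝ≥0) {n j : ℕ} (hj : j ≤ 2 ^ n) : (j : ℝ≥0) * τ / 2 ^ n ≤ τ := by
  have h1 : (j : ℝ≥0) ≤ 2 ^ n := by exact_mod_cast hj
  rw [div_le_iff₀ (by positivity), mul_comm]
  gcongr

omit mΩ in
lemma HE_past (B : ℝ≥0 → Ω → ℝ) (τ : ℝ≥0) (v : ℝ) (m : ℕ) :
    MeasurableSet[pastS B (m * τ)] (HE B τ v m) := by
  have h1 : HE B τ v m =
      (⋂ k : ℕ, ⋂ (_ : k ≤ m), {ω | |B ((k : ℝ≥0) * τ) ω + v * (k * τ)| ≤ √(τ : ℝ)}) ∩
      ⋂ k : ℕ, ⋂ (_ : k < m), ⋂ n : ℕ, ⋂ j : ℕ, ⋂ (_ : j ≤ 2 ^ n),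
        {ω | |B ((k : ℝ≥0) * τ + (j : ℝ≥0) * τ / 2 ^ n) ω - B ((k : ℝ≥0) * τ) ω|
          ≤ 100 * √(τ : ℝ)} := by
    ext ω; simp [HE]
  rw [h1]
  let _ : MeasurableSpace Ω := pastS B (m * τ)
  refine MeasurableSet.inter ?_ ?_
  · refine MeasurableSet.iInter fun k => MeasurableSet.iInter fun hk => ?_
    have h2 : (k : ℝ≥0) * τ ≤ m * τ := by gcongr
    exact measurableSet_le ((past_meas (B := B) h2).add_const _).norm measurable_const
  · refine MeasurableSet.iInter fun k => MeasurableSet.iInter fun hk =>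
      MeasurableSet.iInter fun n => MeasurableSet.iInter fun j => MeasurableSet.iInter fun hj => ?_
    have h2 : (k : ℝ≥0) * τ ≤ m * τ := by gcongr
    have h3 : (k : ℝ≥0) * τ + (j : ℝ≥0) * τ / 2 ^ n ≤ m * τ := by
      calc (k : ℝ≥0) * τ + (j : ℝ≥0) * τ / 2 ^ n ≤ k * τ + τ := by
            gcongr; exact grid_le τ hj
        _ = ((k + 1 : ℕ) : ℝ≥0) * τ := by push_cast; ring
        _ ≤ m * τ := by gcongr; exact hk
    exact measurableSet_le ((past_meas (B := B) h3).sub (past_meas (B := B) h2)).norm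
      measurable_const

lemma HE_step (hB : IsPreBrownianReal B P) (hm : ∀ t, Measurable (B t)) {τ : ℝ≥0} (hτ : τ ≠ 0)
    {v : ℝ} (hv : |v| * τ < √(τ : ℝ)) (m : ℕ) :
    ENNReal.ofReal (3 / 100) * P (HE B τ v m) ≤ P (HE B τ v (m + 1)) := by
  have hP : IsProbabilityMeasure P := hB.isGaussianProcess.isProbabilityMeasure
  have hτ' : (0 : ℝ) < τ := by exact_mod_cast pos_of_ne_zero hτ
  have hs : 0 < √(τ : ℝ) := Real.sqrt_pos.2 hτ'
  set t₀ : ℝ≥0 := m * τ with ht₀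
  -- the position after the drift
  let x₀ : Ω → ℝ := fun ω => B t₀ ω + v * (m * τ) + v * τ
  have hx₀ : Measurable[pastS B t₀] x₀ :=
    ((past_meas (B := B) le_rfl).add_const _).add_const _
  let C : ℤ → Set Ω := fun a => {ω | (a : ℝ) ≤ -x₀ ω / √(τ : ℝ) ∧ -x₀ ω / √(τ : ℝ) < a + 1}
  have hC : ∀ a, MeasurableSet[pastS B t₀] (C a) := by
    intro a
    let _ : MeasurableSpace Ω := pastS B t₀
    have h1 : Measurable (fun ω => -x₀ ω / √(τ : ℝ)) := hx₀.neg.div_const _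
    exact (measurableSet_le measurable_const h1).inter (measurableSet_lt h1 measurable_const)
  let W : ℝ≥0 → Ω → ℝ := fun t ω => B (t₀ + t) ω - B t₀ ω
  have hW : IsPreBrownianReal W P := hB.shift t₀
  have hWm : ∀ t, Measurable (W t) := fun t => (hm _).sub (hm _)
  let V : ℤ → Set Ω := fun a =>
    {ω | W τ ω ∈ Set.Icc ((a : ℝ) * √(τ : ℝ)) ((a + 1) * √(τ : ℝ))} ∩
      {ω | ∀ n k : ℕ, k ≤ 2 ^ n → |W ((k : ℝ≥0) * τ / 2 ^ n) ω| ≤ 100 * √(τ : ℝ)}
  have hV : ∀ a, MeasurableSet[futS B t₀] (V a) := by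
    intro a
    have h1 : V a = {ω | W τ ω ∈ Set.Icc ((a : ℝ) * √(τ : ℝ)) ((a + 1) * √(τ : ℝ))} ∩
      ⋂ n : ℕ, ⋂ k : ℕ, ⋂ (_ : k ≤ 2 ^ n),
        {ω | |W ((k : ℝ≥0) * τ / 2 ^ n) ω| ≤ 100 * √(τ : ℝ)} := by
      ext ω; simp [V]
    rw [h1]
    let _ : MeasurableSpace Ω := futS B t₀
    refine MeasurableSet.inter ?_ (MeasurableSet.iInter fun n => MeasurableSet.iInter fun k =>
      MeasurableSet.iInter fun _ => ?_)
    · exact (fut_meas (B := B) t₀ τ) measurableSet_Icc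
    · exact measurableSet_le (fut_meas (B := B) t₀ _).norm measurable_const
  let S : Finset ℤ := {-2, -1, 0, 1}
  have hVlow : ∀ a ∈ S, ENNReal.ofReal (3 / 100) ≤ P (V a) := by
    intro a ha
    have h1 : (-2 : ℝ) ≤ a ∧ (a : ℝ) ≤ 1 := by
      simp only [S, Finset.mem_insert, Finset.mem_singleton] at ha
      rcases ha with rfl | rfl | rfl | rfl <;> norm_num
    exact step_low hW hWm hτ h1.1 h1.2
  have hHm : MeasurableSet[pastS B t₀] (HE B τ v m) := HE_past B τ v m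
  -- covering
  have hcov : HE B τ v m ⊆ ⋃ a ∈ S, (HE B τ v m ∩ C a) := by
    intro ω hω
    have h1 : |B t₀ ω + v * (m * τ)| ≤ √(τ : ℝ) := hω.1 m le_rfl
    have h2 : |x₀ ω| < 2 * √(τ : ℝ) := by
      calc |x₀ ω| ≤ |B t₀ ω + v * (m * τ)| + |v * τ| := abs_add_le _ _
        _ < √(τ : ℝ) + √(τ : ℝ) := by
            rw [abs_mul, abs_of_pos hτ']
            linarith
        _ = 2 * √(τ : ℝ) := by ring
    rw [abs_lt] at h2
    have h3 : -2 < -x₀ ω / √(τ : ℝ) := by rw [lt_div_iff₀ hs]; linarith [h2.2]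
    have h4 : -x₀ ω / √(τ : ℝ) < 2 := by rw [div_lt_iff₀ hs]; linarith [h2.1]
    simp only [Set.mem_iUnion]
    refine ⟨⌊-x₀ ω / √(τ : ℝ)⌋, ?_, hω, Int.floor_le _, Int.lt_floor_add_one _⟩
    have h5 : (-2 : ℤ) ≤ ⌊-x₀ ω / √(τ : ℝ)⌋ := Int.le_floor.2 (by push_cast; exact h3.le)
    have h6 : ⌊-x₀ ω / √(τ : ℝ)⌋ < 2 := Int.floor_lt.2 (by push_cast; exact h4)
    simp only [S, Finset.mem_insert, Finset.mem_singleton]
    omega
  have hsub : (⋃ a ∈ S, ((HE B τ v m ∩ C a) ∩ V a)) ⊆ HE B τ v (m + 1) := by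
    intro ω hω
    simp only [Set.mem_iUnion] at hω
    obtain ⟨a, haS, ⟨hωm, hωC⟩, hωV⟩ := hω
    refine ⟨fun k hk => ?_, fun k hk n j hj => ?_⟩
    · rcases Nat.lt_or_ge m k with h | h
      · have hk' : k = m + 1 := by omega
        subst hk'
        have h1 : ((m + 1 : ℕ) : ℝ≥0) * τ = t₀ + τ := by rw [ht₀]; push_cast; ring
        have h2 : B (((m + 1 : ℕ) : ℝ≥0) * τ) ω + v * (((m + 1 : ℕ) : ℝ) * τ) =
            x₀ ω + W τ ω := by
          rw [h1]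
          simp only [x₀, W]
          push_cast
          ring
        rw [h2, abs_le]
        have h3 := hωC.1
        have h4 := hωC.2
        rw [le_div_iff₀ hs] at h3
        rw [div_lt_iff₀ hs] at h4
        have h5 := hωV.1.1
        have h6 := hωV.1.2
        constructor <;> nlinarith
      · exact hωm.1 k h
    · rcases Nat.lt_or_ge k m with h | h
      · exact hωm.2 k h n j hj
      · have hk' : k = m := by omega
        subst hk'
        exact hωV.2 n j hj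
  have hind := (Indep_iff _ _ _).1 (indep_fut_past hB t₀).symm
  have hCdisj : Pairwise (Function.onFun Disjoint C) := by
    intro a b hab
    rw [Function.onFun, Set.disjoint_left]
    intro ω h1 h2
    apply hab
    have h3 : ⌊-x₀ ω / √(τ : ℝ)⌋ = a := Int.floor_eq_iff.2 h1
    have h4 : ⌊-x₀ ω / √(τ : ℝ)⌋ = b := Int.floor_eq_iff.2 h2
    rw [← h3, h4]
  calc ENNReal.ofReal (3 / 100) * P (HE B τ v m)
      ≤ ENNReal.ofReal (3 / 100) * ∑ a ∈ S, P (HE B τ v m ∩ C a) := by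
        gcongr
        exact (measure_mono hcov).trans (measure_biUnion_finset_le _ _)
    _ = ∑ a ∈ S, P (HE B τ v m ∩ C a) * ENNReal.ofReal (3 / 100) := by
        rw [Finset.mul_sum]
        exact Finset.sum_congr rfl fun _ _ => mul_comm _ _
    _ ≤ ∑ a ∈ S, P (HE B τ v m ∩ C a) * P (V a) := by
        refine Finset.sum_le_sum fun a ha => ?_
        gcongr
        exact hVlow a ha
    _ = ∑ a ∈ S, P ((HE B τ v m ∩ C a) ∩ V a) := by
        refine Finset.sum_congr rfl fun a _ => ?_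
        exact (hind _ _ (hHm.inter (hC a)) (hV a)).symm
    _ = P (⋃ a ∈ S, ((HE B τ v m ∩ C a) ∩ V a)) := by
        rw [measure_biUnion_finset]
        · intro a _ b _ hab
          refine (hCdisj hab).mono ?_ ?_
          · exact fun ω h => h.1.2
          · exact fun ω h => h.1.2
        · intro a _
          exact ((past_le hm t₀ _ (hHm.inter (hC a)))).inter (fut_le hm t₀ _ (hV a))
    _ ≤ P (HE B τ v (m + 1)) := measure_mono hsub

lemma HE_low (hB : IsPreBrownianReal B P) (hm : ∀ t, Measurable (B t)) {τ : ℝ≥0} (hτ : τ ≠ 0)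
    {v : ℝ} (hv : |v| * τ < √(τ : ℝ)) (m : ℕ) :
    ENNReal.ofReal (3 / 100) ^ m ≤ P (HE B τ v m) := by
  have hP : IsProbabilityMeasure P := hB.isGaussianProcess.isProbabilityMeasure
  induction m with
  | zero =>
    have h1 : P (HE B τ v 0) = 1 := by
      rw [← measure_univ (μ := P)]
      refine measure_congr ?_
      filter_upwards [hB.eval_zero_ae_eq_zero] with ω hω
      refine propext ⟨fun _ => trivial, fun _ => ⟨fun k hk => ?_, fun k hk => by omega⟩⟩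
      have hk0 : k = 0 := by omega
      subst hk0
      simp [hω]
    rw [h1, pow_zero]
  | succ m ih =>
    calc ENNReal.ofReal (3 / 100) ^ (m + 1)
        = ENNReal.ofReal (3 / 100) * ENNReal.ofReal (3 / 100) ^ m := by rw [pow_succ, mul_comm]
      _ ≤ ENNReal.ofReal (3 / 100) * P (HE B τ v m) := by gcongr
      _ ≤ _ := HE_step hB hm hτ hv m

end Follow

theorem bm_follow_aux {δ : ℝ} (hδ : 0 < δ) {Ω : Type*} [MeasurableSpace Ω] {P : Measure Ω}
    {B : ℝ≥0 → Ω → ℝ} (hB : IsBrownianReal B P) (v : ℝ) {ν : ℕ} (hν1 : v ^ 2 < ν)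
    (hν2 : (102 / δ) ^ 2 ≤ ν) :
    ENNReal.ofReal (3 / 100) ^ ν ≤ P {ω | ∀ t : ℝ≥0, t ≤ 1 → |B t ω + t * v| ≤ δ} := by
  obtain ⟨B', hB', hm, hBB⟩ := bm_version hB.toIsPreBrownianReal
  have hν0 : 0 < ν := by
    rcases Nat.eq_zero_or_pos ν with h | h
    · subst h; simp at hν1; nlinarith [sq_nonneg v]
    · exact h
  have hνr : (0 : ℝ) < ν := by exact_mod_cast hν0
  set τ : ℝ≥0 := (ν : ℝ≥0)⁻¹ with hτdef
  have hτ : τ ≠ 0 := by rw [hτdef]; positivity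
  have hτr : (τ : ℝ) = (ν : ℝ)⁻¹ := by rw [hτdef]; push_cast; rfl
  have hτ' : (0 : ℝ) < τ := by exact_mod_cast pos_of_ne_zero hτ
  have hs : 0 < √(τ : ℝ) := Real.sqrt_pos.2 hτ'
  have hsq : √(τ : ℝ) ^ 2 = τ := Real.sq_sqrt hτ'.le
  have hντ : (ν : ℝ) * τ = 1 := by rw [hτr]; field_simp
  have hv : |v| * τ < √(τ : ℝ) := by
    have h1 : (|v| * τ) ^ 2 < √(τ : ℝ) ^ 2 := by
      rw [hsq, mul_pow, sq_abs]
      calc v ^ 2 * (τ : ℝ) ^ 2 = (v ^ 2 * (τ : ℝ)) * (τ : ℝ) := by ring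
        _ < ((ν : ℝ) * (τ : ℝ)) * (τ : ℝ) := by gcongr
        _ = (τ : ℝ) := by rw [hντ, one_mul]
    exact lt_of_pow_lt_pow_left₀ 2 hs.le h1
  have hδ2 : 102 * √(τ : ℝ) ≤ δ := by
    have h1 : (102 * √(τ : ℝ)) ^ 2 ≤ δ ^ 2 := by
      rw [mul_pow, hsq]
      have h2 : (102 / δ) ^ 2 * δ ^ 2 ≤ ν * δ ^ 2 := by gcongr
      have h3 : (102 / δ) ^ 2 * δ ^ 2 = 102 ^ 2 := by field_simp
      rw [h3] at h2
      calc (102 : ℝ) ^ 2 * τ ≤ (ν * δ ^ 2) * τ := by gcongr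
        _ = δ ^ 2 * (ν * τ) := by ring
        _ = δ ^ 2 := by rw [hντ, mul_one]
    exact le_of_sq_le_sq h1 hδ.le
  refine (HE_low hB' hm hτ hv ν).trans (measure_mono_ae ?_)
  have h1 : ∀ᵐ ω ∂P, ∀ n j k : ℕ, B ((k : ℝ≥0) * τ + (j : ℝ≥0) * τ / 2 ^ n) ω =
      B' ((k : ℝ≥0) * τ + (j : ℝ≥0) * τ / 2 ^ n) ω :=
    ae_all_iff.2 fun n => ae_all_iff.2 fun j => ae_all_iff.2 fun k => hBB _
  have h1' : ∀ᵐ ω ∂P, ∀ k : ℕ, B ((k : ℝ≥0) * τ) ω = B' ((k : ℝ≥0) * τ) ω :=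
    ae_all_iff.2 fun k => hBB _
  filter_upwards [h1, h1', hB.cont] with ω h2 h2' hcont hω t ht
  -- index of the block
  set k : ℕ := ⌊(t : ℝ) * ν⌋₊ with hk
  have htν : (t : ℝ) * ν ≤ ν := by
    have : (t : ℝ) ≤ 1 := by exact_mod_cast ht
    nlinarith
  have hkν : k ≤ ν := Nat.floor_le_of_le htν
  have hk1 : (k : ℝ) ≤ t * ν := Nat.floor_le (by positivity)
  have hk2 : (t : ℝ) * ν < k + 1 := Nat.lt_floor_add_one _
  have hkt : (k : ℝ) * τ ≤ t := by
    calc (k : ℝ) * τ ≤ (t * ν) * τ := by gcongr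
      _ = t * (ν * τ) := by ring
      _ = t := by rw [hντ, mul_one]
  have hkt2 : (t : ℝ) ≤ k * τ + τ := by
    calc (t : ℝ) = (t * ν) * τ := by rw [mul_assoc, hντ, mul_one]
      _ ≤ (k + 1) * τ := by gcongr
      _ = k * τ + τ := by ring
  have hek : |B ((k : ℝ≥0) * τ) ω + v * (k * τ)| ≤ √(τ : ℝ) := by
    rw [h2']; exact hω.1 k hkν
  have hkt' : (k : ℝ≥0) * τ ≤ t := by rw [← NNReal.coe_le_coe]; push_cast; exact hkt
  rcases Nat.lt_or_ge k ν with hlt | hge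
  · set u : ℝ≥0 := t - k * τ with hu
    have htu : t = k * τ + u := by rw [hu, add_tsub_cancel_of_le hkt']
    have huτ : u ≤ τ := by
      rw [hu, tsub_le_iff_left, ← NNReal.coe_le_coe]
      push_cast
      exact hkt2
    have hosc : |B ((k : ℝ≥0) * τ + u) ω - B ((k : ℝ≥0) * τ) ω| ≤ 100 * √(τ : ℝ) := by
      by_contra hcon
      push Not at hcon
      have hcont' : Continuous fun s : ℝ≥0 => B ((k : ℝ≥0) * τ + s) ω - B ((k : ℝ≥0) * τ) ω := by
        fun_prop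
      obtain ⟨n, j, hj, h3⟩ := bm_grid_dense hcont' ⟨u, huτ, hcon⟩
      rw [h2, h2'] at h3
      exact absurd (hω.2 k hlt n j hj) (not_le.2 h3)
    have hur : (t : ℝ) = k * τ + u := by rw [htu]; push_cast; rfl
    have h4 : |v * u| ≤ √(τ : ℝ) := by
      have hu0 : (0 : ℝ) ≤ u := u.2
      rw [abs_mul, abs_of_nonneg hu0]
      have : (u : ℝ) ≤ τ := by exact_mod_cast huτ
      exact le_trans (by gcongr) hv.le
    have h5 : B t ω + t * v = (B ((k : ℝ≥0) * τ) ω + v * (k * τ)) +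
        (B ((k : ℝ≥0) * τ + u) ω - B ((k : ℝ≥0) * τ) ω) + v * u := by
      rw [← htu, hur]; ring
    rw [h5]
    calc _ ≤ |B ((k : ℝ≥0) * τ) ω + v * (k * τ)| +
          |B ((k : ℝ≥0) * τ + u) ω - B ((k : ℝ≥0) * τ) ω| + |v * u| := abs_add_three _ _ _
      _ ≤ √(τ : ℝ) + 100 * √(τ : ℝ) + √(τ : ℝ) := by gcongr
      _ = 102 * √(τ : ℝ) := by ring
      _ ≤ δ := hδ2
  · have hkν' : k = ν := le_antisymm hkν hge
    have ht1 : (k : ℝ≥0) * τ = t := by
      refine le_antisymm hkt' ?_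
      have : (k : ℝ≥0) * τ = 1 := by
        rw [← NNReal.coe_inj]; push_cast; rw [hkν']; exact hντ
      rw [this]; exact ht
    have ht2 : (k : ℝ) * τ = t := by rw [← ht1]; push_cast; rfl
    rw [ht1, ht2, mul_comm v] at hek
    linarith

theorem bm_follow {δ : ℝ} (hδ : 0 < δ) : ∃ C : ℝ, ∀ {Ω : Type} [MeasurableSpace Ω] {P : Measure Ω}
    {B : ℝ≥0 → Ω → ℝ}, IsBrownianReal B P → ∀ v : ℝ,
    ENNReal.ofReal (Real.exp (-(C * (1 + v ^ 2)))) ≤
      P {ω | ∀ t : ℝ≥0, t ≤ 1 → |B t ω + t * v| ≤ δ} := by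
  refine ⟨Real.log (100 / 3) * ((102 / δ) ^ 2 + 1), ?_⟩
  intro Ω _ P B hB v
  set ν : ℕ := ⌊v ^ 2 + (102 / δ) ^ 2⌋₊ + 1 with hν
  have h0 : 0 ≤ v ^ 2 + (102 / δ) ^ 2 := by positivity
  have h1 : v ^ 2 + (102 / δ) ^ 2 < ν := by
    rw [hν]; push_cast; exact Nat.lt_floor_add_one _
  have h2 : (ν : ℝ) ≤ v ^ 2 + (102 / δ) ^ 2 + 1 := by
    rw [hν]; push_cast; linarith [Nat.floor_le h0]
  have h3 : v ^ 2 < ν := by nlinarith [sq_nonneg (102 / δ)]
  have h4 : (102 / δ) ^ 2 ≤ ν := by nlinarith [sq_nonneg v]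
  refine le_trans ?_ (bm_follow_aux hδ hB v h3 h4)
  rw [← ENNReal.ofReal_pow (by norm_num)]
  refine ENNReal.ofReal_le_ofReal ?_
  have h5 : ((3 : ℝ) / 100) ^ ν = Real.exp (-(Real.log (100 / 3) * ν)) := by
    have h6 : (3 : ℝ) / 100 = Real.exp (-(Real.log (100 / 3))) := by
      rw [Real.exp_neg, Real.exp_log (by norm_num)]; norm_num
    rw [h6, ← Real.exp_nat_mul]
    congr 1
    ring
  rw [h5]
  refine Real.exp_le_exp.2 (neg_le_neg ?_)
  have h7 : 0 ≤ Real.log (100 / 3) := Real.log_nonneg (by norm_num)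
  rw [mul_assoc]
  refine mul_le_mul_of_nonneg_left ?_ h7
  nlinarith [sq_nonneg v, sq_nonneg (102 / δ), mul_nonneg (sq_nonneg v) (sq_nonneg (102 / δ))]

end Pool.Agent.F368
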