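import Pool.Agent.F368.ExBasic

/-!
Geometry of the sup norm on `ℤ^d`, paths of free sites.
-/

open Finset

namespace Pool.Agent.F368

variable {d : ℕ}

theorem rtg_mono {α : Type*} {r p : α → α → Prop} (h : ∀ a b, r a b → p a b) {a b : α}
    (hab : Relation.ReflTransGen r a b) : Relation.ReflTransGen p a b := by
  induction hab with
  | refl => exact Relation.ReflTransGen.refl
  | tail _ h2 ih => exact Relation.ReflTransGen.tail ih (h _ _ h2)

theorem nrm_le_iff {x : V d} {n : ℕ} : nrm x ≤ n ↔ ∀ j, (x j).natAbs ≤ n := by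
  unfold nrm
  simp [Finset.sup_le_iff]

theorem natAbs_le_nrm (x : V d) (j : Fin d) : (x j).natAbs ≤ nrm x := nrm_le_iff.1 le_rfl j

theorem mem_box {x : V d} {n : ℕ} : x ∈ box d n ↔ nrm x ≤ n := by
  unfold box
  rw [Finset.mem_Icc, nrm_le_iff]
  simp only [Pi.le_def]
  constructor
  · rintro ⟨h1, h2⟩ j
    have := h1 j; have := h2 j; omega
  · intro h
    exact ⟨fun j => by have := h j; omega, fun j => by have := h j; omega⟩

theorem nrm_zero : nrm (0 : V d) = 0 := by
  apply Nat.le_zero.1
  rw [nrm_le_iff]; intro j; simp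

theorem nrm_neg (x : V d) : nrm (-x) = nrm x := by
  unfold nrm; simp

theorem nrm_sub_comm (x y : V d) : nrm (x - y) = nrm (y - x) := by
  rw [← nrm_neg (x - y), neg_sub]

theorem nrm_add_le (x y : V d) : nrm (x + y) ≤ nrm x + nrm y := by
  rw [nrm_le_iff]
  intro j
  have h1 := natAbs_le_nrm x j
  have h2 := natAbs_le_nrm y j
  have : (x + y) j = x j + y j := rfl
  rw [this]; omega

theorem nrm_le_add (x y : V d) : nrm x ≤ nrm (x - y) + nrm y := by
  have := nrm_add_le (x - y) y
  rwa [sub_add_cancel] at this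

theorem nrm_tri (x y z : V d) : nrm (x - z) ≤ nrm (x - y) + nrm (y - z) := by
  have := nrm_add_le (x - y) (y - z)
  rwa [sub_add_sub_cancel] at this

theorem Free.anti {S : Finset (V d)} {s t : Set (V d)} (h : s ⊆ t) {x : V d}
    (hx : Free S t x) : Free S s x := fun v hv hm => hx v hv (h hm)

/-- one step between free sites at distance at most `n` from `x` -/
def Stp (S : Finset (V d)) (s : Set (V d)) (x : V d) (n : ℕ) (a b : V d) : Prop :=
  nrm (b - a) ≤ 1 ∧ nrm (a - x) ≤ n ∧ nrm (b - x) ≤ n ∧ Free S s a ∧ Free S s b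

/-- connection by free sites at distance at most `n` from `x` -/
def TC (S : Finset (V d)) (s : Set (V d)) (x : V d) (n : ℕ) : V d → V d → Prop :=
  Relation.ReflTransGen (Stp S s x n)

theorem Stp.symm {S : Finset (V d)} {s : Set (V d)} {x : V d} {n : ℕ} {a b : V d}
    (h : Stp S s x n a b) : Stp S s x n b a :=
  ⟨by rw [nrm_sub_comm]; exact h.1, h.2.2.1, h.2.1, h.2.2.2.2, h.2.2.2.1⟩

theorem TC.symm {S : Finset (V d)} {s : Set (V d)} {x : V d} {n : ℕ} {a b : V d}
    (h : TC S s x n a b) : TC S s x n b a := by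
  unfold TC at *
  induction h with
  | refl => exact Relation.ReflTransGen.refl
  | tail _ h2 ih => exact Relation.ReflTransGen.head h2.symm ih

theorem TC.trans {S : Finset (V d)} {s : Set (V d)} {x : V d} {n : ℕ} {a b c : V d}
    (h : TC S s x n a b) (h' : TC S s x n b c) : TC S s x n a c :=
  Relation.ReflTransGen.trans h h'

theorem TC.free_right {S : Finset (V d)} {s : Set (V d)} {x : V d} {n : ℕ} {a b : V d}
    (h : TC S s x n a b) (hab : a ≠ b) : Free S s b := by
  rcases Relation.ReflTransGen.cases_tail h with h1 | ⟨c, _, h2⟩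
  · exact absurd h1.symm hab
  · exact h2.2.2.2.2

theorem TC.free_right' {S : Finset (V d)} {s : Set (V d)} {x : V d} {n : ℕ} {a b : V d}
    (h : TC S s x n a b) (ha : Free S s a) : Free S s b := by
  by_cases hab : a = b
  · rwa [← hab]
  · exact h.free_right hab

theorem TC.free_left {S : Finset (V d)} {s : Set (V d)} {x : V d} {n : ℕ} {a b : V d}
    (h : TC S s x n a b) (hab : a ≠ b) : Free S s a := h.symm.free_right hab.symm

theorem TC.le_right {S : Finset (V d)} {s : Set (V d)} {x : V d} {n : ℕ} {a b : V d}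
    (h : TC S s x n a b) (ha : nrm (a - x) ≤ n) : nrm (b - x) ≤ n := by
  rcases Relation.ReflTransGen.cases_tail h with h1 | ⟨c, _, h2⟩
  · rw [h1]; exact ha
  · exact h2.2.2.1

theorem TC.conn {S : Finset (V d)} {s : Set (V d)} {x : V d} {n : ℕ} {a b : V d}
    (h : TC S s x n a b) (ha : Free S s a) : Conn S s a b := by
  refine ⟨ha, ?_⟩
  exact rtg_mono (fun u v huv => ⟨huv.1, huv.2.2.2.2⟩) h

theorem TC.anti {S : Finset (V d)} {s t : Set (V d)} (hst : s ⊆ t) {x : V d} {n : ℕ} {a b : V d}
    (h : TC S t x n a b) : TC S s x n a b :=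
  rtg_mono
    (fun _ _ huv => ⟨huv.1, huv.2.1, huv.2.2.1, huv.2.2.2.1.anti hst, huv.2.2.2.2.anti hst⟩) h

theorem Conn.anti {S : Finset (V d)} {s t : Set (V d)} (hst : s ⊆ t) {x y : V d}
    (h : Conn S t x y) : Conn S s x y :=
  ⟨h.1.anti hst, rtg_mono (fun _ _ huv => ⟨huv.1, huv.2.anti hst⟩) h.2⟩

theorem Reach.anti {S : Finset (V d)} {s t : Set (V d)} (hst : s ⊆ t) {x : V d} {n : ℕ}
    (h : Reach S t x n) : Reach S s x n := by
  obtain ⟨y, h1, h2⟩ := h
  exact ⟨y, h1, h2.anti hst⟩

theorem Reach.mono {S : Finset (V d)} {s : Set (V d)} {x : V d} {m n : ℕ} (hmn : m ≤ n)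
    (h : Reach S s x n) : Reach S s x m := by
  obtain ⟨y, h1, h2⟩ := h
  exact ⟨y, hmn.trans h1, h2⟩

theorem reach_iff {S : Finset (V d)} {s : Set (V d)} {x : V d} {n : ℕ} (hn : 1 ≤ n) :
    Reach S s x n ↔ ∃ y, nrm (y - x) = n ∧ TC S s x n x y := by
  constructor
  · rintro ⟨y, hy, hx, hp⟩
    have key : ∀ b, Relation.ReflTransGen (fun a b => nrm (b - a) ≤ 1 ∧ Free S s b) x b →
        Free S s b ∧ ((∃ y, nrm (y - x) = n ∧ TC S s x n x y) ∨
          (nrm (b - x) ≤ n ∧ TC S s x n x b)) := by
      intro b hb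
      induction hb with
      | refl => exact ⟨hx, Or.inr ⟨by rw [sub_self, nrm_zero]; omega, Relation.ReflTransGen.refl⟩⟩
      | @tail b c _ hbc ih =>
        refine ⟨hbc.2, ?_⟩
        rcases ih.2 with h | ⟨h1, h2⟩
        · exact Or.inl h
        · by_cases he : nrm (b - x) = n
          · exact Or.inl ⟨b, he, h2⟩
          · right
            have : nrm (c - x) ≤ n := by
              have := nrm_tri c b x
              have := hbc.1
              omega
            exact ⟨this, Relation.ReflTransGen.tail h2 ⟨hbc.1, h1, this, ih.1, hbc.2⟩⟩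
    rcases (key y hp).2 with h | ⟨h1, h2⟩
    · exact h
    · exact ⟨y, le_antisymm h1 hy, h2⟩
  · rintro ⟨y, hy, hp⟩
    have hxy : x ≠ y := by
      rintro rfl
      rw [sub_self, nrm_zero] at hy; omega
    exact ⟨y, hy.ge, hp.conn (hp.free_left hxy)⟩

theorem reach_zero {S : Finset (V d)} {s : Set (V d)} {x : V d} :
    Reach S s x 0 ↔ Free S s x := by
  constructor
  · rintro ⟨_, _, h⟩; exact h.1
  · intro h; exact ⟨x, Nat.zero_le _, h, Relation.ReflTransGen.refl⟩

/-- `Free` only looks at `x + S`. -/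
theorem free_congr {S : Finset (V d)} {s t : Set (V d)} {x : V d}
    (h : ∀ v ∈ S, x + v ∈ s ↔ x + v ∈ t) : Free S s x ↔ Free S t x := by
  unfold Free
  constructor
  · intro hx v hv hm; exact hx v hv ((h v hv).2 hm)
  · intro hx v hv hm; exact hx v hv ((h v hv).1 hm)

theorem Stp_congr {S : Finset (V d)} {K : ℕ} (hK : S ⊆ box d K) {s t : Set (V d)} {x : V d}
    {n : ℕ} (h : ∀ z, nrm (z - x) ≤ n + K → (z ∈ s ↔ z ∈ t)) {a b : V d} :
    Stp S s x n a b ↔ Stp S t x n a b := by
  have key : ∀ a, nrm (a - x) ≤ n → (Free S s a ↔ Free S t a) := by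
    intro a ha
    refine free_congr fun v hv => h _ ?_
    have := mem_box.1 (hK hv)
    have h2 := nrm_add_le (a - x) v
    have : a + v - x = a - x + v := by abel
    rw [this]; omega
  unfold Stp
  constructor
  · rintro ⟨h1, h2, h3, h4, h5⟩
    exact ⟨h1, h2, h3, (key a h2).1 h4, (key b h3).1 h5⟩
  · rintro ⟨h1, h2, h3, h4, h5⟩
    exact ⟨h1, h2, h3, (key a h2).2 h4, (key b h3).2 h5⟩

theorem TC_congr {S : Finset (V d)} {K : ℕ} (hK : S ⊆ box d K) {s t : Set (V d)} {x : V d}
    {n : ℕ} (h : ∀ z, nrm (z - x) ≤ n + K → (z ∈ s ↔ z ∈ t)) {a b : V d} :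
    TC S s x n a b ↔ TC S t x n a b := by
  unfold TC
  have : Stp S s x n = Stp S t x n := by
    funext a b; exact propext (Stp_congr hK h)
  rw [this]

/-- locality of `Reach` -/
theorem reach_congr {S : Finset (V d)} {K : ℕ} (hK : S ⊆ box d K) {s t : Set (V d)} {x : V d}
    {n : ℕ} (h : ∀ z, nrm (z - x) ≤ n + K → (z ∈ s ↔ z ∈ t)) :
    Reach S s x n ↔ Reach S t x n := by
  rcases Nat.eq_zero_or_pos n with hn | hn
  · subst hn
    rw [reach_zero, reach_zero]
    refine free_congr fun v hv => h _ ?_
    have := mem_box.1 (hK hv)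
    rw [add_sub_cancel_left]; omega
  · rw [reach_iff hn, reach_iff hn]
    simp only [TC_congr hK h]

/-- translation covariance -/
theorem reach_translate {S : Finset (V d)} {s : Set (V d)} {x c : V d} {n : ℕ} :
    Reach S ((fun z => c + z) '' s) (c + x) n ↔ Reach S s x n := by
  have hfree : ∀ y, Free S ((fun z => c + z) '' s) (c + y) ↔ Free S s y := by
    intro y
    unfold Free
    refine forall_congr' fun v => imp_congr_right fun _ => not_congr ?_
    constructor
    · rintro ⟨z, hz, he⟩
      have : z = y + v := by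
        have : c + z = c + (y + v) := by simpa [add_assoc] using he
        exact add_left_cancel this
      rwa [← this]
    · intro h; exact ⟨y + v, h, by simp [add_assoc]⟩
  constructor
  · rintro ⟨y, hy, hx, hp⟩
    refine ⟨y - c, ?_, (hfree x).1 hx, ?_⟩
    · have : y - c - x = y - (c + x) := by abel
      rw [this]; exact hy
    · have key : ∀ b, Relation.ReflTransGen
          (fun a b => nrm (b - a) ≤ 1 ∧ Free S ((fun z => c + z) '' s) b) (c + x) b →
          Relation.ReflTransGen (fun a b => nrm (b - a) ≤ 1 ∧ Free S s b) x (b - c) := by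
        intro b hb
        induction hb with
        | refl => rw [add_sub_cancel_left]
        | @tail b e _ h2 ih =>
          refine Relation.ReflTransGen.tail ih ⟨?_, ?_⟩
          · rw [sub_sub_sub_cancel_right]; exact h2.1
          · have := (hfree (e - c)).1
            rw [add_sub_cancel] at this
            exact this h2.2
      exact key y hp
  · rintro ⟨y, hy, hx, hp⟩
    refine ⟨c + y, ?_, (hfree x).2 hx, ?_⟩
    · rw [add_sub_add_left_eq_sub]; exact hy
    · induction hp with
      | refl => exact Relation.ReflTransGen.refl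
      | @tail b e _ h2 ih =>
        have key : ∀ b, Relation.ReflTransGen (fun a b => nrm (b - a) ≤ 1 ∧ Free S s b) x b →
          Relation.ReflTransGen
          (fun a b => nrm (b - a) ≤ 1 ∧ Free S ((fun z => c + z) '' s) b) (c + x) (c + b) := by
          intro b hb
          induction hb with
          | refl => exact Relation.ReflTransGen.refl
          | @tail b e _ h2 ih =>
            refine Relation.ReflTransGen.tail ih ⟨?_, (hfree e).2 h2.2⟩
            rw [add_sub_add_left_eq_sub]; exact h2.1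
        refine Relation.ReflTransGen.tail (key b (by assumption)) ⟨?_, (hfree e).2 h2.2⟩
        rw [add_sub_add_left_eq_sub]; exact h2.1

/-- crossing a sphere around the origin -/
theorem TC_cross {S : Finset (V d)} {s : Set (V d)} {n k : ℕ} (hk : 1 ≤ k) {y : V d}
    (hy : k ≤ nrm y) (h : TC S s 0 n 0 y) :
    ∃ z, nrm z = k ∧ TC S s 0 n 0 z ∧ TC S s 0 n z y := by
  have key : ∀ b, TC S s 0 n 0 b → nrm b < k ∨
      ∃ z, nrm z = k ∧ TC S s 0 n 0 z ∧ TC S s 0 n z b := by
    intro b hb
    unfold TC at hb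
    induction hb with
    | refl => left; rw [nrm_zero]; omega
    | @tail b c h1 h2 ih =>
      rcases ih with h | ⟨z, h3, h4, h5⟩
      · by_cases hc : nrm c < k
        · exact Or.inl hc
        · right
          have h6 : nrm c = k := by
            have h7 := nrm_le_add c b
            have h8 := h2.1
            omega
          exact ⟨c, h6, Relation.ReflTransGen.tail h1 h2, Relation.ReflTransGen.refl⟩
      · exact Or.inr ⟨z, h3, h4, Relation.ReflTransGen.tail h5 h2⟩
  rcases key y h with h1 | h1
  · omega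
  · exact h1

/-- straight paths inside a ball -/
theorem path_in_ball (c : V d) : ∀ (m : ℕ) (y : V d), nrm (y - c) ≤ m →
    Relation.ReflTransGen (fun a b => nrm (b - a) ≤ 1 ∧ nrm (b - c) ≤ m) c y := by
  intro m
  induction m with
  | zero =>
    intro y hy
    have : y = c := by
      have h := nrm_le_iff.1 hy
      funext j
      have := h j
      simp only [Pi.sub_apply] at this
      omega
    rw [this]
  | succ m ih =>
    intro y hy
    set y' : V d := fun j => y j - Int.sign (y j - c j) with hy'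
    have h := nrm_le_iff.1 hy
    have h1 : nrm (y' - c) ≤ m := by
      rw [nrm_le_iff]
      intro j
      have hj := h j
      simp only [Pi.sub_apply] at hj ⊢
      simp only [hy']
      rcases lt_trichotomy (y j - c j) 0 with h2 | h2 | h2
      · rw [Int.sign_eq_neg_one_of_neg h2]; omega
      · rw [h2, Int.sign_zero]; omega
      · rw [Int.sign_eq_one_of_pos h2]; omega
    have h3 : nrm (y - y') ≤ 1 := by
      rw [nrm_le_iff]
      intro j
      simp only [Pi.sub_apply, hy']
      rcases lt_trichotomy (y j - c j) 0 with h2 | h2 | h2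
      · rw [Int.sign_eq_neg_one_of_neg h2]; omega
      · rw [h2, Int.sign_zero]; omega
      · rw [Int.sign_eq_one_of_pos h2]; omega
    refine Relation.ReflTransGen.tail ?_ ⟨h3, hy⟩
    exact rtg_mono (fun a b hab => ⟨hab.1, by omega⟩) (ih y' h1)

end Pool.Agent.F368
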