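import Pool.Agent.F368.Defs
import Pool.Agent.F368.Geom

/-!
Cells, and the deterministic geometry of trajectories.
-/

open Set Filter Topology
open scoped ENNReal NNReal

namespace Pool.Agent.F368

variable {d : ℕ}

/-- index of the cell (of side `a`) containing `x` -/
noncomputable def cell (a : ℝ) (x : E d) : V d := fun j => ⌊x j / a⌋

/-- corner of a cell -/
noncomputable def pt (a : ℝ) (c : V d) : E d := WithLp.toLp 2 (fun j => a * (c j : ℝ))

/-- occupied cells -/
def occ (a : ℝ) (y : ℕ → E d) : Set (V d) := {c | ∃ i, cell a (y i) = c}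

open Classical in
/-- the range: integer vectors of Euclidean norm at most `κ` -/
noncomputable def rangeS (d K : ℕ) (κ : ℝ) : Finset (V d) :=
  (box d K).filter (fun v => ‖pt 1 v‖ ≤ κ)

theorem rangeS_subset (d K : ℕ) (κ : ℝ) : rangeS d K κ ⊆ box d K := by
  classical
  exact Finset.filter_subset _ _

@[simp] theorem pt_apply (a : ℝ) (c : V d) (j : Fin d) : pt a c j = a * (c j : ℝ) := rfl

theorem norm_le_of_coord {x : E d} {b : ℝ} (hb : 0 ≤ b) (h : ∀ j, |x j| ≤ b) :
    ‖x‖ ≤ Real.sqrt d * b := by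
  rw [EuclideanSpace.norm_eq]
  have h1 : ∑ j, ‖x j‖ ^ 2 ≤ d * b ^ 2 := by
    calc ∑ j, ‖x j‖ ^ 2 ≤ ∑ _j : Fin d, b ^ 2 := by
          refine Finset.sum_le_sum fun j _ => ?_
          rw [Real.norm_eq_abs]
          exact pow_le_pow_left₀ (abs_nonneg _) (h j) 2
      _ = d * b ^ 2 := by simp
  calc Real.sqrt (∑ j, ‖x j‖ ^ 2) ≤ Real.sqrt (d * b ^ 2) := Real.sqrt_le_sqrt h1
    _ = Real.sqrt d * b := by
        rw [Real.sqrt_mul (Nat.cast_nonneg _), Real.sqrt_sq hb]

theorem abs_coord_le_norm (x : E d) (j : Fin d) : |x j| ≤ ‖x‖ := by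
  have := PiLp.norm_apply_le x j
  rwa [Real.norm_eq_abs] at this

theorem pt_add (a : ℝ) (c v : V d) : pt a (c + v) = pt a c + pt a v := by
  ext j
  simp [mul_add]

theorem pt_sub (a : ℝ) (c v : V d) : pt a (c - v) = pt a c - pt a v := by
  ext j
  simp [mul_sub]

theorem pt_zero (a : ℝ) : pt a (0 : V d) = 0 := by
  ext j; simp

theorem norm_pt (a : ℝ) (ha : 0 ≤ a) (c : V d) : ‖pt a c‖ = a * ‖pt 1 c‖ := by
  have : pt a c = a • pt 1 c := by
    ext j; simp
  rw [this, norm_smul, Real.norm_eq_abs, abs_of_nonneg ha]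

theorem norm_pt_le (a : ℝ) (ha : 0 ≤ a) {c : V d} {m : ℕ} (h : nrm c ≤ m) :
    ‖pt a c‖ ≤ Real.sqrt d * (a * m) := by
  refine norm_le_of_coord (by positivity) fun j => ?_
  rw [pt_apply, abs_mul, abs_of_nonneg ha]
  have h1 := nrm_le_iff.1 h j
  have h2 : |(c j : ℝ)| ≤ m := by
    rw [← Int.cast_abs, Int.abs_eq_natAbs]
    exact_mod_cast h1
  exact mul_le_mul_of_nonneg_left h2 ha

theorem nrm_le_norm_pt (c : V d) : (nrm c : ℝ) ≤ ‖pt 1 c‖ := by
  rcases Nat.eq_zero_or_pos d with hd | hd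
  · subst hd
    have : nrm c = 0 := by
      apply Nat.le_zero.1; rw [nrm_le_iff]; intro j; exact j.elim0
    rw [this]; simp
  · have hne : (Finset.univ : Finset (Fin d)).Nonempty := ⟨⟨0, hd⟩, Finset.mem_univ _⟩
    obtain ⟨j, _, hj⟩ := Finset.exists_mem_eq_sup Finset.univ hne (fun j => (c j).natAbs)
    have h1 : nrm c = (c j).natAbs := hj
    have h2 := abs_coord_le_norm (pt 1 c) j
    rw [pt_apply, one_mul] at h2
    rw [h1]
    have h3 : ((c j).natAbs : ℝ) = |(c j : ℝ)| := by
      rw [← Int.cast_abs, Int.abs_eq_natAbs]; simp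
    rw [h3]; exact h2

theorem mem_rangeS {K : ℕ} {κ : ℝ} (hK : κ ≤ K) {v : V d} :
    v ∈ rangeS d K κ ↔ ‖pt 1 v‖ ≤ κ := by
  classical
  unfold rangeS
  rw [Finset.mem_filter]
  constructor
  · exact fun h => h.2
  · intro h
    refine ⟨mem_box.2 ?_, h⟩
    have := nrm_le_norm_pt v
    exact_mod_cast (this.trans h).trans hK

theorem zero_mem_rangeS {K : ℕ} {κ : ℝ} (hK : κ ≤ K) (hκ : 0 ≤ κ) : (0 : V d) ∈ rangeS d K κ := by
  rw [mem_rangeS hK, pt_zero, norm_zero]; exact hκ

theorem dist_cell {a : ℝ} (ha : 0 < a) (x : E d) : ‖x - pt a (cell a x)‖ ≤ Real.sqrt d * a := by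
  refine norm_le_of_coord ha.le fun j => ?_
  have h1 := Int.floor_le (x j / a)
  have h2 := Int.lt_floor_add_one (x j / a)
  have h3 : (x - pt a (cell a x)) j = x j - a * (⌊x j / a⌋ : ℝ) := rfl
  have h4 : x j = a * (x j / a) := by field_simp
  rw [h3, abs_le]
  have h5 : a * (⌊x j / a⌋ : ℝ) ≤ a * (x j / a) := mul_le_mul_of_nonneg_left h1 ha.le
  have h6 : a * (x j / a) ≤ a * ((⌊x j / a⌋ : ℝ) + 1) := mul_le_mul_of_nonneg_left h2.le ha.le
  constructor <;> nlinarith

/-- a node in a cell in the range of the cell of `x` is close to `x` -/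
theorem dist_le_of_range {a : ℝ} (ha : 0 < a) {K : ℕ} {κ : ℝ} (hK : κ ≤ K) {x y : E d} {v : V d}
    (hv : v ∈ rangeS d K κ) (h : cell a y = cell a x + v) :
    ‖x - y‖ ≤ 2 * (Real.sqrt d * a) + a * κ := by
  have h1 := dist_cell ha x
  have h2 := dist_cell ha y
  have h3 : ‖pt a v‖ ≤ a * κ := by
    rw [norm_pt a ha.le]
    exact mul_le_mul_of_nonneg_left ((mem_rangeS hK).1 hv) ha.le
  have h4 : x - y = (x - pt a (cell a x)) - (y - pt a (cell a y)) - pt a v := by
    rw [h, pt_add]; abel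
  rw [h4]
  refine (norm_sub_le _ _).trans ?_
  refine (add_le_add (norm_sub_le _ _) le_rfl).trans ?_
  linarith

theorem cell_close {a : ℝ} (ha : 0 < a) {x y : E d} (h : ‖x - y‖ < a) :
    nrm (cell a x - cell a y) ≤ 1 := by
  rw [nrm_le_iff]
  intro j
  have h1 : |x j - y j| < a := lt_of_le_of_lt (abs_coord_le_norm (x - y) j) h
  have h2 : |x j / a - y j / a| < 1 := by
    rw [← sub_div, abs_div, abs_of_pos ha, div_lt_one ha]; exact h1
  rw [abs_lt] at h2
  have h3 : (cell a x - cell a y) j = ⌊x j / a⌋ - ⌊y j / a⌋ := rfl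
  rw [h3]
  have a1 := Int.floor_le (x j / a)
  have a2 := Int.lt_floor_add_one (x j / a)
  have a3 := Int.floor_le (y j / a)
  have a4 := Int.lt_floor_add_one (y j / a)
  have b1 : (⌊x j / a⌋ : ℝ) < (⌊y j / a⌋ : ℝ) + 2 := by linarith
  have b2 : (⌊y j / a⌋ : ℝ) < (⌊x j / a⌋ : ℝ) + 2 := by linarith
  have c1 : ⌊x j / a⌋ < ⌊y j / a⌋ + 2 := by exact_mod_cast b1
  have c2 : ⌊y j / a⌋ < ⌊x j / a⌋ + 2 := by exact_mod_cast b2
  omega

/-- a continuous path visiting only free cells near its starting point stays near it -/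
theorem path_lift {a : ℝ} (ha : 0 < a) {h : ℝ≥0 → E d} {I : Set ℝ≥0} (hI : IsPreconnected I)
    (hc : ContinuousOn h I) {u0 : ℝ≥0} (hu0 : u0 ∈ I) {S : Finset (V d)} {O : Set (V d)} {L : ℕ}
    (hfree : ∀ u ∈ I, nrm (cell a (h u) - cell a (h u0)) ≤ L → Free S O (cell a (h u)))
    (hL : ¬ Reach S O (cell a (h u0)) L) :
    ∀ u ∈ I, nrm (cell a (h u) - cell a (h u0)) < L := by
  set z := cell a (h u0) with hz
  have key : ∀ u ∈ I, Conn S O z (cell a (h u)) := by
    intro u hu
    have hP : Conn S O z (cell a (h u0)) → Conn S O z (cell a (h u)) := by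
      refine hI.induction₂' (fun u u' => Conn S O z (cell a (h u)) → Conn S O z (cell a (h u')))
        ?_ ?_ hu0 hu
      · intro x hx
        have h1 : ∀ᶠ y in 𝓝[I] x, ‖h y - h x‖ < a := by
          have := (hc x hx)
          rw [ContinuousWithinAt, Metric.tendsto_nhds] at this
          have := this a ha
          filter_upwards [this] with y hy
          rwa [dist_eq_norm] at hy
        filter_upwards [h1, self_mem_nhdsWithin] with y hy hyI
        have step : ∀ p q, p ∈ I → q ∈ I → ‖h q - h p‖ < a → Conn S O z (cell a (h p)) →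
            Conn S O z (cell a (h q)) := by
          intro p q hp hq hpq hcp
          have h2 : nrm (cell a (h p) - z) < L := by
            by_contra hcon
            push Not at hcon
            exact hL ⟨cell a (h p), hcon, hcp⟩
          have h3 : nrm (cell a (h q) - cell a (h p)) ≤ 1 := cell_close ha hpq
          have h4 : nrm (cell a (h q) - z) ≤ L := by
            have := nrm_tri (cell a (h q)) (cell a (h p)) z
            omega
          exact ⟨hcp.1, Relation.ReflTransGen.tail hcp.2 ⟨h3, hfree q hq h4⟩⟩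
        refine ⟨step x y hx hyI hy, step y x hyI hx ?_⟩
        rw [norm_sub_rev]; exact hy
      · intro x y w _ _ _ h1 h2 h3
        exact h2 (h1 h3)
    apply hP
    refine ⟨hfree u0 hu0 ?_, Relation.ReflTransGen.refl⟩
    rw [sub_self, nrm_zero]; omega
  intro u hu
  by_contra hcon
  push Not at hcon
  exact hL ⟨cell a (h u), hcon, key u hu⟩

/-- segments between adjacent free cells are vacant -/
theorem segment_vacant {a r1 κ : ℝ} (ha : 0 < a) {K : ℕ} (hK : κ ≤ K)
    (hκ : r1 + 2 * (Real.sqrt d * a) ≤ a * κ) {y : ℕ → E d} {c b : V d}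
    (hcb : nrm (b - c) ≤ 1) (hc : Free (rangeS d K κ) (occ a y) c) :
    segment ℝ (pt a c) (pt a b) ⊆ (detected r1 y)ᶜ := by
  intro x hx
  rw [Set.mem_compl_iff]
  unfold detected
  rw [Set.mem_iUnion]
  rintro ⟨i, hi⟩
  rw [Metric.mem_ball, dist_eq_norm] at hi
  apply hc (cell a (y i) - c)
  · rw [mem_rangeS hK]
    -- norm estimate
    have h1 := dist_cell ha (y i)
    have h2 : ‖x - pt a c‖ ≤ Real.sqrt d * a := by
      rw [segment_eq_image'] at hx
      obtain ⟨t, ht, rfl⟩ := hx
      have e : pt a c + t • (pt a b - pt a c) - pt a c = t • pt a (b - c) := by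
        rw [pt_sub]; abel
      rw [e, norm_smul, Real.norm_eq_abs, abs_of_nonneg ht.1]
      have h3 := norm_pt_le a ha.le hcb
      calc t * ‖pt a (b - c)‖ ≤ 1 * ‖pt a (b - c)‖ :=
            mul_le_mul_of_nonneg_right ht.2 (norm_nonneg _)
        _ ≤ Real.sqrt d * a := by rw [one_mul]; simpa using h3
    have h4 : ‖pt a (cell a (y i) - c)‖ ≤ a * κ := by
      have e : pt a (cell a (y i) - c) = -(y i - pt a (cell a (y i))) - (x - y i) + (x - pt a c) := by
        rw [pt_sub]; abel
      rw [e]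
      refine (norm_add_le _ _).trans ?_
      refine (add_le_add (norm_sub_le _ _) le_rfl).trans ?_
      rw [norm_neg]
      linarith
    rw [norm_pt a ha.le] at h4
    exact le_of_mul_le_mul_left h4 ha
  · exact ⟨i, by abel⟩

/-- if the origin is connected by free cells to arbitrarily large distances, the vacant region has
an unbounded component -/
theorem hasUnbounded_of_reach {a r1 κ : ℝ} (ha : 0 < a) {K : ℕ} (hK : κ ≤ K)
    (hκ : r1 + 2 * (Real.sqrt d * a) ≤ a * κ) {y : ℕ → E d}
    (h : ∀ n, Reach (rangeS d K κ) (occ a y) 0 n) : HasUnbounded r1 y := by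
  have hfree0 : Free (rangeS d K κ) (occ a y) 0 := reach_zero.1 (h 0)
  have h0 : (0 : E d) ∈ (detected r1 y)ᶜ := by
    have := segment_vacant ha hK hκ (y := y) (c := 0) (b := 0)
      (by rw [sub_self, nrm_zero]; omega) hfree0
    rw [pt_zero] at this
    exact this (left_mem_segment ℝ _ _)
  refine ⟨0, h0, ?_⟩
  have key : ∀ b, Conn (rangeS d K κ) (occ a y) 0 b →
      pt a b ∈ connectedComponentIn (detected r1 y)ᶜ 0 := by
    rintro b ⟨hf, hp⟩
    have : Free (rangeS d K κ) (occ a y) b ∧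
        pt a b ∈ connectedComponentIn (detected r1 y)ᶜ 0 := by
      induction hp with
      | refl => exact ⟨hf, by rw [pt_zero]; exact mem_connectedComponentIn h0⟩
      | @tail b c _ hbc ih =>
        refine ⟨hbc.2, ?_⟩
        have hseg := segment_vacant ha hK hκ (y := y) (c := b) (b := c) hbc.1 ih.1
        have hpre : IsPreconnected (segment ℝ (pt a b) (pt a c)) :=
          (convex_segment _ _).isPreconnected
        have := hpre.subset_connectedComponentIn (left_mem_segment ℝ _ _) hseg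
        rw [connectedComponentIn_eq ih.2]
        exact this (right_mem_segment ℝ _ _)
    exact this.2
  intro hb
  obtain ⟨R, hR⟩ := hb.exists_norm_le
  obtain ⟨n, hn⟩ := exists_nat_gt (R / a)
  obtain ⟨b, hb1, hb2⟩ := h n
  rw [sub_zero] at hb1
  have h1 := hR _ (key b hb2)
  rw [norm_pt a ha.le] at h1
  have h2 := nrm_le_norm_pt b
  have h3 : (n : ℝ) ≤ nrm b := by exact_mod_cast hb1
  rw [div_lt_iff₀ ha] at hn
  nlinarith

end Pool.Agent.F368
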