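import Mathlib

/-!
Elementary choices of constants.
-/

namespace Pool.Agent.F368

theorem exists_geom {sd r r1 : ℝ} (hsd : 0 < sd) (hr1 : 0 < r1) (hr1r : r1 < r) :
    ∃ a0 a κ δ : ℝ, 0 < a0 ∧ a0 < a ∧ 0 < κ ∧ 0 < δ ∧ δ < r ∧ r1 + 2 * (sd * a0) ≤ a0 * κ ∧
      2 * (sd * a) + a * κ + δ < r := by
  have hr : 0 < r := hr1.trans hr1r
  obtain ⟨a0, ha0⟩ : ∃ a0, a0 = (r - r1) / (8 * sd) := ⟨_, rfl⟩
  have ha0pos : 0 < a0 := by rw [ha0]; apply div_pos (by linarith) (by positivity)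
  have ha0sd : sd * a0 = (r - r1) / 8 := by rw [ha0]; field_simp
  obtain ⟨κ, hκ⟩ : ∃ κ, κ = (r1 + 2 * (sd * a0)) / a0 := ⟨_, rfl⟩
  have hκpos : 0 < κ := by rw [hκ]; positivity
  have ha0κ : a0 * κ = r1 + 2 * (sd * a0) := by rw [hκ]; field_simp
  obtain ⟨t, ht⟩ : ∃ t, t = (3 * r + r1) / (2 * (r + r1)) := ⟨_, rfl⟩
  have ht1 : 1 < t := by rw [ht, one_lt_div (by positivity)]; linarith
  refine ⟨a0, a0 * t, κ, (r - r1) / 8, ha0pos, by nlinarith, hκpos, by linarith, by linarith,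
    ha0κ.ge, ?_⟩
  have e1 : 2 * (sd * (a0 * t)) + a0 * t * κ = t * (2 * (sd * a0) + a0 * κ) := by ring
  have e2 : t * (2 * (sd * a0) + a0 * κ) = (3 * r + r1) / 4 := by
    rw [ha0κ, ha0sd, ht]; field_simp; ring
  rw [e1, e2]; linarith

theorem exists_intens {lam x y : ℝ} (hlam : 0 < lam) (hx : 0 < x) (hxy : x < y) :
    ∃ lam3 lam4 : ℝ, 0 < lam3 ∧ lam3 < lam4 ∧ lam4 < lam ∧ lam * x < lam3 * y := by
  have hy : 0 < y := hx.trans hxy
  obtain ⟨lam2, h2⟩ : ∃ lam2, lam2 = lam * x / y := ⟨_, rfl⟩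
  have h2pos : 0 < lam2 := by rw [h2]; positivity
  have h2lt : lam2 < lam := by
    rw [h2, div_lt_iff₀ hy]
    exact mul_lt_mul_of_pos_left hxy hlam
  have h2y : lam2 * y = lam * x := by rw [h2]; field_simp
  refine ⟨(lam2 + lam) / 2, ((lam2 + lam) / 2 + lam) / 2, by linarith, by linarith, by linarith, ?_⟩
  rw [← h2y]
  exact mul_lt_mul_of_pos_right (by linarith) hy

theorem exists_eta {lam lam3 δ : ℝ} {d : ℕ} (hd : 1 ≤ d) (hlam : 0 < lam) (h3 : lam3 < lam)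
    (hδ : 0 < δ) :
    ∃ η : ℝ, 0 < η ∧ lam3 ≤ lam * (1 - 4 * d ^ 2 * η / δ ^ 2) := by
  have hdR : (1 : ℝ) ≤ d := by exact_mod_cast hd
  refine ⟨(lam - lam3) * δ ^ 2 / (4 * d ^ 2 * lam), ?_, ?_⟩
  · apply div_pos (mul_pos (by linarith) (by positivity)) (by positivity)
  · apply le_of_eq
    field_simp
    ring

theorem exists_epsw {lam3 lam4 : ℝ} (h3 : 0 < lam3) (h34 : lam3 < lam4) :
    ∃ εw : ℝ, 0 < εw ∧ lam4 * (1 - εw) = (lam4 + lam3) / 2 := by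
  have h4 : 0 < lam4 := h3.trans h34
  refine ⟨(lam4 - lam3) / (2 * lam4), ?_, ?_⟩
  · apply div_pos (by linarith) (by positivity)
  · field_simp; ring

theorem exists_beta {lam lam4 : ℝ} (h4 : 0 < lam4) (h4l : lam4 < lam) :
    ∃ β c2 : ℝ, 0 < β ∧ 0 < c2 ∧ c2 = lam * (1 - Real.exp (-β)) - β * lam4 := by
  have hlam : 0 < lam := h4.trans h4l
  obtain ⟨β, hβ⟩ : ∃ β, β = (lam - lam4) / (2 * lam4) := ⟨_, rfl⟩
  have hβpos : 0 < β := by rw [hβ]; apply div_pos (by linarith) (by positivity)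
  refine ⟨β, _, hβpos, ?_, rfl⟩
  have e1 : Real.exp (-β) ≤ 1 / (1 + β) := by
    rw [Real.exp_neg, ← one_div]
    apply one_div_le_one_div_of_le (by linarith)
    have := Real.add_one_le_exp β
    linarith
  have e2 : β / (1 + β) ≤ 1 - Real.exp (-β) := by
    have : β / (1 + β) = 1 - 1 / (1 + β) := by field_simp; ring
    rw [this]; linarith
  have e3 : (1 + β) * lam4 = (lam + lam4) / 2 := by rw [hβ]; field_simp; ring
  have e4 : β * lam4 < lam * (β / (1 + β)) := by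
    have e5 : lam * (β / (1 + β)) = lam * β / (1 + β) := by ring
    rw [e5, lt_div_iff₀ (by linarith)]
    have : β * ((1 + β) * lam4) < β * lam := by
      rw [e3]; apply mul_lt_mul_of_pos_left _ hβpos; linarith
    nlinarith
  have e5 := mul_le_mul_of_nonneg_left e2 hlam.le
  linarith

theorem exists_kappa0 {x r δ : ℝ} (hx : 0 < x) (hδ : δ < r) :
    ∃ κ0 : ℝ, 0 < κ0 ∧ κ0 < 1 ∧ κ0 * x + δ < r := by
  refine ⟨min (1 / 2) ((r - δ) / (2 * x)), ?_, ?_, ?_⟩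
  · apply lt_min (by norm_num)
    apply div_pos (by linarith) (by positivity)
  · exact lt_of_le_of_lt (min_le_left _ _) (by norm_num)
  · have e3 := mul_le_mul_of_nonneg_right (min_le_right (1 / 2) ((r - δ) / (2 * x))) hx.le
    have e4 : (r - δ) / (2 * x) * x = (r - δ) / 2 := by field_simp
    rw [e4] at e3
    linarith

end Pool.Agent.F368
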