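import Mathlib

/-!
Definitions for MP_f368f5_pr (mobile Poisson nodes, detection of a non-anticipating target).
-/

open MeasureTheory ProbabilityTheory Set Filter Topology
open scoped ENNReal NNReal

namespace Pool.Agent.F368

/-- Euclidean space `ℝ^d`. -/
abbrev E (d : ℕ) := EuclideanSpace ℝ (Fin d)

/-- Number of indices `i` with `x i ∈ B` (number of points of the configuration in `B`). -/
noncomputable def cnt {d : ℕ} (x : ℕ → E d) (B : Set (E d)) : ℕ∞ := Set.encard {i | x i ∈ B}

/-- `X 0, X 1, …` enumerate a Poisson point process of intensity `lam` on `ℝ^d`: the numbers of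
points in finitely many pairwise disjoint bounded Borel sets `B 0, …, B (n-1)` are independent
Poisson variables with means `lam * vol (B i)`. -/
structure IsPoisson {Ω : Type*} [MeasurableSpace Ω] (P : Measure Ω) {d : ℕ} (lam : ℝ)
    (X : ℕ → Ω → E d) : Prop where
  meas : ∀ i, Measurable (X i)
  law : ∀ (n : ℕ) (B : Fin n → Set (E d)) (k : Fin n → ℕ),
    (∀ i, MeasurableSet (B i)) → (∀ i, Bornology.IsBounded (B i)) →
    Pairwise (Function.onFun Disjoint B) →
    P {ω | ∀ i, cnt (fun j => X j ω) (B i) = (k i : ℕ∞)} =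
      ENNReal.ofReal (∏ i, (Real.exp (-(lam * volume.real (B i))) *
        (lam * volume.real (B i)) ^ (k i) / (k i).factorial))

/-- `ζ 0, ζ 1, …` are independent standard Brownian motions in `ℝ^d`, started at `0`. -/
structure IsBMFam {Ω : Type*} [MeasurableSpace Ω] (P : Measure Ω) {d : ℕ}
    (ζ : ℕ → ℝ≥0 → Ω → E d) : Prop where
  meas : ∀ i t, Measurable (ζ i t)
  brownian : ∀ i j, IsBrownianReal (fun t ω => ζ i t ω j) P
  indep : iIndepFun (fun (ij : ℕ × Fin d) ω (t : ℝ≥0) => ζ ij.1 t ω ij.2) P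

/-- Mobile Poisson nodes: the initial positions `X i` form a Poisson process of intensity `lam`
and, independently of them, node `i` moves according to the Brownian motion `ζ i`. -/
structure IsMobile {Ω : Type*} [MeasurableSpace Ω] (P : Measure Ω) {d : ℕ} (lam : ℝ)
    (X : ℕ → Ω → E d) (ζ : ℕ → ℝ≥0 → Ω → E d) : Prop where
  poisson : IsPoisson P lam X
  bm : IsBMFam P ζ
  indep : IndepFun (fun ω i => X i ω) (fun ω i t => ζ i t ω) P

/-- Positions of the nodes at time `s`. -/
def pos {Ω : Type*} {d : ℕ} (X : ℕ → Ω → E d) (ζ : ℕ → ℝ≥0 → Ω → E d) (s : ℝ≥0) (ω : Ω) :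
    ℕ → E d := fun i => X i ω + ζ i s ω

/-- Detected region: union of the balls of radius `r` around the points of the configuration. -/
def detected {d : ℕ} (r : ℝ) (y : ℕ → E d) : Set (E d) := ⋃ i, Metric.ball (y i) r

/-- The vacant region has an unbounded connected component. -/
def HasUnbounded {d : ℕ} (r : ℝ) (y : ℕ → E d) : Prop :=
  ∃ x ∈ (detected r y)ᶜ, ¬ Bornology.IsBounded (connectedComponentIn (detected r y)ᶜ x)

/-- Vacancy percolation threshold: supremum of the intensities for which the vacant region of the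
Poisson process has an unbounded connected component with positive probability. -/
noncomputable def lamCrit (d : ℕ) (r : ℝ) : ℝ≥0∞ :=
  sSup {l | ∃ lam : ℝ≥0, 0 < lam ∧ l = lam ∧ ∃ (Ω : Type) (_ : MeasurableSpace Ω)
    (P : Measure Ω) (X : ℕ → Ω → E d), IsPoisson P (lam : ℝ) X ∧
      0 < P {ω | HasUnbounded r (fun i => X i ω)}}

/-- The σ-algebra generated by the node configurations `Π_u`, `u < s`. -/
@[reducible] noncomputable def pastSigma {Ω : Type*} {d : ℕ} (X : ℕ → Ω → E d) (ζ : ℕ → ℝ≥0 → Ω → E d) (s : ℝ≥0) :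
    MeasurableSpace Ω :=
  ⨆ (u : ℝ≥0) (_ : u < s) (B : Set (E d)) (_ : MeasurableSet B),
    MeasurableSpace.comap (fun ω => cnt (pos X ζ u ω) B) ⊤

/-- A non-anticipating target: a random continuous trajectory started at `0`, whose position at
time `s` is determined by the node configurations at times `u < s`. -/
structure IsNonAnticipating {Ω : Type*} {d : ℕ} (X : ℕ → Ω → E d) (ζ : ℕ → ℝ≥0 → Ω → E d)
    (g : Ω → ℝ≥0 → E d) : Prop where
  cont : ∀ ω, Continuous (g ω)
  zero : ∀ ω, g ω 0 = 0
  adapted : ∀ s, Measurable[pastSigma X ζ s] (fun ω => g ω s)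

/-- Detection time of a trajectory `h` when the node configuration at time `t` is `y t`. -/
noncomputable def detTime {d : ℕ} (r : ℝ) (y : ℝ≥0 → ℕ → E d) (h : ℝ≥0 → E d) : ℝ≥0∞ :=
  sInf ((fun t : ℝ≥0 => (t : ℝ≥0∞)) '' {t | h t ∈ detected r (y t)})

/-- `lamPast`: infimum of the `l₀` such that for all intensities `lam > l₀` every non-anticipating
target is detected almost surely. -/
noncomputable def lamPast (d : ℕ) (r : ℝ) : ℝ≥0∞ :=
  sInf {l₀ | ∀ lam : ℝ≥0, 0 < lam → l₀ < lam → ∀ (Ω : Type) (_ : MeasurableSpace Ω)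
    (P : Measure Ω) (X : ℕ → Ω → E d) (ζ : ℕ → ℝ≥0 → Ω → E d), IsMobile P (lam : ℝ) X ζ →
      ∀ g : Ω → ℝ≥0 → E d, IsNonAnticipating X ζ g →
        ∀ᵐ ω ∂P, detTime r (fun t => pos X ζ t ω) (g ω) < ⊤}

end Pool.Agent.F368
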