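import Pool.Agent.F368.Cells

/-!
Deterministic lemmas on an undetected target: it moves little during a short time interval, and
it is caught if the nodes around it contract.
-/

open Set Filter Topology
open scoped ENNReal NNReal

namespace Pool.Agent.F368

variable {d : ℕ}

theorem forall_le_of_dense {f : ℝ≥0 → ℝ} (hf : Continuous f) {T : ℝ≥0} (hT : 0 < T) {b : ℝ}
    (h : ∀ n, TopologicalSpace.denseSeq ℝ≥0 n ≤ T → f (TopologicalSpace.denseSeq ℝ≥0 n) ≤ b) :
    ∀ u ≤ T, f u ≤ b := by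
  have hclosed : IsClosed {u | f u ≤ b} := isClosed_le hf continuous_const
  have h1 : Set.Iio T ∩ Set.range (TopologicalSpace.denseSeq ℝ≥0) ⊆ {u | f u ≤ b} := by
    rintro u ⟨hu, n, rfl⟩
    exact h n (le_of_lt hu)
  have h2 : Set.Iio T ⊆ closure (Set.Iio T ∩ Set.range (TopologicalSpace.denseSeq ℝ≥0)) :=
    (TopologicalSpace.denseRange_denseSeq ℝ≥0).open_subset_closure_inter isOpen_Iio
  have h3 : closure (Set.Iio T) ⊆ {u | f u ≤ b} := by
    refine closure_minimal (h2.trans (closure_minimal h1 hclosed)) hclosed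
  intro u hu
  apply h3
  rw [closure_Iio' (a := T) ⟨(0 : ℝ≥0), hT⟩]
  exact hu

/-- set of cells occupied by a node which moves at most `δ` during `[0, η]` -/
def slowOcc (a : ℝ) (y : ℕ → E d) (m : ℕ → ℝ≥0 → E d) (η : ℝ≥0) (δ : ℝ) : Set (V d) :=
  {c | ∃ i, cell a (y i) = c ∧ ∀ n, TopologicalSpace.denseSeq ℝ≥0 n ≤ η →
    ‖m i (TopologicalSpace.denseSeq ℝ≥0 n)‖ ≤ δ}

theorem reach_step {a κ r δ : ℝ} (ha : 0 < a) {K : ℕ} (hK : κ ≤ K)
    (hr : 2 * (Real.sqrt d * a) + a * κ + δ < r) {y : ℕ → E d} {m : ℕ → ℝ≥0 → E d}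
    (hm : ∀ i, Continuous (m i)) {g : ℝ≥0 → E d} (hg : Continuous g) {η : ℝ≥0} (hη : 0 < η)
    (hund : ∀ u ≤ η, g u ∉ detected r (fun i => y i + m i u)) {L : ℕ}
    (hL : ¬ Reach (rangeS d K κ) (slowOcc a y m η δ) (cell a (g 0)) L) :
    ∀ u ≤ η, nrm (cell a (g u) - cell a (g 0)) < L := by
  have hI : IsPreconnected (Set.Icc (0 : ℝ≥0) η) := isPreconnected_Icc
  intro u hu
  refine path_lift ha hI hg.continuousOn (u0 := 0) ⟨le_rfl, zero_le'⟩
    (S := rangeS d K κ) (O := slowOcc a y m η δ) (L := L) ?_ hL u ⟨zero_le', hu⟩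
  intro w hw _ v hv hmem
  obtain ⟨i, hi, hslow⟩ := hmem
  apply hund w hw.2
  unfold detected
  rw [Set.mem_iUnion]
  refine ⟨i, ?_⟩
  rw [Metric.mem_ball, dist_eq_norm]
  have h1 := dist_le_of_range ha hK hv hi
  have h2 : ‖m i w‖ ≤ δ := forall_le_of_dense (hm i).norm hη hslow w hw.2
  have e : g w - (y i + m i w) = (g w - y i) - m i w := by abel
  rw [e]
  refine lt_of_le_of_lt (norm_sub_le _ _) ?_
  linarith

/-- the nodes of the cells around `z` follow the contraction towards `pt a z` -/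
def FollowEv (a : ℝ) (κ0 δ : ℝ) (M : ℕ) (z : V d) (y : ℕ → E d) (m : ℕ → ℝ≥0 → E d) : Prop :=
  ∀ c, nrm (c - z) ≤ M → ∀ i, cell a (y i) = c → (∀ i' < i, cell a (y i') ≠ c) →
    ∀ n, TopologicalSpace.denseSeq ℝ≥0 n ≤ 1 →
      ‖m i (TopologicalSpace.denseSeq ℝ≥0 n) +
        ((TopologicalSpace.denseSeq ℝ≥0 n : ℝ≥0) : ℝ) • ((1 - κ0) • (y i - pt a z))‖ ≤ δ

theorem kill_step {a κ r δ κ0 : ℝ} (ha : 0 < a) {K : ℕ} (hK : κ ≤ K) (hκ : 0 ≤ κ)
    (hδ : 0 ≤ δ) (hr : 2 * (Real.sqrt d * a) + a * κ + δ < r) (hκ0 : 0 < κ0) (hκ1 : κ0 < 1)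
    {L : ℕ} (hr2 : κ0 * (Real.sqrt d * (a * (2 * (L + K + 2)))) + δ < r)
    {y : ℕ → E d} {m : ℕ → ℝ≥0 → E d}
    (hm : ∀ i, Continuous (m i)) {g : ℝ≥0 → E d} (hg : Continuous g)
    (hfol : FollowEv a κ0 δ (L + K) (cell a (g 0)) y m)
    (hL : ¬ Reach (rangeS d K κ) (occ a y) (cell a (g 0)) L) :
    ∃ u ≤ (1 : ℝ≥0), g u ∈ detected r (fun i => y i + m i u) := by
  classical
  by_contra hund
  push Not at hund
  set z := cell a (g 0) with hz
  set o := pt a z with ho
  set S := rangeS d K κ with hS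
  -- follow property for all times
  have hfol' : ∀ c, nrm (c - z) ≤ L + K → c ∈ occ a y → ∃ i, cell a (y i) = c ∧
      ∀ u ≤ (1 : ℝ≥0), ‖m i u + (u : ℝ) • ((1 - κ0) • (y i - o))‖ ≤ δ := by
    intro c hc hocc
    have hex : ∃ i, cell a (y i) = c := hocc
    refine ⟨Nat.find hex, Nat.find_spec hex, ?_⟩
    have h1 := hfol c hc (Nat.find hex) (Nat.find_spec hex) (fun i' hi' => Nat.find_min hex hi')
    have hcont : Continuous (fun u : ℝ≥0 => ‖m (Nat.find hex) u +
        (u : ℝ) • ((1 - κ0) • (y (Nat.find hex) - o))‖) := by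
      refine Continuous.norm ((hm _).add ?_)
      exact (NNReal.continuous_coe).smul continuous_const
    exact forall_le_of_dense hcont one_pos h1
  -- the rescaled path
  set τ : ℝ≥0 → ℝ := fun u => 1 - (1 - κ0) * u with hτ
  have hτpos : ∀ u ≤ (1 : ℝ≥0), κ0 ≤ τ u := by
    intro u hu
    have : (u : ℝ) ≤ 1 := by exact_mod_cast hu
    simp only [hτ]; nlinarith
  have hτle : ∀ u : ℝ≥0, τ u ≤ 1 := by
    intro u
    have : (0 : ℝ) ≤ u := u.2
    simp only [hτ]; nlinarith
  set h : ℝ≥0 → E d := fun u => o + (τ u)⁻¹ • (g u - o) with hh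
  have hI : IsPreconnected (Set.Icc (0 : ℝ≥0) 1) := isPreconnected_Icc
  have hhc : ContinuousOn h (Set.Icc 0 1) := by
    have hτc : Continuous τ := by
      simp only [hτ]
      exact continuous_const.sub (continuous_const.mul NNReal.continuous_coe)
    refine ContinuousOn.add continuousOn_const
      (ContinuousOn.smul (f := fun u => (τ u)⁻¹) (g := fun u => g u - o) ?_
        (hg.sub continuous_const).continuousOn)
    refine ContinuousOn.inv₀ hτc.continuousOn fun u hu => ?_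
    exact (hκ0.trans_le (hτpos u hu.2)).ne'
  have hh0 : h 0 = g 0 := by
    simp [hh, hτ]
  have hgh : ∀ u ≤ (1 : ℝ≥0), g u = o + (τ u) • (h u - o) := by
    intro u hu
    have : τ u ≠ 0 := (hκ0.trans_le (hτpos u hu)).ne'
    simp only [hh, add_sub_cancel_left]
    rw [smul_smul, mul_inv_cancel₀ this, one_smul]; abel
  have hfree : ∀ u ∈ Set.Icc (0 : ℝ≥0) 1, nrm (cell a (h u) - cell a (h 0)) ≤ L →
      Free S (occ a y) (cell a (h u)) := by
    intro u hu hnear v hv hmem
    rw [hh0, ← hz] at hnear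
    have hnear' : nrm (cell a (h u) + v - z) ≤ L + K := by
      have e : cell a (h u) + v - z = (cell a (h u) - z) + v := by abel
      rw [e]
      have h1 := nrm_add_le (cell a (h u) - z) v
      have h2 := mem_box.1 (rangeS_subset d K κ hv)
      omega
    obtain ⟨i, hi, hfi⟩ := hfol' _ hnear' hmem
    have h1 := dist_le_of_range ha hK hv hi
    have h2 := hfi u hu.2
    apply hund u hu.2
    unfold detected
    rw [Set.mem_iUnion]
    refine ⟨i, ?_⟩
    rw [Metric.mem_ball, dist_eq_norm]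
    have e : g u - (y i + m i u) = (τ u) • (h u - y i) -
        (m i u + (u : ℝ) • ((1 - κ0) • (y i - o))) := by
      rw [hgh u hu.2]
      simp only [hτ]
      module
    rw [e]
    have h3 : ‖(τ u) • (h u - y i)‖ ≤ ‖h u - y i‖ := by
      rw [norm_smul, Real.norm_eq_abs, abs_of_pos (hκ0.trans_le (hτpos u hu.2))]
      exact mul_le_of_le_one_left (norm_nonneg _) (hτle u)
    refine lt_of_le_of_lt (norm_sub_le _ _) ?_
    linarith
  have hnear := path_lift ha hI hhc (u0 := 0) ⟨le_rfl, zero_le_one⟩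
    (S := S) (O := occ a y) (L := L) hfree (by rw [hh0]; exact hL)
  -- there is an occupied cell near z
  obtain ⟨c, hc, hocc⟩ : ∃ c, nrm (c - z) ≤ L + K ∧ c ∈ occ a y := by
    by_contra hno
    push Not at hno
    apply hL
    have hd : 1 ≤ d := by
      by_contra hd
      have hd0 : d = 0 := by omega
      subst hd0
      -- no coordinates: the cell of any node is z
      have hcell : cell a (y 0) = z := by funext j; exact j.elim0
      exact hno z (by rw [sub_self, nrm_zero]; omega) ⟨0, hcell⟩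
    have hfr : ∀ x, nrm (x - z) ≤ L → Free S (occ a y) x := by
      intro x hx v hv hmem
      refine hno (x + v) ?_ hmem
      have e : x + v - z = (x - z) + v := by abel
      rw [e]
      have h1 := nrm_add_le (x - z) v
      have h2 := mem_box.1 (rangeS_subset d K κ hv)
      omega
    refine ⟨z + (fun _ => (L : ℤ)), ?_, hfr z (by rw [sub_self, nrm_zero]; omega), ?_⟩
    · rw [add_sub_cancel_left]
      have := natAbs_le_nrm (fun _ : Fin d => (L : ℤ)) ⟨0, hd⟩
      simpa using this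
    · refine rtg_mono ?_ (path_in_ball z L (z + (fun _ => (L : ℤ))) ?_)
      · intro p q hpq
        exact ⟨hpq.1, hfr q hpq.2⟩
      · rw [add_sub_cancel_left, nrm_le_iff]; intro j; simp
  obtain ⟨i, hi, hfi⟩ := hfol' c hc hocc
  have h1 := hfi 1 le_rfl
  have h2 := hnear 1 ⟨zero_le_one, le_rfl⟩
  rw [hh0] at h2
  apply hund 1 le_rfl
  unfold detected
  rw [Set.mem_iUnion]
  refine ⟨i, ?_⟩
  rw [Metric.mem_ball, dist_eq_norm]
  have hτ1 : τ 1 = κ0 := by simp [hτ]
  have e : g 1 - (y i + m i 1) = κ0 • (h 1 - o) - κ0 • (y i - o) -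
      (m i 1 + ((1 : ℝ≥0) : ℝ) • ((1 - κ0) • (y i - o))) := by
    rw [hgh 1 le_rfl, hτ1, NNReal.coe_one]
    module
  rw [e]
  have n1 : ‖h 1 - o‖ ≤ Real.sqrt d * (a * (L + K + 2)) := by
    have h3 := dist_cell ha (h 1)
    have h4 : nrm (cell a (h 1) - z) ≤ L := h2.le
    have h5 := norm_pt_le a ha.le h4
    have e2 : h 1 - o = (h 1 - pt a (cell a (h 1))) + pt a (cell a (h 1) - z) := by
      rw [pt_sub]; abel
    rw [e2]
    refine (norm_add_le _ _).trans ?_
    have h6 : 0 ≤ Real.sqrt d * a := by positivity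
    have h7 : 0 ≤ Real.sqrt d * (a * K) := by positivity
    nlinarith
  have n2 : ‖y i - o‖ ≤ Real.sqrt d * (a * (L + K + 2)) := by
    have h3 := dist_cell ha (y i)
    have h5 := norm_pt_le a ha.le hc
    have e2 : y i - o = (y i - pt a (cell a (y i))) + pt a (cell a (y i) - z) := by
      rw [pt_sub]; abel
    rw [hi] at h3 e2
    rw [e2]
    refine (norm_add_le _ _).trans ?_
    have h6 : 0 ≤ Real.sqrt d * a := by positivity
    push_cast at h5
    nlinarith
  have n3 : ‖κ0 • (h 1 - o)‖ ≤ κ0 * (Real.sqrt d * (a * (L + K + 2))) := by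
    rw [norm_smul, Real.norm_eq_abs, abs_of_pos hκ0]
    exact mul_le_mul_of_nonneg_left n1 hκ0.le
  have n4 : ‖κ0 • (y i - o)‖ ≤ κ0 * (Real.sqrt d * (a * (L + K + 2))) := by
    rw [norm_smul, Real.norm_eq_abs, abs_of_pos hκ0]
    exact mul_le_mul_of_nonneg_left n2 hκ0.le
  refine lt_of_le_of_lt (norm_sub_le _ _) ?_
  refine lt_of_le_of_lt (add_le_add (norm_sub_le _ _) h1) ?_
  have e3 : κ0 * (Real.sqrt d * (a * (2 * (L + K + 2)))) =
      κ0 * (Real.sqrt d * (a * (L + K + 2))) + κ0 * (Real.sqrt d * (a * (L + K + 2))) := by ring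
  linarith

end Pool.Agent.F368
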