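import Pool.Agent.F368.Filt

/-!
The increments of the Brownian motions after time `s` are independent of the σ-algebra `Fs`.
-/

open MeasureTheory ProbabilityTheory Set Filter Topology
open scoped ENNReal NNReal

namespace Pool.Agent.F368

variable {Ω : Type*} [mΩ : MeasurableSpace Ω] {P : Measure Ω} {d : ℕ}

/-- increments after time `s` -/
def incr (ζ : ℕ → ℝ≥0 → Ω → E d) (s : ℝ≥0) : ℕ → ℝ≥0 → Ω → E d :=
  fun i t ω => ζ i (s + t) ω - ζ i s ω

theorem IsBMFam.shift {ζ : ℕ → ℝ≥0 → Ω → E d} (h : IsBMFam P ζ) (s : ℝ≥0) :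
    IsBMFam P (incr ζ s) where
  meas i t := (h.meas i (s + t)).sub (h.meas i s)
  brownian i j := (h.brownian i j).shift s
  indep := by
    have := h.indep.comp (fun _ (z : ℝ≥0 → ℝ) (t : ℝ≥0) => z (s + t) - z s)
      (fun _ => measurable_pi_lambda _ fun t =>
        (measurable_pi_apply (s + t)).sub (measurable_pi_apply s))
    exact this

/-- the σ-algebras used in the proof: `none` is `σ(X)`, `some (a, false)` is the past of the
coordinate process `a`, `some (a, true)` its future increments. -/
@[reducible] noncomputable def msig (X : ℕ → Ω → E d) (ζ : ℕ → ℝ≥0 → Ω → E d) (s : ℝ≥0) :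
    Option ((ℕ × Fin d) × Bool) → MeasurableSpace Ω
  | none => MeasurableSpace.comap (fun ω i => X i ω) inferInstance
  | some (a, false) =>
      MeasurableSpace.comap (fun ω (t : Set.Iic s) => ζ a.1 t ω a.2) inferInstance
  | some (a, true) =>
      MeasurableSpace.comap (fun ω (t : ℝ≥0) => ζ a.1 (s + t) ω a.2 - ζ a.1 s ω a.2) inferInstance

theorem iIndep_msig {lam : ℝ} {X : ℕ → Ω → E d} {ζ : ℕ → ℝ≥0 → Ω → E d}
    (h : IsMobile P lam X ζ) (s : ℝ≥0) : iIndep (msig X ζ s) P := by
  classical
  rw [iIndep_iff]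
  intro T f hf
  -- extend f by univ
  set f' : Option ((ℕ × Fin d) × Bool) → Set Ω := fun i => if i ∈ T then f i else Set.univ with hf'
  have hf'm : ∀ i, MeasurableSet[msig X ζ s i] (f' i) := by
    intro i
    simp only [hf']
    split_ifs with hi
    · exact hf i hi
    · exact MeasurableSet.univ
  set A : Finset (ℕ × Fin d) := (Finset.eraseNone T).image Prod.fst with hA
  set T' : Finset (Option ((ℕ × Fin d) × Bool)) :=
    Finset.insertNone (A ×ˢ (Finset.univ : Finset Bool)) with hT'
  have hTT' : T ⊆ T' := by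
    intro i hi
    rcases i with _ | ⟨a, b⟩
    · exact Finset.none_mem_insertNone
    · rw [hT', Finset.some_mem_insertNone, Finset.mem_product]
      exact ⟨Finset.mem_image.2 ⟨(a, b), Finset.mem_eraseNone.2 hi, rfl⟩, Finset.mem_univ _⟩
  have e1 : (⋂ i ∈ T, f i) = ⋂ i ∈ T', f' i := by
    ext ω
    simp only [Set.mem_iInter]
    constructor
    · intro h1 i _
      simp only [hf']
      split_ifs with hi
      · exact h1 i hi
      · exact Set.mem_univ _
    · intro h1 i hi
      have := h1 i (hTT' hi)
      simp only [hf', if_pos hi] at this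
      exact this
  have hprob : IsProbabilityMeasure P := h.bm.indep.isProbabilityMeasure
  have e2 : ∏ i ∈ T, P (f i) = ∏ i ∈ T', P (f' i) := by
    rw [← Finset.prod_subset hTT']
    · refine Finset.prod_congr rfl fun i hi => ?_
      simp only [hf', if_pos hi]
    · intro i _ hi
      simp only [hf', if_neg hi, measure_univ]
  set Gs : (ℕ × Fin d) → Set Ω := fun a => f' (some (a, false)) ∩ f' (some (a, true)) with hGs
  have e3 : (⋂ i ∈ T', f' i) = f' none ∩ ⋂ a ∈ A, Gs a := by
    ext ω
    simp only [Set.mem_iInter, Set.mem_inter_iff, hGs]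
    constructor
    · intro h1
      refine ⟨h1 none Finset.none_mem_insertNone, fun a ha => ⟨?_, ?_⟩⟩
      · exact h1 _ (Finset.some_mem_insertNone.2 (Finset.mem_product.2 ⟨ha, Finset.mem_univ _⟩))
      · exact h1 _ (Finset.some_mem_insertNone.2 (Finset.mem_product.2 ⟨ha, Finset.mem_univ _⟩))
    · rintro ⟨h1, h2⟩ i hi
      rcases i with _ | ⟨a, b⟩
      · exact h1
      · have ha := (Finset.mem_product.1 (Finset.some_mem_insertNone.1 hi)).1
        cases b
        · exact (h2 a ha).1
        · exact (h2 a ha).2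
  have e4 : ∏ i ∈ T', P (f' i) =
      P (f' none) * ∏ a ∈ A, (P (f' (some (a, false))) * P (f' (some (a, true)))) := by
    rw [hT', Finset.prod_insertNone, Finset.prod_product]
    congr 1
    refine Finset.prod_congr rfl fun a _ => ?_
    rw [Fintype.prod_bool, mul_comm]
  -- measurability with respect to the coordinate process
  have hZfalse : ∀ a : ℕ × Fin d, msig X ζ s (some (a, false)) ≤
      MeasurableSpace.comap (fun ω (t : ℝ≥0) => ζ a.1 t ω a.2) inferInstance := by
    intro a
    have : Measurable (fun (z : ℝ≥0 → ℝ) (t : Set.Iic s) => z t) :=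
      measurable_pi_lambda _ fun t => measurable_pi_apply (t : ℝ≥0)
    have h2 := this.comp (comap_measurable (fun ω (t : ℝ≥0) => ζ a.1 t ω a.2))
    exact h2.comap_le
  have hZtrue : ∀ a : ℕ × Fin d, msig X ζ s (some (a, true)) ≤
      MeasurableSpace.comap (fun ω (t : ℝ≥0) => ζ a.1 t ω a.2) inferInstance := by
    intro a
    have : Measurable (fun (z : ℝ≥0 → ℝ) (t : ℝ≥0) => z (s + t) - z s) :=
      measurable_pi_lambda _ fun t => (measurable_pi_apply (s + t)).sub (measurable_pi_apply s)
    have h2 := this.comp (comap_measurable (fun ω (t : ℝ≥0) => ζ a.1 t ω a.2))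
    exact h2.comap_le
  have hGm : ∀ a, MeasurableSet[MeasurableSpace.comap (fun ω (t : ℝ≥0) => ζ a.1 t ω a.2)
      inferInstance] (Gs a) := fun a =>
    MeasurableSet.inter (hZfalse a _ (hf'm (some (a, false)))) (hZtrue a _ (hf'm (some (a, true))))
  have hZle : ∀ a : ℕ × Fin d, MeasurableSpace.comap (fun ω (t : ℝ≥0) => ζ a.1 t ω a.2)
      inferInstance ≤ MeasurableSpace.comap (fun ω i t => ζ i t ω) inferInstance := by
    intro a
    have : Measurable (fun (z : ℕ → ℝ≥0 → E d) (t : ℝ≥0) => z a.1 t a.2) :=
      measurable_pi_lambda _ fun t => (measurable_coord a.2).comp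
        ((measurable_pi_apply t).comp (measurable_pi_apply a.1))
    have h2 := this.comp (comap_measurable (fun ω i t => ζ i t ω))
    exact h2.comap_le
  have hI1 : P (f' none ∩ ⋂ a ∈ A, Gs a) = P (f' none) * P (⋂ a ∈ A, Gs a) := by
    refine (Indep_iff _ _ _).1 h.indep _ _ (hf'm none) ?_
    exact Finset.measurableSet_biInter _ fun a _ => hZle a _ (hGm a)
  have hI2 : P (⋂ a ∈ A, Gs a) = ∏ a ∈ A, P (Gs a) :=
    h.bm.indep.iIndep.meas_biInter fun a _ => hGm a
  have hI3 : ∀ a, P (Gs a) = P (f' (some (a, false))) * P (f' (some (a, true))) := by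
    intro a
    have h3 := (h.bm.brownian a.1 a.2).indepFun_shift s
    have := (Indep_iff _ _ _).1 h3 (f' (some (a, true))) (f' (some (a, false)))
      (hf'm (some (a, true))) (hf'm (some (a, false)))
    rw [hGs]
    simp only
    rw [Set.inter_comm, this, mul_comm]
  rw [e1, e2, e3, e4, hI1, hI2]
  congr 1
  exact Finset.prod_congr rfl fun a _ => hI3 a

/-- the future increments are independent of `Fs` -/
theorem indep_incr {lam : ℝ} {X : ℕ → Ω → E d} {ζ : ℕ → ℝ≥0 → Ω → E d}
    (h : IsMobile P lam X ζ) (s : ℝ≥0) :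
    Indep (Fs X ζ s) (MeasurableSpace.comap (fun ω i t => incr ζ s i t ω) inferInstance) P := by
  have hX : ∀ i, Measurable (X i) := h.poisson.meas
  have hζ : ∀ i t, Measurable (ζ i t) := h.bm.meas
  set past : Set (Option ((ℕ × Fin d) × Bool)) := {i | ∀ a, i ≠ some (a, true)} with hpast
  set fut : Set (Option ((ℕ × Fin d) × Bool)) := {i | ∃ a, i = some (a, true)} with hfut
  have hdisj : Disjoint past fut := by
    rw [Set.disjoint_left]
    rintro i h1 ⟨a, h2⟩
    exact h1 a h2
  have hle : ∀ i, msig X ζ s i ≤ mΩ := by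
    intro i
    rcases i with _ | ⟨a, b⟩
    · exact (measurable_pi_lambda _ fun i => hX i).comap_le
    · cases b
      · have : Measurable (fun ω (t : Set.Iic s) => ζ a.1 t ω a.2) :=
          measurable_pi_lambda _ fun t => (measurable_coord a.2).comp (hζ a.1 t)
        exact this.comap_le
      · have : Measurable (fun ω (t : ℝ≥0) => ζ a.1 (s + t) ω a.2 - ζ a.1 s ω a.2) :=
          measurable_pi_lambda _ fun t => ((measurable_coord a.2).comp (hζ a.1 (s + t))).sub
            ((measurable_coord a.2).comp (hζ a.1 s))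
        exact this.comap_le
  have hI := indep_iSup_of_disjoint hle (iIndep_msig h s) hdisj
  refine indep_of_indep_of_le_left (indep_of_indep_of_le_right hI ?_) ?_
  · -- future
    have : Measurable[⨆ i ∈ fut, msig X ζ s i] (fun ω i t => incr ζ s i t ω) := by
      refine @measurable_pi_lambda _ _ _ (⨆ i ∈ fut, msig X ζ s i) _ _ fun i => ?_
      refine @measurable_pi_lambda _ _ _ (⨆ i ∈ fut, msig X ζ s i) _ _ fun t => ?_
      refine measurable_euclid fun j => ?_
      have h1 : msig X ζ s (some ((i, j), true)) ≤ ⨆ i ∈ fut, msig X ζ s i :=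
        le_iSup₂_of_le (some ((i, j), true)) ⟨(i, j), rfl⟩ le_rfl
      have h2 := (measurable_pi_apply t).comp
        (comap_measurable (fun ω (t : ℝ≥0) => ζ i (s + t) ω j - ζ i s ω j))
      exact h2.mono h1 le_rfl
    exact this.comap_le
  · refine sup_le (iSup_le fun i => ?_) (iSup_le fun i => iSup_le fun u => iSup_le fun hu => ?_)
    · have h1 : msig X ζ s none ≤ ⨆ i ∈ past, msig X ζ s i :=
        le_iSup₂_of_le none (fun a => by simp) le_rfl
      have h2 := (measurable_pi_apply i).comp (comap_measurable (fun ω i => X i ω))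
      exact (h2.mono h1 le_rfl).comap_le
    · have : Measurable[⨆ i ∈ past, msig X ζ s i] (ζ i u) := by
        refine measurable_euclid fun j => ?_
        have h1 : msig X ζ s (some ((i, j), false)) ≤ ⨆ i ∈ past, msig X ζ s i :=
          le_iSup₂_of_le (some ((i, j), false)) (fun a => by simp) le_rfl
        have h2 := (measurable_pi_apply (⟨u, hu⟩ : Set.Iic s)).comp
          (comap_measurable (fun ω (t : Set.Iic s) => ζ i t ω j))
        exact h2.mono h1 le_rfl
      exact this.comap_le

end Pool.Agent.F368
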