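import Pool.Agent.F368.Determ
import Pool.Agent.F368.Markov

/-!
Deterministic bound for the displacement of an undetected target.
-/

open MeasureTheory ProbabilityTheory Set Filter Topology
open scoped ENNReal NNReal

namespace Pool.Agent.F368

variable {d : ℕ} {Ω : Type*}

theorem displ {X : ℕ → Ω → E d} {ζ : ℕ → ℝ≥0 → Ω → E d} {ω : Ω}
    (hζ : ∀ i, Continuous (fun t => ζ i t ω)) {g : ℝ≥0 → E d} (hg : Continuous g)
    {a κ r δ : ℝ} (ha : 0 < a) {K : ℕ} (hK : κ ≤ K)
    (hr : 2 * (Real.sqrt d * a) + a * κ + δ < r)
    (hund : ∀ t, g t ∉ detected r (pos X ζ t ω)) {η : ℝ≥0} (hη : 0 < η) (s : ℝ≥0) {J L Rm : ℕ}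
    (hgood : ∀ j < J, ∀ z, nrm z ≤ Rm →
      ¬ Reach (rangeS d K κ) (slowOcc a (pos X ζ (s + j * η) ω)
        (fun i t => incr ζ (s + j * η) i t ω) η δ) z L)
    (hs : nrm (cell a (g s)) + J * L ≤ Rm) :
    ∀ j ≤ J, ∀ t, s ≤ t → t ≤ s + j * η → nrm (cell a (g t) - cell a (g s)) ≤ j * L := by
  intro j
  induction j with
  | zero =>
    intro _ t h1 h2
    have : t = s := le_antisymm (by simpa using h2) h1
    rw [this, sub_self, nrm_zero]; omega
  | succ j ih =>
    intro hj t h1 h2
    have hj' : j ≤ J := by omega
    by_cases ht : t ≤ s + j * η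
    · have := ih hj' t h1 ht
      have : j * L ≤ (j + 1) * L := Nat.mul_le_mul_right _ (by omega)
      omega
    · push Not at ht
      set sj : ℝ≥0 := s + j * η with hsj
      have hst : nrm (cell a (g sj) - cell a (g s)) ≤ j * L := ih hj' sj (by simp [hsj]) le_rfl
      have hz : nrm (cell a (g sj)) ≤ Rm := by
        have h3 := nrm_le_add (cell a (g sj)) (cell a (g s))
        have h4 : j * L ≤ J * L := Nat.mul_le_mul_right _ hj'
        omega
      have hstep := reach_step (d := d) (r := r) ha hK hr
        (y := pos X ζ sj ω) (m := fun i t => incr ζ sj i t ω)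
        (fun i => by
          unfold incr
          exact ((hζ i).comp (continuous_const.add continuous_id)).sub continuous_const)
        (g := fun u => g (sj + u)) (hg.comp (continuous_const.add continuous_id)) hη
        (fun u _ => by
          have h5 := hund (sj + u)
          have h6 : (fun i => pos X ζ sj ω i + incr ζ sj i u ω) = pos X ζ (sj + u) ω := by
            funext i
            simp only [pos, incr]
            abel
          rw [h6]; exact h5)
        (L := L) (by
          have := hgood j (by omega) (cell a (g sj)) hz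
          simpa using this)
      have hu : t - sj ≤ η := by
        rw [tsub_le_iff_left]
        have : ((j + 1 : ℕ) : ℝ≥0) * η = j * η + η := by push_cast; ring
        rw [this, ← add_assoc] at h2
        exact h2
      have h7 := hstep (t - sj) hu
      simp only [add_zero] at h7
      rw [add_tsub_cancel_of_le ht.le] at h7
      have h8 := nrm_tri (cell a (g t)) (cell a (g sj)) (cell a (g s))
      have h9 : (j + 1) * L = j * L + L := by ring
      omega

end Pool.Agent.F368
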