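import Pool.Agent.F368.Defs

/-!
Filtration generated by the nodes, independence of the future increments.
-/

open MeasureTheory ProbabilityTheory Set Filter Topology
open scoped ENNReal NNReal

namespace Pool.Agent.F368

variable {Ω : Type*} [mΩ : MeasurableSpace Ω] {P : Measure Ω} {d : ℕ}

/-- measurability of a map into Euclidean space through its coordinates -/
theorem measurable_euclid {α : Type*} {m : MeasurableSpace α} {f : α → E d}
    (h : ∀ j, Measurable[m] (fun a => f a j)) : Measurable[m] f := by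
  have h1 : Measurable[m] (fun a => WithLp.ofLp (f a)) := measurable_pi_iff.2 h
  have h2 : f = fun a => WithLp.toLp 2 (WithLp.ofLp (f a)) := rfl
  rw [h2]
  exact (MeasurableEquiv.toLp 2 (Fin d → ℝ)).measurable.comp h1

theorem measurable_coord (j : Fin d) : Measurable (fun x : E d => x j) :=
  (measurable_pi_apply j).comp (MeasurableEquiv.toLp 2 (Fin d → ℝ)).symm.measurable

/-- σ-algebra generated by the initial positions and the motions up to time `s`. -/
@[reducible] noncomputable def Fs (X : ℕ → Ω → E d) (ζ : ℕ → ℝ≥0 → Ω → E d) (s : ℝ≥0) :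
    MeasurableSpace Ω :=
  (⨆ i, MeasurableSpace.comap (X i) inferInstance) ⊔
    (⨆ (i : ℕ) (u : ℝ≥0) (_ : u ≤ s), MeasurableSpace.comap (ζ i u) inferInstance)

theorem measurable_X_Fs (X : ℕ → Ω → E d) (ζ : ℕ → ℝ≥0 → Ω → E d) (s : ℝ≥0) (i : ℕ) :
    Measurable[Fs X ζ s] (X i) := by
  have : MeasurableSpace.comap (X i) inferInstance ≤ Fs X ζ s :=
    le_sup_of_le_left (le_iSup (fun i => MeasurableSpace.comap (X i) inferInstance) i)
  exact (comap_measurable (X i)).mono this le_rfl

theorem measurable_ζ_Fs (X : ℕ → Ω → E d) (ζ : ℕ → ℝ≥0 → Ω → E d) {u s : ℝ≥0} (hu : u ≤ s)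
    (i : ℕ) : Measurable[Fs X ζ s] (ζ i u) := by
  have : MeasurableSpace.comap (ζ i u) inferInstance ≤ Fs X ζ s :=
    le_sup_of_le_right (le_iSup_of_le i (le_iSup_of_le u (le_iSup_of_le hu le_rfl)))
  exact (comap_measurable (ζ i u)).mono this le_rfl

theorem measurable_pos_Fs (X : ℕ → Ω → E d) (ζ : ℕ → ℝ≥0 → Ω → E d) {u s : ℝ≥0} (hu : u ≤ s)
    (i : ℕ) : Measurable[Fs X ζ s] (fun ω => pos X ζ u ω i) := by
  letI : MeasurableSpace Ω := Fs X ζ s
  exact (measurable_X_Fs X ζ s i).add (measurable_ζ_Fs X ζ hu i)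

theorem Fs_mono (X : ℕ → Ω → E d) (ζ : ℕ → ℝ≥0 → Ω → E d) {s t : ℝ≥0} (hst : s ≤ t) :
    Fs X ζ s ≤ Fs X ζ t :=
  sup_le_sup le_rfl (iSup_mono fun _ => iSup_mono fun _ => iSup_mono' fun h =>
    ⟨h.trans hst, le_rfl⟩)

theorem Fs_le {X : ℕ → Ω → E d} {ζ : ℕ → ℝ≥0 → Ω → E d} (hX : ∀ i, Measurable (X i))
    (hζ : ∀ i t, Measurable (ζ i t)) (s : ℝ≥0) : Fs X ζ s ≤ mΩ :=
  sup_le (iSup_le fun i => (hX i).comap_le)
    (iSup_le fun i => iSup_le fun u => iSup_le fun _ => (hζ i u).comap_le)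

theorem le_cnt_iff {y : ℕ → E d} {B : Set (E d)} {k : ℕ} :
    (k : ℕ∞) ≤ cnt y B ↔ ∃ J : Finset ℕ, J.card = k ∧ ∀ i ∈ J, y i ∈ B := by
  unfold cnt
  constructor
  · intro h
    obtain ⟨t, ht, hc⟩ := Set.exists_subset_encard_eq h
    have hfin : t.Finite := Set.finite_of_encard_eq_coe hc
    refine ⟨hfin.toFinset, ?_, fun i hi => ht ((Set.Finite.mem_toFinset hfin).1 hi)⟩
    rw [hfin.encard_eq_coe_toFinset_card] at hc
    exact_mod_cast hc
  · rintro ⟨J, hJ, h⟩
    have h1 : (↑J : Set ℕ) ⊆ {i | y i ∈ B} := fun i hi => h i (by exact_mod_cast hi)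
    have h2 := Set.encard_le_encard h1
    rw [Set.encard_coe_eq_coe_finsetCard, hJ] at h2
    exact h2

theorem measurableSet_le_cnt {m : MeasurableSpace Ω} {y : ℕ → Ω → E d}
    (hy : ∀ i, Measurable[m] (y i)) {B : Set (E d)} (hB : MeasurableSet B) (k : ℕ) :
    MeasurableSet[m] {ω | (k : ℕ∞) ≤ cnt (fun i => y i ω) B} := by
  have : {ω | (k : ℕ∞) ≤ cnt (fun i => y i ω) B} =
      ⋃ (J : Finset ℕ) (_ : J.card = k), ⋂ i ∈ J, y i ⁻¹' B := by
    ext ω
    simp only [Set.mem_setOf_eq, Set.mem_iUnion, Set.mem_iInter, Set.mem_preimage]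
    rw [le_cnt_iff]
    constructor
    · rintro ⟨J, h1, h2⟩; exact ⟨J, h1, h2⟩
    · rintro ⟨J, h1, h2⟩; exact ⟨J, h1, h2⟩
  rw [this]
  exact MeasurableSet.iUnion fun J => MeasurableSet.iUnion fun _ =>
    Finset.measurableSet_biInter _ fun i _ => hy i hB

/-- counting is measurable -/
theorem measurable_cnt {m : MeasurableSpace Ω} {y : ℕ → Ω → E d}
    (hy : ∀ i, Measurable[m] (y i)) {B : Set (E d)} (hB : MeasurableSet B) :
    Measurable[m] (fun ω => cnt (fun i => y i ω) B) := by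
  have hk := measurableSet_le_cnt hy hB
  refine @measurable_to_countable' _ _ _ _ m _ fun k => ?_
  induction k using ENat.recTopCoe with
  | top =>
    have : (fun ω => cnt (fun i => y i ω) B) ⁻¹' {⊤} =
        ⋂ k : ℕ, {ω | (k : ℕ∞) ≤ cnt (fun i => y i ω) B} := by
      ext ω
      simp only [Set.mem_preimage, Set.mem_singleton_iff, Set.mem_iInter, Set.mem_setOf_eq]
      constructor
      · intro h k; rw [h]; exact le_top
      · intro h
        exact ENat.eq_top_iff_forall_ge.2 h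
    rw [this]
    exact MeasurableSet.iInter fun k => hk k
  | coe k =>
    have : (fun ω => cnt (fun i => y i ω) B) ⁻¹' {(k : ℕ∞)} =
        {ω | (k : ℕ∞) ≤ cnt (fun i => y i ω) B} \
        {ω | ((k + 1 : ℕ) : ℕ∞) ≤ cnt (fun i => y i ω) B} := by
      ext ω
      simp only [Set.mem_preimage, Set.mem_singleton_iff, Set.mem_diff, Set.mem_setOf_eq, not_le]
      constructor
      · intro h; rw [h]; exact ⟨le_rfl, by exact_mod_cast Nat.lt_succ_self k⟩
      · rintro ⟨h1, h2⟩
        refine le_antisymm ?_ h1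
        have : cnt (fun i => y i ω) B < (k : ℕ∞) + 1 := by exact_mod_cast h2
        exact Order.le_of_lt_add_one this
    rw [this]
    exact (hk k).diff (hk (k + 1))

theorem pastSigma_le_Fs (X : ℕ → Ω → E d) (ζ : ℕ → ℝ≥0 → Ω → E d) (s : ℝ≥0) :
    pastSigma X ζ s ≤ Fs X ζ s := by
  refine iSup_le fun u => iSup_le fun hu => iSup_le fun B => iSup_le fun hB => ?_
  have := measurable_cnt (m := Fs X ζ s) (fun i => measurable_pos_Fs X ζ hu.le i) hB
  exact this.comap_le

end Pool.Agent.F368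

namespace Pool.Agent.F368

/-! ### general lemmas about independent pairs -/

section Pair

variable {Ω : Type*} {G : MeasurableSpace Ω} [mΩ : MeasurableSpace Ω] {P : Measure Ω}
variable {α β : Type*} [MeasurableSpace α] [MeasurableSpace β]

theorem prob_pair_eq [IsProbabilityMeasure P] (hG : G ≤ mΩ)
    {U : Ω → β} (hU : Measurable U)
    (hind : Indep G (MeasurableSpace.comap U inferInstance) P)
    {Y : Ω → α} (hY : Measurable[G] Y) {B : Set Ω} (hB : MeasurableSet[G] B)
    {A : Set (α × β)} (hA : MeasurableSet A) :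
    P (B ∩ {ω | (Y ω, U ω) ∈ A}) = ∫⁻ ω in B, P {ω' | (Y ω, U ω') ∈ A} ∂P := by
  classical
  -- the pair (Y, indicator of B) is G-measurable
  set W : Ω → α × Prop := fun ω => (Y ω, ω ∈ B) with hW
  have hBprop : Measurable[G] (fun ω => ω ∈ B) := by
    refine @measurable_to_prop _ G _ ?_
    have : (fun ω => ω ∈ B) ⁻¹' {True} = B := by ext ω; simp
    rw [this]; exact hB
  have hWG : Measurable[G] W := Measurable.prodMk (m := G) hY hBprop
  have hWm : Measurable W := hWG.mono hG le_rfl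
  have hind' : IndepFun W U P := by
    have : Indep (MeasurableSpace.comap W inferInstance) (MeasurableSpace.comap U inferInstance) P :=
      indep_of_indep_of_le_left hind hWG.comap_le
    exact this
  have hmap := (indepFun_iff_map_prod_eq_prod_map_map hWm.aemeasurable hU.aemeasurable).1 hind'
  set T : Set ((α × Prop) × β) := {q | q.1.2 ∧ (q.1.1, q.2) ∈ A} with hT
  have hTm : MeasurableSet T := by
    have h1 : MeasurableSet {q : (α × Prop) × β | q.1.2} := by
      have : {q : (α × Prop) × β | q.1.2} = (fun q : (α × Prop) × β => q.1.2) ⁻¹' {True} := by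
        ext q; simp
      rw [this]
      exact (measurable_snd.comp measurable_fst) (MeasurableSet.singleton _)
    have h2 : MeasurableSet {q : (α × Prop) × β | (q.1.1, q.2) ∈ A} :=
      ((measurable_fst.comp measurable_fst).prodMk measurable_snd) hA
    exact h1.inter h2
  have e1 : P (B ∩ {ω | (Y ω, U ω) ∈ A}) = P.map (fun ω => (W ω, U ω)) T := by
    rw [Measure.map_apply (hWm.prodMk hU) hTm]
    rfl
  rw [e1, hmap, Measure.prod_apply hTm, lintegral_map (measurable_measure_prodMk_left hTm) hWm,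
    ← lintegral_indicator (hG _ hB)]
  refine lintegral_congr fun ω => ?_
  by_cases hω : ω ∈ B
  · rw [Set.indicator_of_mem hω, Measure.map_apply hU (measurable_prodMk_left hTm)]
    congr 1
    ext ω'
    simp [hT, hW, hω]
  · rw [Set.indicator_of_notMem hω]
    have : Prod.mk (W ω) ⁻¹' T = ∅ := by
      ext b; simp [hT, hW, hω]
    rw [this, measure_empty]

theorem prob_pair_le [IsProbabilityMeasure P] (hG : G ≤ mΩ)
    {U : Ω → β} (hU : Measurable U)
    (hind : Indep G (MeasurableSpace.comap U inferInstance) P)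
    {Y : Ω → α} (hY : Measurable[G] Y) {B : Set Ω} (hB : MeasurableSet[G] B)
    {A : Set (α × β)} (hA : MeasurableSet A) {c : ℝ≥0∞}
    (h : ∀ ω ∈ B, P {ω' | (Y ω, U ω') ∈ A} ≤ c) :
    P (B ∩ {ω | (Y ω, U ω) ∈ A}) ≤ c * P B := by
  rw [prob_pair_eq hG hU hind hY hB hA, ← setLIntegral_const]
  exact setLIntegral_mono' (hG _ hB) h

theorem le_prob_pair [IsProbabilityMeasure P] (hG : G ≤ mΩ)
    {U : Ω → β} (hU : Measurable U)
    (hind : Indep G (MeasurableSpace.comap U inferInstance) P)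
    {Y : Ω → α} (hY : Measurable[G] Y) {B : Set Ω} (hB : MeasurableSet[G] B)
    {A : Set (α × β)} (hA : MeasurableSet A) {c : ℝ≥0∞}
    (h : ∀ ω ∈ B, c ≤ P {ω' | (Y ω, U ω') ∈ A}) :
    c * P B ≤ P (B ∩ {ω | (Y ω, U ω) ∈ A}) := by
  rw [prob_pair_eq hG hU hind hY hB hA, ← setLIntegral_const]
  exact setLIntegral_mono' (hG _ hB) h

end Pair

end Pool.Agent.F368
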