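import Pool.Agent.F368.Bits
import Pool.Agent.F368.Cells
import Pool.Agent.F368.Filt

/-!
Time `0`: above the vacancy threshold the discretised vacancy percolation does not percolate.
-/

open MeasureTheory ProbabilityTheory Set Filter Topology
open scoped ENNReal NNReal

namespace Pool.Agent.F368

variable {d : ℕ}

/-- the cell as a subset of space -/
def cellSet (a : ℝ) (c : V d) : Set (E d) := {x | cell a x = c}

theorem cellSet_eq {a : ℝ} (ha : 0 < a) (c : V d) :
    cellSet a c = (@WithLp.ofLp 2 (Fin d → ℝ)) ⁻¹'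
      (Set.univ.pi fun j => Set.Ico (a * (c j : ℝ)) (a * (c j : ℝ) + a)) := by
  ext x
  simp only [cellSet, Set.mem_setOf_eq, Set.mem_preimage, Set.mem_univ_pi, Set.mem_Ico]
  constructor
  · rintro h j
    have h1 : ⌊x j / a⌋ = c j := congrFun h j
    rw [Int.floor_eq_iff, le_div_iff₀ ha, div_lt_iff₀ ha] at h1
    constructor
    · calc a * (c j : ℝ) = c j * a := by ring
        _ ≤ x j := h1.1
    · calc x j < (c j + 1) * a := h1.2
        _ = a * (c j : ℝ) + a := by ring
  · intro h
    funext j
    show ⌊x j / a⌋ = c j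
    rw [Int.floor_eq_iff, le_div_iff₀ ha, div_lt_iff₀ ha]
    obtain ⟨h1, h2⟩ := h j
    constructor
    · calc (c j : ℝ) * a = a * (c j : ℝ) := by ring
        _ ≤ x j := h1
    · calc x j < a * (c j : ℝ) + a := h2
        _ = (c j + 1) * a := by ring

theorem measurableSet_cellSet {a : ℝ} (ha : 0 < a) (c : V d) : MeasurableSet (cellSet a c) := by
  rw [cellSet_eq ha]
  exact (PiLp.volume_preserving_ofLp (Fin d)).measurable
    (MeasurableSet.univ_pi fun j => measurableSet_Ico)

theorem measurable_cell {a : ℝ} (ha : 0 < a) : Measurable (cell a : E d → V d) := by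
  refine measurable_to_countable' fun c => ?_
  exact measurableSet_cellSet ha c

theorem volume_cellSet {a : ℝ} (ha : 0 < a) (c : V d) :
    volume (cellSet a c) = ENNReal.ofReal (a ^ d) := by
  rw [cellSet_eq ha, (PiLp.volume_preserving_ofLp (Fin d)).measure_preimage
    (MeasurableSet.univ_pi fun j => measurableSet_Ico).nullMeasurableSet, volume_pi_pi]
  simp only [Real.volume_Ico, add_sub_cancel_left, Finset.prod_const, Finset.card_univ,
    Fintype.card_fin]
  rw [ENNReal.ofReal_pow ha.le]

theorem isBounded_cellSet {a : ℝ} (ha : 0 < a) (c : V d) : Bornology.IsBounded (cellSet a c) := by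
  rw [Metric.isBounded_iff_subset_closedBall (pt a c)]
  refine ⟨Real.sqrt d * a, fun x hx => ?_⟩
  rw [Metric.mem_closedBall, dist_eq_norm]
  have := dist_cell ha x
  rwa [show cell a x = c from hx] at this

theorem cellSet_disjoint {a : ℝ} {c c' : V d} (h : c ≠ c') :
    Disjoint (cellSet a c) (cellSet a c') := by
  rw [Set.disjoint_left]
  intro x hx hx'
  exact h (hx.symm.trans hx')

theorem cnt_eq_zero_iff {y : ℕ → E d} {B : Set (E d)} : cnt y B = 0 ↔ ∀ i, y i ∉ B := by
  unfold cnt
  rw [Set.encard_eq_zero, Set.eq_empty_iff_forall_notMem]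
  rfl

section

variable {Ω : Type*} [mΩ : MeasurableSpace Ω] {P : Measure Ω}

theorem IsPoisson.isProbabilityMeasure {lam : ℝ} {X : ℕ → Ω → E d} (h : IsPoisson P lam X) :
    IsProbabilityMeasure P := by
  constructor
  have := h.law 0 (fun i => i.elim0) (fun i => i.elim0) (fun i => i.elim0) (fun i => i.elim0)
    (fun i => i.elim0)
  simpa using this

/-- void probabilities for cells -/
theorem void_time_zero {lam : ℝ} {X : ℕ → Ω → E d} (h : IsPoisson P lam X) {a : ℝ} (ha : 0 < a)
    (J : Finset (V d)) :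
    P.real {ω | ∀ c ∈ J, c ∉ occ a (fun i => X i ω)} =
      (1 - (1 - Real.exp (-(lam * a ^ d)))) ^ J.card := by
  have e : J ≃ Fin J.card := J.equivFin
  have h1 := h.law J.card (fun k => cellSet a (e.symm k).1) (fun _ => 0)
    (fun k => measurableSet_cellSet ha _) (fun k => isBounded_cellSet ha _) (by
      intro k k' hkk'
      apply cellSet_disjoint
      intro h2
      exact hkk' (e.symm.injective (Subtype.ext h2)))
  have h2 : {ω | ∀ c ∈ J, c ∉ occ a (fun i => X i ω)} =
      {ω | ∀ k, cnt (fun j => X j ω) (cellSet a (e.symm k).1) = ((0 : ℕ) : ℕ∞)} := by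
    ext ω
    simp only [Set.mem_setOf_eq, Nat.cast_zero, cnt_eq_zero_iff]
    constructor
    · intro h3 k i hi
      exact h3 (e.symm k).1 (e.symm k).2 ⟨i, hi⟩
    · rintro h3 c hc ⟨i, hi⟩
      have := h3 (e ⟨c, hc⟩) i
      rw [Equiv.symm_apply_apply] at this
      exact this hi
  rw [measureReal_def, h2, h1]
  have h3 : ∀ k : Fin J.card, volume.real (cellSet a (e.symm k).1) = a ^ d := fun k => by
    rw [measureReal_def, volume_cellSet ha, ENNReal.toReal_ofReal (by positivity)]
  simp only [h3, pow_zero, mul_one, Nat.factorial_zero, Nat.cast_one, div_one,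
    Finset.prod_const, Finset.card_univ, Fintype.card_fin]
  rw [ENNReal.toReal_ofReal (by positivity)]
  congr 1
  ring

theorem measurableSet_occ {y : ℕ → Ω → E d} (hy : ∀ i, Measurable (y i)) {a : ℝ} (ha : 0 < a)
    (c : V d) : MeasurableSet {ω | c ∈ occ a (fun i => y i ω)} := by
  have : {ω | c ∈ occ a (fun i => y i ω)} = ⋃ i, y i ⁻¹' (cellSet a c) := by
    ext ω
    simp only [occ, Set.mem_setOf_eq, Set.mem_iUnion, Set.mem_preimage, cellSet]
  rw [this]
  exact MeasurableSet.iUnion fun i => hy i (measurableSet_cellSet ha c)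

/-- if almost surely the vacant set with radius `r1` has no unbounded component then the
discretised vacancy percolation does not percolate -/
theorem theta_tendsto_zero {lam : ℝ} {X : ℕ → Ω → E d} (h : IsPoisson P lam X)
    {a r1 κ : ℝ} (ha : 0 < a) {K : ℕ} (hK : κ ≤ K)
    (hκ : r1 + 2 * (Real.sqrt d * a) ≤ a * κ)
    (hno : P {ω | HasUnbounded r1 (fun i => X i ω)} = 0) (hlam : 0 ≤ lam) :
    Tendsto (fun n => theta (rangeS d K κ) K n (1 - Real.exp (-(lam * a ^ d)))) atTop (𝓝 0) := by
  have := h.isProbabilityMeasure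
  set S := rangeS d K κ with hS
  have hSK : S ⊆ box d K := rangeS_subset d K κ
  set R : ℕ → Set Ω := fun n => {ω | Reach S (occ a (fun i => X i ω)) 0 n} with hR
  have hRm : ∀ n, MeasurableSet (R n) := fun n =>
    measurableSet_reach hSK (fun c => measurableSet_occ h.meas ha c) 0 n
  have hRanti : Antitone R := fun m n hmn ω hω => Reach.mono hmn hω
  have h1 : ∀ n, P (R n) =
      ENNReal.ofReal (theta S K n (1 - Real.exp (-(lam * a ^ d)))) := by
    intro n
    have := prob_reach hSK (P := P) (O := fun ω => occ a (fun i => X i ω))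
      (fun c => measurableSet_occ h.meas ha c) (p := 1 - Real.exp (-(lam * a ^ d)))
      (fun J => void_time_zero h ha J) 0 n
    rw [← this, ofReal_measureReal]
  have h2 : Tendsto (fun n => P (R n)) atTop (𝓝 (P (⋂ n, R n))) :=
    tendsto_measure_iInter_atTop (fun n => (hRm n).nullMeasurableSet) hRanti
      ⟨0, measure_ne_top _ _⟩
  have h3 : P (⋂ n, R n) = 0 := by
    refine measure_mono_null ?_ hno
    intro ω hω
    exact hasUnbounded_of_reach ha hK hκ fun n => Set.mem_iInter.1 hω n
  rw [h3] at h2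
  have h4 := (ENNReal.tendsto_toReal ENNReal.zero_ne_top).comp h2
  rw [ENNReal.toReal_zero] at h4
  refine h4.congr fun n => ?_
  simp only [Function.comp_apply]
  rw [h1, ENNReal.toReal_ofReal]
  have e1 : 0 ≤ lam * a ^ d := by positivity
  have e2 : Real.exp (-(lam * a ^ d)) ≤ 1 := Real.exp_le_one_iff.2 (by linarith)
  have e3 := Real.exp_pos (-(lam * a ^ d))
  exact theta_nonneg S K n (by linarith) (by linarith)

/-- scaling a Poisson process -/
theorem IsPoisson.scale {lam : ℝ} {X : ℕ → Ω → E d} (h : IsPoisson P lam X) {s : ℝ} (hs : 0 < s) :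
    IsPoisson P (lam / s ^ d) (fun i ω => s • X i ω) where
  meas i := (h.meas i).const_smul s
  law n B k hB hBb hBd := by
    have h1 := h.law n (fun i => (fun x : E d => s • x) ⁻¹' (B i)) k
      (fun i => (measurable_const_smul s) (hB i))
      (fun i => by
        obtain ⟨R, hR⟩ := (hBb i).exists_norm_le
        rw [isBounded_iff_forall_norm_le]
        refine ⟨R / s, fun x hx => ?_⟩
        have := hR _ hx
        rw [norm_smul, Real.norm_eq_abs, abs_of_pos hs] at this
        rw [le_div_iff₀ hs]; linarith)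
      (fun i j hij => (hBd hij).preimage _)
    have h2 : {ω | ∀ i, cnt (fun j => s • X j ω) (B i) = (k i : ℕ∞)} =
        {ω | ∀ i, cnt (fun j => X j ω) ((fun x : E d => s • x) ⁻¹' (B i)) = (k i : ℕ∞)} := by
      ext ω
      rfl
    have h3 : ∀ i, volume.real ((fun x : E d => s • x) ⁻¹' (B i)) =
        volume.real (B i) / s ^ d := by
      intro i
      rw [measureReal_def, Measure.addHaar_preimage_smul _ hs.ne', ENNReal.toReal_mul,
        finrank_euclideanSpace_fin, abs_of_pos (by positivity),
        ENNReal.toReal_ofReal (by positivity), measureReal_def]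
      rw [div_eq_mul_inv, mul_comm]
    rw [h2, h1]
    congr 1
    refine Finset.prod_congr rfl fun i _ => ?_
    rw [h3]
    have : lam / s ^ d * volume.real (B i) = lam * (volume.real (B i) / s ^ d) := by ring
    rw [this]

end

/-- scaling and unbounded components -/
theorem hasUnbounded_scale {s r : ℝ} (hs : 0 < s) {y : ℕ → E d}
    (h : HasUnbounded (r / s) y) : HasUnbounded r (fun i => s • y i) := by
  obtain ⟨x, hx, hub⟩ := h
  have hmem : ∀ w : E d, w ∈ (detected (r / s) y)ᶜ → s • w ∈ (detected r (fun i => s • y i))ᶜ := by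
    intro w hw
    unfold detected at *
    simp only [Set.mem_compl_iff, Set.mem_iUnion, Metric.mem_ball, not_exists, not_lt] at *
    intro i
    have := hw i
    rw [dist_smul₀, Real.norm_eq_abs, abs_of_pos hs]
    rw [div_le_iff₀ hs] at this
    linarith
  refine ⟨s • x, hmem x hx, ?_⟩
  intro hb
  apply hub
  set C := connectedComponentIn (detected (r / s) y)ᶜ x with hC
  have h1 : IsPreconnected ((fun w : E d => s • w) '' C) :=
    isPreconnected_connectedComponentIn.image _ (continuous_const_smul s).continuousOn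
  have h2 : (fun w : E d => s • w) '' C ⊆
      connectedComponentIn (detected r (fun i => s • y i))ᶜ (s • x) := by
    refine h1.subset_connectedComponentIn ⟨x, mem_connectedComponentIn hx, rfl⟩ ?_
    rintro _ ⟨w, hw, rfl⟩
    exact hmem w (connectedComponentIn_subset _ _ hw)
  have h3 := hb.subset h2
  obtain ⟨R, hR⟩ := h3.exists_norm_le
  rw [isBounded_iff_forall_norm_le]
  refine ⟨R / s, fun w hw => ?_⟩
  have := hR _ ⟨w, hw, rfl⟩
  rw [norm_smul, Real.norm_eq_abs, abs_of_pos hs] at this
  rw [le_div_iff₀ hs]; linarith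

/-- above `lamCrit`, there is a smaller radius without unbounded vacant component -/
theorem exists_radius {Ω : Type} [MeasurableSpace Ω] {P : Measure Ω} {r : ℝ} (hr : 0 < r)
    (hd : 1 ≤ d) {lam : ℝ≥0} {X : ℕ → Ω → E d} (h : IsPoisson P (lam : ℝ) X)
    (hcrit : lamCrit d r < lam) :
    ∃ r1, 0 < r1 ∧ r1 < r ∧ P {ω | HasUnbounded r1 (fun i => X i ω)} = 0 := by
  obtain ⟨l1, h1, h2⟩ := ENNReal.lt_iff_exists_nnreal_btwn.1 hcrit
  have h2' : l1 < lam := by exact_mod_cast h2
  -- may assume l1 > 0
  obtain ⟨l2, h3, h4⟩ := exists_between h2'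
  have hl2pos : 0 < l2 := lt_of_le_of_lt zero_le' h3
  have hcrit2 : lamCrit d r < l2 := h1.trans (by exact_mod_cast h3)
  have hlampos : 0 < lam := hl2pos.trans h4
  set s : ℝ := ((lam : ℝ) / l2) ^ ((d : ℝ)⁻¹) with hs
  have hratio : 1 < (lam : ℝ) / l2 := by
    rw [one_lt_div (by exact_mod_cast hl2pos)]; exact_mod_cast h4
  have hd' : (d : ℝ) ≠ 0 := by exact_mod_cast (by omega : d ≠ 0)
  have hs1 : 1 < s := Real.one_lt_rpow hratio (by positivity)
  have hspos : 0 < s := by linarith
  have hsd : s ^ d = (lam : ℝ) / l2 := by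
    rw [hs, ← Real.rpow_natCast, ← Real.rpow_mul (by positivity), inv_mul_cancel₀ hd',
      Real.rpow_one]
  have hscale := h.scale hspos
  have hlam : (lam : ℝ) / s ^ d = (l2 : ℝ) := by
    rw [hsd]
    have : (lam : ℝ) ≠ 0 := by exact_mod_cast hlampos.ne'
    have : (l2 : ℝ) ≠ 0 := by exact_mod_cast hl2pos.ne'
    field_simp
  rw [hlam] at hscale
  have hnull : P {ω | HasUnbounded r (fun i => s • X i ω)} = 0 := by
    by_contra hne
    have hpos : 0 < P {ω | HasUnbounded r (fun i => s • X i ω)} := pos_iff_ne_zero.2 hne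
    have hmem : (l2 : ℝ≥0∞) ≤ lamCrit d r :=
      le_sSup ⟨l2, hl2pos, rfl, Ω, inferInstance, P, _, hscale, hpos⟩
    exact absurd hcrit2 (not_lt.2 hmem)
  refine ⟨r / s, by positivity, div_lt_self hr hs1, ?_⟩
  refine measure_mono_null ?_ hnull
  intro ω hω
  exact hasUnbounded_scale hspos hω

end Pool.Agent.F368
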