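import Pool.Agent.F368.Displ
import Pool.Agent.F368.Zero

/-!
The events used in the windows and their measurability.
-/

open MeasureTheory ProbabilityTheory Set Filter Topology
open scoped ENNReal NNReal

namespace Pool.Agent.F368

variable {d : ℕ}

/-- first case: a target cell and a configuration -/
theorem measurableSet_zy {Q : V d → (ℕ → E d) → Prop}
    (h : ∀ z, MeasurableSet {y : ℕ → E d | Q z y}) :
    MeasurableSet {p : V d × (ℕ → E d) | Q p.1 p.2} := by
  have : {p : V d × (ℕ → E d) | Q p.1 p.2} =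
      ⋃ z : V d, (Prod.fst ⁻¹' {z}) ∩ (Prod.snd ⁻¹' {y | Q z y}) := by
    ext ⟨z, y⟩
    simp
  rw [this]
  exact MeasurableSet.iUnion fun z =>
    (measurable_fst (measurableSet_singleton z)).inter (measurable_snd (h z))

/-- second case: a target cell, a configuration and increments -/
theorem measurableSet_zyu {Q : V d → (ℕ → E d) → (ℕ → ℝ≥0 → E d) → Prop}
    (h : ∀ z, MeasurableSet {p : (ℕ → E d) × (ℕ → ℝ≥0 → E d) | Q z p.1 p.2}) :
    MeasurableSet {p : (V d × (ℕ → E d)) × (ℕ → ℝ≥0 → E d) | Q p.1.1 p.1.2 p.2} := by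
  have : {p : (V d × (ℕ → E d)) × (ℕ → ℝ≥0 → E d) | Q p.1.1 p.1.2 p.2} =
      ⋃ z : V d, ((fun p : (V d × (ℕ → E d)) × (ℕ → ℝ≥0 → E d) => p.1.1) ⁻¹' {z}) ∩
        ((fun p : (V d × (ℕ → E d)) × (ℕ → ℝ≥0 → E d) => (p.1.2, p.2)) ⁻¹'
          {p | Q z p.1 p.2}) := by
    ext ⟨⟨z, y⟩, u⟩
    simp
  rw [this]
  refine MeasurableSet.iUnion fun z => MeasurableSet.inter ?_ ?_
  · exact (measurable_fst.comp measurable_fst) (measurableSet_singleton z)
  · exact ((measurable_snd.comp measurable_fst).prodMk measurable_snd) (h z)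

theorem measurableSet_follow {a : ℝ} (ha : 0 < a) (κ0 δ : ℝ) (M : ℕ) (z : V d) :
    MeasurableSet {p : (ℕ → E d) × (ℕ → ℝ≥0 → E d) | FollowEv a κ0 δ M z p.1 p.2} := by
  have hcell : ∀ (i : ℕ) (c : V d),
      Measurable fun p : (ℕ → E d) × (ℕ → ℝ≥0 → E d) => cell a (p.1 i) = c := by
    intro i c
    refine measurableSet_setOfPred.1 ?_
    have h1 : Measurable (fun p : (ℕ → E d) × (ℕ → ℝ≥0 → E d) => p.1 i) :=
      (measurable_pi_apply i).comp measurable_fst
    exact h1 (measurableSet_cellSet ha c)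
  refine measurableSet_setOfPred.2 ?_
  refine Measurable.forall fun c => Measurable.imp measurable_const ?_
  refine Measurable.forall fun i => Measurable.imp (hcell i c) (Measurable.imp ?_ ?_)
  · exact Measurable.forall fun i' => Measurable.imp measurable_const (hcell i' c).not
  · refine Measurable.forall fun n => Measurable.imp measurable_const ?_
    refine measurableSet_setOfPred.1 ?_
    have h1 : Measurable (fun p : (ℕ → E d) × (ℕ → ℝ≥0 → E d) => p.1 i) :=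
      (measurable_pi_apply i).comp measurable_fst
    have h2 : Measurable (fun p : (ℕ → E d) × (ℕ → ℝ≥0 → E d) =>
        p.2 i (TopologicalSpace.denseSeq ℝ≥0 n)) :=
      (measurable_pi_apply (TopologicalSpace.denseSeq ℝ≥0 n)).comp
        ((measurable_pi_apply i).comp measurable_snd)
    exact measurableSet_le (h2.add (((h1.sub_const (pt a z)).const_smul (1 - κ0)).const_smul
      (((TopologicalSpace.denseSeq ℝ≥0 n : ℝ≥0) : ℝ)))).norm measurable_const

theorem measurableSet_mix {S : Finset (V d)} {K : ℕ} (hK : S ⊆ box d K) {a : ℝ} (ha : 0 < a)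
    (R L : ℕ) (z : V d) :
    MeasurableSet {y : ℕ → E d | ∃ z', nrm (z' - z) ≤ R ∧ Reach S (occ a y) z' L} := by
  refine measurableSet_setOfPred.2 ?_
  refine Measurable.exists fun z' => Measurable.and measurable_const ?_
  refine measurableSet_setOfPred.1 ?_
  exact measurableSet_reach (O := fun y : ℕ → E d => occ a y) hK
    (fun c => measurableSet_occ (y := fun i (y : ℕ → E d) => y i)
      (fun i => measurable_pi_apply i) ha c) z' L

/-- the follow event only depends on the paths up to time one -/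
theorem follow_min (a κ0 δ : ℝ) (M : ℕ) (z : V d) (y : ℕ → E d) (m : ℕ → ℝ≥0 → E d) :
    FollowEv a κ0 δ M z y m ↔ FollowEv a κ0 δ M z y (fun i t => m i (min t 1)) := by
  unfold FollowEv
  refine forall_congr' fun c => forall_congr' fun _ => forall_congr' fun i =>
    forall_congr' fun _ => forall_congr' fun _ => forall_congr' fun n => forall_congr' fun hn => ?_
  simp only [min_eq_left hn]

/-- parameters of the proof -/
structure Par (d : ℕ) where
  /-- mesh -/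
  a : ℝ
  /-- contraction ratio -/
  κ0 : ℝ
  /-- allowed displacement -/
  δ : ℝ
  /-- range of the percolation -/
  S : Finset (V d)
  /-- size of the range -/
  K : ℕ
  /-- connectivity distance at the kill time -/
  L : ℕ
  /-- displacement in a window -/
  R : ℕ
  /-- mesoscopic scale -/
  m : ℕ
  /-- number of nodes in a mesoscopic cube -/
  n : ℕ
  /-- radius in mesoscopic cubes -/
  Nq : ℕ
  /-- number of windows -/
  N : ℕ
  /-- mixing time -/
  Δ : ℝ≥0

/-- start of window `k` -/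
noncomputable def Par.win (p : Par d) (k : ℕ) : ℝ≥0 := k * (p.Δ + 1)

theorem Par.win_succ (p : Par d) (k : ℕ) : p.win (k + 1) = p.win k + p.Δ + 1 := by
  unfold Par.win; push_cast; ring

variable {Ω : Type*} [mΩ : MeasurableSpace Ω]

/-- enough nodes in every mesoscopic cube -/
def evDens (p : Par d) (X : ℕ → Ω → E d) (ζ : ℕ → ℝ≥0 → Ω → E d) (k : ℕ) : Set Ω :=
  {ω | ∀ c, nrm c ≤ p.N * p.R + p.Nq →
    (p.n : ℕ∞) ≤ cnt (pos X ζ (p.win k) ω) (cellSet (p.m * p.a) c)}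

/-- bad mixing event -/
def evMix (p : Par d) (X : ℕ → Ω → E d) (ζ : ℕ → ℝ≥0 → Ω → E d) (g : Ω → ℝ≥0 → E d) (k : ℕ) :
    Set Ω :=
  {ω | ∃ z', nrm (z' - cell p.a (g ω (p.win k))) ≤ p.R ∧
    Reach p.S (occ p.a (pos X ζ (p.win k + p.Δ) ω)) z' p.L}

/-- the nodes contract around the target -/
def evKill (p : Par d) (X : ℕ → Ω → E d) (ζ : ℕ → ℝ≥0 → Ω → E d) (g : Ω → ℝ≥0 → E d) (k : ℕ) :
    Set Ω :=
  {ω | FollowEv p.a p.κ0 p.δ (p.L + p.K) (cell p.a (g ω (p.win k + p.Δ)))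
    (pos X ζ (p.win k + p.Δ) ω) (fun i t => incr ζ (p.win k + p.Δ) i t ω)}

/-- event before the mixing -/
def evG (p : Par d) (X : ℕ → Ω → E d) (ζ : ℕ → ℝ≥0 → Ω → E d) (g : Ω → ℝ≥0 → E d) (k : ℕ)
    (B : Set Ω) : Set Ω :=
  (B ∩ evDens p X ζ k) ∩ {ω | nrm (cell p.a (g ω (p.win k))) ≤ k * p.R}

/-- event before the kill attempt -/
def evH (p : Par d) (X : ℕ → Ω → E d) (ζ : ℕ → ℝ≥0 → Ω → E d) (g : Ω → ℝ≥0 → E d) (k : ℕ)
    (B : Set Ω) : Set Ω :=
  evG p X ζ g k B ∩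
    {ω | nrm (cell p.a (g ω (p.win k + p.Δ)) - cell p.a (g ω (p.win k))) ≤ p.R}

/-- the survival events -/
def surv (p : Par d) (X : ℕ → Ω → E d) (ζ : ℕ → ℝ≥0 → Ω → E d) (g : Ω → ℝ≥0 → E d) : ℕ → Set Ω
  | 0 => Set.univ
  | k + 1 => evH p X ζ g k (surv p X ζ g k) \ ((evMix p X ζ g k)ᶜ ∩ evKill p X ζ g k)

theorem measurable_g {X : ℕ → Ω → E d} {ζ : ℕ → ℝ≥0 → Ω → E d} {g : Ω → ℝ≥0 → E d}
    (hg : IsNonAnticipating X ζ g) {a : ℝ} (ha : 0 < a) {s t : ℝ≥0} (hst : s ≤ t) :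
    Measurable[Fs X ζ t] (fun ω => cell a (g ω s)) := by
  have h1 : Measurable[Fs X ζ t] (fun ω => g ω s) :=
    (hg.adapted s).mono ((pastSigma_le_Fs X ζ s).trans (Fs_mono X ζ hst)) le_rfl
  exact (measurable_cell ha).comp h1

theorem measurable_posfun {X : ℕ → Ω → E d} {ζ : ℕ → ℝ≥0 → Ω → E d} {s t : ℝ≥0} (hst : s ≤ t) :
    Measurable[Fs X ζ t] (fun ω => pos X ζ s ω) :=
  @measurable_pi_lambda _ _ _ (Fs X ζ t) _ _ fun i => measurable_pos_Fs X ζ hst i

theorem measurable_incr_min {X : ℕ → Ω → E d} {ζ : ℕ → ℝ≥0 → Ω → E d} {s t : ℝ≥0}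
    (hst : s + 1 ≤ t) :
    Measurable[Fs X ζ t] (fun ω i u => incr ζ s i (min u 1) ω) := by
  refine @measurable_pi_lambda _ _ _ (Fs X ζ t) _ _ fun i => ?_
  refine @measurable_pi_lambda _ _ _ (Fs X ζ t) _ _ fun u => ?_
  letI : MeasurableSpace Ω := Fs X ζ t
  have h1 : s + min u 1 ≤ t := (add_le_add le_rfl (min_le_right u 1)).trans hst
  have h2 : s ≤ t := le_trans (le_add_of_nonneg_right zero_le') hst
  exact (measurable_ζ_Fs X ζ h1 i).sub (measurable_ζ_Fs X ζ h2 i)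

theorem measurableSet_evDens (p : Par d) (ha : 0 < p.a) (hm : 0 < p.m) {X : ℕ → Ω → E d}
    {ζ : ℕ → ℝ≥0 → Ω → E d} (k : ℕ) {t : ℝ≥0} (ht : p.win k ≤ t) :
    MeasurableSet[Fs X ζ t] (evDens p X ζ k) := by
  have hma : 0 < (p.m : ℝ) * p.a := by
    have : (0 : ℝ) < p.m := by exact_mod_cast hm
    positivity
  have : evDens p X ζ k = ⋂ c : V d, {ω | nrm c ≤ p.N * p.R + p.Nq →
      (p.n : ℕ∞) ≤ cnt (pos X ζ (p.win k) ω) (cellSet (p.m * p.a) c)} := by
    ext ω; simp [evDens]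
  rw [this]
  refine MeasurableSet.iInter fun c => ?_
  by_cases hc : nrm c ≤ p.N * p.R + p.Nq
  · simp only [hc, forall_const]
    exact measurableSet_le_cnt (m := Fs X ζ t) (fun i => measurable_pos_Fs X ζ ht i)
      (measurableSet_cellSet hma c) p.n
  · simp only [hc, false_imp_iff, Set.setOf_true, MeasurableSet.univ]

theorem measurableSet_evMix (p : Par d) (ha : 0 < p.a) (hK : p.S ⊆ box d p.K) {X : ℕ → Ω → E d}
    {ζ : ℕ → ℝ≥0 → Ω → E d} {g : Ω → ℝ≥0 → E d} (hg : IsNonAnticipating X ζ g) (k : ℕ)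
    {t : ℝ≥0} (ht : p.win k + p.Δ ≤ t) :
    MeasurableSet[Fs X ζ t] (evMix p X ζ g k) := by
  have h1 : Measurable[Fs X ζ t] (fun ω => (cell p.a (g ω (p.win k)),
      pos X ζ (p.win k + p.Δ) ω)) :=
    Measurable.prodMk (m := Fs X ζ t)
      (measurable_g hg ha (le_trans (le_add_of_nonneg_right zero_le') ht)) (measurable_posfun ht)
  exact h1 (measurableSet_zy (fun z => measurableSet_mix hK ha p.R p.L z))

theorem measurableSet_evKill (p : Par d) (ha : 0 < p.a) {X : ℕ → Ω → E d}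
    {ζ : ℕ → ℝ≥0 → Ω → E d} {g : Ω → ℝ≥0 → E d} (hg : IsNonAnticipating X ζ g) (k : ℕ)
    {t : ℝ≥0} (ht : p.win k + p.Δ + 1 ≤ t) :
    MeasurableSet[Fs X ζ t] (evKill p X ζ g k) := by
  have ht' : p.win k + p.Δ ≤ t := le_trans (le_add_of_nonneg_right zero_le') ht
  have h1 : Measurable[Fs X ζ t] (fun ω => ((cell p.a (g ω (p.win k + p.Δ)),
      pos X ζ (p.win k + p.Δ) ω), fun i u => incr ζ (p.win k + p.Δ) i (min u 1) ω)) :=
    Measurable.prodMk (m := Fs X ζ t)
      (Measurable.prodMk (m := Fs X ζ t) (measurable_g hg ha ht') (measurable_posfun ht'))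
      (measurable_incr_min ht)
  have h2 := h1 (measurableSet_zyu (Q := fun z y u => FollowEv p.a p.κ0 p.δ (p.L + p.K) z y u)
    (fun z => measurableSet_follow ha p.κ0 p.δ (p.L + p.K) z))
  have h3 : evKill p X ζ g k = (fun ω => ((cell p.a (g ω (p.win k + p.Δ)),
      pos X ζ (p.win k + p.Δ) ω), fun i u => incr ζ (p.win k + p.Δ) i (min u 1) ω)) ⁻¹'
      {q : (V d × (ℕ → E d)) × (ℕ → ℝ≥0 → E d) |
        FollowEv p.a p.κ0 p.δ (p.L + p.K) q.1.1 q.1.2 q.2} := by
    ext ω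
    have h4 := follow_min p.a p.κ0 p.δ (p.L + p.K) (cell p.a (g ω (p.win k + p.Δ)))
      (pos X ζ (p.win k + p.Δ) ω) (fun i t => incr ζ (p.win k + p.Δ) i t ω)
    exact h4
  rw [h3]
  exact h2

theorem measurableSet_evG (p : Par d) (ha : 0 < p.a) (hm : 0 < p.m) {X : ℕ → Ω → E d}
    {ζ : ℕ → ℝ≥0 → Ω → E d} {g : Ω → ℝ≥0 → E d} (hg : IsNonAnticipating X ζ g) (k : ℕ)
    {t : ℝ≥0} (ht : p.win k ≤ t) {B : Set Ω} (hB : MeasurableSet[Fs X ζ t] B) :
    MeasurableSet[Fs X ζ t] (evG p X ζ g k B) := by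
  refine (hB.inter (measurableSet_evDens p ha hm k ht)).inter ?_
  have h1 := measurable_g hg ha ht
  exact h1 (Set.to_countable {z : V d | nrm z ≤ k * p.R}).measurableSet

theorem measurableSet_evH (p : Par d) (ha : 0 < p.a) (hm : 0 < p.m) {X : ℕ → Ω → E d}
    {ζ : ℕ → ℝ≥0 → Ω → E d} {g : Ω → ℝ≥0 → E d} (hg : IsNonAnticipating X ζ g) (k : ℕ)
    {t : ℝ≥0} (ht : p.win k + p.Δ ≤ t) {B : Set Ω} (hB : MeasurableSet[Fs X ζ t] B) :
    MeasurableSet[Fs X ζ t] (evH p X ζ g k B) := by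
  have ht' : p.win k ≤ t := le_trans (le_add_of_nonneg_right zero_le') ht
  refine (measurableSet_evG p ha hm hg k ht' hB).inter ?_
  have h1 : Measurable[Fs X ζ t] (fun ω => (cell p.a (g ω (p.win k + p.Δ)),
      cell p.a (g ω (p.win k)))) :=
    Measurable.prodMk (m := Fs X ζ t) (measurable_g hg ha ht) (measurable_g hg ha ht')
  exact h1 (Set.to_countable {z : V d × V d | nrm (z.1 - z.2) ≤ p.R}).measurableSet

theorem measurableSet_surv (p : Par d) (ha : 0 < p.a) (hm : 0 < p.m) (hK : p.S ⊆ box d p.K)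
    {X : ℕ → Ω → E d} {ζ : ℕ → ℝ≥0 → Ω → E d} {g : Ω → ℝ≥0 → E d}
    (hg : IsNonAnticipating X ζ g) (k : ℕ) :
    MeasurableSet[Fs X ζ (p.win k)] (surv p X ζ g k) := by
  induction k with
  | zero => exact MeasurableSet.univ
  | succ k ih =>
    have h1 : p.win k + p.Δ + 1 ≤ p.win (k + 1) := (p.win_succ k).ge
    have h2 : p.win k + p.Δ ≤ p.win (k + 1) := le_trans (le_add_of_nonneg_right zero_le') h1
    have h3 : p.win k ≤ p.win (k + 1) := le_trans (le_add_of_nonneg_right zero_le') h2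
    have h4 := measurableSet_evH p ha hm hg k h2 (Fs_mono X ζ h3 _ ih)
    exact h4.diff ((measurableSet_evMix p ha hK hg k h2).compl.inter
      (measurableSet_evKill p ha hg k h1))

end Pool.Agent.F368
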