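import Pool.Agent.F368.Perc

/-!
Elementary facts about the finite product expectation `Ex`.
-/

open Finset

namespace Pool.Agent.F368

section Basic

variable {ι : Type*} [DecidableEq ι]

theorem Ex_congr {F : Finset ι} {p : ℝ} {f g : Finset ι → ℝ} (h : ∀ s ⊆ F, f s = g s) :
    Ex F p f = Ex F p g := by
  unfold Ex
  refine Finset.sum_congr rfl fun s hs => ?_
  rw [h s (Finset.mem_powerset.1 hs)]

theorem Ex_empty (p : ℝ) (f : Finset ι → ℝ) : Ex ∅ p f = f ∅ := by
  simp [Ex]

theorem Ex_insert {F : Finset ι} {i : ι} (hi : i ∉ F) (p : ℝ) (f : Finset ι → ℝ) :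
    Ex (insert i F) p f = (1 - p) * Ex F p f + p * Ex F p (fun s => f (insert i s)) := by
  unfold Ex
  rw [Finset.sum_powerset_insert hi, Finset.mul_sum, Finset.mul_sum]
  congr 1
  · refine Finset.sum_congr rfl fun s hs => ?_
    have hs' := Finset.mem_powerset.1 hs
    have h1 : i ∉ s := fun h => hi (hs' h)
    have h2 : (insert i F \ s).card = (F \ s).card + 1 := by
      rw [Finset.insert_sdiff_of_notMem _ h1, Finset.card_insert_of_notMem]
      simp [hi]
    rw [h2]; ring
  · refine Finset.sum_congr rfl fun s hs => ?_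
    have hs' := Finset.mem_powerset.1 hs
    have h1 : i ∉ s := fun h => hi (hs' h)
    have h2 : (insert i F \ insert i s).card = (F \ s).card := by
      congr 1
      ext x
      simp only [Finset.mem_sdiff, Finset.mem_insert]
      constructor
      · rintro ⟨h3 | h3, h4⟩
        · exact absurd (Or.inl h3) h4
        · exact ⟨h3, fun h => h4 (Or.inr h)⟩
      · rintro ⟨h3, h4⟩
        refine ⟨Or.inr h3, ?_⟩
        rintro (h5 | h5)
        · exact hi (h5 ▸ h3)
        · exact h4 h5
    rw [h2, Finset.card_insert_of_notMem h1]; ring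

theorem Ex_erase {F : Finset ι} {i : ι} (hi : i ∈ F) (p : ℝ) (f : Finset ι → ℝ) :
    Ex F p f = (1 - p) * Ex (F.erase i) p f + p * Ex (F.erase i) p (fun s => f (insert i s)) := by
  conv_lhs => rw [← Finset.insert_erase hi]
  exact Ex_insert (Finset.notMem_erase i F) p f

theorem Ex_add (F : Finset ι) (p : ℝ) (f g : Finset ι → ℝ) :
    Ex F p (fun s => f s + g s) = Ex F p f + Ex F p g := by
  unfold Ex
  rw [← Finset.sum_add_distrib]
  exact Finset.sum_congr rfl fun s _ => by ring

theorem Ex_sub (F : Finset ι) (p : ℝ) (f g : Finset ι → ℝ) :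
    Ex F p (fun s => f s - g s) = Ex F p f - Ex F p g := by
  unfold Ex
  rw [← Finset.sum_sub_distrib]
  exact Finset.sum_congr rfl fun s _ => by ring

theorem Ex_smul (F : Finset ι) (p : ℝ) (c : ℝ) (f : Finset ι → ℝ) :
    Ex F p (fun s => c * f s) = c * Ex F p f := by
  unfold Ex
  rw [Finset.mul_sum]
  exact Finset.sum_congr rfl fun s _ => by ring

theorem Ex_const (F : Finset ι) (p c : ℝ) : Ex F p (fun _ => c) = c := by
  induction F using Finset.induction_on with
  | empty => exact Ex_empty _ _
  | insert i F hi ih => rw [Ex_insert hi, ih]; ring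

theorem Ex_sum {κ : Type*} (F : Finset ι) (p : ℝ) (A : Finset κ) (f : κ → Finset ι → ℝ) :
    Ex F p (fun s => ∑ k ∈ A, f k s) = ∑ k ∈ A, Ex F p (f k) := by
  unfold Ex
  rw [Finset.sum_comm]
  exact Finset.sum_congr rfl fun s _ => by rw [Finset.mul_sum]

theorem Ex_nonneg {F : Finset ι} {p : ℝ} (h0 : 0 ≤ p) (h1 : p ≤ 1) {f : Finset ι → ℝ}
    (hf : ∀ s ⊆ F, 0 ≤ f s) : 0 ≤ Ex F p f := by
  unfold Ex
  refine Finset.sum_nonneg fun s hs => ?_
  have h2 : 0 ≤ 1 - p := by linarith
  have := hf s (Finset.mem_powerset.1 hs)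
  positivity

theorem Ex_mono {F : Finset ι} {p : ℝ} (h0 : 0 ≤ p) (h1 : p ≤ 1) {f g : Finset ι → ℝ}
    (hf : ∀ s ⊆ F, f s ≤ g s) : Ex F p f ≤ Ex F p g := by
  have : 0 ≤ Ex F p (fun s => g s - f s) :=
    Ex_nonneg h0 h1 fun s hs => sub_nonneg.2 (hf s hs)
  rw [Ex_sub] at this
  linarith

theorem Ex_le_const {F : Finset ι} {p : ℝ} (h0 : 0 ≤ p) (h1 : p ≤ 1) {f : Finset ι → ℝ} {c : ℝ}
    (hf : ∀ s ⊆ F, f s ≤ c) : Ex F p f ≤ c := by
  have := Ex_mono h0 h1 hf (g := fun _ => c)
  rwa [Ex_const] at this

theorem abs_Ex_le {F : Finset ι} {p : ℝ} (h0 : 0 ≤ p) (h1 : p ≤ 1) (f : Finset ι → ℝ) :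
    |Ex F p f| ≤ Ex F p (fun s => |f s|) := by
  rw [abs_le]
  constructor
  · have : Ex F p (fun s => (-1) * |f s|) ≤ Ex F p f :=
      Ex_mono h0 h1 fun s _ => by have := neg_abs_le (f s); linarith
    rw [Ex_smul] at this; linarith
  · exact Ex_mono h0 h1 fun s _ => le_abs_self _

/-- If `f` does not see the sites outside `F`, its expectation can be computed in `F`. -/
theorem Ex_of_subset {F G : Finset ι} (hFG : F ⊆ G) (p : ℝ) (f : Finset ι → ℝ)
    (hf : ∀ s ⊆ G, f s = f (s ∩ F)) : Ex G p f = Ex F p f := by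
  induction G using Finset.strongInduction with
  | H G ih =>
    by_cases h : G ⊆ F
    · rw [Finset.Subset.antisymm h hFG]
    · obtain ⟨i, hiG, hiF⟩ := Finset.not_subset.1 h
      rw [Ex_erase hiG]
      have h1 : Ex (G.erase i) p (fun s => f (insert i s)) = Ex (G.erase i) p f := by
        refine Ex_congr fun s hs => ?_
        have hs' : s ⊆ G := hs.trans (Finset.erase_subset _ _)
        rw [hf s hs', hf (insert i s) (Finset.insert_subset hiG hs'),
          Finset.insert_inter_of_notMem hiF]
      rw [h1, ih (G.erase i) (Finset.erase_ssubset hiG)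
        (fun x hx => Finset.mem_erase.2 ⟨fun h => hiF (h ▸ hx), hFG hx⟩)
        (fun s hs => hf s (hs.trans (Finset.erase_subset _ _)))]
      ring

/-- independence of disjoint sets of sites -/
theorem Ex_mul_of_disjoint {F G : Finset ι} (hFG : Disjoint F G) (p : ℝ) (f g : Finset ι → ℝ) :
    Ex (F ∪ G) p (fun s => f (s ∩ F) * g (s ∩ G)) = Ex F p f * Ex G p g := by
  induction F using Finset.induction_on generalizing f with
  | empty =>
    rw [Finset.empty_union, Ex_empty, ← Ex_smul]
    refine Ex_congr fun s hs => ?_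
    rw [Finset.inter_empty, Finset.inter_eq_left.2 hs]
  | insert i F hi ih =>
    have hiG : i ∉ G := fun h => (Finset.disjoint_left.1 hFG (Finset.mem_insert_self i F)) h
    have hd : Disjoint F G := hFG.mono_left (Finset.subset_insert i F)
    rw [Finset.insert_union, Ex_insert (by simp [hi, hiG]), Ex_insert hi]
    have e1 : Ex (F ∪ G) p (fun s => f (s ∩ insert i F) * g (s ∩ G)) = Ex F p f * Ex G p g := by
      rw [← ih hd f]
      refine Ex_congr fun s hs => ?_
      have : i ∉ s := fun h => by
        have := hs h; simp [hi, hiG] at this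
      rw [Finset.inter_insert_of_notMem this]
    have e2 : Ex (F ∪ G) p (fun s => f (insert i s ∩ insert i F) * g (insert i s ∩ G)) =
        Ex F p (fun s => f (insert i s)) * Ex G p g := by
      rw [← ih hd (fun s => f (insert i s))]
      refine Ex_congr fun s hs => ?_
      rw [Finset.insert_inter_of_notMem hiG, ← Finset.insert_inter_distrib]
    rw [e1, e2]; ring

/-- translation / relabelling invariance -/
theorem Ex_map {κ : Type*} [DecidableEq κ] (F : Finset ι) (e : ι ↪ κ) (p : ℝ)
    (f : Finset κ → ℝ) : Ex (F.map e) p f = Ex F p (fun s => f (s.map e)) := by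
  induction F using Finset.induction_on generalizing f with
  | empty => simp [Ex_empty]
  | insert i F hi ih =>
    rw [Finset.map_insert, Ex_insert (by simp [hi]), Ex_insert hi, ih, ih]
    simp only [Finset.map_insert]

/-- Monotonicity in `p` for decreasing functions. -/
theorem Ex_anti_p {F : Finset ι} {p q : ℝ} (h0 : 0 ≤ p) (hpq : p ≤ q) (h1 : q ≤ 1)
    {f : Finset ι → ℝ} (hf : ∀ s t, s ⊆ t → t ⊆ F → f t ≤ f s) : Ex F q f ≤ Ex F p f := by
  induction F using Finset.induction_on generalizing f with
  | empty => simp [Ex_empty]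
  | insert i F hi ih =>
    rw [Ex_insert hi, Ex_insert hi]
    have a1 : Ex F q f ≤ Ex F p f :=
      ih fun s t hst ht => hf s t hst (ht.trans (Finset.subset_insert _ _))
    have a2 : Ex F q (fun s => f (insert i s)) ≤ Ex F p (fun s => f (insert i s)) :=
      ih fun s t hst ht => hf _ _ (Finset.insert_subset_insert _ hst)
        (Finset.insert_subset_insert _ ht)
    have a3 : Ex F p (fun s => f (insert i s)) ≤ Ex F p f :=
      Ex_mono h0 (hpq.trans h1) fun s hs =>
        hf _ _ (Finset.subset_insert _ _) (Finset.insert_subset_insert _ hs)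
    have h2 : 0 ≤ 1 - q := by linarith
    have h3 : 0 ≤ q := h0.trans hpq
    nlinarith [mul_le_mul_of_nonneg_left a1 h2, mul_le_mul_of_nonneg_left a2 h3,
      mul_le_mul_of_nonneg_left a3 (sub_nonneg.2 hpq)]

theorem hasDerivAt_Ex (F : Finset ι) (p : ℝ) (f : Finset ι → ℝ) :
    HasDerivAt (fun q => Ex F q f)
      (∑ i ∈ F, Ex F p (fun s => f (insert i s) - f (s.erase i))) p := by
  induction F using Finset.induction_on generalizing f with
  | empty =>
    simp only [Ex_empty, Finset.sum_empty]
    exact hasDerivAt_const _ _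
  | insert i F hi ih =>
    have e : (fun q => Ex (insert i F) q f) =
        fun q => (1 - q) * Ex F q f + q * Ex F q (fun s => f (insert i s)) := by
      funext q; exact Ex_insert hi q f
    rw [e]
    have h1 := ((hasDerivAt_id p).const_sub 1).mul (ih f)
    have h2 := (hasDerivAt_id p).mul (ih (fun s => f (insert i s)))
    have h3 := h1.add h2
    refine h3.congr_deriv ?_
    rw [Finset.sum_insert hi]
    have b1 : Ex (insert i F) p (fun s => f (insert i s) - f (s.erase i)) =
        Ex F p (fun s => f (insert i s)) - Ex F p f := by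
      rw [Ex_insert hi, ← Ex_sub]
      have c1 : Ex F p (fun s => f (insert i s) - f (s.erase i)) =
          Ex F p (fun s => f (insert i s) - f s) := by
        refine Ex_congr fun s hs => ?_
        rw [Finset.erase_eq_of_notMem (fun h => hi (hs h))]
      have c2 : Ex F p (fun s => f (insert i (insert i s)) - f ((insert i s).erase i)) =
          Ex F p (fun s => f (insert i s) - f s) := by
        refine Ex_congr fun s hs => ?_
        rw [Finset.insert_idem, Finset.erase_insert (fun h => hi (hs h))]
      rw [c1, c2]; ring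
    have b2 : ∀ j ∈ F, Ex (insert i F) p (fun s => f (insert j s) - f (s.erase j)) =
        (1 - p) * Ex F p (fun s => f (insert j s) - f (s.erase j)) +
        p * Ex F p (fun s => f (insert i (insert j s)) - f (insert i (s.erase j))) := by
      intro j hj
      rw [Ex_insert hi]
      congr 2
      refine Ex_congr fun s hs => ?_
      have hij : i ≠ j := fun h => hi (h ▸ hj)
      rw [Finset.insert_comm i j s, Finset.erase_insert_of_ne hij]
    rw [b1, Finset.sum_congr rfl b2, Finset.sum_add_distrib, ← Finset.mul_sum, ← Finset.mul_sum]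
    simp only [id]
    ring

end Basic

end Pool.Agent.F368
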