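import Pool.Agent.F368.OSSS
import Pool.Agent.F368.Geom

/-!
Exploration of the free clusters of a sphere, and the resulting differential inequality.
-/

open Finset

namespace Pool.Agent.F368

variable {d : ℕ}

open Classical in
/-- indicator of `Reach S s x n` -/
noncomputable def ind (S : Finset (V d)) (x : V d) (n : ℕ) (s : Finset (V d)) : ℝ :=
  if Reach S (↑s) x n then 1 else 0

theorem ind_nonneg (S : Finset (V d)) (x : V d) (n : ℕ) (s : Finset (V d)) :
    0 ≤ ind S x n s := by unfold ind; split_ifs <;> norm_num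

theorem ind_le_one (S : Finset (V d)) (x : V d) (n : ℕ) (s : Finset (V d)) :
    ind S x n s ≤ 1 := by unfold ind; split_ifs <;> norm_num

theorem ind_congr {S : Finset (V d)} {x y : V d} {n m : ℕ} {s t : Finset (V d)}
    (h : Reach S (↑s) x n ↔ Reach S (↑t) y m) : ind S x n s = ind S y m t := by
  unfold ind
  by_cases h1 : Reach S (↑s) x n
  · rw [if_pos h1, if_pos (h.1 h1)]
  · rw [if_neg h1, if_neg (fun h2 => h1 (h.2 h2))]

theorem ind_anti (S : Finset (V d)) (x : V d) (n : ℕ) {s t : Finset (V d)} (h : s ⊆ t) :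
    ind S x n t ≤ ind S x n s := by
  unfold ind
  by_cases h1 : Reach S (↑t) x n
  · have h2 : Reach S (↑s) x n := h1.anti (by exact_mod_cast h)
    rw [if_pos h1, if_pos h2]
  · rw [if_neg h1]; split_ifs <;> norm_num

theorem theta_eq (S : Finset (V d)) (K n : ℕ) (p : ℝ) :
    theta S K n p = Ex (box d (n + K)) p (ind S 0 n) := rfl

theorem theta_nonneg (S : Finset (V d)) (K n : ℕ) {p : ℝ} (h0 : 0 ≤ p) (h1 : p ≤ 1) :
    0 ≤ theta S K n p := Ex_nonneg h0 h1 fun _ _ => ind_nonneg _ _ _ _

theorem theta_le_one (S : Finset (V d)) (K n : ℕ) {p : ℝ} (h0 : 0 ≤ p) (h1 : p ≤ 1) :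
    theta S K n p ≤ 1 := Ex_le_const h0 h1 fun _ _ => ind_le_one _ _ _ _

/-- the probability of `Reach S s c n` in any large region is `theta`. -/
theorem Ex_ind {S : Finset (V d)} {K : ℕ} (hK : S ⊆ box d K) (c : V d) (n : ℕ) (p : ℝ)
    {F : Finset (V d)} (hF : ∀ z, nrm (z - c) ≤ n + K → z ∈ F) :
    Ex F p (ind S c n) = theta S K n p := by
  set e : V d ↪ V d := ⟨fun z => c + z, add_right_injective c⟩ with he
  set B : Finset (V d) := (box d (n + K)).map e with hB
  have hBmem : ∀ z, z ∈ B ↔ nrm (z - c) ≤ n + K := by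
    intro z
    rw [hB, Finset.mem_map]
    constructor
    · rintro ⟨w, hw, rfl⟩
      have : e w - c = w := by simp [he]
      rw [this]; exact mem_box.1 hw
    · intro h
      exact ⟨z - c, mem_box.2 h, by simp [he]⟩
  have hBF : B ⊆ F := fun z hz => hF z ((hBmem z).1 hz)
  have h1 : Ex F p (ind S c n) = Ex B p (ind S c n) := by
    refine Ex_of_subset hBF p _ fun s hs => ?_
    have : Reach S (↑s) c n ↔ Reach S (↑(s ∩ B)) c n := by
      refine reach_congr hK fun z hz => ?_
      have := (hBmem z).2 hz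
      simp [this]
    exact ind_congr this
  rw [h1, hB, Ex_map, theta_eq]
  refine Ex_congr fun s _ => ?_
  have : Reach S (↑(s.map e)) c n ↔ Reach S (↑s) 0 n := by
    have := reach_translate (S := S) (s := (↑s : Set (V d))) (x := 0) (c := c) (n := n)
    rw [add_zero] at this
    rw [← this, Finset.coe_map]
    rfl
  exact ind_congr this

theorem theta_anti_n {S : Finset (V d)} {K : ℕ} (hK : S ⊆ box d K) {m n : ℕ} (hmn : m ≤ n)
    {p : ℝ} (h0 : 0 ≤ p) (h1 : p ≤ 1) : theta S K n p ≤ theta S K m p := by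
  rw [← Ex_ind hK 0 m p (F := box d (n + K)) (fun z hz => by
    rw [sub_zero] at hz; exact mem_box.2 (by omega)), theta_eq]
  refine Ex_mono h0 h1 fun s _ => ?_
  unfold ind
  by_cases h : Reach S (↑s) 0 n
  · rw [if_pos h, if_pos (h.mono hmn)]
  · rw [if_neg h]; split_ifs <;> norm_num

theorem theta_anti_p (S : Finset (V d)) (K n : ℕ) {p q : ℝ} (h0 : 0 ≤ p) (hpq : p ≤ q)
    (h1 : q ≤ 1) : theta S K n q ≤ theta S K n p :=
  Ex_anti_p h0 hpq h1 fun _ _ hst _ => ind_anti _ _ _ hst

/-- `P(all sites of B vacant) = (1-p)^|B|` -/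
theorem Ex_disjoint_ind {ι : Type*} [DecidableEq ι] (B : Finset ι) (p : ℝ) :
    Ex B p (fun s => if s = ∅ then 1 else 0) = (1 - p) ^ B.card := by
  induction B using Finset.induction_on with
  | empty => simp [Ex_empty]
  | insert i B hi ih =>
    rw [Ex_insert hi, ih, Finset.card_insert_of_notMem hi]
    have : Ex B p (fun s => if insert i s = ∅ then (1 : ℝ) else 0) = 0 :=
      (Ex_congr fun s _ => by simp).trans (Ex_const B p 0)
    rw [this]; ring

theorem theta_le_one_sub {S : Finset (V d)} (hS : (0 : V d) ∈ S) (K n : ℕ) {p : ℝ} (h0 : 0 ≤ p)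
    (h1 : p ≤ 1) : theta S K n p ≤ 1 - p := by
  have hmem : (0 : V d) ∈ box d (n + K) := mem_box.2 (by rw [nrm_zero]; omega)
  rw [theta_eq, Ex_erase hmem]
  have e1 : Ex ((box d (n + K)).erase 0) p (fun s => ind S 0 n (insert 0 s)) = 0 := by
    rw [← Ex_const ((box d (n + K)).erase 0) p 0]
    refine Ex_congr fun s _ => ?_
    unfold ind
    rw [if_neg]
    rintro ⟨y, _, h, _⟩
    exact h 0 hS (by simp)
  have e2 : Ex ((box d (n + K)).erase 0) p (ind S 0 n) ≤ 1 :=
    Ex_le_const h0 h1 fun _ _ => ind_le_one _ _ _ _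
  rw [e1]
  nlinarith

theorem theta_lower {S : Finset (V d)} {K : ℕ} (n : ℕ) {p : ℝ} (h0 : 0 ≤ p)
    (h1 : p ≤ 1) (hd : 1 ≤ d) : (1 - p) ^ (box d (n + K)).card ≤ theta S K n p := by
  rw [theta_eq, ← Ex_disjoint_ind]
  refine Ex_mono h0 h1 fun s _ => ?_
  split_ifs with hs
  · subst hs
    unfold ind
    rw [if_pos]
    refine ⟨fun _ => n, ?_, fun v _ => by simp, ?_⟩
    · have : ∃ j : Fin d, True := ⟨⟨0, hd⟩, trivial⟩
      obtain ⟨j, _⟩ := this
      have := natAbs_le_nrm ((fun _ => (n : ℤ)) - (0 : V d)) j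
      simpa using this
    · refine rtg_mono ?_ (path_in_ball (0 : V d) n (fun _ => (n : ℤ)) ?_)
      · intro a b hab
        exact ⟨hab.1, fun v _ => by simp⟩
      · rw [nrm_le_iff]; intro j; simp
  · exact ind_nonneg _ _ _ _

/-! ### the exploration rule -/

/-- known to be free: all the sites of `x + S` are known to be vacant -/
def KFree (S : Finset (V d)) (W : Finset (V d)) (x : V d) : Prop := ∀ v ∈ S, x + v ∈ W

def KStp (S : Finset (V d)) (W : Finset (V d)) (n : ℕ) (a b : V d) : Prop :=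
  nrm (b - a) ≤ 1 ∧ nrm a ≤ n ∧ nrm b ≤ n ∧ KFree S W a ∧ KFree S W b

def Active (S : Finset (V d)) (n k : ℕ) (W : Finset (V d)) (x : V d) : Prop :=
  nrm x = k ∨ ∃ y z, nrm z = k ∧ KFree S W z ∧ KFree S W y ∧
    Relation.ReflTransGen (KStp S W n) z y ∧ nrm (x - y) ≤ 1

def Cand (S : Finset (V d)) (K n k : ℕ) (O W : Finset (V d)) (c : V d) : Prop :=
  c ∈ box d (n + K) \ (O ∪ W) ∧ ∃ x, nrm x ≤ n ∧ (∃ v ∈ S, c = x + v) ∧ Active S n k W x

open Classical in
noncomputable def nextRule (S : Finset (V d)) (K n k : ℕ) (O W : Finset (V d)) :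
    Option (V d) :=
  if h : ∃ c, Cand S K n k O W c then some (Classical.choose h) else none

theorem nextRule_some {S : Finset (V d)} {K n k : ℕ} {O W : Finset (V d)} {c : V d}
    (h : nextRule S K n k O W = some c) : Cand S K n k O W c := by
  unfold nextRule at h
  split_ifs at h with h1
  have := Classical.choose_spec h1
  rw [Option.some.injEq] at h
  rwa [h] at this

theorem nextRule_none {S : Finset (V d)} {K n k : ℕ} {O W : Finset (V d)}
    (h : nextRule S K n k O W = none) (c : V d) : ¬ Cand S K n k O W c := by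
  unfold nextRule at h
  split_ifs at h with h1
  exact fun hc => h1 ⟨c, hc⟩

theorem KFree.free {S : Finset (V d)} {W s : Finset (V d)} (h : Disjoint W s) {x : V d}
    (hx : KFree S W x) : Free S (↑s) x := fun v hv hm =>
  (Finset.disjoint_left.1 h) (hx v hv) (by exact_mod_cast hm)

theorem KStp.stp {S : Finset (V d)} {W s : Finset (V d)} (h : Disjoint W s) {n : ℕ} {a b : V d}
    (hab : KStp S W n a b) : Stp S (↑s) 0 n a b :=
  ⟨hab.1, by rw [sub_zero]; exact hab.2.1, by rw [sub_zero]; exact hab.2.2.1,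
    hab.2.2.2.1.free h, hab.2.2.2.2.free h⟩

theorem known_of_none {S : Finset (V d)} {K n k : ℕ} (hK : S ⊆ box d K) (hkn : k ≤ n)
    {O W : Finset (V d)} (hnone : nextRule S K n k O W = none)
    {z : V d} (hz : nrm z = k) (hfree : Free S (↑O) z) {b : V d} (h : TC S (↑O) 0 n z b) :
    KFree S W b ∧ Relation.ReflTransGen (KStp S W n) z b := by
  have key : ∀ x, nrm x ≤ n → Active S n k W x → Free S (↑O) x → KFree S W x := by
    intro x hx hact hfr v hv
    have hc := nextRule_none hnone (x + v)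
    by_contra hW
    apply hc
    refine ⟨?_, x, hx, ⟨v, hv, rfl⟩, hact⟩
    rw [Finset.mem_sdiff, Finset.mem_union, mem_box]
    refine ⟨?_, ?_⟩
    · have := nrm_add_le x v
      have := mem_box.1 (hK hv)
      omega
    · rintro (h1 | h1)
      · exact hfr v hv (by exact_mod_cast h1)
      · exact hW h1
  have hz0 : KFree S W z := key z (by omega) (Or.inl hz) hfree
  unfold TC at h
  induction h with
  | refl => exact ⟨hz0, Relation.ReflTransGen.refl⟩
  | @tail b c h1 h2 ih =>
    have hb : nrm b ≤ n := by have := h2.2.1; rwa [sub_zero] at this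
    have hc : nrm c ≤ n := by have := h2.2.2.1; rwa [sub_zero] at this
    have hcK : KFree S W c :=
      key c hc (Or.inr ⟨b, z, hz, hz0, ih.1, ih.2, h2.1⟩) h2.2.2.2.2
    exact ⟨hcK, Relation.ReflTransGen.tail ih.2 ⟨h2.1, hb, hc, ih.1, hcK⟩⟩

theorem det_of_none {S : Finset (V d)} {K n k : ℕ} (hK : S ⊆ box d K) (hk : 1 ≤ k) (hkn : k ≤ n)
    {O W : Finset (V d)} (hnone : nextRule S K n k O W = none) (hOW : Disjoint O W)
    (s : Finset (V d)) (hs : s ⊆ box d (n + K) \ (O ∪ W)) : ind S 0 n (s ∪ O) = ind S 0 n O := by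
  have hn : 1 ≤ n := hk.trans hkn
  have hWs : Disjoint W (s ∪ O) := by
    rw [Finset.disjoint_union_right]
    refine ⟨?_, hOW.symm⟩
    rw [Finset.disjoint_left]
    intro x hxW hxs
    exact (Finset.mem_sdiff.1 (hs hxs)).2 (Finset.mem_union_right _ hxW)
  have : Reach S (↑(s ∪ O)) 0 n ↔ Reach S (↑O) 0 n := by
    constructor
    · intro h
      exact h.anti (by exact_mod_cast Finset.subset_union_right)
    · intro h
      obtain ⟨y, hy, hp⟩ := (reach_iff hn).1 h
      rw [sub_zero] at hy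
      obtain ⟨z, hz, h1, h2⟩ := TC_cross hk (by omega) hp
      have hz0 : (0 : V d) ≠ z := by
        rintro rfl
        rw [nrm_zero] at hz; omega
      have hfz : Free S (↑O) z := h1.free_right hz0
      have k1 := known_of_none hK hkn hnone hz hfz h1.symm
      have k2 := known_of_none hK hkn hnone hz hfz h2
      have t1 : TC S (↑(s ∪ O)) 0 n z 0 := rtg_mono (fun a b hab => hab.stp hWs) k1.2
      have t2 : TC S (↑(s ∪ O)) 0 n z y := rtg_mono (fun a b hab => hab.stp hWs) k2.2
      exact (reach_iff hn).2 ⟨y, by rw [sub_zero]; exact hy, t1.symm.trans t2⟩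
  exact ind_congr this

/-- the exploration tree -/
noncomputable def tree (S : Finset (V d)) (K n k : ℕ) : DT (V d) :=
  DT.build (nextRule S K n k) (box d (n + K)).card ∅ ∅

theorem tree_valid (S : Finset (V d)) (K n k : ℕ) : (tree S K n k).Valid (box d (n + K)) := by
  have := DT.build_valid (next := nextRule S K n k) (F := box d (n + K))
    (fun O W i h => (nextRule_some h).1) (box d (n + K)).card ∅ ∅
  rw [Finset.empty_union, Finset.sdiff_empty] at this
  exact this

theorem tree_det {S : Finset (V d)} {K n k : ℕ} (hK : S ⊆ box d K) (hk : 1 ≤ k) (hkn : k ≤ n) :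
    (tree S K n k).Det (box d (n + K)) (ind S 0 n) := by
  have := DT.build_det (next := nextRule S K n k) (F := box d (n + K))
    (fun O W i h => (nextRule_some h).1) (f := ind S 0 n)
    (fun O W _ _ hOW hnone s hs => det_of_none hK hk hkn hnone hOW s hs)
    (box d (n + K)).card ∅ ∅ (Finset.empty_subset _) (Finset.empty_subset _)
    (Finset.disjoint_empty_right _) (by simp)
  simp only [Finset.sdiff_empty, Finset.union_empty] at this
  exact this

/-- some site near `c` is connected to the sphere of radius `k` -/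
def Hit (S : Finset (V d)) (K n k : ℕ) (c : V d) (s : Set (V d)) : Prop :=
  ∃ y z, nrm z = k ∧ nrm (y - c) ≤ K + 1 ∧ nrm z ≤ n ∧ nrm y ≤ n ∧ Free S s z ∧ TC S s 0 n z y

theorem tree_queried {S : Finset (V d)} {K n k : ℕ} (hK : S ⊆ box d K) (hkn : k ≤ n)
    {c : V d} {s : Finset (V d)} (hs : s ⊆ box d (n + K))
    (h : c ∈ (tree S K n k).queried s) :
    (k ≤ nrm c + K ∧ nrm c ≤ k + K) ∨ Hit S K n k c (↑s) := by
  obtain ⟨O', W', _, _, h3, h4⟩ := DT.build_queried (next := nextRule S K n k)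
    (F := box d (n + K)) (fun O W i h => (nextRule_some h).1) (box d (n + K)).card ∅ ∅ s
    (Finset.empty_subset _) (Finset.empty_subset _) (Finset.disjoint_empty_right _)
    (by simpa using hs) h
  rw [Finset.union_empty] at h3
  obtain ⟨_, x, hx, ⟨v, hv, rfl⟩, hact⟩ := nextRule_some h4
  have hv' := mem_box.1 (hK hv)
  rcases hact with hxk | ⟨y, z, hz, hzK, hyK, hp, hxy⟩
  · left
    have h5 := nrm_add_le x v
    have h6 := nrm_le_add x (x + v)
    have h7 : nrm (x - (x + v)) = nrm v := by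
      rw [show x - (x + v) = -v by abel, nrm_neg]
    omega
  · right
    have t : TC S (↑s) 0 n z y := rtg_mono (fun a b hab => hab.stp h3) hp
    have hyn : nrm y ≤ n := by
      have := t.le_right (by rw [sub_zero]; omega)
      rwa [sub_zero] at this
    refine ⟨y, z, hz, ?_, by omega, hyn, hzK.free h3, t⟩
    have h5 := nrm_tri y x (x + v)
    have h7 : nrm (x - (x + v)) = nrm v := by
      rw [show x - (x + v) = -v by abel, nrm_neg]
    rw [nrm_sub_comm] at hxy
    omega

theorem Hit.anti {S : Finset (V d)} {K n k : ℕ} {c : V d} {s t : Set (V d)} (hst : s ⊆ t)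
    (h : Hit S K n k c t) : Hit S K n k c s := by
  obtain ⟨y, z, h1, h2, h3, h4, h5, h6⟩ := h
  exact ⟨y, z, h1, h2, h3, h4, h5.anti hst, h6.anti hst⟩

theorem Hit_congr {S : Finset (V d)} {K n k : ℕ} (hK : S ⊆ box d K) {c : V d} {s t : Set (V d)}
    (h : ∀ z, nrm z ≤ n + K → (z ∈ s ↔ z ∈ t)) : Hit S K n k c s ↔ Hit S K n k c t := by
  unfold Hit
  have h1 : ∀ a b, TC S s 0 n a b ↔ TC S t 0 n a b := fun a b =>
    TC_congr hK (fun z hz => h z (by rwa [sub_zero] at hz))
  constructor
  · rintro ⟨y, z, a1, a2, a3, a4, a5, a6⟩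
    refine ⟨y, z, a1, a2, a3, a4, ?_, (h1 z y).1 a6⟩
    refine (free_congr fun v hv => h _ ?_).1 a5
    have := nrm_add_le z v
    have := mem_box.1 (hK hv)
    omega
  · rintro ⟨y, z, a1, a2, a3, a4, a5, a6⟩
    refine ⟨y, z, a1, a2, a3, a4, ?_, (h1 z y).2 a6⟩
    refine (free_congr fun v hv => h _ ?_).2 a5
    have := nrm_add_le z v
    have := mem_box.1 (hK hv)
    omega

/-- if the sites near `c` are vacant, `Hit` implies that `c` itself is connected far away -/
theorem Hit.reach {S : Finset (V d)} {K n k : ℕ} (hK : S ⊆ box d K) {c : V d} {s : Set (V d)}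
    (hs : ∀ z, nrm (z - c) ≤ 2 * K + 1 → z ∉ s) (h : Hit S K n k c s) {j : ℕ}
    (hj : j + nrm c ≤ k ∨ j + k ≤ nrm c) : Reach S s c j := by
  obtain ⟨y, z, h1, h2, h3, h4, h5, h6⟩ := h
  have hfree : ∀ x, nrm (x - c) ≤ K + 1 → Free S s x := by
    intro x hx v hv
    apply hs
    have := nrm_add_le (x - c) v
    have := mem_box.1 (hK hv)
    rw [show x + v - c = x - c + v by abel]
    omega
  refine ⟨z, ?_, hfree c (by rw [sub_self, nrm_zero]; omega), ?_⟩
  · have h7 := nrm_le_add z c
    have h8 := nrm_le_add c z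
    rw [nrm_sub_comm] at h8
    omega
  · have p1 : Relation.ReflTransGen (fun a b => nrm (b - a) ≤ 1 ∧ Free S s b) c y :=
      rtg_mono (fun a b hab => ⟨hab.1, hfree b hab.2⟩) (path_in_ball c (K + 1) y h2)
    have p2 : Relation.ReflTransGen (fun a b => nrm (b - a) ≤ 1 ∧ Free S s b) y z :=
      rtg_mono (fun a b hab => ⟨hab.1, hab.2.2.2.2⟩) h6.symm
    exact p1.trans p2

open Classical in
theorem Ex_Hit_le {S : Finset (V d)} {K n k : ℕ} (hK : S ⊆ box d K) (c : V d) {j : ℕ}
    (hj : j + nrm c ≤ k ∨ j + k ≤ nrm c) {p : ℝ} (h0 : 0 ≤ p) (h1 : p ≤ 1) :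
    Ex (box d (n + K)) p (fun s => if Hit S K n k c (↑s) then 1 else 0) *
      (1 - p) ^ (box d (2 * K + 1)).card ≤ theta S K j p := by
  set e : V d ↪ V d := ⟨fun z => c + z, add_right_injective c⟩ with he
  set B : Finset (V d) := (box d (2 * K + 1)).map e with hB
  have hBmem : ∀ z, z ∈ B ↔ nrm (z - c) ≤ 2 * K + 1 := by
    intro z
    rw [hB, Finset.mem_map]
    constructor
    · rintro ⟨w, hw, rfl⟩
      have : e w - c = w := by simp [he]
      rw [this]; exact mem_box.1 hw
    · intro h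
      exact ⟨z - c, mem_box.2 h, by simp [he]⟩
  -- a huge box
  set G : Finset (V d) := box d (n + K + (nrm c + 2 * K + 1) + (nrm c + j + K)) with hG
  have hBG : B ⊆ G := by
    intro z hz
    have := (hBmem z).1 hz
    have h2 := nrm_le_add z c
    exact mem_box.2 (by omega)
  have hFG : box d (n + K) ⊆ G := fun z hz => mem_box.2 (by have := mem_box.1 hz; omega)
  set H : Finset (V d) → ℝ := fun s => if Hit S K n k c (↑s) then 1 else 0 with hH
  have hHanti : ∀ s t : Finset (V d), s ⊆ t → H t ≤ H s := by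
    intro s t hst
    simp only [hH]
    by_cases h : Hit S K n k c (↑t)
    · rw [if_pos h, if_pos (h.anti (by exact_mod_cast hst))]
    · rw [if_neg h]; split_ifs <;> norm_num
  have e1 : Ex (box d (n + K)) p H = Ex G p H := by
    symm
    refine Ex_of_subset hFG p _ fun s _ => ?_
    simp only [hH]
    have : Hit S K n k c (↑s) ↔ Hit S K n k c (↑(s ∩ box d (n + K))) := by
      refine Hit_congr hK fun z hz => ?_
      have : z ∈ box d (n + K) := mem_box.2 hz
      simp [this]
    simp only [this]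
  have e2 : Ex G p H ≤ Ex G p (fun s => H (s ∩ (G \ B))) :=
    Ex_mono h0 h1 fun s _ => hHanti _ _ Finset.inter_subset_left
  have e3 : Ex G p (fun s => H (s ∩ (G \ B))) = Ex (G \ B) p H := by
    rw [Ex_of_subset (F := G \ B) Finset.sdiff_subset p _ (fun s _ => by
      simp only [Finset.inter_assoc, Finset.inter_self])]
    exact Ex_congr fun s hs => by rw [Finset.inter_eq_left.2 hs]
  have hcard : B.card = (box d (2 * K + 1)).card := by rw [hB, Finset.card_map]
  have e4 : Ex (G \ B) p H * (1 - p) ^ (box d (2 * K + 1)).card =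
      Ex G p (fun s => H (s ∩ (G \ B)) * (if s ∩ B = ∅ then 1 else 0)) := by
    rw [← hcard, ← Ex_disjoint_ind B p, ← Ex_mul_of_disjoint Finset.sdiff_disjoint,
      Finset.sdiff_union_of_subset hBG]
  have e5 : Ex G p (fun s => H (s ∩ (G \ B)) * (if s ∩ B = ∅ then 1 else 0)) ≤
      Ex G p (ind S c j) := by
    refine Ex_mono h0 h1 fun s hs => ?_
    split_ifs with hsB
    · rw [mul_one]
      have hs2 : s ∩ (G \ B) = s := by
        rw [Finset.inter_eq_left]
        intro x hx
        refine Finset.mem_sdiff.2 ⟨hs hx, fun hxB => ?_⟩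
        have : x ∈ s ∩ B := Finset.mem_inter.2 ⟨hx, hxB⟩
        rw [hsB] at this
        simp at this
      rw [hs2]
      simp only [hH, ind]
      by_cases h : Hit S K n k c (↑s)
      · rw [if_pos h, if_pos]
        refine h.reach hK (fun z hz hzs => ?_) hj
        have : z ∈ s ∩ B := Finset.mem_inter.2 ⟨by exact_mod_cast hzs, (hBmem z).2 hz⟩
        rw [hsB] at this
        simp at this
      · rw [if_neg h]; split_ifs <;> norm_num
    · rw [mul_zero]; exact ind_nonneg _ _ _ _
  have e6 : Ex G p (ind S c j) = theta S K j p := by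
    refine Ex_ind hK c j p fun z hz => ?_
    have h2 := nrm_le_add z c
    exact mem_box.2 (by omega)
  have h2 : 0 ≤ (1 - p) ^ (box d (2 * K + 1)).card := pow_nonneg (by linarith) _
  calc Ex (box d (n + K)) p H * (1 - p) ^ (box d (2 * K + 1)).card
      ≤ Ex (G \ B) p H * (1 - p) ^ (box d (2 * K + 1)).card :=
        mul_le_mul_of_nonneg_right (by rw [e1, ← e3]; exact e2) h2
    _ ≤ theta S K j p := by rw [e4, ← e6]; exact e5

end Pool.Agent.F368
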