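import Pool.Agent.F368.Gauss

/-!
The Gaussian weights almost sum to one.
-/

open MeasureTheory ProbabilityTheory Set Filter Topology
open scoped ENNReal NNReal Interval

namespace Pool.Agent.F368

/-- comparison function -/
noncomputable def fD (D : ℕ) (x : ℝ) : ℝ := Real.exp (-(|x| + 4) ^ 2 / (2 * (D : ℝ) ^ 2))

theorem fD_continuous (D : ℕ) : Continuous (fD D) := by
  unfold fD; fun_prop

theorem fD_le (D : ℕ) {x : ℝ} {b : ℝ} (hb : 0 ≤ b) (h : b + 3 ≤ |x| + 4) :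
    fD D x ≤ Real.exp (-(b + 3) ^ 2 / (2 * (D : ℝ) ^ 2)) := by
  unfold fD
  apply Real.exp_le_exp.2
  apply div_le_div_of_nonneg_right _ (by positivity)
  have : (b + 3) ^ 2 ≤ (|x| + 4) ^ 2 := pow_le_pow_left₀ (by linarith) h 2
  linarith

theorem sum_ge_integral (D : ℕ) (n : ℕ) :
    ∫ x in (-(n : ℝ))..n, fD D x ≤
      ∑ q ∈ Finset.Icc (-(n : ℤ)) n, Real.exp (-(|(q : ℝ)| + 3) ^ 2 / (2 * (D : ℝ) ^ 2)) := by
  have hint : ∀ a b : ℝ, IntervalIntegrable (fD D) volume a b := fun a b =>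
    (fD_continuous D).intervalIntegrable a b
  induction n with
  | zero => simp; positivity
  | succ n ih =>
    have e1 : Finset.Icc (-((n + 1 : ℕ) : ℤ)) ((n + 1 : ℕ) : ℤ) =
        insert (-((n + 1 : ℕ) : ℤ)) (insert ((n + 1 : ℕ) : ℤ) (Finset.Icc (-(n : ℤ)) n)) := by
      ext x
      simp only [Finset.mem_Icc, Finset.mem_insert]
      push_cast
      omega
    rw [e1, Finset.sum_insert (by simp; omega), Finset.sum_insert (by simp)]
    have e2 : ∫ x in (-((n + 1 : ℕ) : ℝ))..((n + 1 : ℕ) : ℝ), fD D x =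
        (∫ x in (-((n + 1 : ℕ) : ℝ))..(-(n : ℝ)), fD D x) + (∫ x in (-(n : ℝ))..n, fD D x) +
        ∫ x in (n : ℝ)..((n + 1 : ℕ) : ℝ), fD D x := by
      rw [intervalIntegral.integral_add_adjacent_intervals (hint _ _) (hint _ _),
        intervalIntegral.integral_add_adjacent_intervals (hint _ _) (hint _ _)]
    set W : ℝ := Real.exp (-(((n + 1 : ℕ) : ℝ) + 3) ^ 2 / (2 * (D : ℝ) ^ 2)) with hW
    have e3 : ∫ x in (n : ℝ)..((n + 1 : ℕ) : ℝ), fD D x ≤ W := by
      have h1 : ∫ x in (n : ℝ)..((n + 1 : ℕ) : ℝ), fD D x ≤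
          ∫ _x in (n : ℝ)..((n + 1 : ℕ) : ℝ), W := by
        refine intervalIntegral.integral_mono_on (by push_cast; linarith) (hint _ _)
          intervalIntegrable_const fun x hx => ?_
        refine fD_le D (by positivity) ?_
        have h2 := le_abs_self x
        have h3 := hx.1
        push_cast; linarith
      rw [intervalIntegral.integral_const] at h1
      push_cast at h1
      simpa using h1
    have e4 : ∫ x in (-((n + 1 : ℕ) : ℝ))..(-(n : ℝ)), fD D x ≤ W := by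
      have h1 : ∫ x in (-((n + 1 : ℕ) : ℝ))..(-(n : ℝ)), fD D x ≤
          ∫ _x in (-((n + 1 : ℕ) : ℝ))..(-(n : ℝ)), W := by
        refine intervalIntegral.integral_mono_on (by push_cast; linarith) (hint _ _)
          intervalIntegrable_const fun x hx => ?_
        refine fD_le D (by positivity) ?_
        have h2 := neg_le_abs x
        have h3 := hx.2
        push_cast; linarith
      rw [intervalIntegral.integral_const] at h1
      push_cast at h1
      simpa using h1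
    have e5 : Real.exp (-(|(((n + 1 : ℕ) : ℤ) : ℝ)| + 3) ^ 2 / (2 * (D : ℝ) ^ 2)) = W := by
      rw [hW]
      congr 3
      rw [Int.cast_natCast, abs_of_nonneg (by positivity)]
    have e6 : Real.exp (-(|((-((n + 1 : ℕ) : ℤ) : ℤ) : ℝ)| + 3) ^ 2 / (2 * (D : ℝ) ^ 2)) = W := by
      rw [hW]
      congr 3
      rw [Int.cast_neg, abs_neg, Int.cast_natCast, abs_of_nonneg (by positivity)]
    rw [e2, e5, e6]
    linarith

theorem fD_lower {D : ℕ} (hD : 0 < D) {ε : ℝ} (hε : 0 < ε) (x : ℝ) :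
    Real.exp (-(8 * (1 + 1 / ε)) / (D : ℝ) ^ 2) *
      Real.exp (-((1 + ε) / (2 * (D : ℝ) ^ 2)) * x ^ 2) ≤ fD D x := by
  unfold fD
  rw [← Real.exp_add]
  apply Real.exp_le_exp.2
  have hDR : (0 : ℝ) < D := by exact_mod_cast hD
  have h1 : (|x| + 4) ^ 2 ≤ (1 + ε) * x ^ 2 + 16 * (1 + 1 / ε) := by
    have h2 : 0 ≤ (ε * |x| - 4) ^ 2 / ε := by positivity
    have h3 : (ε * |x| - 4) ^ 2 / ε = ε * |x| ^ 2 - 8 * |x| + 16 / ε := by
      field_simp; ring
    rw [h3] at h2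
    have h4 : |x| ^ 2 = x ^ 2 := sq_abs x
    have h5 : 16 * (1 + 1 / ε) = 16 + 16 / ε := by ring
    rw [h5]
    nlinarith
  have h6 : -(8 * (1 + 1 / ε)) / (D : ℝ) ^ 2 + -((1 + ε) / (2 * (D : ℝ) ^ 2)) * x ^ 2 =
      -((1 + ε) * x ^ 2 + 16 * (1 + 1 / ε)) / (2 * (D : ℝ) ^ 2) := by
    field_simp
    ring
  rw [h6]
  apply div_le_div_of_nonneg_right _ (by positivity)
  linarith

theorem fD_integrable {D : ℕ} (hD : 0 < D) : Integrable (fD D) := by
  have hDR : (0 : ℝ) < D := by exact_mod_cast hD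
  have h1 : Integrable (fun x : ℝ => Real.exp (-(1 / (2 * (D : ℝ) ^ 2)) * x ^ 2)) :=
    integrable_exp_neg_mul_sq (by positivity)
  refine h1.mono (fD_continuous D).aestronglyMeasurable (Eventually.of_forall fun x => ?_)
  rw [Real.norm_eq_abs, Real.norm_eq_abs, abs_of_pos (Real.exp_pos _)]
  unfold fD
  rw [abs_of_pos (Real.exp_pos _)]
  apply Real.exp_le_exp.2
  have h2 : x ^ 2 ≤ (|x| + 4) ^ 2 := by
    rw [← sq_abs x]
    exact pow_le_pow_left₀ (abs_nonneg _) (by linarith) 2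
  have h3 : -(1 / (2 * (D : ℝ) ^ 2)) * x ^ 2 = -(x ^ 2) / (2 * (D : ℝ) ^ 2) := by ring
  rw [h3]
  apply div_le_div_of_nonneg_right _ (by positivity)
  linarith

/-- the one-dimensional weights almost sum to one -/
theorem exists_wt_sum {ε : ℝ} (hε : 0 < ε) :
    ∃ D N : ℕ, 0 < D ∧ 1 - ε ≤ ∑ q ∈ Finset.Icc (-(N : ℤ)) N, wt D q := by
  -- choose the auxiliary parameters
  have hlim1 : Tendsto (fun η : ℝ => (Real.sqrt (1 + η))⁻¹) (𝓝[>] 0) (𝓝 1) := by
    have : ContinuousAt (fun η : ℝ => (Real.sqrt (1 + η))⁻¹) 0 := by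
      apply ContinuousAt.inv₀
      · exact (Real.continuous_sqrt.comp (continuous_const.add continuous_id)).continuousAt
      · simp
    have h2 := this.tendsto
    simp only [add_zero, Real.sqrt_one, inv_one] at h2
    exact h2.mono_left nhdsWithin_le_nhds
  obtain ⟨η, hη1, hηpos⟩ : ∃ η : ℝ, 1 - ε / 4 < (Real.sqrt (1 + η))⁻¹ ∧ 0 < η := by
    have h1 := hlim1.eventually (lt_mem_nhds (show 1 - ε / 4 < 1 by linarith))
    have h2 := (h1.and self_mem_nhdsWithin).exists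
    exact h2
  have hlim2 : Tendsto (fun D : ℕ => Real.exp (-(8 * (1 + 1 / η)) / (D : ℝ) ^ 2)) atTop (𝓝 1) := by
    have h1 : Tendsto (fun D : ℕ => -(8 * (1 + 1 / η)) / (D : ℝ) ^ 2) atTop (𝓝 0) := by
      apply Tendsto.div_atTop tendsto_const_nhds
      exact (tendsto_pow_atTop (by norm_num)).comp tendsto_natCast_atTop_atTop
    have h2 := (Real.continuous_exp.tendsto 0).comp h1
    rw [Real.exp_zero] at h2
    exact h2
  obtain ⟨D, hD1, hDpos⟩ : ∃ D : ℕ, 1 - ε / 4 < Real.exp (-(8 * (1 + 1 / η)) / (D : ℝ) ^ 2) ∧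
      0 < D := by
    have h1 := hlim2.eventually (lt_mem_nhds (show 1 - ε / 4 < 1 by linarith))
    have h2 := (h1.and (eventually_gt_atTop 0)).exists
    exact h2
  have hDR : (0 : ℝ) < D := by exact_mod_cast hDpos
  set c0 : ℝ := (Real.sqrt (2 * Real.pi))⁻¹ * (D : ℝ)⁻¹ with hc0
  have hc0pos : 0 < c0 := by rw [hc0]; positivity
  -- the whole integral
  have hI : 1 - ε / 2 < c0 * ∫ x, fD D x := by
    have h1 : Real.exp (-(8 * (1 + 1 / η)) / (D : ℝ) ^ 2) *
        ∫ x : ℝ, Real.exp (-((1 + η) / (2 * (D : ℝ) ^ 2)) * x ^ 2) ≤ ∫ x, fD D x := by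
      rw [← integral_const_mul]
      refine integral_mono ((integrable_exp_neg_mul_sq (by positivity)).const_mul _)
        (fD_integrable hDpos) fun x => ?_
      exact fD_lower hDpos hηpos x
    rw [integral_gaussian] at h1
    have h2 : c0 * Real.sqrt (Real.pi / ((1 + η) / (2 * (D : ℝ) ^ 2))) =
        (Real.sqrt (1 + η))⁻¹ := by
      have h3 : Real.pi / ((1 + η) / (2 * (D : ℝ) ^ 2)) =
          (2 * Real.pi) * (D : ℝ) ^ 2 / (1 + η) := by
        field_simp
      rw [h3, Real.sqrt_div (by positivity), Real.sqrt_mul (by positivity),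
        Real.sqrt_sq hDR.le, hc0]
      have : Real.sqrt (2 * Real.pi) ≠ 0 := by positivity
      have : Real.sqrt (1 + η) ≠ 0 := by positivity
      field_simp
    have h4 : Real.exp (-(8 * (1 + 1 / η)) / (D : ℝ) ^ 2) * (Real.sqrt (1 + η))⁻¹ ≤
        c0 * ∫ x, fD D x := by
      calc Real.exp (-(8 * (1 + 1 / η)) / (D : ℝ) ^ 2) * (Real.sqrt (1 + η))⁻¹
          = c0 * (Real.exp (-(8 * (1 + 1 / η)) / (D : ℝ) ^ 2) *
            Real.sqrt (Real.pi / ((1 + η) / (2 * (D : ℝ) ^ 2)))) := by rw [← h2]; ring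
        _ ≤ _ := mul_le_mul_of_nonneg_left h1 hc0pos.le
    refine lt_of_lt_of_le ?_ h4
    have p1 := Real.exp_pos (-(8 * (1 + 1 / η)) / (D : ℝ) ^ 2)
    have p2 : 0 < (Real.sqrt (1 + η))⁻¹ := by positivity
    have p3 : Real.exp (-(8 * (1 + 1 / η)) / (D : ℝ) ^ 2) ≤ 1 := by
      rw [Real.exp_le_one_iff]
      apply div_nonpos_of_nonpos_of_nonneg _ (by positivity)
      have : 0 < 1 / η := by positivity
      linarith
    have p4 : (Real.sqrt (1 + η))⁻¹ ≤ 1 := by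
      apply inv_le_one_of_one_le₀
      rw [Real.one_le_sqrt]; linarith
    have p5 := mul_nonneg (sub_nonneg.2 p3) (sub_nonneg.2 p4)
    nlinarith
  -- truncation
  have hlim3 : Tendsto (fun n : ℕ => c0 * ∫ x in (-(n : ℝ))..n, fD D x) atTop
      (𝓝 (c0 * ∫ x, fD D x)) := by
    apply Tendsto.const_mul
    refine intervalIntegral_tendsto_integral (fD_integrable hDpos) ?_ tendsto_natCast_atTop_atTop
    exact tendsto_neg_atTop_atBot.comp tendsto_natCast_atTop_atTop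
  obtain ⟨N, hN⟩ := (hlim3.eventually (lt_mem_nhds hI)).exists
  refine ⟨D, N, hDpos, ?_⟩
  have h5 := mul_le_mul_of_nonneg_left (sum_ge_integral D N) hc0pos.le
  have h6 : ∑ q ∈ Finset.Icc (-(N : ℤ)) N, wt D q =
      c0 * ∑ q ∈ Finset.Icc (-(N : ℤ)) N,
        Real.exp (-(|(q : ℝ)| + 3) ^ 2 / (2 * (D : ℝ) ^ 2)) := by
    rw [Finset.mul_sum]; rfl
  rw [h6]
  linarith

/-- the `d`-dimensional weights almost sum to one -/
theorem exists_wt_sum_box (d : ℕ) {ε : ℝ} (hε : 0 < ε) :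
    ∃ D N : ℕ, 0 < D ∧ 1 - ε ≤ ∑ q ∈ box d N, ∏ j, wt D (q j) := by
  have hlim : Tendsto (fun η : ℝ => (1 - η) ^ d) (𝓝[>] 0) (𝓝 1) := by
    have : ContinuousAt (fun η : ℝ => (1 - η) ^ d) 0 := by fun_prop
    have h2 := this.tendsto
    simp only [sub_zero, one_pow] at h2
    exact h2.mono_left nhdsWithin_le_nhds
  obtain ⟨η, hη1, hηpos, hη2⟩ : ∃ η : ℝ, 1 - ε < (1 - η) ^ d ∧ 0 < η ∧ η < 1 := by
    have h1 := hlim.eventually (lt_mem_nhds (show 1 - ε < 1 by linarith))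
    have h2 : ∀ᶠ η : ℝ in 𝓝[>] 0, η < 1 :=
      nhdsWithin_le_nhds (gt_mem_nhds (show (0 : ℝ) < 1 by norm_num))
    obtain ⟨η, h3, h4, h5⟩ := (h1.and (Eventually.and self_mem_nhdsWithin h2)).exists
    exact ⟨η, h3, h4, h5⟩
  obtain ⟨D, N, hD, h⟩ := exists_wt_sum hηpos
  refine ⟨D, N, hD, ?_⟩
  have e1 : box d N = Fintype.piFinset (fun _ : Fin d => Finset.Icc (-(N : ℤ)) N) := by
    ext x
    rw [mem_box, nrm_le_iff, Fintype.mem_piFinset]
    refine forall_congr' fun j => ?_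
    rw [Finset.mem_Icc]; omega
  rw [e1, ← Finset.prod_univ_sum (fun _ : Fin d => Finset.Icc (-(N : ℤ)) N) (fun _ q => wt D q)]
  rw [Finset.prod_const, Finset.card_univ, Fintype.card_fin]
  refine hη1.le.trans ?_
  exact pow_le_pow_left₀ (by linarith) h d

end Pool.Agent.F368
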