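import Pool.Agent.F368.ExBasic

/-! Module D (throwing independent balls dominates Bernoulli occupation). -/

open MeasureTheory ProbabilityTheory Filter Topology
open scoped ENNReal NNReal

namespace Pool.Agent.F368

section Throw

open Classical

variable {Ω ι C : Type*} [MeasurableSpace Ω] {P : Measure Ω} [DecidableEq ι] [DecidableEq C]

/-- the event in the induction -/
def thrE (I S : Finset ι) (Y : ι → Ω → C) (F : Finset C) (k : ℕ) (A : ι → Set C)
    (D : Set (Finset C)) : Set Ω :=
  {ω | (∀ i ∈ I, Y i ω ∈ A i) ∧ (F.filter (fun c => ∃ i ∈ I, Y i ω = c)) ∈ D ∧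
    S.card + ((I \ S).filter (fun i => Y i ω ∈ F)).card ≤ k}

lemma thr_prod [MeasurableSpace C] [MeasurableSingletonClass C] [Countable C]
    (I : Finset ι) (Y : ι → Ω → C) (hind : iIndepFun Y P) (A : ι → Set C) :
    P.real {ω | ∀ i ∈ I, Y i ω ∈ A i} = ∏ i ∈ I, P.real {ω | Y i ω ∈ A i} := by
  have h := hind.measure_inter_preimage_eq_mul I (sets := A) (fun i _ => MeasurableSet.of_discrete)
  have h1 : {ω | ∀ i ∈ I, Y i ω ∈ A i} = ⋂ i ∈ I, Y i ⁻¹' A i := by
    ext ω; simp
  unfold Measure.real
  rw [h1, h, ENNReal.toReal_prod]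
  rfl

/-- the refined target sets -/
def thrA (S T : Finset ι) (A : ι → Set C) (c : C) (i : ι) : Set C :=
  if i ∈ T then {c} else if i ∈ S then A i else A i \ {c}

theorem thr_main [IsProbabilityMeasure P] [MeasurableSpace C] [MeasurableSingletonClass C]
    [Countable C]
    (I : Finset ι) (Y : ι → Ω → C) (hY : ∀ i, Measurable (Y i)) (hind : iIndepFun Y P) (k : ℕ)
    (μ : ℝ) (hμ0 : 0 ≤ μ) (F : Finset C) :
    ∀ (S : Finset ι) (A : ι → Set C) (D : Set (Finset C)), S ⊆ I →
    (∀ s t, s ⊆ t → t ∈ D → s ∈ D) →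
    (∀ c ∈ F, ∀ S' ⊆ I, S'.card ≤ k → μ ≤ ∑ i ∈ I \ S', P.real {ω | Y i ω = c}) →
    (∀ i ∈ S, ∀ c ∈ F, c ∉ A i) → (∀ i ∈ I \ S, ∀ c ∈ F, c ∈ A i) →
    P.real (thrE I S Y F k A D) ≤ (∏ i ∈ I, P.real {ω | Y i ω ∈ A i}) *
      Ex F (1 - Real.exp (-μ)) (fun s => if s ∈ D then 1 else 0) := by
  have hp0 : 0 ≤ 1 - Real.exp (-μ) := by
    have : Real.exp (-μ) ≤ 1 := Real.exp_le_one_iff.2 (by linarith)
    linarith
  have hp1 : 1 - Real.exp (-μ) ≤ 1 := by linarith [Real.exp_pos (-μ)]
  induction F using Finset.induction_on with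
  | empty =>
    intro S A D hS hD hμ hA1 hA2
    rw [Ex_empty]
    by_cases h : ∅ ∈ D
    · rw [if_pos h, mul_one, ← thr_prod I Y hind A]
      exact measureReal_mono (fun ω hω => hω.1) (measure_ne_top _ _)
    · have : thrE I S Y ∅ k A D = ∅ := by
        ext ω
        simp [thrE, h]
      rw [this, if_neg h, mul_zero, measureReal_empty]
  | insert c F hc ih =>
    intro S A D hS hD hμ hA1 hA2
    have hQ0 : 0 ≤ ∏ i ∈ I, P.real {ω | Y i ω ∈ A i} :=
      Finset.prod_nonneg fun i _ => measureReal_nonneg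
    by_cases hSk : S.card ≤ k
    swap
    · have : thrE I S Y (insert c F) k A D = ∅ := by
        ext ω
        simp only [thrE, Set.mem_ofPred_eq, Set.mem_empty_iff_false, iff_false]
        rintro ⟨_, _, h⟩
        omega
      rw [this, measureReal_empty]
      refine mul_nonneg hQ0 (Ex_nonneg hp0 hp1 fun s _ => ?_)
      split_ifs <;> norm_num
    -- the refined decreasing sets
    set D' : Set (Finset C) := {s | insert c s ∈ D} with hD'
    have hD'dec : ∀ s t, s ⊆ t → t ∈ D' → s ∈ D' := fun s t hst ht =>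
      hD _ _ (Finset.insert_subset_insert _ hst) ht
    let DT : Finset ι → Set (Finset C) := fun T => if T = ∅ then D else D'
    have hDT : ∀ T, ∀ s t, s ⊆ t → t ∈ DT T → s ∈ DT T := by
      intro T s t hst ht
      simp only [DT] at ht ⊢
      split_ifs at ht ⊢
      · exact hD _ _ hst ht
      · exact hD'dec _ _ hst ht
    -- covering
    have hcov : thrE I S Y (insert c F) k A D ⊆
        ⋃ T ∈ (I \ S).powerset, thrE I (S ∪ T) Y F k (thrA S T A c) (DT T) := by
      intro ω hω
      obtain ⟨h1, h2, h3⟩ := hω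
      set T : Finset ι := (I \ S).filter (fun i => Y i ω = c) with hT
      have hTI : T ⊆ I \ S := Finset.filter_subset _ _
      simp only [Set.mem_iUnion, Finset.mem_powerset]
      have hmemT : ∀ i, i ∈ T ↔ i ∈ I ∧ i ∉ S ∧ Y i ω = c := by
        intro i; simp [hT, Finset.mem_sdiff, and_assoc]
      refine ⟨T, hTI, ?_, ?_, ?_⟩
      · intro i hi
        unfold thrA
        split_ifs with h4 h5
        · exact ((hmemT i).1 h4).2.2
        · exact h1 i hi
        · refine ⟨h1 i hi, fun h6 => h4 ((hmemT i).2 ⟨hi, h5, h6⟩)⟩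
      · by_cases hTe : T = ∅
        · simp only [DT, if_pos hTe]
          have hno : ∀ i ∈ I, Y i ω ≠ c := by
            intro i hi hic
            by_cases hiS : i ∈ S
            · exact hA1 i hiS c (Finset.mem_insert_self _ _) (hic ▸ h1 i hi)
            · have : i ∈ T := (hmemT i).2 ⟨hi, hiS, hic⟩
              rw [hTe] at this
              exact absurd this (Finset.notMem_empty i)
          have : (insert c F).filter (fun c => ∃ i ∈ I, Y i ω = c) =
              F.filter (fun c => ∃ i ∈ I, Y i ω = c) := by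
            rw [Finset.filter_insert, if_neg]
            rintro ⟨i, hi, hic⟩
            exact hno i hi hic
          rw [this] at h2
          exact h2
        · simp only [DT, if_neg hTe]
          obtain ⟨i, hi⟩ := Finset.nonempty_iff_ne_empty.2 hTe
          have hi' := (hmemT i).1 hi
          have : (insert c F).filter (fun c => ∃ i ∈ I, Y i ω = c) =
              insert c (F.filter (fun c => ∃ i ∈ I, Y i ω = c)) := by
            rw [Finset.filter_insert, if_pos ⟨i, hi'.1, hi'.2.2⟩]
          rw [this] at h2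
          exact h2
      · have hST : Disjoint S T := by
          rw [Finset.disjoint_left]
          intro i hi hiT
          exact ((hmemT i).1 hiT).2.1 hi
        have h4 : (I \ S).filter (fun i => Y i ω ∈ insert c F) =
            T ∪ (I \ (S ∪ T)).filter (fun i => Y i ω ∈ F) := by
          ext i
          simp only [Finset.mem_filter, Finset.mem_sdiff, Finset.mem_insert, Finset.mem_union,
            hmemT]
          constructor
          · rintro ⟨⟨ha, hb⟩, hd | he⟩
            · exact Or.inl ⟨ha, hb, hd⟩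
            · refine Or.inr ⟨⟨ha, ?_⟩, he⟩
              rintro (h5 | h5)
              · exact hb h5
              · exact hc (h5.2.2 ▸ he)
          · rintro (⟨ha, hb, hd⟩ | ⟨⟨ha, hb⟩, he⟩)
            · exact ⟨⟨ha, hb⟩, Or.inl hd⟩
            · exact ⟨⟨ha, fun h => hb (Or.inl h)⟩, Or.inr he⟩
        have h5 : Disjoint T ((I \ (S ∪ T)).filter (fun i => Y i ω ∈ F)) := by
          rw [Finset.disjoint_left]
          intro i hi hi2
          simp only [Finset.mem_filter, Finset.mem_sdiff, Finset.mem_union] at hi2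
          exact hi2.1.2 (Or.inr hi)
        rw [h4, Finset.card_union_of_disjoint h5] at h3
        rw [Finset.card_union_of_disjoint hST]
        omega
    have hstep : ∀ T ∈ (I \ S).powerset,
        P.real (thrE I (S ∪ T) Y F k (thrA S T A c) (DT T)) ≤
        (∏ i ∈ I, P.real {ω | Y i ω ∈ thrA S T A c i}) *
          Ex F (1 - Real.exp (-μ)) (fun s => if s ∈ DT T then 1 else 0) := by
      intro T hT
      rw [Finset.mem_powerset] at hT
      refine ih (S ∪ T) (thrA S T A c) (DT T) (Finset.union_subset hS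
        (hT.trans Finset.sdiff_subset)) (hDT T)
        (fun c' hc' => hμ c' (Finset.mem_insert_of_mem hc')) ?_ ?_
      · intro i hi c' hc'
        have hne : c' ≠ c := fun h => hc (h ▸ hc')
        unfold thrA
        split_ifs with h4 h5
        · simpa using hne
        · exact hA1 i h5 c' (Finset.mem_insert_of_mem hc')
        · rcases Finset.mem_union.1 hi with h | h
          · exact absurd h h5
          · exact absurd h h4
      · intro i hi c' hc'
        have hne : c' ≠ c := fun h => hc (h ▸ hc')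
        rw [Finset.mem_sdiff, Finset.mem_union, not_or] at hi
        unfold thrA
        rw [if_neg hi.2.2, if_neg hi.2.1]
        exact ⟨hA2 i (Finset.mem_sdiff.2 ⟨hi.1, hi.2.1⟩) c' (Finset.mem_insert_of_mem hc'),
          by simpa using hne⟩
    -- notation for the products
    set f : ι → ℝ := fun i => P.real {ω | Y i ω = c} with hf
    set g : ι → ℝ := fun i => P.real {ω | Y i ω ∈ A i \ {c}} with hg
    set h : ι → ℝ := fun i => P.real {ω | Y i ω ∈ A i} with hh
    have hf0 : ∀ i, 0 ≤ f i := fun i => measureReal_nonneg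
    have hg0 : ∀ i, 0 ≤ g i := fun i => measureReal_nonneg
    have hh0 : ∀ i, 0 ≤ h i := fun i => measureReal_nonneg
    have hh1 : ∀ i, h i ≤ 1 := fun i => measureReal_le_one
    have hfg : ∀ i ∈ I \ S, f i + g i = h i := by
      intro i hi
      have hcA : c ∈ A i := hA2 i hi c (Finset.mem_insert_self _ _)
      have e : {ω | Y i ω ∈ A i} = {ω | Y i ω = c} ∪ {ω | Y i ω ∈ A i \ {c}} := by
        ext ω
        simp only [Set.mem_union, Set.mem_ofPred_eq, Set.mem_sdiff, Set.mem_singleton_iff]
        constructor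
        · intro h5
          by_cases h6 : Y i ω = c
          · exact Or.inl h6
          · exact Or.inr ⟨h5, h6⟩
        · rintro (h5 | h5)
          · rw [h5]; exact hcA
          · exact h5.1
      have hdisj : Disjoint {ω | Y i ω = c} {ω | Y i ω ∈ A i \ {c}} := by
        rw [Set.disjoint_left]
        intro ω h5 h6
        exact h6.2 h5
      simp only [hf, hg, hh]
      rw [e, measureReal_union hdisj ((hY i) MeasurableSet.of_discrete)]
    have hprodT : ∀ T ∈ (I \ S).powerset, ∏ i ∈ I, P.real {ω | Y i ω ∈ thrA S T A c i} =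
        (∏ i ∈ S, h i) * ((∏ i ∈ T, f i) * ∏ i ∈ (I \ S) \ T, g i) := by
      intro T hT
      rw [Finset.mem_powerset] at hT
      rw [← Finset.prod_sdiff hS, ← Finset.prod_sdiff hT, mul_comm]
      congr 1
      · refine Finset.prod_congr rfl fun i hi => ?_
        have hiT : i ∉ T := fun h5 => (Finset.mem_sdiff.1 (hT h5)).2 hi
        simp only [thrA, if_neg hiT, if_pos hi, hh]
      · rw [mul_comm]
        congr 1
        · refine Finset.prod_congr rfl fun i hi => ?_
          simp only [thrA, if_pos hi, hf, Set.mem_singleton_iff]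
        · refine Finset.prod_congr rfl fun i hi => ?_
          rw [Finset.mem_sdiff, Finset.mem_sdiff] at hi
          simp only [thrA, if_neg hi.2, if_neg hi.1.2, hg]
    set E0 : ℝ := Ex F (1 - Real.exp (-μ)) (fun s => if s ∈ D then 1 else 0) with hE0
    set E1 : ℝ := Ex F (1 - Real.exp (-μ)) (fun s => if s ∈ D' then 1 else 0) with hE1
    have hE10 : E1 ≤ E0 := by
      refine Ex_mono hp0 hp1 fun s _ => ?_
      by_cases h5 : s ∈ D'
      · have h6 : s ∈ D := hD _ _ (Finset.subset_insert c s) h5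
        rw [if_pos h5, if_pos h6]
      · rw [if_neg h5]; split_ifs <;> norm_num
    have hE1n : 0 ≤ E1 := Ex_nonneg hp0 hp1 fun s _ => by split_ifs <;> norm_num
    have hsum : ∑ T ∈ (I \ S).powerset, (∏ i ∈ I, P.real {ω | Y i ω ∈ thrA S T A c i}) *
          Ex F (1 - Real.exp (-μ)) (fun s => if s ∈ DT T then 1 else 0) =
        (∏ i ∈ S, h i) * ((∏ i ∈ I \ S, h i) * E1 + (∏ i ∈ I \ S, g i) * (E0 - E1)) := by
      have e1 : ∀ T ∈ (I \ S).powerset, (∏ i ∈ I, P.real {ω | Y i ω ∈ thrA S T A c i}) *
          Ex F (1 - Real.exp (-μ)) (fun s => if s ∈ DT T then 1 else 0) =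
          (∏ i ∈ S, h i) * (((∏ i ∈ T, f i) * ∏ i ∈ (I \ S) \ T, g i) * E1 +
            if T = ∅ then (∏ i ∈ I \ S, g i) * (E0 - E1) else 0) := by
        intro T hT
        rw [hprodT T hT]
        by_cases h5 : T = ∅
        · subst h5
          simp only [DT, if_true, Finset.prod_empty, Finset.sdiff_empty]
          ring
        · simp only [DT, if_neg h5]
          ring
      rw [Finset.sum_congr rfl e1, ← Finset.mul_sum, Finset.sum_add_distrib, ← Finset.sum_mul,
        ← Finset.prod_add, Finset.sum_ite_eq' , if_pos (Finset.empty_mem_powerset _)]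
      rw [Finset.prod_congr rfl hfg]
    have hgle : ∏ i ∈ I \ S, g i ≤ Real.exp (-μ) * ∏ i ∈ I \ S, h i := by
      have h5 : ∀ i ∈ I \ S, g i ≤ h i * Real.exp (-(f i)) := by
        intro i hi
        have h6 := hfg i hi
        have h7 : 1 - f i ≤ Real.exp (-(f i)) := by linarith [Real.add_one_le_exp (-(f i))]
        have h8 : h i * (1 - f i) ≤ h i * Real.exp (-(f i)) :=
          mul_le_mul_of_nonneg_left h7 (hh0 i)
        nlinarith [hf0 i, hh1 i]
      refine (Finset.prod_le_prod (fun i _ => hg0 i) h5).trans ?_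
      rw [Finset.prod_mul_distrib, ← Real.exp_sum, mul_comm]
      refine mul_le_mul_of_nonneg_right ?_ (Finset.prod_nonneg fun i _ => hh0 i)
      refine Real.exp_le_exp.2 ?_
      rw [Finset.sum_neg_distrib]
      exact neg_le_neg (hμ c (Finset.mem_insert_self _ _) S hS hSk)
    calc P.real (thrE I S Y (insert c F) k A D)
        ≤ P.real (⋃ T ∈ (I \ S).powerset, thrE I (S ∪ T) Y F k (thrA S T A c) (DT T)) :=
          measureReal_mono hcov (measure_ne_top _ _)
      _ ≤ ∑ T ∈ (I \ S).powerset, P.real (thrE I (S ∪ T) Y F k (thrA S T A c) (DT T)) :=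
          measureReal_biUnion_finset_le _ _
      _ ≤ ∑ T ∈ (I \ S).powerset, (∏ i ∈ I, P.real {ω | Y i ω ∈ thrA S T A c i}) *
          Ex F (1 - Real.exp (-μ)) (fun s => if s ∈ DT T then 1 else 0) :=
          Finset.sum_le_sum hstep
      _ = (∏ i ∈ S, h i) * ((∏ i ∈ I \ S, h i) * E1 + (∏ i ∈ I \ S, g i) * (E0 - E1)) := hsum
      _ ≤ (∏ i ∈ S, h i) * ((∏ i ∈ I \ S, h i) * E1 +
            (Real.exp (-μ) * ∏ i ∈ I \ S, h i) * (E0 - E1)) := by
          have h5 : 0 ≤ ∏ i ∈ S, h i := Finset.prod_nonneg fun i _ => hh0 i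
          have h6 : 0 ≤ E0 - E1 := by linarith
          gcongr
      _ = (∏ i ∈ I, h i) * Ex (insert c F) (1 - Real.exp (-μ))
            (fun s => if s ∈ D then 1 else 0) := by
          rw [Ex_insert hc, ← Finset.prod_sdiff hS]
          have h5 : Ex F (1 - Real.exp (-μ)) (fun s => if insert c s ∈ D then (1 : ℝ) else 0) =
              E1 := rfl
          rw [h5]
          ring

theorem throw [IsProbabilityMeasure P] [MeasurableSpace C] [MeasurableSingletonClass C]
    [Countable C]
    (I : Finset ι) (Y : ι → Ω → C) (hY : ∀ i, Measurable (Y i)) (hind : iIndepFun Y P)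
    (F : Finset C) (k : ℕ) (μ : ℝ) (hμ0 : 0 ≤ μ)
    (hμ : ∀ c ∈ F, ∀ S ⊆ I, S.card ≤ k → μ ≤ ∑ i ∈ I \ S, P.real {ω | Y i ω = c})
    (D : Set (Finset C)) (hD : ∀ s t, s ⊆ t → t ∈ D → s ∈ D) :
    P.real {ω | (F.filter (fun c => ∃ i ∈ I, Y i ω = c)) ∈ D} ≤
      Ex F (1 - Real.exp (-μ)) (fun s => if s ∈ D then 1 else 0) +
      P.real {ω | k < (I.filter (fun i => Y i ω ∈ F)).card} := by
  have h1 := thr_main I Y hY hind k μ hμ0 F ∅ (fun _ => Set.univ) D (Finset.empty_subset _) hD hμ
    (by simp) (by simp)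
  have h2 : ∏ i ∈ I, P.real {ω | Y i ω ∈ (Set.univ : Set C)} = 1 := by
    refine Finset.prod_eq_one fun i _ => ?_
    simp
  rw [h2, one_mul] at h1
  have h3 : {ω | (F.filter (fun c => ∃ i ∈ I, Y i ω = c)) ∈ D} ⊆
      thrE I ∅ Y F k (fun _ => Set.univ) D ∪
        {ω | k < (I.filter (fun i => Y i ω ∈ F)).card} := by
    intro ω hω
    by_cases h4 : k < (I.filter (fun i => Y i ω ∈ F)).card
    · exact Or.inr h4
    · refine Or.inl ⟨fun _ _ => trivial, hω, ?_⟩
      simpa using not_lt.1 h4
  calc P.real {ω | (F.filter (fun c => ∃ i ∈ I, Y i ω = c)) ∈ D}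
      ≤ P.real (thrE I ∅ Y F k (fun _ => Set.univ) D ∪
        {ω | k < (I.filter (fun i => Y i ω ∈ F)).card}) :=
        measureReal_mono h3 (measure_ne_top _ _)
    _ ≤ _ := measureReal_union_le _ _
    _ ≤ _ := by gcongr

end Throw

end Pool.Agent.F368
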