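import Pool.Agent.F368.Tail
import Pool.Agent.F368.Riemann
import Pool.Agent.F368.Zero
import Pool.Agent.F368.Throw

/-!
Quenched mixing: from any configuration with enough nodes in every mesoscopic cube, after a time of
mesoscopic order the vacant cells percolate at most as in the independent model.
-/

open MeasureTheory ProbabilityTheory Set Filter Topology
open scoped ENNReal NNReal

namespace Pool.Agent.F368

variable {d : ℕ} {Ω : Type*} [mΩ : MeasurableSpace Ω] {P : Measure Ω}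

theorem box_card_translate (z : V d) (n : ℕ) :
    ((box d n).map ⟨fun x => z + x, add_right_injective z⟩).card = (box d n).card :=
  Finset.card_map _

theorem mem_box_translate {z c : V d} {n : ℕ} :
    c ∈ (box d n).map ⟨fun x => z + x, add_right_injective z⟩ ↔ nrm (c - z) ≤ n := by
  rw [Finset.mem_map]
  constructor
  · rintro ⟨x, hx, rfl⟩
    have := mem_box.1 hx
    simpa using this
  · intro h
    exact ⟨c - z, mem_box.2 h, by simp⟩

theorem mixing [IsProbabilityMeasure P] {ζ : ℕ → ℝ≥0 → Ω → E d} (h : IsBMFam P ζ) {a : ℝ}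
    (ha : 0 < a) {m D Nq : ℕ} (hm : 0 < m) (hD : 0 < D) {t : ℝ≥0}
    (ht : (t : ℝ) = (D * (m * a)) ^ 2) {S : Finset (V d)} {K : ℕ} (hK : S ⊆ box d K) {L : ℕ}
    (hLm : L + K ≤ m) (y : ℕ → E d) (z : V d) {n k : ℕ}
    (hdens : ∀ q ∈ box d Nq, (n : ℕ∞) ≤ cnt y (cellSet (m * a) (meso m z + q)))
    {μ : ℝ} (hμ0 : 0 ≤ μ) (hμ : μ ≤ n * (((m : ℝ) ^ d)⁻¹ * ∑ q ∈ box d Nq, ∏ j, wt D (q j)) -
      k * ((m : ℝ) ^ d)⁻¹) :
    P.real {ω | Reach S (occ a (fun i => y i + ζ i t ω)) z L} ≤
      theta S K L (1 - Real.exp (-μ)) +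
      Real.exp ((n * (box d Nq).card : ℕ) * ((box d (L + K)).card * ((m : ℝ) ^ d)⁻¹)) /
        2 ^ (k + 1) := by
  classical
  have hmR : (0 : ℝ) < m := by exact_mod_cast hm
  -- choose the nodes
  have hch : ∀ q : V d, ∃ J : Finset ℕ, q ∈ box d Nq → J.card = n ∧
      ∀ i ∈ J, y i ∈ cellSet (m * a) (meso m z + q) := by
    intro q
    by_cases hq : q ∈ box d Nq
    · obtain ⟨J, hJ⟩ := le_cnt_iff.1 (hdens q hq)
      exact ⟨J, fun _ => hJ⟩
    · exact ⟨∅, fun h => absurd h hq⟩
  choose J hJ using hch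
  have hdisj : Set.PairwiseDisjoint (↑(box d Nq) : Set (V d)) J := by
    intro q hq q' hq' hqq'
    rw [Function.onFun, Finset.disjoint_left]
    intro i hi hi'
    have h1 := (hJ q hq).2 i hi
    have h2 := (hJ q' hq').2 i hi'
    have h3 : meso m z + q = meso m z + q' := h1.symm.trans h2
    exact hqq' (add_left_cancel h3)
  set I : Finset ℕ := (box d Nq).biUnion J with hI
  have hIc : I.card = n * (box d Nq).card := by
    rw [hI, Finset.card_biUnion (fun q hq q' hq' hqq' => hdisj hq hq' hqq'),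
      Finset.sum_congr rfl (fun q hq => (hJ q hq).1), Finset.sum_const, smul_eq_mul, mul_comm]
  set Y : ℕ → Ω → V d := fun i ω => cell a (y i + ζ i t ω) with hY
  have hYm : ∀ i, Measurable (Y i) := fun i =>
    (measurable_cell ha).comp ((h.meas i t).const_add (y i))
  have hYind : iIndepFun Y P := by
    refine h.iIndepFun_nodes.comp (fun i (w : ℝ≥0 → E d) => cell a (y i + w t)) fun i => ?_
    have h1 : Measurable (fun w : ℝ≥0 → E d => w t) := measurable_pi_apply t
    exact (measurable_cell ha).comp (h1.const_add (y i))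
  set F : Finset (V d) := (box d (L + K)).map ⟨fun x => z + x, add_right_injective z⟩ with hF
  have hup : ∀ i c, P.real {ω | Y i ω = c} ≤ ((m : ℝ) ^ d)⁻¹ := by
    intro i c
    exact ENNReal.toReal_le_of_le_ofReal (by positivity) (cell_prob_upper h ha hm hD ht i (y i) c)
  have hlow : ∀ c ∈ F, ∀ q ∈ box d Nq, ∀ i ∈ J q,
      ((m : ℝ) ^ d)⁻¹ * ∏ j, wt D (q j) ≤ P.real {ω | Y i ω = c} := by
    intro c hc q hq i hi
    have h1 := cell_prob_lower h ha hm hD ht i (y i) z c q
      ((mem_box_translate.1 hc).trans hLm) ((hJ q hq).2 i hi)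
    have h2 := ENNReal.toReal_mono (measure_ne_top _ _) h1
    rw [ENNReal.toReal_ofReal (mul_nonneg (by positivity)
      (Finset.prod_nonneg fun j _ => wt_nonneg _ _))] at h2
    exact h2
  have hsum : ∀ c ∈ F, ∀ S' ⊆ I, S'.card ≤ k → μ ≤ ∑ i ∈ I \ S', P.real {ω | Y i ω = c} := by
    intro c hc S' hS' hk
    have h1 : ∑ i ∈ I \ S', P.real {ω | Y i ω = c} + ∑ i ∈ S', P.real {ω | Y i ω = c} =
        ∑ i ∈ I, P.real {ω | Y i ω = c} := Finset.sum_sdiff hS'
    have h2 : ∑ i ∈ S', P.real {ω | Y i ω = c} ≤ k * ((m : ℝ) ^ d)⁻¹ := by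
      calc ∑ i ∈ S', P.real {ω | Y i ω = c} ≤ ∑ _i ∈ S', ((m : ℝ) ^ d)⁻¹ :=
            Finset.sum_le_sum fun i _ => hup i c
        _ = S'.card * ((m : ℝ) ^ d)⁻¹ := by rw [Finset.sum_const, nsmul_eq_mul]
        _ ≤ k * ((m : ℝ) ^ d)⁻¹ := by
            apply mul_le_mul_of_nonneg_right _ (by positivity)
            exact_mod_cast hk
    have h3 : n * (((m : ℝ) ^ d)⁻¹ * ∑ q ∈ box d Nq, ∏ j, wt D (q j)) ≤
        ∑ i ∈ I, P.real {ω | Y i ω = c} := by
      rw [hI, Finset.sum_biUnion hdisj, Finset.mul_sum, Finset.mul_sum]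
      refine Finset.sum_le_sum fun q hq => ?_
      calc (n : ℝ) * (((m : ℝ) ^ d)⁻¹ * ∏ j, wt D (q j))
          = ∑ _i ∈ J q, ((m : ℝ) ^ d)⁻¹ * ∏ j, wt D (q j) := by
            rw [Finset.sum_const, (hJ q hq).1, nsmul_eq_mul]
        _ ≤ _ := Finset.sum_le_sum fun i hi => hlow c hc q hq i hi
    linarith
  have hthrow : P.real {ω | (F.filter (fun c => ∃ i ∈ I, Y i ω = c)) ∈
        {s : Finset (V d) | Reach S (↑s) z L}} ≤
      Ex F (1 - Real.exp (-μ))
        (fun s => if s ∈ {s : Finset (V d) | Reach S (↑s) z L} then 1 else 0) +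
      P.real {ω | k < (I.filter (fun i => Y i ω ∈ F)).card} := by
    exact throw I Y hYm hYind F k μ hμ0 hsum {s : Finset (V d) | Reach S (↑s) z L}
      (fun s t' hst ht' => Reach.anti (by exact_mod_cast hst) ht')
  have hloc : ∀ x, nrm (x - z) ≤ L + K → x ∈ F := fun x hx => mem_box_translate.2 hx
  have e1 : Ex F (1 - Real.exp (-μ))
      (fun s => if s ∈ {s : Finset (V d) | Reach S (↑s) z L} then 1 else 0) =
      theta S K L (1 - Real.exp (-μ)) := by
    rw [← Ex_ind hK z L _ hloc]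
    refine Ex_congr fun s _ => ?_
    simp only [Set.mem_setOf_eq, ind]
  have e2 : P.real {ω | Reach S (occ a (fun i => y i + ζ i t ω)) z L} ≤
      P.real {ω | (F.filter (fun c => ∃ i ∈ I, Y i ω = c)) ∈
        {s : Finset (V d) | Reach S (↑s) z L}} := by
    refine measureReal_mono ?_
    intro ω hω
    refine Reach.anti ?_ hω
    intro c hc
    rw [Finset.mem_coe, Finset.mem_filter] at hc
    obtain ⟨_, i, _, hi⟩ := hc
    exact ⟨i, hi⟩
  have e3 : P.real {ω | k < (I.filter (fun i => Y i ω ∈ F)).card} ≤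
      Real.exp ((n * (box d Nq).card : ℕ) * ((box d (L + K)).card * ((m : ℝ) ^ d)⁻¹)) /
        2 ^ (k + 1) := by
    have h1 := binom_tail I Y hYm hYind (F := (↑F : Set (V d))) (Set.to_countable _).measurableSet
      (k + 1) (b := (box d (L + K)).card * ((m : ℝ) ^ d)⁻¹) (fun i _ => by
        have h2 : {ω | Y i ω ∈ (↑F : Set (V d))} = ⋃ c ∈ F, {ω | Y i ω = c} := by
          ext ω; simp
        rw [h2]
        refine (measureReal_biUnion_finset_le _ _).trans ?_
        calc ∑ c ∈ F, P.real {ω | Y i ω = c} ≤ ∑ _c ∈ F, ((m : ℝ) ^ d)⁻¹ :=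
              Finset.sum_le_sum fun c _ => hup i c
          _ = (box d (L + K)).card * ((m : ℝ) ^ d)⁻¹ := by
              rw [Finset.sum_const, nsmul_eq_mul, hF, box_card_translate])
    rw [hIc] at h1
    refine le_trans (le_of_eq ?_) h1
    congr 1
    ext ω
    simp only [Set.mem_setOf_eq, Finset.mem_coe]
    exact Nat.lt_iff_add_one_le
  rw [e1] at hthrow
  linarith

end Pool.Agent.F368
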