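import Pool.Agent.F368.Group
import Pool.Agent.F368.Determ
import Pool.Agent.F368.Mixing
import Pool.Agent.F368.Brownian

/-!
Quenched lower bound for the probability that the nodes around the target contract.
-/

open MeasureTheory ProbabilityTheory Set Filter Topology
open scoped ENNReal NNReal

namespace Pool.Agent.F368

variable {d : ℕ}

/-- paths following a line -/
def linePath (v b : ℝ) : Set (ℝ≥0 → ℝ) :=
  {w | ∀ n, TopologicalSpace.denseSeq ℝ≥0 n ≤ 1 →
    |w (TopologicalSpace.denseSeq ℝ≥0 n) + (TopologicalSpace.denseSeq ℝ≥0 n : ℝ≥0) * v| ≤ b}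

theorem measurableSet_linePath (v b : ℝ) : MeasurableSet (linePath v b) := by
  have : linePath v b = ⋂ n, {w | TopologicalSpace.denseSeq ℝ≥0 n ≤ 1 →
      |w (TopologicalSpace.denseSeq ℝ≥0 n) + (TopologicalSpace.denseSeq ℝ≥0 n : ℝ≥0) * v| ≤ b} := by
    ext w; simp [linePath]
  rw [this]
  refine MeasurableSet.iInter fun n => ?_
  by_cases hn : TopologicalSpace.denseSeq ℝ≥0 n ≤ 1
  · simp only [hn, forall_const]
    have h1 : Measurable (fun w : ℝ≥0 → ℝ => w (TopologicalSpace.denseSeq ℝ≥0 n)) :=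
      measurable_pi_apply (TopologicalSpace.denseSeq ℝ≥0 n)
    have h2 : Measurable (fun w : ℝ≥0 → ℝ => |w (TopologicalSpace.denseSeq ℝ≥0 n) +
        (TopologicalSpace.denseSeq ℝ≥0 n : ℝ≥0) * v|) := by
      have h3 := (h1.add_const (((TopologicalSpace.denseSeq ℝ≥0 n : ℝ≥0) : ℝ) * v)).norm
      simpa only [Real.norm_eq_abs] using h3
    exact measurableSet_le h2 measurable_const
  · simp only [hn, false_imp_iff, Set.setOf_true, MeasurableSet.univ]

theorem measurableSet_allLine (v : Fin d → ℝ) (b : ℝ) :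
    MeasurableSet {w : ℝ≥0 → E d | ∀ j, (fun t => w t j) ∈ linePath (v j) b} := by
  have : {w : ℝ≥0 → E d | ∀ j, (fun t => w t j) ∈ linePath (v j) b} =
      ⋂ j, (fun (w : ℝ≥0 → E d) t => w t j) ⁻¹' (linePath (v j) b) := by
    ext w; simp
  rw [this]
  refine MeasurableSet.iInter fun j => ?_
  have h1 : Measurable (fun (w : ℝ≥0 → E d) (t : ℝ≥0) => w t j) :=
    measurable_pi_lambda _ fun t => (measurable_coord j).comp (measurable_pi_apply t)
  exact h1 (measurableSet_linePath _ _)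

theorem kill_prob (hd : 1 ≤ d) {δ : ℝ} (hδ : 0 < δ) : ∃ C : ℝ, 0 ≤ C ∧
    ∀ {Ω : Type} [MeasurableSpace Ω] {P : Measure Ω} {ζ : ℕ → ℝ≥0 → Ω → E d},
      IsBMFam P ζ → ∀ {a κ0 : ℝ}, 0 < a → 0 < κ0 → κ0 < 1 → ∀ (M : ℕ) (z : V d) (y : ℕ → E d),
      ENNReal.ofReal (Real.exp (-(C * (1 + (Real.sqrt d * (a * (M + 1))) ^ 2) *
        (box d M).card))) ≤ P {ω | FollowEv a κ0 δ M z y (fun i t => ζ i t ω)} := by
  classical
  have hdR : (0 : ℝ) < d := by exact_mod_cast (by omega : 0 < d)
  set b : ℝ := δ / Real.sqrt d with hb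
  have hbpos : 0 < b := by rw [hb]; positivity
  obtain ⟨C0, hC0⟩ := bm_follow hbpos
  refine ⟨d * max C0 0, by positivity, ?_⟩
  intro Ω _ P ζ h a κ0 ha hκ0 hκ1 M z y
  have hprob : IsProbabilityMeasure P := h.indep.isProbabilityMeasure
  set B : Finset (V d) := (box d M).map ⟨fun x => z + x, add_right_injective z⟩ with hB
  -- the first node in every cell
  set fn : V d → ℕ := fun c => if hc : ∃ i, cell a (y i) = c then Nat.find hc else 0 with hfn
  set T : Finset ℕ := (B.filter (fun c => ∃ i, cell a (y i) = c)).image fn with hT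
  have hTc : T.card ≤ (box d M).card := by
    refine Finset.card_image_le.trans ?_
    exact (Finset.card_filter_le _ _).trans (le_of_eq (box_card_translate z M))
  have hTmem : ∀ i ∈ T, nrm (cell a (y i) - z) ≤ M := by
    intro i hi
    obtain ⟨c, hc, rfl⟩ := Finset.mem_image.1 hi
    have h0 := (Finset.mem_filter.1 hc).2
    have h1 : cell a (y (fn c)) = c := by
      simp only [hfn]
      rw [dif_pos h0]
      exact Nat.find_spec h0
    rw [h1]
    exact mem_box_translate.1 (Finset.mem_filter.1 hc).1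
  have hTmem2 : ∀ c, nrm (c - z) ≤ M → ∀ i, cell a (y i) = c → (∀ i' < i, cell a (y i') ≠ c) →
      i ∈ T := by
    intro c hc i hi hi'
    have hcB : c ∈ B.filter (fun c => ∃ i, cell a (y i) = c) :=
      Finset.mem_filter.2 ⟨mem_box_translate.2 hc, i, hi⟩
    refine Finset.mem_image.2 ⟨c, hcB, ?_⟩
    have h0 : ∃ i, cell a (y i) = c := ⟨i, hi⟩
    simp only [hfn]
    rw [dif_pos h0, Nat.find_eq_iff]
    exact ⟨hi, hi'⟩
  set v : ℕ → E d := fun i => (1 - κ0) • (y i - pt a z) with hv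
  set V0 : ℝ := Real.sqrt d * (a * (M + 1)) with hV0
  have hvb : ∀ i ∈ T, ∀ j, (v i j) ^ 2 ≤ V0 ^ 2 := by
    intro i hi j
    have h1 : ‖v i‖ ≤ V0 := by
      simp only [hv]
      rw [norm_smul, Real.norm_eq_abs, abs_of_pos (by linarith)]
      have h3 := dist_cell ha (y i)
      have h5 := norm_pt_le a ha.le (hTmem i hi)
      have e2 : y i - pt a z = (y i - pt a (cell a (y i))) + pt a (cell a (y i) - z) := by
        rw [pt_sub]; abel
      have h6 : ‖y i - pt a z‖ ≤ V0 := by
        rw [e2, hV0]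
        refine (norm_add_le _ _).trans ?_
        linarith
      calc (1 - κ0) * ‖y i - pt a z‖ ≤ 1 * ‖y i - pt a z‖ :=
            mul_le_mul_of_nonneg_right (by linarith) (norm_nonneg _)
        _ ≤ V0 := by rw [one_mul]; exact h6
    have h2 := (abs_coord_le_norm (v i) j).trans h1
    exact sq_le_sq' (by linarith [neg_abs_le (v i j)]) ((le_abs_self _).trans h2)
  set A : ℕ → Set (ℝ≥0 → E d) := fun i => {w | ∀ j, (fun t => w t j) ∈ linePath (v i j) b} with hA
  have hAm : ∀ i, MeasurableSet (A i) := fun i => measurableSet_allLine (fun j => v i j) b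
  have hsub : (⋂ i ∈ T, {ω | (fun t => ζ i t ω) ∈ A i}) ⊆
      {ω | FollowEv a κ0 δ M z y (fun i t => ζ i t ω)} := by
    intro ω hω c hc i hi hi' n hn
    have h1 := Set.mem_iInter₂.1 hω i (hTmem2 c hc i hi hi')
    have h2 : ∀ j, |(ζ i (TopologicalSpace.denseSeq ℝ≥0 n) ω +
        ((TopologicalSpace.denseSeq ℝ≥0 n : ℝ≥0) : ℝ) • ((1 - κ0) • (y i - pt a z))) j| ≤ b :=
      fun j => h1 j n hn
    have h3 := norm_le_of_coord hbpos.le h2
    have h4 : Real.sqrt d * b = δ := by
      rw [hb]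
      have : Real.sqrt d ≠ 0 := by positivity
      field_simp
    rw [h4] at h3
    exact h3
  refine le_trans ?_ (measure_mono hsub)
  have hprod : P (⋂ i ∈ T, {ω | (fun t => ζ i t ω) ∈ A i}) =
      ∏ i ∈ T, P {ω | (fun t => ζ i t ω) ∈ A i} :=
    h.iIndepFun_nodes.iIndep.meas_biInter fun i _ => ⟨A i, hAm i, rfl⟩
  rw [hprod]
  have hone : ∀ i ∈ T, ENNReal.ofReal (Real.exp (-(d * max C0 0 * (1 + V0 ^ 2)))) ≤
      P {ω | (fun t => ζ i t ω) ∈ A i} := by
    intro i hi
    have h1 := h.coord_prod i (fun j => linePath (v i j) b) (fun j => measurableSet_linePath _ _)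
    have h2 : {ω | (fun t => ζ i t ω) ∈ A i} =
        {ω | ∀ j, (fun t => ζ i t ω j) ∈ linePath (v i j) b} := rfl
    rw [h2, h1]
    have h3 : ENNReal.ofReal (Real.exp (-(d * max C0 0 * (1 + V0 ^ 2)))) =
        ∏ _j : Fin d, ENNReal.ofReal (Real.exp (-(max C0 0 * (1 + V0 ^ 2)))) := by
      rw [Finset.prod_const, Finset.card_univ, Fintype.card_fin,
        ← ENNReal.ofReal_pow (Real.exp_pos _).le, ← Real.exp_nat_mul]
      congr 2; ring
    rw [h3]
    refine Finset.prod_le_prod' fun j _ => ?_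
    have h4 := hC0 (h.brownian i j) (v i j)
    have h5 : ENNReal.ofReal (Real.exp (-(max C0 0 * (1 + V0 ^ 2)))) ≤
        ENNReal.ofReal (Real.exp (-(C0 * (1 + v i j ^ 2)))) := by
      apply ENNReal.ofReal_le_ofReal
      apply Real.exp_le_exp.2
      have h6 := hvb i hi j
      have h7 : C0 * (1 + v i j ^ 2) ≤ max C0 0 * (1 + V0 ^ 2) :=
        mul_le_mul (le_max_left _ _) (by linarith) (by positivity) (le_max_right _ _)
      linarith
    refine h5.trans (h4.trans (measure_mono ?_))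
    intro ω hω n hn
    exact hω _ hn
  calc ENNReal.ofReal (Real.exp (-(d * max C0 0 * (1 + V0 ^ 2) * (box d M).card)))
      ≤ ENNReal.ofReal (Real.exp (-(d * max C0 0 * (1 + V0 ^ 2) * T.card))) := by
        apply ENNReal.ofReal_le_ofReal
        apply Real.exp_le_exp.2
        have h1 : (T.card : ℝ) ≤ (box d M).card := by exact_mod_cast hTc
        have h2 : 0 ≤ d * max C0 0 * (1 + V0 ^ 2) := by positivity
        have := mul_le_mul_of_nonneg_left h1 h2
        linarith
    _ = ∏ _i ∈ T, ENNReal.ofReal (Real.exp (-(d * max C0 0 * (1 + V0 ^ 2)))) := by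
        rw [Finset.prod_const, ← ENNReal.ofReal_pow (Real.exp_pos _).le, ← Real.exp_nat_mul]
        congr 2; ring
    _ ≤ _ := Finset.prod_le_prod' hone

end Pool.Agent.F368
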