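import Pool.Agent.F368.Slow

/-!
Slow nodes: void probabilities and the resulting percolation estimate.
-/

open MeasureTheory ProbabilityTheory Set Filter Topology
open scoped ENNReal NNReal

namespace Pool.Agent.F368

variable {d : ℕ}

/-- paths which move at most `δ` during `[s, s+η]` -/
def slowPath (d : ℕ) (s η : ℝ≥0) (δ : ℝ) : Set (ℝ≥0 → E d) :=
  {w | ∀ n, TopologicalSpace.denseSeq ℝ≥0 n ≤ η →
    ‖w (s + TopologicalSpace.denseSeq ℝ≥0 n) - w s‖ ≤ δ}

theorem measurableSet_slowPath (s η : ℝ≥0) (δ : ℝ) : MeasurableSet (slowPath d s η δ) := by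
  have : slowPath d s η δ = ⋂ n, {w | TopologicalSpace.denseSeq ℝ≥0 n ≤ η →
      ‖w (s + TopologicalSpace.denseSeq ℝ≥0 n) - w s‖ ≤ δ} := by
    ext w; simp [slowPath]
  rw [this]
  refine MeasurableSet.iInter fun n => ?_
  by_cases hn : TopologicalSpace.denseSeq ℝ≥0 n ≤ η
  · simp only [hn, forall_const]
    have h1 : Measurable (fun w : ℝ≥0 → E d => w (s + TopologicalSpace.denseSeq ℝ≥0 n)) :=
      measurable_pi_apply (s + TopologicalSpace.denseSeq ℝ≥0 n)
    have h2 : Measurable (fun w : ℝ≥0 → E d => w s) := measurable_pi_apply s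
    exact measurableSet_le (h1.sub h2).norm measurable_const
  · simp only [hn, false_imp_iff, Set.setOf_true, MeasurableSet.univ]

section

variable {Ω : Type*} [mΩ : MeasurableSpace Ω] {P : Measure Ω}

/-- union of cells -/
theorem volume_biUnion_cellSet {a : ℝ} (ha : 0 < a) (J : Finset (V d)) :
    volume (⋃ c ∈ J, cellSet a c) = J.card * ENNReal.ofReal (a ^ d) := by
  rw [measure_biUnion_finset]
  · simp only [volume_cellSet ha, Finset.sum_const, nsmul_eq_mul]
  · intro c _ c' _ hcc'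
    exact cellSet_disjoint hcc'
  · intro c _; exact measurableSet_cellSet ha c

theorem void_slow {lam : ℝ} (hlam : 0 ≤ lam) {X : ℕ → Ω → E d} {ζ : ℕ → ℝ≥0 → Ω → E d}
    (h : IsMobile P lam X ζ) (s : ℝ≥0) {a : ℝ} (ha : 0 < a) (η : ℝ≥0) (δ : ℝ)
    (J : Finset (V d)) :
    P.real {ω | ∀ c ∈ J, c ∉ slowOcc a (pos X ζ s ω) (fun i t => incr ζ s i t ω) η δ} =
      (1 - (1 - Real.exp (-(lam * P.real {ω | (fun t => ζ 0 t ω) ∈ slowPath d s η δ} *
        a ^ d)))) ^ J.card := by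
  have h1 := mobile_void hlam h s (Q := ⋃ c ∈ J, cellSet a c)
    (Finset.measurableSet_biUnion _ fun c _ => measurableSet_cellSet ha c)
    (by
      rw [volume_biUnion_cellSet ha]
      exact ENNReal.mul_ne_top (ENNReal.natCast_ne_top _) ENNReal.ofReal_ne_top)
    (measurableSet_slowPath (d := d) s η δ)
  have h2 : {ω | ∀ c ∈ J, c ∉ slowOcc a (pos X ζ s ω) (fun i t => incr ζ s i t ω) η δ} =
      {ω | ∀ i, ¬ (X i ω + ζ i s ω ∈ (⋃ c ∈ J, cellSet a c) ∧
        (fun t => ζ i t ω) ∈ slowPath d s η δ)} := by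
    ext ω
    simp only [Set.mem_setOf_eq]
    constructor
    · rintro h3 i ⟨h4, h5⟩
      rw [Set.mem_iUnion₂] at h4
      obtain ⟨c, hc, hcc⟩ := h4
      exact h3 c hc ⟨i, hcc, h5⟩
    · rintro h3 c hc ⟨i, hi, h5⟩
      exact h3 i ⟨Set.mem_iUnion₂.2 ⟨c, hc, hi⟩, h5⟩
  rw [h2, h1, measureReal_def, volume_biUnion_cellSet ha, ENNReal.toReal_mul,
    ENNReal.toReal_natCast, ENNReal.toReal_ofReal (by positivity), sub_sub_cancel,
    ← Real.exp_nat_mul]
  congr 1
  ring

theorem measurableSet_slowOcc {X : ℕ → Ω → E d} {ζ : ℕ → ℝ≥0 → Ω → E d}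
    (hX : ∀ i, Measurable (X i)) (hζ : ∀ i t, Measurable (ζ i t)) (s : ℝ≥0) {a : ℝ} (ha : 0 < a)
    (η : ℝ≥0) (δ : ℝ) (c : V d) :
    MeasurableSet {ω | c ∈ slowOcc a (pos X ζ s ω) (fun i t => incr ζ s i t ω) η δ} := by
  have : {ω | c ∈ slowOcc a (pos X ζ s ω) (fun i t => incr ζ s i t ω) η δ} =
      ⋃ i, ((fun ω => X i ω + ζ i s ω) ⁻¹' (cellSet a c) ∩
        (fun ω t => ζ i t ω) ⁻¹' (slowPath d s η δ)) := by
    ext ω
    simp only [slowOcc, Set.mem_setOf_eq, Set.mem_iUnion, Set.mem_inter_iff, Set.mem_preimage]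
    exact Iff.rfl
  rw [this]
  refine MeasurableSet.iUnion fun i => MeasurableSet.inter ?_ ?_
  · exact ((hX i).add (hζ i s)) (measurableSet_cellSet ha c)
  · exact (measurable_pi_lambda _ fun t => hζ i t) (measurableSet_slowPath s η δ)

/-- most nodes are slow -/
theorem slow_prob {ζ : ℕ → ℝ≥0 → Ω → E d} (h : IsBMFam P ζ) (hd : 1 ≤ d) (s η : ℝ≥0) {δ : ℝ}
    (hδ : 0 < δ) :
    1 - 4 * d ^ 2 * η / δ ^ 2 ≤ P.real {ω | (fun t => ζ 0 t ω) ∈ slowPath d s η δ} := by
  have hprob : IsProbabilityMeasure P := h.indep.isProbabilityMeasure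
  have hdR : (0 : ℝ) < d := by exact_mod_cast (by omega : 0 < d)
  set A : ℝ := δ / Real.sqrt d with hA
  have hApos : 0 < A := by rw [hA]; positivity
  set B : Set Ω := {ω | (fun t => ζ 0 t ω) ∈ slowPath d s η δ} with hB
  have hBm : MeasurableSet B := (measurable_path h 0) (measurableSet_slowPath s η δ)
  have h1 : Bᶜ ⊆ ⋃ j : Fin d, {ω | ∃ t ≤ η, A < |(fun t ω => ζ 0 (s + t) ω j - ζ 0 s ω j) t ω|} := by
    intro ω hω
    simp only [hB, slowPath, Set.mem_compl_iff, Set.mem_setOf_eq, not_forall, not_le] at hω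
    obtain ⟨n, hn, hn2⟩ := hω
    rw [Set.mem_iUnion]
    by_contra hcon
    push Not at hcon
    simp only [Set.mem_setOf_eq, not_exists, not_and, not_lt] at hcon
    have h3 := norm_le_of_coord (x := ζ 0 (s + TopologicalSpace.denseSeq ℝ≥0 n) ω - ζ 0 s ω)
      hApos.le (fun j => hcon j _ hn)
    have h4 : Real.sqrt d * A = δ := by
      rw [hA]
      have : Real.sqrt d ≠ 0 := by positivity
      field_simp
    rw [h4] at h3
    linarith
  have h2 : P Bᶜ ≤ ∑ _j : Fin d, ENNReal.ofReal (4 * η / A ^ 2) := by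
    refine (measure_mono h1).trans ((measure_iUnion_fintype_le _ _).trans ?_)
    refine Finset.sum_le_sum fun j _ => ?_
    exact bm_max ((h.brownian 0 j).shift s) η hApos
  have h3 : P.real Bᶜ ≤ 4 * d ^ 2 * η / δ ^ 2 := by
    have h4 : (∑ _j : Fin d, ENNReal.ofReal (4 * η / A ^ 2)) =
        ENNReal.ofReal (4 * d ^ 2 * η / δ ^ 2) := by
      rw [Finset.sum_const, Finset.card_univ, Fintype.card_fin, nsmul_eq_mul,
        ← ENNReal.ofReal_natCast, ← ENNReal.ofReal_mul (by positivity)]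
      congr 1
      rw [hA, div_pow, Real.sq_sqrt hdR.le]
      field_simp
    rw [h4] at h2
    exact ENNReal.toReal_le_of_le_ofReal (by positivity) h2
  have h5 := probReal_compl_eq_one_sub hBm (μ := P)
  linarith

/-- percolation estimate for slow nodes at time `s` -/
theorem prob_reach_slow {lam : ℝ} (hlam : 0 ≤ lam) {X : ℕ → Ω → E d} {ζ : ℕ → ℝ≥0 → Ω → E d}
    (h : IsMobile P lam X ζ) (hd : 1 ≤ d) (s : ℝ≥0) {a : ℝ} (ha : 0 < a) {η : ℝ≥0} {δ : ℝ}
    (hδ : 0 < δ) {lam3 : ℝ} (hlam3 : 0 ≤ lam3) (h3 : lam3 ≤ lam * (1 - 4 * d ^ 2 * η / δ ^ 2))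
    {S : Finset (V d)} {K : ℕ} (hK : S ⊆ box d K) (z : V d) (n : ℕ) :
    P.real {ω | Reach S (slowOcc a (pos X ζ s ω) (fun i t => incr ζ s i t ω) η δ) z n} ≤
      theta S K n (1 - Real.exp (-(lam3 * a ^ d))) := by
  have hprob : IsProbabilityMeasure P := h.poisson.isProbabilityMeasure
  rw [prob_reach hK (fun c => measurableSet_slowOcc h.poisson.meas h.bm.meas s ha η δ c)
    (void_slow hlam h s ha η δ) z n]
  have h4 : lam3 ≤ lam * P.real {ω | (fun t => ζ 0 t ω) ∈ slowPath d s η δ} :=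
    h3.trans (mul_le_mul_of_nonneg_left (slow_prob h.bm hd s η hδ) hlam)
  have h5 : (0 : ℝ) < a ^ d := by positivity
  refine theta_anti_p S K n ?_ ?_ ?_
  · have : Real.exp (-(lam3 * a ^ d)) ≤ 1 := Real.exp_le_one_iff.2 (by nlinarith)
    linarith
  · have : Real.exp (-(lam * P.real {ω | (fun t => ζ 0 t ω) ∈ slowPath d s η δ} * a ^ d)) ≤
        Real.exp (-(lam3 * a ^ d)) := by
      apply Real.exp_le_exp.2
      have := mul_le_mul_of_nonneg_right h4 h5.le
      linarith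
    linarith
  · have := Real.exp_pos (-(lam * P.real {ω | (fun t => ζ 0 t ω) ∈ slowPath d s η δ} * a ^ d))
    linarith

/-- the lower tail of the number of nodes in a cell -/
theorem cnt_lower_tail {lam : ℝ} (hlam : 0 ≤ lam) {X : ℕ → Ω → E d} {ζ : ℕ → ℝ≥0 → Ω → E d}
    (h : IsMobile P lam X ζ) (s : ℝ≥0) {b : ℝ} (hb : 0 < b) (c : V d) (n : ℕ) {β : ℝ}
    (hβ : 0 ≤ β) :
    P {ω | cnt (pos X ζ s ω) (cellSet b c) < n} ≤
      ENNReal.ofReal (Real.exp (β * n - lam * ((1 - Real.exp (-β)) * b ^ d))) := by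
  have hprob : IsProbabilityMeasure P := h.poisson.isProbabilityMeasure
  have he1 : Real.exp (-β) ≤ 1 := Real.exp_le_one_iff.2 (by linarith)
  have he0 := Real.exp_pos (-β)
  set c0 : ℝ≥0∞ := ENNReal.ofReal (1 - Real.exp (-β)) with hc0
  have h1 := mobile_prod hlam h s (Q := cellSet b c) (measurableSet_cellSet hb c)
    (by rw [volume_cellSet hb]; exact ENNReal.ofReal_ne_top) (M := Set.univ) MeasurableSet.univ
    (c := c0) (by rw [hc0]; exact ENNReal.ofReal_le_one.2 (by linarith))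
  have e1 : P.real {ω | (fun t => ζ 0 t ω) ∈ (Set.univ : Set (ℝ≥0 → E d))} = 1 := by
    simp
  have e2 : c0.toReal = 1 - Real.exp (-β) := ENNReal.toReal_ofReal (by linarith)
  have e3 : volume.real (cellSet b c) = b ^ d := by
    rw [measureReal_def, volume_cellSet hb, ENNReal.toReal_ofReal (by positivity)]
  rw [e1, e2, e3, mul_one] at h1
  set F : Ω → ℝ≥0∞ := fun ω => ⨅ n : ℕ, ∏ i ∈ Finset.range n, (1 - Set.indicator
      {q : E d × (ℝ≥0 → E d) | q.1 + q.2 s ∈ cellSet b c ∧ q.2 ∈ Set.univ} (fun _ => c0)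
        (X i ω, fun t => ζ i t ω)) with hF
  set B : Set Ω := {ω | cnt (pos X ζ s ω) (cellSet b c) < n} with hB
  have hpm : ∀ i, Measurable (fun ω => pos X ζ s ω i) := fun i =>
    (h.poisson.meas i).add (h.bm.meas i s)
  have hBm : MeasurableSet B := by
    have : B = {ω | (n : ℕ∞) ≤ cnt (pos X ζ s ω) (cellSet b c)}ᶜ := by
      ext ω; simp [hB]
    rw [this]
    exact (measurableSet_le_cnt hpm (measurableSet_cellSet hb c) n).compl
  have e4 : 1 - c0 = ENNReal.ofReal (Real.exp (-β)) := by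
    rw [hc0, ← ENNReal.ofReal_one, ← ENNReal.ofReal_sub _ (by linarith)]
    congr 1; ring
  have key : ∀ ω ∈ B, ENNReal.ofReal (Real.exp (-(β * n))) ≤ F ω := by
    classical
    intro ω hω
    refine le_iInf fun m => ?_
    set T : Finset ℕ := (Finset.range m).filter (fun i => pos X ζ s ω i ∈ cellSet b c) with hT
    have hTc : T.card < n := by
      by_contra hcon
      push Not at hcon
      have h2 : ((T.card : ℕ) : ℕ∞) ≤ cnt (pos X ζ s ω) (cellSet b c) :=
        le_cnt_iff.2 ⟨T, rfl, fun i hi => (Finset.mem_filter.1 hi).2⟩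
      have h3 : (n : ℕ∞) ≤ cnt (pos X ζ s ω) (cellSet b c) :=
        le_trans (by exact_mod_cast hcon) h2
      exact absurd (show cnt (pos X ζ s ω) (cellSet b c) < n from hω) (not_lt.2 h3)
    have h4 : ∏ i ∈ Finset.range m, ((1 : ℝ≥0∞) - Set.indicator
        {q : E d × (ℝ≥0 → E d) | q.1 + q.2 s ∈ cellSet b c ∧ q.2 ∈ Set.univ} (fun _ => c0)
        (X i ω, fun t => ζ i t ω)) = (ENNReal.ofReal (Real.exp (-β))) ^ T.card := by
      rw [hT, ← Finset.prod_const, Finset.prod_filter]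
      refine Finset.prod_congr rfl fun i _ => ?_
      by_cases hi : pos X ζ s ω i ∈ cellSet b c
      · rw [if_pos hi, Set.indicator_of_mem (by exact ⟨hi, Set.mem_univ _⟩), e4]
      · rw [if_neg hi, Set.indicator_of_notMem (by exact fun h => hi h.1), tsub_zero]
    rw [h4, ← ENNReal.ofReal_pow he0.le, ← Real.exp_nat_mul]
    apply ENNReal.ofReal_le_ofReal
    apply Real.exp_le_exp.2
    have : (T.card : ℝ) ≤ n := by exact_mod_cast hTc.le
    nlinarith
  have h5 : ENNReal.ofReal (Real.exp (-(β * n))) * P B ≤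
      ENNReal.ofReal (Real.exp (-(lam * ((1 - Real.exp (-β)) * b ^ d)))) := by
    rw [← h1, ← setLIntegral_const]
    exact (setLIntegral_mono' hBm key).trans (setLIntegral_le_lintegral _ _)
  have h6 : P B = ENNReal.ofReal (Real.exp (β * n)) *
      (ENNReal.ofReal (Real.exp (-(β * n))) * P B) := by
    rw [← mul_assoc, ← ENNReal.ofReal_mul (Real.exp_pos _).le, ← Real.exp_add, add_neg_cancel,
      Real.exp_zero, ENNReal.ofReal_one, one_mul]
  rw [h6]
  refine (mul_le_mul_right h5 _).trans (le_of_eq ?_)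
  rw [← ENNReal.ofReal_mul (Real.exp_pos _).le, ← Real.exp_add]
  congr 2

end

end Pool.Agent.F368
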