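import Pool.Agent.F368.Windows
import Pool.Agent.F368.SlowB

/-!
The main inequality for the probability that a target is never detected.
-/

open MeasureTheory ProbabilityTheory Set Filter Topology
open scoped ENNReal NNReal

namespace Pool.Agent.F368

variable {d : ℕ} {Ω : Type*} [mΩ : MeasurableSpace Ω] {P : Measure Ω}

theorem mem_surv (p : Par d) {X : ℕ → Ω → E d} {ζ : ℕ → ℝ≥0 → Ω → E d} {g : Ω → ℝ≥0 → E d}
    {ω : Ω} (hζ : ∀ i, Continuous (fun t => ζ i t ω)) (hg : Continuous (g ω)) (hg0 : g ω 0 = 0)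
    (ha : 0 < p.a) {κ r : ℝ} (hS : p.S = rangeS d p.K κ) (hK : κ ≤ p.K) (hκ : 0 ≤ κ)
    (hδ : 0 ≤ p.δ) (hr : 2 * (Real.sqrt d * p.a) + p.a * κ + p.δ < r) (hκ0 : 0 < p.κ0)
    (hκ1 : p.κ0 < 1)
    (hr2 : p.κ0 * (Real.sqrt d * (p.a * (2 * (p.L + p.K + 2)))) + p.δ < r)
    {η : ℝ≥0} (hη : 0 < η) {J L0 : ℕ} (hJ : p.Δ + 1 ≤ J * η) (hR : J * L0 ≤ p.R)
    (hund : ∀ t, g ω t ∉ detected r (pos X ζ t ω))
    (hdens : ∀ k < p.N, ω ∈ evDens p X ζ k)
    (hslow : ∀ k < p.N, ∀ j < J, ∀ z, nrm z ≤ p.N * p.R →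
      ¬ Reach p.S (slowOcc p.a (pos X ζ (p.win k + j * η) ω)
        (fun i t => incr ζ (p.win k + j * η) i t ω) η p.δ) z L0) :
    ∀ k ≤ p.N, ω ∈ surv p X ζ g k ∧ nrm (cell p.a (g ω (p.win k))) ≤ k * p.R := by
  intro k
  induction k with
  | zero =>
    intro _
    refine ⟨Set.mem_univ _, ?_⟩
    have h1 : p.win 0 = 0 := by simp [Par.win]
    have h2 : cell p.a (0 : E d) = 0 := by
      funext j
      simp [cell]
    rw [h1, hg0, h2, nrm_zero]
    omega
  | succ k ih =>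
    intro hk
    obtain ⟨h1, h2⟩ := ih (by omega)
    have hkN : k < p.N := by omega
    have h3 : (k + 1) * p.R ≤ p.N * p.R := Nat.mul_le_mul_right _ hk
    have h4 : (k + 1) * p.R = k * p.R + p.R := by ring
    have hd := displ hζ hg ha hK hr hund hη (p.win k) (J := J) (L := L0) (Rm := p.N * p.R)
      (by rw [← hS]; exact hslow k hkN) (by omega) J le_rfl
    have hwJ : p.win k + (p.Δ + 1) ≤ p.win k + J * η := add_le_add le_rfl hJ
    have hH : nrm (cell p.a (g ω (p.win k + p.Δ)) - cell p.a (g ω (p.win k))) ≤ p.R := by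
      refine (hd (p.win k + p.Δ) (le_add_of_nonneg_right zero_le') ?_).trans hR
      refine le_trans ?_ hwJ
      exact add_le_add le_rfl (le_add_of_nonneg_right zero_le')
    have hN : nrm (cell p.a (g ω (p.win (k + 1))) - cell p.a (g ω (p.win k))) ≤ p.R := by
      rw [p.win_succ, add_assoc]
      refine (hd (p.win k + (p.Δ + 1)) (le_add_of_nonneg_right zero_le') hwJ).trans hR
    refine ⟨⟨⟨⟨⟨h1, hdens k hkN⟩, h2⟩, hH⟩, ?_⟩, ?_⟩
    · rintro ⟨hmx, hkl⟩
      have hL : ¬ Reach (rangeS d p.K κ) (occ p.a (pos X ζ (p.win k + p.Δ) ω))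
          (cell p.a (g ω (p.win k + p.Δ + 0))) p.L := by
        intro hre
        apply hmx
        rw [add_zero, ← hS] at hre
        exact ⟨_, hH, hre⟩
      have hkl' : FollowEv p.a p.κ0 p.δ (p.L + p.K) (cell p.a (g ω (p.win k + p.Δ + 0)))
          (pos X ζ (p.win k + p.Δ) ω) (fun i t => incr ζ (p.win k + p.Δ) i t ω) := by
        rw [add_zero]; exact hkl
      obtain ⟨u, _, hu⟩ := kill_step (d := d) (r := r) ha hK hκ hδ hr hκ0 hκ1 hr2
        (y := pos X ζ (p.win k + p.Δ) ω) (m := fun i t => incr ζ (p.win k + p.Δ) i t ω)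
        (fun i => by
          unfold incr
          exact ((hζ i).comp (continuous_const.add continuous_id)).sub continuous_const)
        (g := fun u => g ω (p.win k + p.Δ + u))
        (hg.comp (continuous_const.add continuous_id)) hkl' hL
      have h6 : (fun i => pos X ζ (p.win k + p.Δ) ω i + incr ζ (p.win k + p.Δ) i u ω) =
          pos X ζ (p.win k + p.Δ + u) ω := by
        funext i
        simp only [pos, incr]
        abel
      rw [h6] at hu
      exact hund _ hu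
    · have h5 := nrm_le_add (cell p.a (g ω (p.win (k + 1)))) (cell p.a (g ω (p.win k)))
      omega

theorem IsBMFam.continuous_ae {ζ : ℕ → ℝ≥0 → Ω → E d} (h : IsBMFam P ζ) :
    ∀ᵐ ω ∂P, ∀ i, Continuous (fun t => ζ i t ω) := by
  rw [ae_all_iff]
  intro i
  have h1 : ∀ᵐ ω ∂P, ∀ j, Continuous (fun t => ζ i t ω j) :=
    ae_all_iff.2 fun j => (h.brownian i j).cont
  filter_upwards [h1] with ω hω
  have h2 : Continuous (fun t => (fun j => ζ i t ω j : Fin d → ℝ)) := continuous_pi hω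
  exact (PiLp.continuous_toLp 2 (fun _ : Fin d => ℝ)).comp h2

theorem main_bound {lam : ℝ} (hlam : 0 ≤ lam) {X : ℕ → Ω → E d} {ζ : ℕ → ℝ≥0 → Ω → E d}
    (h : IsMobile P lam X ζ) (hd : 1 ≤ d)
    {g : Ω → ℝ≥0 → E d} (hg : IsNonAnticipating X ζ g) (p : Par d)
    (ha : 0 < p.a) (hm : 0 < p.m) {κ r : ℝ} (hS : p.S = rangeS d p.K κ) (hK : κ ≤ p.K)
    (hκ : 0 ≤ κ)
    (hδ : 0 < p.δ) (hr : 2 * (Real.sqrt d * p.a) + p.a * κ + p.δ < r) (hκ0 : 0 < p.κ0)
    (hκ1 : p.κ0 < 1)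
    (hr2 : p.κ0 * (Real.sqrt d * (p.a * (2 * (p.L + p.K + 2)))) + p.δ < r)
    {η : ℝ≥0} (hη : 0 < η) {J L0 : ℕ} (hJ : p.Δ + 1 ≤ J * η) (hR : J * L0 ≤ p.R)
    {ε0 : ℝ}
    (hmix : ∀ (s : ℝ≥0) (z : V d) (y : ℕ → E d), nrm z ≤ p.N * p.R →
      (∀ c, nrm c ≤ p.N * p.R + p.Nq → (p.n : ℕ∞) ≤ cnt y (cellSet (p.m * p.a) c)) →
      P.real {ω | Reach p.S (occ p.a (fun i => y i + incr ζ s i p.Δ ω)) z p.L} ≤ ε0)
    (heps : (box d p.R).card * ε0 ≤ 1 / 2) {κ1 : ℝ} (h0 : 0 ≤ κ1) (h1 : κ1 ≤ 1)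
    (hkill : ∀ (s : ℝ≥0) (z : V d) (y : ℕ → E d), ENNReal.ofReal κ1 ≤
      P {ω | FollowEv p.a p.κ0 p.δ (p.L + p.K) z y (fun i t => incr ζ s i t ω)})
    {lam3 : ℝ} (hlam3 : 0 ≤ lam3) (h3 : lam3 ≤ lam * (1 - 4 * d ^ 2 * η / p.δ ^ 2))
    {β : ℝ} (hβ : 0 ≤ β) :
    P.real {ω | ∀ t, g ω t ∉ detected r (pos X ζ t ω)} ≤
      (1 - κ1 / 2) ^ p.N +
      p.N * ((box d (p.N * p.R + p.Nq)).card *
        Real.exp (β * p.n - lam * ((1 - Real.exp (-β)) * (p.m * p.a) ^ d))) +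
      p.N * (J * ((box d (p.N * p.R)).card *
        theta p.S p.K L0 (1 - Real.exp (-(lam3 * p.a ^ d))))) := by
  classical
  have hprob : IsProbabilityMeasure P := h.bm.indep.isProbabilityMeasure
  have hSK : p.S ⊆ box d p.K := by rw [hS]; exact rangeS_subset d p.K κ
  have hma : 0 < (p.m : ℝ) * p.a := by
    have : (0 : ℝ) < p.m := by exact_mod_cast hm
    positivity
  set A0 : Set Ω := {ω | ¬ ∀ i, Continuous (fun t => ζ i t ω)} with hA0
  set A1 : Set Ω := surv p X ζ g p.N with hA1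
  set A2 : Set Ω := ⋃ k ∈ Finset.range p.N, ⋃ c ∈ box d (p.N * p.R + p.Nq),
    {ω | cnt (pos X ζ (p.win k) ω) (cellSet (p.m * p.a) c) < p.n} with hA2
  set A3 : Set Ω := ⋃ k ∈ Finset.range p.N, ⋃ j ∈ Finset.range J, ⋃ z ∈ box d (p.N * p.R),
    {ω | Reach p.S (slowOcc p.a (pos X ζ (p.win k + j * η) ω)
        (fun i t => incr ζ (p.win k + j * η) i t ω) η p.δ) z L0} with hA3
  have hsub : {ω | ∀ t, g ω t ∉ detected r (pos X ζ t ω)} ⊆ ((A0 ∪ A1) ∪ A2) ∪ A3 := by
    intro ω hω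
    by_contra hcon
    simp only [Set.mem_union, not_or] at hcon
    obtain ⟨⟨⟨hn0, hn1⟩, hn2⟩, hn3⟩ := hcon
    apply hn1
    simp only [hA0, Set.mem_setOf_eq, not_not] at hn0
    simp only [hA2, Set.mem_iUnion, not_exists, Finset.mem_range, Set.mem_setOf_eq, not_lt,
      mem_box] at hn2
    simp only [hA3, Set.mem_iUnion, not_exists, Finset.mem_range, Set.mem_setOf_eq,
      mem_box] at hn3
    exact (mem_surv p hn0 (hg.cont ω) (hg.zero ω) ha hS hK hκ hδ.le hr hκ0 hκ1 hr2 hη hJ hR hω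
      (fun k hk c hc => hn2 k hk c hc) (fun k hk j hj z hz => hn3 k hk j hj z hz) p.N le_rfl).1
  have e0 : P.real A0 = 0 := by
    rw [measureReal_def]
    have : P A0 = 0 := h.bm.continuous_ae
    rw [this, ENNReal.toReal_zero]
  have e1 : P.real A1 ≤ (1 - κ1 / 2) ^ p.N :=
    surv_le h hg p ha hm hSK hmix heps h0 h1 hkill p.N le_rfl
  have e2 : P.real A2 ≤ p.N * ((box d (p.N * p.R + p.Nq)).card *
        Real.exp (β * p.n - lam * ((1 - Real.exp (-β)) * (p.m * p.a) ^ d))) := by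
    refine (measureReal_biUnion_finset_le _ _).trans ?_
    refine le_trans (Finset.sum_le_sum (g := fun _ => (box d (p.N * p.R + p.Nq)).card *
        Real.exp (β * p.n - lam * ((1 - Real.exp (-β)) * (p.m * p.a) ^ d))) fun k _ => ?_) ?_
    · refine (measureReal_biUnion_finset_le _ _).trans ?_
      refine le_trans (Finset.sum_le_sum (g := fun _ =>
        Real.exp (β * p.n - lam * ((1 - Real.exp (-β)) * (p.m * p.a) ^ d))) fun c _ => ?_) ?_
      · exact ENNReal.toReal_le_of_le_ofReal (Real.exp_pos _).le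
          (cnt_lower_tail hlam h (p.win k) hma c p.n hβ)
      · rw [Finset.sum_const, nsmul_eq_mul]
    · rw [Finset.sum_const, Finset.card_range, nsmul_eq_mul]
  have e3 : P.real A3 ≤ p.N * (J * ((box d (p.N * p.R)).card *
        theta p.S p.K L0 (1 - Real.exp (-(lam3 * p.a ^ d))))) := by
    refine (measureReal_biUnion_finset_le _ _).trans ?_
    refine le_trans (Finset.sum_le_sum (g := fun _ => J * ((box d (p.N * p.R)).card *
        theta p.S p.K L0 (1 - Real.exp (-(lam3 * p.a ^ d))))) fun k _ => ?_) ?_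
    · refine (measureReal_biUnion_finset_le _ _).trans ?_
      refine le_trans (Finset.sum_le_sum (g := fun _ => (box d (p.N * p.R)).card *
        theta p.S p.K L0 (1 - Real.exp (-(lam3 * p.a ^ d)))) fun j _ => ?_) ?_
      · refine (measureReal_biUnion_finset_le _ _).trans ?_
        refine le_trans (Finset.sum_le_sum (g := fun _ =>
          theta p.S p.K L0 (1 - Real.exp (-(lam3 * p.a ^ d)))) fun z _ => ?_) ?_
        · exact prob_reach_slow hlam h hd _ ha hδ hlam3 h3 hSK z L0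
        · rw [Finset.sum_const, nsmul_eq_mul]
      · rw [Finset.sum_const, Finset.card_range, nsmul_eq_mul]
    · rw [Finset.sum_const, Finset.card_range, nsmul_eq_mul]
  have e4 : P.real (((A0 ∪ A1) ∪ A2) ∪ A3) ≤ P.real A0 + P.real A1 + P.real A2 + P.real A3 := by
    refine (measureReal_union_le _ _).trans (add_le_add ?_ le_rfl)
    refine (measureReal_union_le _ _).trans (add_le_add ?_ le_rfl)
    exact measureReal_union_le _ _
  have e5 := measureReal_mono (μ := P) hsub (measure_ne_top _ _)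
  linarith

end Pool.Agent.F368
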