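import Pool.Agent.F368.Sharp
import Pool.Agent.F368.Kill
import Pool.Agent.F368.Main
import Pool.Agent.F368.AsympB
import Pool.Agent.F368.Consts

/-!
Above the vacancy threshold, every non-anticipating target is detected almost surely.
-/

open MeasureTheory ProbabilityTheory Set Filter Topology
open scoped ENNReal NNReal

namespace Pool.Agent.F368

variable {d : ℕ}

theorem nrm_meso_le {m : ℕ} (hm : 0 < m) (z : V d) : nrm (meso m z) ≤ nrm z := by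
  rw [nrm_le_iff]
  intro j
  have h1 := natAbs_le_nrm z j
  have hm' : (0 : ℤ) < m := by exact_mod_cast hm
  have h2 : (m : ℤ) * (z j / (m : ℤ)) ≤ z j := Int.mul_ediv_self_le hm'.ne'
  have h3 : z j < (m : ℤ) * (z j / (m : ℤ)) + m := Int.lt_mul_ediv_self_add hm'
  have h4 : meso m z j = z j / (m : ℤ) := rfl
  rw [h4]
  obtain ⟨w, hw⟩ : ∃ w, w = z j / (m : ℤ) := ⟨_, rfl⟩
  obtain ⟨b, hb⟩ : ∃ b : ℤ, b = (nrm z : ℤ) := ⟨_, rfl⟩
  rw [← hw] at h2 h3 ⊢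
  have h5 : z j ≤ b := by omega
  have h6 : -b ≤ z j := by omega
  have h7 : w ≤ b := by
    by_contra hcon
    push Not at hcon
    have hb0 : 0 ≤ b := by omega
    nlinarith
  have h8 : -b ≤ w := by
    by_contra hcon
    push Not at hcon
    have h9 : w + 1 ≤ -b := by omega
    have hb0 : 0 ≤ b := by omega
    nlinarith
  omega

theorem mix_bound {Ω : Type*} [mΩ : MeasurableSpace Ω] {P : Measure Ω} [IsProbabilityMeasure P]
    {ζ : ℕ → ℝ≥0 → Ω → E d} (h : IsBMFam P ζ) {a lam3 lam4 εw C : ℝ} (ha : 0 < a)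
    {S : Finset (V d)} {K : ℕ} (hSK : S ⊆ box d K)
    (hCb : ∀ n : ℕ, theta S K n (1 - Real.exp (-(lam3 * a ^ d))) ≤ C * Real.exp (-Real.sqrt n))
    {D Nq : ℕ} (hD : 0 < D) (hwt : 1 - εw ≤ ∑ q ∈ box d Nq, ∏ j, wt D (q j))
    (hw : lam4 * (1 - εw) = (lam4 + lam3) / 2) (h3 : 0 < lam3) (h4 : 0 < lam4)
    {m L k n : ℕ} (hm : 0 < m) (hLK : L + K ≤ m)
    (hn1 : lam4 * ((m : ℝ) * a) ^ d ≤ n) (hn2 : (n : ℝ) ≤ lam4 * ((m : ℝ) * a) ^ d + 1)
    (hk1 : (k : ℝ) ≤ (a ^ d * (lam4 - lam3) / 2) * (m : ℝ) ^ d)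
    {Δ : ℝ≥0} (hΔ : (Δ : ℝ) = (D * ((m : ℝ) * a)) ^ 2) {M : ℕ} (z : V d) (y : ℕ → E d)
    (hz : nrm z ≤ M)
    (hdens : ∀ c, nrm c ≤ M + Nq → (n : ℕ∞) ≤ cnt y (cellSet (m * a) c)) :
    P.real {ω | Reach S (occ a (fun i => y i + ζ i Δ ω)) z L} ≤
      C * Real.exp (-Real.sqrt L) +
      Real.exp ((lam4 * a ^ d + 1) * (box d Nq).card * (box d (L + K)).card) / 2 ^ (k + 1) := by
  have hmR : (0 : ℝ) < m := by exact_mod_cast hm
  have hmd : (0 : ℝ) < (m : ℝ) ^ d := by positivity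
  have hma : ((m : ℝ) * a) ^ d = (m : ℝ) ^ d * a ^ d := mul_pow _ _ _
  have hsum : 0 ≤ ∑ q ∈ box d Nq, ∏ j, wt D (q j) :=
    Finset.sum_nonneg fun q _ => Finset.prod_nonneg fun j _ => wt_nonneg _ _
  have hμ : lam3 * a ^ d ≤ n * (((m : ℝ) ^ d)⁻¹ * ∑ q ∈ box d Nq, ∏ j, wt D (q j)) -
      k * ((m : ℝ) ^ d)⁻¹ := by
    have e1 : lam4 * a ^ d * (1 - εw) ≤
        n * (((m : ℝ) ^ d)⁻¹ * ∑ q ∈ box d Nq, ∏ j, wt D (q j)) := by
      have e2 : lam4 * a ^ d ≤ n * ((m : ℝ) ^ d)⁻¹ := by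
        rw [← div_eq_mul_inv, le_div_iff₀ hmd]
        calc lam4 * a ^ d * (m : ℝ) ^ d = lam4 * ((m : ℝ) * a) ^ d := by rw [hma]; ring
          _ ≤ n := hn1
      calc lam4 * a ^ d * (1 - εw)
          ≤ lam4 * a ^ d * ∑ q ∈ box d Nq, ∏ j, wt D (q j) :=
            mul_le_mul_of_nonneg_left hwt (by positivity)
        _ ≤ (n * ((m : ℝ) ^ d)⁻¹) * ∑ q ∈ box d Nq, ∏ j, wt D (q j) :=
            mul_le_mul_of_nonneg_right e2 hsum
        _ = _ := by ring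
    have e4 : k * ((m : ℝ) ^ d)⁻¹ ≤ a ^ d * (lam4 - lam3) / 2 := by
      rw [← div_eq_mul_inv, div_le_iff₀ hmd]; exact hk1
    have e5 : lam4 * a ^ d * (1 - εw) = a ^ d * ((lam4 + lam3) / 2) := by
      rw [← hw]; ring
    have e6 : a ^ d * ((lam4 + lam3) / 2) - a ^ d * (lam4 - lam3) / 2 = lam3 * a ^ d := by ring
    linarith
  have h1 := mixing (P := P) h ha hm hD (t := Δ) hΔ hSK hLK y z
    (n := n) (k := k) (Nq := Nq) (fun c hc => hdens _ (by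
      have e1 := nrm_add_le (meso m z) c
      have e2 := nrm_meso_le hm z
      have e3 := mem_box.1 hc
      omega)) (by positivity) hμ
  refine h1.trans (add_le_add (hCb L) ?_)
  apply div_le_div_of_nonneg_right _ (by positivity)
  apply Real.exp_le_exp.2
  have e1 : (n : ℝ) * ((m : ℝ) ^ d)⁻¹ ≤ lam4 * a ^ d + 1 := by
    rw [← div_eq_mul_inv, div_le_iff₀ hmd]
    have e2 : (1 : ℝ) ≤ (m : ℝ) ^ d := one_le_pow₀ (by exact_mod_cast hm)
    rw [hma] at hn2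
    nlinarith
  have e3 : (0 : ℝ) ≤ (box d Nq).card * (box d (L + K)).card := by positivity
  have e4 := mul_le_mul_of_nonneg_right e1 e3
  calc ((n * (box d Nq).card : ℕ) : ℝ) * ((box d (L + K)).card * ((m : ℝ) ^ d)⁻¹)
      = (n : ℝ) * ((m : ℝ) ^ d)⁻¹ * ((box d Nq).card * (box d (L + K)).card) := by
        push_cast; ring
    _ ≤ (lam4 * a ^ d + 1) * ((box d Nq).card * (box d (L + K)).card) := e4
    _ = _ := by ring

theorem undetected_null (hd : 1 ≤ d) {r : ℝ} (hr : 0 < r) {lam : ℝ≥0}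
    (hcrit : lamCrit d r < lam) {Ω : Type} [mΩ : MeasurableSpace Ω] {P : Measure Ω}
    {X : ℕ → Ω → E d} {ζ : ℕ → ℝ≥0 → Ω → E d} (h : IsMobile P (lam : ℝ) X ζ)
    {g : Ω → ℝ≥0 → E d} (hg : IsNonAnticipating X ζ g) :
    P.real {ω | ∀ t, g ω t ∉ detected r (pos X ζ t ω)} = 0 := by
  have hprob : IsProbabilityMeasure P := h.poisson.isProbabilityMeasure
  have hdR : (1 : ℝ) ≤ d := by exact_mod_cast hd
  have hlampos : (0 : ℝ) < lam := by
    have h1 : (0 : ℝ≥0∞) < lam := lt_of_le_of_lt zero_le' hcrit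
    exact_mod_cast h1
  obtain ⟨r1, hr1, hr1r, hnull⟩ := exists_radius hr hd h.poisson hcrit
  have hsdpos : 0 < Real.sqrt d := by positivity
  obtain ⟨a0, a, κ, δ, ha0pos, ha0a, hκpos, hδpos, hδr, ha0κ, hgeo⟩ :=
    exists_geom hsdpos hr1 hr1r
  have hapos : 0 < a := ha0pos.trans ha0a
  have hKκ : κ ≤ (⌈κ⌉₊ : ℕ) := Nat.le_ceil κ
  obtain ⟨K, hK⟩ : ∃ K : ℕ, K = ⌈κ⌉₊ := ⟨_, rfl⟩
  rw [← hK] at hKκ
  -- intensities
  have hpow : a0 ^ d < a ^ d := pow_lt_pow_left₀ ha0a ha0pos.le (by omega)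
  have hadpos : 0 < a ^ d := by positivity
  have ha0dpos : 0 < a0 ^ d := by positivity
  obtain ⟨lam3, lam4, hlam3pos, h34, h4l, h23⟩ := exists_intens hlampos ha0dpos hpow
  have hlam4pos : 0 < lam4 := hlam3pos.trans h34
  have hSK : rangeS d K κ ⊆ box d K := rangeS_subset d K κ
  -- sharpness
  have hp0pos : 0 < 1 - Real.exp (-((lam : ℝ) * a0 ^ d)) := by
    have : Real.exp (-((lam : ℝ) * a0 ^ d)) < 1 := by
      rw [← Real.exp_zero]
      apply Real.exp_lt_exp.2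
      have : 0 < (lam : ℝ) * a0 ^ d := by positivity
      linarith
    linarith
  have hp01 : 1 - Real.exp (-((lam : ℝ) * a0 ^ d)) < 1 - Real.exp (-(lam3 * a ^ d)) := by
    have : Real.exp (-(lam3 * a ^ d)) < Real.exp (-(lam * a0 ^ d)) := by
      apply Real.exp_lt_exp.2
      linarith
    linarith
  have hp1lt : 1 - Real.exp (-(lam3 * a ^ d)) < 1 := by
    have := Real.exp_pos (-(lam3 * a ^ d))
    linarith
  obtain ⟨C0, hC0⟩ := sharp hd (rangeS d K κ) (zero_mem_rangeS hKκ hκpos.le) K hSK hp0pos hp01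
    hp1lt (theta_tendsto_zero h.poisson ha0pos hKκ ha0κ hnull hlampos.le)
  obtain ⟨C, hCnn, hCb⟩ : ∃ C : ℝ, 0 ≤ C ∧ ∀ n : ℕ,
      theta (rangeS d K κ) K n (1 - Real.exp (-(lam3 * a ^ d))) ≤ C * Real.exp (-Real.sqrt n) :=
    ⟨max C0 0, le_max_right _ _, fun n =>
      (hC0 n).trans (mul_le_mul_of_nonneg_right (le_max_left _ _) (Real.exp_pos _).le)⟩
  -- slow nodes
  obtain ⟨ηr, hηrpos, hηslow⟩ := exists_eta (d := d) hd hlampos (h34.trans h4l) hδpos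
  obtain ⟨η, hη⟩ : ∃ η : ℝ≥0, (η : ℝ) = ηr := ⟨⟨ηr, hηrpos.le⟩, rfl⟩
  have hηpos : 0 < η := by rw [← NNReal.coe_pos, hη]; exact hηrpos
  have hslow : lam3 ≤ lam * (1 - 4 * d ^ 2 * (η : ℝ) / δ ^ 2) := by rw [hη]; exact hηslow
  -- kill
  obtain ⟨ck, hck, hkill⟩ := kill_prob hd hδpos
  -- mixing
  obtain ⟨εw, hεwpos, hlam4w⟩ := exists_epsw hlam3pos h34
  obtain ⟨D, Nq, hD, hwt⟩ := exists_wt_sum_box d hεwpos
  -- density
  obtain ⟨β, c2, hβpos, hc2pos, hc2⟩ := exists_beta hlam4pos h4l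
  have hε1pos : 0 < a ^ d * (lam4 - lam3) / 2 := by
    apply div_pos (mul_pos hadpos (by linarith)) (by norm_num)
  have hAnn : 0 ≤ (lam4 * a ^ d + 1) * (box d Nq).card := by positivity
  -- it suffices to bound by every positive number
  refine le_antisymm (le_of_forall_pos_le_add fun ε hε => ?_) measureReal_nonneg
  rw [zero_add]
  obtain ⟨L, q, J, hq, hLK, hJ, hmixb, hfin⟩ := asymp d hd K D Nq (a := a) (η := ηr) (ck := ck)
    (β := β) (c2 := c2) (C := C) (ε1 := a ^ d * (lam4 - lam3) / 2)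
    (A := (lam4 * a ^ d + 1) * (box d Nq).card) hapos hηrpos hck hβpos.le hc2pos hCnn
    hε1pos hAnn hε
  obtain ⟨m, hm⟩ : ∃ m : ℕ, m = q ^ 2 := ⟨_, rfl⟩
  rw [← hm] at hLK hJ hmixb hfin
  have hmpos : 0 < m := by rw [hm]; positivity
  have hmR : (0 : ℝ) < m := by exact_mod_cast hmpos
  obtain ⟨κ0, hκ0pos, hκ0lt, hκ0b⟩ := exists_kappa0
    (x := Real.sqrt d * (a * (2 * ((L : ℝ) + K + 2)))) (by positivity) hδr
  obtain ⟨n, hn1, hn2⟩ : ∃ n : ℕ, lam4 * ((m : ℝ) * a) ^ d ≤ n ∧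
      (n : ℝ) ≤ lam4 * ((m : ℝ) * a) ^ d + 1 :=
    ⟨⌈lam4 * ((m : ℝ) * a) ^ d⌉₊, Nat.le_ceil _, (Nat.ceil_lt_add_one (by positivity)).le⟩
  have hk1 : ((⌊a ^ d * (lam4 - lam3) / 2 * (m : ℝ) ^ d⌋₊ : ℕ) : ℝ) ≤
      (a ^ d * (lam4 - lam3) / 2) * (m : ℝ) ^ d :=
    Nat.floor_le (mul_nonneg hε1pos.le (by positivity))
  obtain ⟨k, hk⟩ : ∃ k : ℕ, k = ⌊a ^ d * (lam4 - lam3) / 2 * (m : ℝ) ^ d⌋₊ := ⟨_, rfl⟩
  rw [← hk] at hk1 hmixb
  obtain ⟨Δ, hΔ⟩ : ∃ Δ : ℝ≥0, (Δ : ℝ) = (D * ((m : ℝ) * a)) ^ 2 :=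
    ⟨⟨(D * ((m : ℝ) * a)) ^ 2, by positivity⟩, rfl⟩
  have hJ' : Δ + 1 ≤ J * η := by
    rw [← NNReal.coe_le_coe]
    push_cast
    rw [hΔ, hη]
    exact hJ
  have hmix : ∀ (s : ℝ≥0) (z : V d) (y : ℕ → E d), nrm z ≤ 2 ^ q * (J * q ^ 4) →
      (∀ c, nrm c ≤ 2 ^ q * (J * q ^ 4) + Nq → (n : ℕ∞) ≤ cnt y (cellSet (m * a) c)) →
      P.real {ω | Reach (rangeS d K κ) (occ a (fun i => y i + incr ζ s i Δ ω)) z L} ≤
        C * Real.exp (-Real.sqrt L) +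
        Real.exp ((lam4 * a ^ d + 1) * (box d Nq).card * (box d (L + K)).card) / 2 ^ (k + 1) :=
    fun s z y hz hdens => mix_bound (h.bm.shift s) hapos hSK hCb hD hwt hlam4w hlam3pos hlam4pos
      hmpos hLK
      hn1 hn2 hk1 hΔ z y hz hdens
  have hκ1le : Real.exp (-(ck * (1 + (Real.sqrt d * (a * (((L + K : ℕ) : ℝ) + 1))) ^ 2) *
      (box d (L + K)).card)) ≤ 1 := by
    rw [Real.exp_le_one_iff]
    have : 0 ≤ ck * (1 + (Real.sqrt d * (a * (((L + K : ℕ) : ℝ) + 1))) ^ 2) *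
      (box d (L + K)).card := by positivity
    linarith
  have hmain := main_bound (P := P) (r := r) (κ := κ) hlampos.le h hd hg
    ⟨a, κ0, δ, rangeS d K κ, K, L, J * q ^ 4, m, n, Nq, 2 ^ q, Δ⟩ hapos hmpos rfl hKκ
    hκpos.le hδpos hgeo hκ0pos hκ0lt hκ0b hηpos (J := J) (L0 := q ^ 4) hJ' (le_refl (J * q ^ 4))
    hmix hmixb (Real.exp_pos _).le hκ1le
    (fun s z y => hkill (h.bm.shift s) hapos hκ0pos hκ0lt (L + K) z y)
    hlam3pos.le hslow hβpos.le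
  refine hmain.trans (le_trans ?_ hfin)
  have f1 : Real.exp (β * n - lam * ((1 - Real.exp (-β)) * ((m : ℝ) * a) ^ d)) ≤
      Real.exp (β - c2 * ((m : ℝ) * a) ^ d) := by
    apply Real.exp_le_exp.2
    have := mul_le_mul_of_nonneg_left hn2 hβpos.le
    rw [hc2]
    nlinarith
  have f2 : ((2 ^ q : ℕ) : ℝ) = (2 : ℝ) ^ q := by push_cast; rfl
  have f3 := hCb (q ^ 4)
  refine add_le_add (add_le_add le_rfl ?_) ?_
  · show ((2 ^ q : ℕ) : ℝ) * _ ≤ _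
    rw [f2]
    exact mul_le_mul_of_nonneg_left (mul_le_mul_of_nonneg_left f1 (by positivity)) (by positivity)
  · show ((2 ^ q : ℕ) : ℝ) * _ ≤ _
    rw [f2]
    exact mul_le_mul_of_nonneg_left (mul_le_mul_of_nonneg_left
      (mul_le_mul_of_nonneg_left f3 (by positivity)) (by positivity)) (by positivity)

/-- **Main theorem.** -/
theorem lamPast_le_lamCrit (d : ℕ) (r : ℝ) (hd : 1 ≤ d) (hr : 0 < r) :
    lamPast d r ≤ lamCrit d r := by
  refine le_of_forall_gt fun l hl => ?_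
  obtain ⟨l1, h1, h2⟩ := ENNReal.lt_iff_exists_nnreal_btwn.1 hl
  refine lt_of_le_of_lt (sInf_le ?_) h2
  intro lam _ hlam Ω _ P X ζ h g hg
  have hprob : IsProbabilityMeasure P := h.poisson.isProbabilityMeasure
  have h1 := undetected_null hd hr (h1.trans hlam) h hg
  have h2 : P {ω | ∀ t, g ω t ∉ detected r (pos X ζ t ω)} = 0 := by
    rw [measureReal_def, ENNReal.toReal_eq_zero_iff] at h1
    exact h1.resolve_right (measure_ne_top _ _)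
  rw [ae_iff]
  refine measure_mono_null ?_ h2
  intro ω hω t ht
  apply hω
  refine lt_of_le_of_lt (sInf_le ?_) (ENNReal.coe_lt_top (r := t))
  exact ⟨t, ht, rfl⟩

end Pool.Agent.F368
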