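import Pool.Agent.F368.Group
import Pool.Agent.F368.Zero

/-!
Gaussian estimates for cells.
-/

open MeasureTheory ProbabilityTheory Set Filter Topology
open scoped ENNReal NNReal

namespace Pool.Agent.F368

theorem gauss_Ico_lower {v : ℝ≥0} (hv : v ≠ 0) {α a M : ℝ} (ha : 0 ≤ a)
    (hM : ∀ x ∈ Set.Ico α (α + a), |x| ≤ M) :
    ENNReal.ofReal (a * ((Real.sqrt (2 * Real.pi * v))⁻¹ * Real.exp (-M ^ 2 / (2 * v)))) ≤
      gaussianReal 0 v (Set.Ico α (α + a)) := by
  rw [gaussianReal_apply 0 hv]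
  have h1 : ∀ x ∈ Set.Ico α (α + a),
      ENNReal.ofReal ((Real.sqrt (2 * Real.pi * v))⁻¹ * Real.exp (-M ^ 2 / (2 * v))) ≤
        gaussianPDF 0 v x := by
    intro x hx
    unfold gaussianPDF gaussianPDFReal
    apply ENNReal.ofReal_le_ofReal
    apply mul_le_mul_of_nonneg_left _ (by positivity)
    apply Real.exp_le_exp.2
    apply div_le_div_of_nonneg_right _ (by positivity)
    have h2 := hM x hx
    have h3 : x ^ 2 ≤ M ^ 2 := by
      rw [← sq_abs x]
      exact pow_le_pow_left₀ (abs_nonneg _) h2 2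
    rw [sub_zero]; linarith
  calc ENNReal.ofReal (a * ((Real.sqrt (2 * Real.pi * v))⁻¹ * Real.exp (-M ^ 2 / (2 * v))))
      = ∫⁻ _x in Set.Ico α (α + a),
          ENNReal.ofReal ((Real.sqrt (2 * Real.pi * v))⁻¹ * Real.exp (-M ^ 2 / (2 * v))) := by
        rw [setLIntegral_const, Real.volume_Ico, add_sub_cancel_left, ENNReal.ofReal_mul ha,
          mul_comm]
    _ ≤ ∫⁻ x in Set.Ico α (α + a), gaussianPDF 0 v x :=
        setLIntegral_mono' measurableSet_Ico h1

theorem gauss_Ico_upper {v : ℝ≥0} (hv : v ≠ 0) {α a : ℝ} (ha : 0 ≤ a) :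
    gaussianReal 0 v (Set.Ico α (α + a)) ≤
      ENNReal.ofReal (a * (Real.sqrt (2 * Real.pi * v))⁻¹) := by
  rw [gaussianReal_apply 0 hv]
  have h1 : ∀ x ∈ Set.Ico α (α + a), gaussianPDF 0 v x ≤
      ENNReal.ofReal ((Real.sqrt (2 * Real.pi * v))⁻¹) := by
    intro x _
    unfold gaussianPDF gaussianPDFReal
    apply ENNReal.ofReal_le_ofReal
    apply mul_le_of_le_one_right (by positivity)
    rw [Real.exp_le_one_iff]
    apply div_nonpos_of_nonpos_of_nonneg _ (by positivity)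
    have := sq_nonneg (x - 0)
    linarith
  calc ∫⁻ x in Set.Ico α (α + a), gaussianPDF 0 v x
      ≤ ∫⁻ _x in Set.Ico α (α + a), ENNReal.ofReal ((Real.sqrt (2 * Real.pi * v))⁻¹) :=
        setLIntegral_mono' measurableSet_Ico h1
    _ = ENNReal.ofReal (a * (Real.sqrt (2 * Real.pi * v))⁻¹) := by
        rw [setLIntegral_const, Real.volume_Ico, add_sub_cancel_left, ENNReal.ofReal_mul ha,
          mul_comm]

variable {Ω : Type*} [mΩ : MeasurableSpace Ω] {P : Measure Ω} {d : ℕ}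

theorem cell_event_iff {a : ℝ} (ha : 0 < a) (y x : E d) (c : V d) :
    cell a (y + x) = c ↔
      ∀ j, x j ∈ Set.Ico (a * (c j : ℝ) - y j) (a * (c j : ℝ) - y j + a) := by
  have h := cellSet_eq ha c
  have h1 : cell a (y + x) = c ↔ (y + x) ∈ cellSet a c := Iff.rfl
  rw [h1, h]
  simp only [Set.mem_preimage, Set.mem_univ_pi, Set.mem_Ico]
  refine forall_congr' fun j => ?_
  have h2 : (WithLp.ofLp (y + x)) j = y j + x j := rfl
  rw [h2]
  constructor
  · rintro ⟨h3, h4⟩; constructor <;> linarith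
  · rintro ⟨h3, h4⟩; constructor <;> linarith

theorem cell_prob_eq {ζ : ℕ → ℝ≥0 → Ω → E d} (h : IsBMFam P ζ) {a : ℝ} (ha : 0 < a) (i : ℕ)
    (t : ℝ≥0) (y : E d) (c : V d) :
    P {ω | cell a (y + ζ i t ω) = c} =
      ∏ j, gaussianReal 0 t (Set.Ico (a * (c j : ℝ) - y j) (a * (c j : ℝ) - y j + a)) := by
  have h1 := h.coord_prod i
    (fun j => (fun z : ℝ≥0 → ℝ => z t) ⁻¹'
      (Set.Ico (a * (c j : ℝ) - y j) (a * (c j : ℝ) - y j + a)))
    (fun j => (measurable_pi_apply t) measurableSet_Ico)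
  have h2 : {ω | cell a (y + ζ i t ω) = c} =
      {ω | ∀ j, (fun t => ζ i t ω j) ∈ (fun z : ℝ≥0 → ℝ => z t) ⁻¹'
        (Set.Ico (a * (c j : ℝ) - y j) (a * (c j : ℝ) - y j + a))} := by
    ext ω
    simp only [Set.mem_setOf_eq, Set.mem_preimage]
    exact cell_event_iff ha y (ζ i t ω) c
  rw [h2, h1]
  refine Finset.prod_congr rfl fun j _ => ?_
  have h3 := (h.brownian i j).hasLaw_eval t
  have h4 : P {ω | (fun t => ζ i t ω j) ∈ (fun z : ℝ≥0 → ℝ => z t) ⁻¹'
        (Set.Ico (a * (c j : ℝ) - y j) (a * (c j : ℝ) - y j + a))} =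
      (P.map (fun ω => ζ i t ω j))
        (Set.Ico (a * (c j : ℝ) - y j) (a * (c j : ℝ) - y j + a)) := by
    have hmeas : Measurable (fun ω => ζ i t ω j) := (measurable_coord j).comp (h.meas i t)
    rw [Measure.map_apply hmeas measurableSet_Ico]
    rfl
  rw [h4, h3.map_eq]

/-- Gaussian weights -/
noncomputable def wt (D : ℕ) (q : ℤ) : ℝ :=
  (Real.sqrt (2 * Real.pi))⁻¹ * (D : ℝ)⁻¹ * Real.exp (-(|(q : ℝ)| + 3) ^ 2 / (2 * (D : ℝ) ^ 2))

theorem wt_nonneg (D : ℕ) (q : ℤ) : 0 ≤ wt D q := by unfold wt; positivity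

/-- mesoscopic index of a cell -/
def meso (m : ℕ) (z : V d) : V d := fun j => z j / (m : ℤ)

theorem sqrt_time {a : ℝ} (ha : 0 < a) {m D : ℕ} {t : ℝ≥0}
    (ht : (t : ℝ) = (D * (m * a)) ^ 2) :
    Real.sqrt (2 * Real.pi * t) = Real.sqrt (2 * Real.pi) * (D * (m * a)) := by
  rw [ht, Real.sqrt_mul (by positivity), Real.sqrt_sq (by positivity)]

theorem cell_prob_lower {ζ : ℕ → ℝ≥0 → Ω → E d} (h : IsBMFam P ζ) {a : ℝ} (ha : 0 < a) {m D : ℕ}
    (hm : 0 < m) (hD : 0 < D) {t : ℝ≥0} (ht : (t : ℝ) = (D * (m * a)) ^ 2) (i : ℕ)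
    (y : E d) (z c q : V d) (hc : nrm (c - z) ≤ m) (hy : cell (m * a) y = meso m z + q) :
    ENNReal.ofReal (((m : ℝ) ^ d)⁻¹ * ∏ j, wt D (q j)) ≤ P {ω | cell a (y + ζ i t ω) = c} := by
  have hmR : (0 : ℝ) < m := by exact_mod_cast hm
  have hDR : (0 : ℝ) < D := by exact_mod_cast hD
  have ht0 : t ≠ 0 := by
    intro h0
    rw [h0] at ht
    have : (0 : ℝ) < (D * (m * a)) ^ 2 := by positivity
    rw [← ht] at this
    simp at this
  rw [cell_prob_eq h ha]
  have key : ∀ j, ENNReal.ofReal ((m : ℝ)⁻¹ * wt D (q j)) ≤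
      gaussianReal 0 t (Set.Ico (a * (c j : ℝ) - y j) (a * (c j : ℝ) - y j + a)) := by
    intro j
    have hma : 0 < (m : ℝ) * a := by positivity
    -- position of the node
    have hyj : ⌊y j / (m * a)⌋ = z j / (m : ℤ) + q j := congrFun hy j
    rw [Int.floor_eq_iff, le_div_iff₀ hma, div_lt_iff₀ hma] at hyj
    push_cast at hyj
    obtain ⟨hy1, hy2⟩ := hyj
    -- position of z
    have hz1 : (m : ℤ) * (z j / (m : ℤ)) ≤ z j := Int.mul_ediv_self_le (by exact_mod_cast hm.ne')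
    have hz2 : z j < (m : ℤ) * (z j / (m : ℤ)) + m := by
      have := Int.lt_mul_ediv_self_add (x := z j) (k := (m : ℤ)) (by exact_mod_cast hm)
      exact this
    have hcz := nrm_le_iff.1 hc j
    have hcz1 : c j ≤ z j + m := by
      have : (c - z) j = c j - z j := rfl
      rw [this] at hcz; omega
    have hcz2 : z j - m ≤ c j := by
      have : (c - z) j = c j - z j := rfl
      rw [this] at hcz; omega
    set Q : ℤ := z j / (m : ℤ) with hQ
    have c1 : c j + 1 ≤ (m : ℤ) * Q + 2 * m := by omega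
    have c2 : (m : ℤ) * Q - m ≤ c j := by omega
    have c1' : (c j : ℝ) + 1 ≤ m * Q + 2 * m := by exact_mod_cast c1
    have c2' : (m : ℝ) * Q - m ≤ c j := by exact_mod_cast c2
    have hyj' : ⌊y j / (m * a)⌋ = Q + q j := congrFun hy j
    rw [Int.floor_eq_iff, le_div_iff₀ hma, div_lt_iff₀ hma] at hyj'
    push_cast at hyj'
    obtain ⟨hy3, hy4⟩ := hyj'
    have hM := gauss_Ico_lower ht0 (α := a * (c j : ℝ) - y j) (a := a)
      (M := (|(q j : ℝ)| + 3) * (m * a)) ha.le (by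
        rintro x ⟨hx1, hx2⟩
        have q1 := neg_abs_le (q j : ℝ)
        have q2 := le_abs_self (q j : ℝ)
        have e1 : a * (c j : ℝ) + a ≤ a * (m * Q + 2 * m) := by
          have := mul_le_mul_of_nonneg_left c1' ha.le
          linarith
        have e2 : a * (m * Q - m) ≤ a * (c j : ℝ) := mul_le_mul_of_nonneg_left c2' ha.le
        have e3 : 0 ≤ (|(q j : ℝ)| - q j) * (m * a) := mul_nonneg (by linarith) hma.le
        have e4 : 0 ≤ (|(q j : ℝ)| + q j) * (m * a) := mul_nonneg (by linarith) hma.le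
        rw [abs_le]
        constructor
        · nlinarith
        · nlinarith)
    refine le_trans (ENNReal.ofReal_le_ofReal (le_of_eq ?_)) hM
    rw [sqrt_time ha ht, ht]
    unfold wt
    have e5 : -((|(q j : ℝ)| + 3) * (m * a)) ^ 2 / (2 * (D * (m * a)) ^ 2) =
        -(|(q j : ℝ)| + 3) ^ 2 / (2 * (D : ℝ) ^ 2) := by
      field_simp
    rw [e5]
    have : Real.sqrt (2 * Real.pi) ≠ 0 := by positivity
    field_simp
  calc ENNReal.ofReal (((m : ℝ) ^ d)⁻¹ * ∏ j, wt D (q j))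
      = ∏ j, ENNReal.ofReal ((m : ℝ)⁻¹ * wt D (q j)) := by
        rw [← ENNReal.ofReal_prod_of_nonneg (fun j _ =>
          mul_nonneg (by positivity) (wt_nonneg _ _)), Finset.prod_mul_distrib]
        simp
    _ ≤ _ := Finset.prod_le_prod' fun j _ => key j

theorem cell_prob_upper {ζ : ℕ → ℝ≥0 → Ω → E d} (h : IsBMFam P ζ) {a : ℝ} (ha : 0 < a) {m D : ℕ}
    (hm : 0 < m) (hD : 0 < D) {t : ℝ≥0} (ht : (t : ℝ) = (D * (m * a)) ^ 2) (i : ℕ)
    (y : E d) (c : V d) :
    P {ω | cell a (y + ζ i t ω) = c} ≤ ENNReal.ofReal (((m : ℝ) ^ d)⁻¹) := by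
  have hmR : (0 : ℝ) < m := by exact_mod_cast hm
  have hDR : (1 : ℝ) ≤ D := by exact_mod_cast hD
  have ht0 : t ≠ 0 := by
    intro h0
    rw [h0] at ht
    have : (0 : ℝ) < (D * (m * a)) ^ 2 := by positivity
    rw [← ht] at this
    simp at this
  rw [cell_prob_eq h ha]
  have key : ∀ j, gaussianReal 0 t (Set.Ico (a * (c j : ℝ) - y j) (a * (c j : ℝ) - y j + a)) ≤
      ENNReal.ofReal ((m : ℝ)⁻¹) := by
    intro j
    refine (gauss_Ico_upper ht0 ha.le).trans (ENNReal.ofReal_le_ofReal ?_)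
    rw [sqrt_time ha ht]
    have h1 : (1 : ℝ) ≤ Real.sqrt (2 * Real.pi) := by
      rw [Real.one_le_sqrt]
      have := Real.pi_gt_three
      linarith
    have h2 : (m : ℝ) * a ≤ Real.sqrt (2 * Real.pi) * (D * (m * a)) := by
      have h3 : 0 ≤ (m : ℝ) * a := by positivity
      calc (m : ℝ) * a = 1 * (1 * (m * a)) := by ring
        _ ≤ Real.sqrt (2 * Real.pi) * (D * (m * a)) :=
          mul_le_mul h1 (mul_le_mul_of_nonneg_right hDR h3) (by positivity) (by positivity)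
    rw [← div_eq_mul_inv, div_le_iff₀ (by positivity), inv_mul_eq_div, le_div_iff₀ hmR]
    linarith
  calc ∏ j, gaussianReal 0 t (Set.Ico (a * (c j : ℝ) - y j) (a * (c j : ℝ) - y j + a))
      ≤ ∏ _j : Fin d, ENNReal.ofReal ((m : ℝ)⁻¹) := Finset.prod_le_prod' fun j _ => key j
    _ = ENNReal.ofReal (((m : ℝ) ^ d)⁻¹) := by
        rw [Finset.prod_const, Finset.card_univ, Fintype.card_fin,
          ← ENNReal.ofReal_pow (by positivity), inv_pow]

end Pool.Agent.F368
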