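import Pool.Agent.F368.Filt

/-!
Grouping independent σ-algebras.
-/

open MeasureTheory ProbabilityTheory Set Filter Topology
open scoped ENNReal NNReal

namespace Pool.Agent.F368

theorem iIndep_group {Ω ι κ : Type*} [mΩ : MeasurableSpace Ω] {P : Measure Ω}
    (m : ι × κ → MeasurableSpace Ω) (hle : ∀ a, m a ≤ mΩ) (h : iIndep m P) :
    iIndep (fun i => ⨆ j, m (i, j)) P := by
  classical
  have hprob : IsProbabilityMeasure P := h.isProbabilityMeasure
  set π : ι → Set (Set Ω) := fun i =>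
    piiUnionInter (fun j => {s | MeasurableSet[m (i, j)] s}) Set.univ with hπ
  refine iIndepSets.iIndep (fun i => iSup_le fun j => hle (i, j)) π
    (fun i => isPiSystem_piiUnionInter _ (fun j => @MeasurableSpace.isPiSystem_measurableSet _ (m (i, j))) _)
    (fun i => ?_) ?_
  · simp only [hπ]
    rw [generateFrom_piiUnionInter_measurableSet (fun j => m (i, j)) Set.univ]
    simp
  · rw [iIndepSets_iff]
    intro s f hf
    have hch : ∀ i : ι, ∃ (t : Finset κ) (g : κ → Set Ω), i ∈ s →
        (∀ j ∈ t, MeasurableSet[m (i, j)] (g j)) ∧ f i = ⋂ j ∈ t, g j := by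
      intro i
      by_cases hi : i ∈ s
      · obtain ⟨t, _, g, hg, he⟩ := hf i hi
        exact ⟨t, g, fun _ => ⟨fun j hj => hg j hj, he⟩⟩
      · exact ⟨∅, fun _ => ∅, fun h => absurd h hi⟩
    choose t g htg using hch
    set T : Finset (ι × κ) := s.biUnion fun i => (t i).image (fun j => (i, j)) with hT
    have memT : ∀ a : ι × κ, a ∈ T ↔ a.1 ∈ s ∧ a.2 ∈ t a.1 := by
      rintro ⟨i, j⟩
      simp only [hT, Finset.mem_biUnion, Finset.mem_image, Prod.mk.injEq]
      constructor
      · rintro ⟨i', hi', j', hj', rfl, rfl⟩; exact ⟨hi', hj'⟩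
      · rintro ⟨hi, hj⟩; exact ⟨i, hi, j, hj, rfl, rfl⟩
    have e1 : (⋂ i ∈ s, f i) = ⋂ a ∈ T, g a.1 a.2 := by
      ext ω
      simp only [Set.mem_iInter]
      constructor
      · rintro h1 ⟨i, j⟩ ha
        have ha' := (memT (i, j)).1 ha
        have h2 := h1 i ha'.1
        rw [(htg i ha'.1).2] at h2
        exact Set.mem_iInter₂.1 h2 j ha'.2
      · intro h1 i hi
        rw [(htg i hi).2]
        exact Set.mem_iInter₂.2 fun j hj => h1 (i, j) ((memT (i, j)).2 ⟨hi, hj⟩)
    have e2 : P (⋂ a ∈ T, g a.1 a.2) = ∏ a ∈ T, P (g a.1 a.2) :=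
      h.meas_biInter fun a ha => by
        have ha' := (memT a).1 ha
        exact (htg a.1 ha'.1).1 a.2 ha'.2
    have e3 : ∀ i ∈ s, P (f i) = ∏ j ∈ t i, P (g i j) := by
      intro i hi
      rw [(htg i hi).2]
      have := h.meas_biInter (S := (t i).image (fun j => (i, j))) (s := fun a => g a.1 a.2)
        (fun a ha => by
          obtain ⟨j, hj, rfl⟩ := Finset.mem_image.1 ha
          exact (htg i hi).1 j hj)
      rw [Finset.prod_image (by intro a _ b _ hab; simpa using hab)] at this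
      rw [← this]
      congr 1
      ext ω
      simp only [Set.mem_iInter, Finset.mem_image]
      constructor
      · rintro h1 a ⟨j, hj, rfl⟩; exact h1 j hj
      · intro h1 j hj; exact h1 (i, j) ⟨j, hj, rfl⟩
    rw [e1, e2, hT, Finset.prod_biUnion]
    · refine Finset.prod_congr rfl fun i hi => ?_
      rw [Finset.prod_image (by intro a _ b _ hab; simpa using hab), e3 i hi]
    · intro i _ i' _ hii'
      rw [Function.onFun, Finset.disjoint_left]
      intro a ha ha'
      obtain ⟨j, _, rfl⟩ := Finset.mem_image.1 ha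
      obtain ⟨j', _, h2⟩ := Finset.mem_image.1 ha'
      exact hii' (by simpa using (congrArg Prod.fst h2).symm)

/-- the Brownian motions of different nodes are independent -/
theorem IsBMFam.iIndepFun_nodes {Ω : Type*} [mΩ : MeasurableSpace Ω] {P : Measure Ω} {d : ℕ}
    {ζ : ℕ → ℝ≥0 → Ω → E d} (h : IsBMFam P ζ) :
    iIndepFun (fun i ω (t : ℝ≥0) => ζ i t ω) P := by
  have h1 := iIndep_group (fun a : ℕ × Fin d =>
    MeasurableSpace.comap (fun ω (t : ℝ≥0) => ζ a.1 t ω a.2) inferInstance)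
    (fun a => by
      have : Measurable (fun ω (t : ℝ≥0) => ζ a.1 t ω a.2) :=
        measurable_pi_lambda _ fun t => (measurable_coord a.2).comp (h.meas a.1 t)
      exact this.comap_le) h.indep.iIndep
  rw [iIndepFun_iff_iIndep]
  rw [iIndep_iff] at h1 ⊢
  intro s f hf
  refine h1 s fun i hi => ?_
  have hm : Measurable[⨆ j, MeasurableSpace.comap (fun ω (t : ℝ≥0) => ζ i t ω j) inferInstance]
      (fun ω (t : ℝ≥0) => ζ i t ω) := by
    refine @measurable_pi_lambda _ _ _ (⨆ j, MeasurableSpace.comap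
      (fun ω (t : ℝ≥0) => ζ i t ω j) inferInstance) _ _ fun t => ?_
    refine measurable_euclid fun j => ?_
    have h2 := (measurable_pi_apply t).comp (comap_measurable (fun ω (t : ℝ≥0) => ζ i t ω j))
    exact h2.mono (le_iSup (fun j => MeasurableSpace.comap
      (fun ω (t : ℝ≥0) => ζ i t ω j) inferInstance) j) le_rfl
  exact hm.comap_le _ (hf i hi)

/-- coordinates of one node -/
theorem IsBMFam.coord_prod {Ω : Type*} [mΩ : MeasurableSpace Ω] {P : Measure Ω} {d : ℕ}
    {ζ : ℕ → ℝ≥0 → Ω → E d} (h : IsBMFam P ζ) (i : ℕ) (A : Fin d → Set (ℝ≥0 → ℝ))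
    (hA : ∀ j, MeasurableSet (A j)) :
    P {ω | ∀ j, (fun t => ζ i t ω j) ∈ A j} = ∏ j, P {ω | (fun t => ζ i t ω j) ∈ A j} := by
  classical
  have := h.indep.iIndep.meas_biInter (S := (Finset.univ : Finset (Fin d)).image (fun j => (i, j)))
    (s := fun a => {ω | (fun t => ζ i t ω a.2) ∈ A a.2}) (fun a ha => by
      obtain ⟨j, _, rfl⟩ := Finset.mem_image.1 ha
      exact ⟨A j, hA j, rfl⟩)
  rw [Finset.prod_image (by intro a _ b _ hab; simpa using hab)] at this
  rw [← this]
  congr 1
  ext ω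
  simp only [Set.mem_setOf_eq, Set.mem_iInter, Finset.mem_image, Finset.mem_univ, true_and]
  constructor
  · rintro h1 a ⟨j, rfl⟩; exact h1 j
  · intro h1 j; exact h1 (i, j) ⟨j, rfl⟩

end Pool.Agent.F368
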