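import Pool.Agent.F368.Group

/-!
All the nodes have the same law of motion.
-/

open MeasureTheory ProbabilityTheory Set Filter Topology
open scoped ENNReal NNReal

namespace Pool.Agent.F368

variable {Ω : Type*} [mΩ : MeasurableSpace Ω] {P : Measure Ω} {d : ℕ}

theorem isProjectiveLimit_bm {B : ℝ≥0 → Ω → ℝ} (hB : IsBrownianReal B P)
    (hm : ∀ t, Measurable (B t)) :
    IsProjectiveLimit (P.map (fun ω t => B t ω)) BrownianReal.projectiveFamily := by
  intro I
  rw [Measure.map_map (Finset.measurable_restrict I) (measurable_pi_lambda _ hm)]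
  exact (hB.hasLaw I).map_eq

theorem IsBMFam.law_coord_eq {ζ : ℕ → ℝ≥0 → Ω → E d} (h : IsBMFam P ζ) (i i' : ℕ) (j : Fin d) :
    P.map (fun ω t => ζ i t ω j) = P.map (fun ω t => ζ i' t ω j) :=
  IsProjectiveLimit.unique
    (isProjectiveLimit_bm (h.brownian i j) fun t => (measurable_coord j).comp (h.meas i t))
    (isProjectiveLimit_bm (h.brownian i' j) fun t => (measurable_coord j).comp (h.meas i' t))

theorem IsBMFam.law_eq {ζ : ℕ → ℝ≥0 → Ω → E d} (h : IsBMFam P ζ) (i i' : ℕ) :
    P.map (fun ω t => ζ i t ω) = P.map (fun ω t => ζ i' t ω) := by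
  have hprob : IsProbabilityMeasure P := h.indep.isProbabilityMeasure
  have hm : ∀ i (j : Fin d), Measurable (fun ω (t : ℝ≥0) => ζ i t ω j) := fun i j =>
    measurable_pi_lambda _ fun t => (measurable_coord j).comp (h.meas i t)
  have hind : ∀ i, iIndepFun (fun (j : Fin d) ω (t : ℝ≥0) => ζ i t ω j) P := by
    intro i
    exact h.indep.precomp (g := fun j : Fin d => (i, j)) (fun j j' hjj' => by simpa using hjj')
  have h1 : ∀ i, P.map (fun ω (j : Fin d) (t : ℝ≥0) => ζ i t ω j) =
      Measure.pi (fun j => P.map (fun ω (t : ℝ≥0) => ζ i t ω j)) := by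
    intro i
    exact (iIndepFun_iff_map_fun_eq_pi_map (fun j => (hm i j).aemeasurable)).1 (hind i)
  set Φ : (Fin d → ℝ≥0 → ℝ) → (ℝ≥0 → E d) := fun z t => WithLp.toLp 2 (fun j => z j t) with hΦ
  have hΦm : Measurable Φ := by
    refine measurable_pi_lambda _ fun t => measurable_euclid fun j => ?_
    exact (measurable_pi_apply t).comp (measurable_pi_apply j)
  have h2 : ∀ i, P.map (fun ω t => ζ i t ω) =
      (P.map (fun ω (j : Fin d) (t : ℝ≥0) => ζ i t ω j)).map Φ := by
    intro i
    rw [Measure.map_map hΦm (measurable_pi_lambda _ fun j => hm i j)]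
    rfl
  rw [h2 i, h2 i', h1 i, h1 i']
  congr 2
  funext j
  exact h.law_coord_eq i i' j

end Pool.Agent.F368
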