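import Pool.Agent.F368.ExBasic

/-!
Decision trees and the OSSS inequality (by induction on the tree).
-/

open Finset

namespace Pool.Agent.F368

/-- decision trees querying coordinates in `ι`; the first subtree is followed if the site is
vacant, the second one if it is occupied. -/
inductive DT (ι : Type*) where
  | leaf : DT ι
  | node : ι → DT ι → DT ι → DT ι

section

variable {ι : Type*} [DecidableEq ι]

/-- the tree queries sites of `U` only, and no site twice -/
def DT.Valid : DT ι → Finset ι → Prop
  | .leaf, _ => True
  | .node i t0 t1, U => i ∈ U ∧ t0.Valid (U.erase i) ∧ t1.Valid (U.erase i)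

/-- queried sites -/
def DT.queried : DT ι → Finset ι → Finset ι
  | .leaf, _ => ∅
  | .node i t0 t1, s => insert i (if i ∈ s then t1.queried (s.erase i) else t0.queried s)

/-- the tree determines `f` on subsets of `U` -/
def DT.Det : DT ι → Finset ι → (Finset ι → ℝ) → Prop
  | .leaf, U, f => ∀ s ⊆ U, f s = f ∅
  | .node i t0 t1, U, f => t0.Det (U.erase i) f ∧ t1.Det (U.erase i) (fun s => f (insert i s))

/-- average over coordinate `j` -/
noncomputable def avg (p : ℝ) (j : ι) (g : Finset ι → ℝ) (s : Finset ι) : ℝ :=
  p * g (insert j s) + (1 - p) * g (s.erase j)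

/-- influence of coordinate `j` -/
noncomputable def Infl (F : Finset ι) (p : ℝ) (j : ι) (g : Finset ι → ℝ) : ℝ :=
  Ex F p (fun s => |g s - avg p j g s|)

/-- revealment of coordinate `j` -/
noncomputable def reveal (F : Finset ι) (p : ℝ) (t : DT ι) (j : ι) : ℝ :=
  Ex F p (fun s => if j ∈ t.queried s then 1 else 0)

theorem Infl_nonneg {F : Finset ι} {p : ℝ} (h0 : 0 ≤ p) (h1 : p ≤ 1) (j : ι)
    (g : Finset ι → ℝ) : 0 ≤ Infl F p j g :=
  Ex_nonneg h0 h1 fun _ _ => abs_nonneg _

theorem reveal_nonneg {F : Finset ι} {p : ℝ} (h0 : 0 ≤ p) (h1 : p ≤ 1) (t : DT ι) (j : ι) :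
    0 ≤ reveal F p t j :=
  Ex_nonneg h0 h1 fun _ _ => by split_ifs <;> norm_num

/-- averaging a coordinate does not increase the other influences -/
theorem Infl_avg_le {F : Finset ι} {p : ℝ} (h0 : 0 ≤ p) (h1 : p ≤ 1) {i j : ι} (hi : i ∈ F)
    (hij : j ≠ i) (g : Finset ι → ℝ) :
    Infl (F.erase i) p j (fun s => p * g (insert i s) + (1 - p) * g s) ≤ Infl F p j g := by
  unfold Infl
  rw [Ex_erase hi, add_comm, ← Ex_smul, ← Ex_smul, ← Ex_add]
  refine Ex_mono h0 h1 fun s hs => ?_
  have his : i ∉ s := fun h => by have := hs h; simp at this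
  have e1 : insert i (insert j s) = insert j (insert i s) := Finset.insert_comm i j s
  have e2 : insert i (s.erase j) = (insert i s).erase j := (Finset.erase_insert_of_ne hij.symm).symm
  have h2 : 0 ≤ 1 - p := by linarith
  unfold avg
  dsimp only
  rw [e1, e2]
  have := abs_add_le (p * (g (insert i s) - (p * g (insert j (insert i s)) +
    (1 - p) * g ((insert i s).erase j)))) ((1 - p) * (g s - (p * g (insert j s) +
    (1 - p) * g (s.erase j))))
  rw [abs_mul, abs_mul, abs_of_nonneg h0, abs_of_nonneg h2] at this
  refine le_trans (le_of_eq ?_) this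
  congr 1; ring

/-- **OSSS inequality**. -/
theorem osss {p : ℝ} (h0 : 0 ≤ p) (h1 : p ≤ 1) (t : DT ι) : ∀ (F : Finset ι)
    (f g : Finset ι → ℝ), t.Valid F → t.Det F f → (∀ s ⊆ F, |f s| ≤ 1) →
    |Ex F p (fun s => f s * g s) - Ex F p f * Ex F p g| ≤
      ∑ j ∈ F, reveal F p t j * Infl F p j g := by
  induction t with
  | leaf =>
    intro F f g _ hdet _
    have e1 : Ex F p (fun s => f s * g s) = f ∅ * Ex F p g := by
      rw [← Ex_smul]; exact Ex_congr fun s hs => by rw [hdet s hs]
    have e2 : Ex F p f = f ∅ := by
      rw [← Ex_const F p (f ∅)]; exact Ex_congr fun s hs => by rw [hdet s hs]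
    rw [e1, e2, sub_self, abs_zero]
    exact Finset.sum_nonneg fun j _ => mul_nonneg (reveal_nonneg h0 h1 _ _) (Infl_nonneg h0 h1 _ _)
  | node i t0 t1 ih0 ih1 =>
    intro F f g hval hdet hf
    obtain ⟨hi, hv0, hv1⟩ := hval
    obtain ⟨hd0, hd1⟩ := hdet
    have h2 : 0 ≤ 1 - p := by linarith
    set F' := F.erase i with hF'
    have hiF' : i ∉ F' := Finset.notMem_erase i F
    set gb : Finset ι → ℝ := fun s => p * g (insert i s) + (1 - p) * g s with hgb
    set f1 : Finset ι → ℝ := fun s => f (insert i s) with hf1
    -- induction hypotheses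
    have IH0 := ih0 F' f gb hv0 hd0 (fun s hs => hf s (hs.trans (Finset.erase_subset _ _)))
    have IH1 := ih1 F' f1 gb hv1 hd1
      (fun s hs => hf _ (Finset.insert_subset hi (hs.trans (Finset.erase_subset _ _))))
    have hfs : ∀ s ⊆ F', |f s| ≤ 1 := fun s hs => hf s (hs.trans (Finset.erase_subset _ _))
    have hf1s : ∀ s ⊆ F', |f1 s| ≤ 1 := fun s hs =>
      hf _ (Finset.insert_subset hi (hs.trans (Finset.erase_subset _ _)))
    -- decomposition of the covariance
    have eg : Ex F p g = Ex F' p gb := by
      rw [Ex_erase hi, hgb, Ex_add, Ex_smul, Ex_smul]; ring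
    have ef : Ex F p f = (1 - p) * Ex F' p f + p * Ex F' p f1 := Ex_erase hi p f
    have efg : Ex F p (fun s => f s * g s) =
        (1 - p) * Ex F' p (fun s => f s * g s) + p * Ex F' p (fun s => f1 s * g (insert i s)) :=
      Ex_erase hi p _
    set bra : ℝ := (1 - p) * Ex F' p (fun s => f s * (g s - gb s)) +
      p * Ex F' p (fun s => f1 s * (g (insert i s) - gb s)) with hbra
    have ebra : Ex F p (fun s => f s * g s) - Ex F p f * Ex F p g = bra +
        (1 - p) * (Ex F' p (fun s => f s * gb s) - Ex F' p f * Ex F' p gb) +
        p * (Ex F' p (fun s => f1 s * gb s) - Ex F' p f1 * Ex F' p gb) := by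
      have a1 : Ex F' p (fun s => f s * (g s - gb s)) =
          Ex F' p (fun s => f s * g s) - Ex F' p (fun s => f s * gb s) := by
        rw [← Ex_sub]; exact Ex_congr fun s _ => by ring
      have a2 : Ex F' p (fun s => f1 s * (g (insert i s) - gb s)) =
          Ex F' p (fun s => f1 s * g (insert i s)) - Ex F' p (fun s => f1 s * gb s) := by
        rw [← Ex_sub]; exact Ex_congr fun s _ => by ring
      rw [hbra, a1, a2, efg, ef, eg]; ring
    -- the bracket is at most the influence of i
    have hInf : Infl F p i g = (1 - p) * Ex F' p (fun s => |g s - gb s|) +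
        p * Ex F' p (fun s => |g (insert i s) - gb s|) := by
      unfold Infl
      rw [Ex_erase hi]
      have b1 : Ex F' p (fun s => |g s - avg p i g s|) = Ex F' p (fun s => |g s - gb s|) := by
        refine Ex_congr fun s hs => ?_
        have his : i ∉ s := fun h => hiF' (hs h)
        simp only [avg, hgb]
        rw [Finset.erase_eq_of_notMem his]
      have b2 : Ex F' p (fun s => |g (insert i s) - avg p i g (insert i s)|) =
          Ex F' p (fun s => |g (insert i s) - gb s|) := by
        refine Ex_congr fun s hs => ?_
        have his : i ∉ s := fun h => hiF' (hs h)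
        simp only [avg, hgb]
        rw [Finset.insert_idem, Finset.erase_insert his]
      rw [b1, b2]
    have hbra_le : |bra| ≤ Infl F p i g := by
      rw [hInf, hbra]
      have c1 : |Ex F' p (fun s => f s * (g s - gb s))| ≤ Ex F' p (fun s => |g s - gb s|) := by
        refine (abs_Ex_le h0 h1 _).trans (Ex_mono h0 h1 fun s hs => ?_)
        rw [abs_mul]
        exact mul_le_of_le_one_left (abs_nonneg _) (hfs s hs)
      have c2 : |Ex F' p (fun s => f1 s * (g (insert i s) - gb s))| ≤
          Ex F' p (fun s => |g (insert i s) - gb s|) := by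
        refine (abs_Ex_le h0 h1 _).trans (Ex_mono h0 h1 fun s hs => ?_)
        rw [abs_mul]
        exact mul_le_of_le_one_left (abs_nonneg _) (hf1s s hs)
      refine (abs_add_le _ _).trans ?_
      rw [abs_mul, abs_mul, abs_of_nonneg h2, abs_of_nonneg h0]
      exact add_le_add (mul_le_mul_of_nonneg_left c1 h2) (mul_le_mul_of_nonneg_left c2 h0)
    -- revealments
    have hrev_i : reveal F p (.node i t0 t1) i = 1 := by
      unfold reveal
      exact (Ex_congr fun s _ => by simp [DT.queried]).trans (Ex_const F p 1)
    have hrev_j : ∀ j ∈ F', reveal F p (.node i t0 t1) j =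
        (1 - p) * reveal F' p t0 j + p * reveal F' p t1 j := by
      intro j hj
      have hji : j ≠ i := Finset.ne_of_mem_erase hj
      unfold reveal
      rw [Ex_erase hi]
      have d1 : Ex F' p (fun s => if j ∈ (DT.node i t0 t1).queried s then (1 : ℝ) else 0) =
          Ex F' p (fun s => if j ∈ t0.queried s then (1 : ℝ) else 0) := by
        refine Ex_congr fun s hs => ?_
        have his : i ∉ s := fun h => hiF' (hs h)
        simp [DT.queried, his, hji]
      have d2 : Ex F' p (fun s => if j ∈ (DT.node i t0 t1).queried (insert i s)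
          then (1 : ℝ) else 0) =
          Ex F' p (fun s => if j ∈ t1.queried s then (1 : ℝ) else 0) := by
        refine Ex_congr fun s hs => ?_
        have his : i ∉ s := fun h => hiF' (hs h)
        simp [DT.queried, his, hji]
      rw [d1, d2]
    have hsum : ∑ j ∈ F, reveal F p (.node i t0 t1) j * Infl F p j g =
        Infl F p i g + ∑ j ∈ F', ((1 - p) * reveal F' p t0 j + p * reveal F' p t1 j) *
          Infl F p j g := by
      rw [← Finset.insert_erase hi, Finset.sum_insert (Finset.notMem_erase i F),
        Finset.insert_erase hi, hrev_i, one_mul]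
      congr 1
      exact Finset.sum_congr rfl fun j hj => by rw [hrev_j j hj]
    rw [ebra, hsum]
    have hI : ∀ j ∈ F', Infl F' p j gb ≤ Infl F p j g := fun j hj =>
      Infl_avg_le h0 h1 hi (Finset.ne_of_mem_erase hj) g
    have k0 : ∑ j ∈ F', reveal F' p t0 j * Infl F' p j gb ≤
        ∑ j ∈ F', reveal F' p t0 j * Infl F p j g :=
      Finset.sum_le_sum fun j hj => mul_le_mul_of_nonneg_left (hI j hj) (reveal_nonneg h0 h1 _ _)
    have k1 : ∑ j ∈ F', reveal F' p t1 j * Infl F' p j gb ≤
        ∑ j ∈ F', reveal F' p t1 j * Infl F p j g :=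
      Finset.sum_le_sum fun j hj => mul_le_mul_of_nonneg_left (hI j hj) (reveal_nonneg h0 h1 _ _)
    refine (abs_add_le _ _).trans ?_
    refine (add_le_add (abs_add_le _ _) le_rfl).trans ?_
    rw [abs_mul, abs_mul, abs_of_nonneg h2, abs_of_nonneg h0]
    have l0 := mul_le_mul_of_nonneg_left (IH0.trans k0) h2
    have l1 := mul_le_mul_of_nonneg_left (IH1.trans k1) h0
    have : ∑ j ∈ F', ((1 - p) * reveal F' p t0 j + p * reveal F' p t1 j) * Infl F p j g =
        (1 - p) * ∑ j ∈ F', reveal F' p t0 j * Infl F p j g +
        p * ∑ j ∈ F', reveal F' p t1 j * Infl F p j g := by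
      rw [Finset.mul_sum, Finset.mul_sum, ← Finset.sum_add_distrib]
      exact Finset.sum_congr rfl fun j _ => by ring
    rw [this]
    linarith

/-! ### Trees built from an exploration rule -/

/-- tree given by an exploration rule `next` (known occupied sites `O`, known vacant sites `W`) -/
def DT.build (next : Finset ι → Finset ι → Option ι) : ℕ → Finset ι → Finset ι → DT ι
  | 0, _, _ => .leaf
  | m + 1, O, W => match next O W with
    | none => .leaf
    | some i => .node i (DT.build next m O (insert i W)) (DT.build next m (insert i O) W)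

variable {next : Finset ι → Finset ι → Option ι} {F : Finset ι}

theorem DT.build_valid (hnext : ∀ O W i, next O W = some i → i ∈ F \ (O ∪ W)) :
    ∀ m O W, (DT.build next m O W).Valid (F \ (O ∪ W)) := by
  intro m
  induction m with
  | zero => intro O W; exact True.intro
  | succ m ih =>
    intro O W
    unfold DT.build
    cases h : next O W with
    | none => exact True.intro
    | some i =>
      refine ⟨hnext O W i h, ?_, ?_⟩
      · have e : (F \ (O ∪ W)).erase i = F \ (O ∪ insert i W) := by
          ext x; simp only [Finset.mem_erase, Finset.mem_sdiff, Finset.mem_union,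
            Finset.mem_insert]; tauto
        rw [e]; exact ih O (insert i W)
      · have e : (F \ (O ∪ W)).erase i = F \ (insert i O ∪ W) := by
          ext x; simp only [Finset.mem_erase, Finset.mem_sdiff, Finset.mem_union,
            Finset.mem_insert]; tauto
        rw [e]; exact ih (insert i O) W

theorem DT.build_det (hnext : ∀ O W i, next O W = some i → i ∈ F \ (O ∪ W))
    {f : Finset ι → ℝ}
    (hf : ∀ O W, O ⊆ F → W ⊆ F → Disjoint O W → next O W = none →
      ∀ s ⊆ F \ (O ∪ W), f (s ∪ O) = f O) :
    ∀ m O W, O ⊆ F → W ⊆ F → Disjoint O W → (F \ (O ∪ W)).card ≤ m →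
      (DT.build next m O W).Det (F \ (O ∪ W)) (fun s => f (s ∪ O)) := by
  intro m
  induction m with
  | zero =>
    intro O W hO hW hOW hc s hs
    have : F \ (O ∪ W) = ∅ := Finset.card_eq_zero.1 (Nat.le_zero.1 hc)
    rw [this] at hs
    rw [Finset.subset_empty.1 hs]
  | succ m ih =>
    intro O W hO hW hOW hc
    unfold DT.build
    cases h : next O W with
    | none =>
      intro s hs
      simp only
      rw [hf O W hO hW hOW h s hs, Finset.empty_union]
    | some i =>
      have hi := hnext O W i h
      have hi' := Finset.mem_sdiff.1 hi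
      have hiO : i ∉ O := fun hh => hi'.2 (Finset.mem_union_left _ hh)
      have hiW : i ∉ W := fun hh => hi'.2 (Finset.mem_union_right _ hh)
      have hcard : ((F \ (O ∪ W)).erase i).card ≤ m := by
        rw [Finset.card_erase_of_mem hi]; omega
      constructor
      · have e : (F \ (O ∪ W)).erase i = F \ (O ∪ insert i W) := by
          ext x; simp only [Finset.mem_erase, Finset.mem_sdiff, Finset.mem_union,
            Finset.mem_insert]; tauto
        rw [e] at hcard ⊢
        exact ih O (insert i W) hO (Finset.insert_subset hi'.1 hW)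
          (Finset.disjoint_insert_right.2 ⟨hiO, hOW⟩) hcard
      · have e : (F \ (O ∪ W)).erase i = F \ (insert i O ∪ W) := by
          ext x; simp only [Finset.mem_erase, Finset.mem_sdiff, Finset.mem_union,
            Finset.mem_insert]; tauto
        rw [e] at hcard ⊢
        have := ih (insert i O) W (Finset.insert_subset hi'.1 hO) hW
          (Finset.disjoint_insert_left.2 ⟨hiW, hOW⟩) hcard
        have e2 : (fun s => f (insert i s ∪ O)) = fun s => f (s ∪ insert i O) := by
          funext s; congr 1; rw [Finset.insert_union, Finset.union_insert]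
        rw [e2]; exact this

theorem DT.build_queried (hnext : ∀ O W i, next O W = some i → i ∈ F \ (O ∪ W)) {j : ι} :
    ∀ m O W s, O ⊆ F → W ⊆ F → Disjoint O W → s ⊆ F \ (O ∪ W) →
      j ∈ (DT.build next m O W).queried s →
      ∃ O' W', O' ⊆ s ∪ O ∧ W' ⊆ F ∧ Disjoint W' (s ∪ O) ∧ next O' W' = some j := by
  intro m
  induction m with
  | zero => intro O W s _ _ _ _ hj; simp [DT.build, DT.queried] at hj
  | succ m ih =>
    intro O W s hO hW hOW hs hj
    unfold DT.build at hj
    cases h : next O W with
    | none => rw [h] at hj; simp [DT.queried] at hj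
    | some i =>
      rw [h] at hj
      have hi := hnext O W i h
      have hi' := Finset.mem_sdiff.1 hi
      have hiO : i ∉ O := fun hh => hi'.2 (Finset.mem_union_left _ hh)
      have hiW : i ∉ W := fun hh => hi'.2 (Finset.mem_union_right _ hh)
      simp only [DT.queried, Finset.mem_insert] at hj
      rcases hj with hj | hj
      · subst hj
        refine ⟨O, W, Finset.subset_union_right, hW, ?_, h⟩
        rw [Finset.disjoint_union_right]
        refine ⟨?_, hOW.symm⟩
        rw [Finset.disjoint_left]
        intro x hxW hxs
        have := Finset.mem_sdiff.1 (hs hxs)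
        exact this.2 (Finset.mem_union_right _ hxW)
      · by_cases his : i ∈ s
        · rw [if_pos his] at hj
          have e : s.erase i ⊆ F \ (insert i O ∪ W) := by
            intro x hx
            have hx' := Finset.mem_erase.1 hx
            have := Finset.mem_sdiff.1 (hs hx'.2)
            rw [Finset.mem_sdiff]
            refine ⟨this.1, ?_⟩
            intro hh
            rw [Finset.mem_union, Finset.mem_insert] at hh
            rcases hh with (hh | hh) | hh
            · exact hx'.1 hh
            · exact this.2 (Finset.mem_union_left _ hh)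
            · exact this.2 (Finset.mem_union_right _ hh)
          obtain ⟨O', W', h1, h2, h3, h4⟩ := ih (insert i O) W (s.erase i)
            (Finset.insert_subset hi'.1 hO) hW (Finset.disjoint_insert_left.2 ⟨hiW, hOW⟩) e hj
          have e3 : s.erase i ∪ insert i O = s ∪ O := by
            rw [Finset.union_insert, ← Finset.insert_union, Finset.insert_erase his]
          rw [e3] at h1 h3
          exact ⟨O', W', h1, h2, h3, h4⟩
        · rw [if_neg his] at hj
          have e : s ⊆ F \ (O ∪ insert i W) := by
            intro x hx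
            have := Finset.mem_sdiff.1 (hs hx)
            rw [Finset.mem_sdiff]
            refine ⟨this.1, ?_⟩
            intro hh
            rw [Finset.mem_union, Finset.mem_insert] at hh
            rcases hh with hh | hh | hh
            · exact this.2 (Finset.mem_union_left _ hh)
            · exact his (hh ▸ hx)
            · exact this.2 (Finset.mem_union_right _ hh)
          exact ih O (insert i W) s hO (Finset.insert_subset hi'.1 hW)
            (Finset.disjoint_insert_right.2 ⟨hiO, hOW⟩) e hj

end

end Pool.Agent.F368
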