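import Mathlib

/-!
Discrete finite-range percolation of free sites: basic definitions.
-/

open Finset

namespace Pool.Agent.F368

/-- sites -/
abbrev V (d : ℕ) := Fin d → ℤ

/-- sup norm of an integer vector -/
def nrm {d : ℕ} (x : V d) : ℕ := Finset.univ.sup (fun j => (x j).natAbs)

/-- the box `{-n,…,n}^d` -/
noncomputable def box (d n : ℕ) : Finset (V d) := Finset.Icc (fun _ => -(n : ℤ)) (fun _ => (n : ℤ))

/-- `x` is free: no occupied site in `x + S`; `s` is the set of occupied sites. -/
def Free {d : ℕ} (S : Finset (V d)) (s : Set (V d)) (x : V d) : Prop := ∀ v ∈ S, x + v ∉ s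

/-- `x` is connected to `y` by a path of free sites (steps of sup norm at most one). -/
def Conn {d : ℕ} (S : Finset (V d)) (s : Set (V d)) (x y : V d) : Prop :=
  Free S s x ∧ Relation.ReflTransGen (fun a b => nrm (b - a) ≤ 1 ∧ Free S s b) x y

/-- `x` is connected to distance at least `n` by free sites. -/
def Reach {d : ℕ} (S : Finset (V d)) (s : Set (V d)) (x : V d) (n : ℕ) : Prop :=
  ∃ y, n ≤ nrm (y - x) ∧ Conn S s x y

/-- expectation when each site of the finite set `F` is occupied with probability `p`,
independently (`f` is a function of the set of occupied sites). -/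
noncomputable def Ex {ι : Type*} [DecidableEq ι] (F : Finset ι) (p : ℝ) (f : Finset ι → ℝ) : ℝ :=
  ∑ s ∈ F.powerset, p ^ s.card * (1 - p) ^ (F \ s).card * f s

open Classical in
/-- probability that the origin is connected to distance `n` by free sites. -/
noncomputable def theta {d : ℕ} (S : Finset (V d)) (K n : ℕ) (p : ℝ) : ℝ :=
  Ex (box d (n + K)) p (fun s => if Reach S (↑s) 0 n then 1 else 0)

end Pool.Agent.F368
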