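import Pool.Agent.F368.Defs

/-! Module C: Poisson functional with independent marks. -/

open MeasureTheory ProbabilityTheory Filter Topology
open scoped ENNReal NNReal

namespace Pool.Agent.F368

section Count

variable {Ω : Type*} [MeasurableSpace Ω] {P : Measure Ω} {d : ℕ} {lam : ℝ} {X : ℕ → Ω → E d}

theorem pf_measurableSet_cnt (hX : ∀ i, Measurable (X i)) {B : Set (E d)} (hB : MeasurableSet B)
    (k : ℕ) : MeasurableSet {ω | cnt (fun j => X j ω) B = (k : ℕ∞)} := by
  have h : {ω | cnt (fun j => X j ω) B = (k : ℕ∞)} =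
      ⋃ s : Finset ℕ, ⋃ _ : s.card = k, ⋂ i : ℕ, {ω | X i ω ∈ B ↔ i ∈ s} := by
    ext ω
    simp only [Set.mem_ofPred_eq, Set.mem_iUnion, Set.mem_iInter, exists_prop, cnt]
    constructor
    · intro h
      have hfin : {i | X i ω ∈ B}.Finite := by
        refine Set.encard_ne_top_iff.1 ?_
        rw [h]; exact ENat.natCast_ne_top k
      refine ⟨hfin.toFinset, ?_, fun i => by simp⟩
      rw [hfin.encard_eq_coe_toFinset_card] at h
      exact_mod_cast h
    · rintro ⟨s, hs, h⟩
      have : {i | X i ω ∈ B} = (s : Set ℕ) := by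
        ext i; simpa using h i
      rw [this, Set.encard_coe_eq_coe_finsetCard, hs]
  rw [h]
  refine MeasurableSet.iUnion fun s => MeasurableSet.iUnion fun _ => MeasurableSet.iInter fun i => ?_
  by_cases hi : i ∈ s
  · have e : {ω | X i ω ∈ B ↔ i ∈ s} = X i ⁻¹' B := by ext ω; simp [hi]
    rw [e]; exact (hX i) hB
  · have e : {ω | X i ω ∈ B ↔ i ∈ s} = (X i ⁻¹' B)ᶜ := by ext ω; simp [hi]
    rw [e]; exact ((hX i) hB).compl

theorem pf_prob (hX : IsPoisson P lam X) : IsProbabilityMeasure P := by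
  constructor
  have h := hX.law 0 (fun i => i.elim0) (fun i => i.elim0) (fun i => i.elim0) (fun i => i.elim0)
    (fun i => i.elim0)
  simpa using h

/-- number of points, as a natural number -/
noncomputable def pfN (X : ℕ → Ω → E d) (B : Set (E d)) (ω : Ω) : ℕ :=
  (cnt (fun j => X j ω) B).toNat

theorem pf_ae_finite (hlam : 0 ≤ lam) (hX : IsPoisson P lam X) {B : Set (E d)}
    (hB : MeasurableSet B) (hb : Bornology.IsBounded B) :
    ∀ᵐ ω ∂P, cnt (fun j => X j ω) B ≠ ⊤ := by
  have := pf_prob hX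
  set r : ℝ≥0 := ⟨lam * volume.real B, by positivity⟩ with hr
  have h1 : ∀ k : ℕ, P {ω | cnt (fun j => X j ω) B = (k : ℕ∞)} = poissonMeasure r {k} := by
    intro k
    have h := hX.law 1 (fun _ => B) (fun _ => k) (fun _ => hB) (fun _ => hb)
      (fun i j hij => absurd (Subsingleton.elim i j) hij)
    rw [poissonMeasure_singleton]
    simp only [Fin.forall_fin_one, Finset.univ_unique, Finset.prod_singleton] at h
    exact h
  have h2 : P (⋃ k : ℕ, {ω | cnt (fun j => X j ω) B = (k : ℕ∞)}) = 1 := by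
    rw [measure_iUnion]
    · simp_rw [h1]
      rw [← measure_iUnion (fun i j hij => by simpa using hij) (fun _ => measurableSet_singleton _)]
      have : (⋃ i : ℕ, ({i} : Set ℕ)) = Set.univ := by ext; simp
      rw [this, measure_univ]
    · intro i j hij
      rw [Function.onFun, Set.disjoint_left]
      intro ω h3 h4
      simp only [Set.mem_ofPred_eq] at h3 h4
      rw [h3] at h4
      exact hij (by exact_mod_cast h4)
    · exact fun k => pf_measurableSet_cnt hX.meas hB k
  have h3 : ∀ᵐ ω ∂P, ω ∈ ⋃ k : ℕ, {ω | cnt (fun j => X j ω) B = (k : ℕ∞)} := by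
    rw [← prob_compl_eq_zero_iff (MeasurableSet.iUnion fun k =>
      pf_measurableSet_cnt hX.meas hB k)] at h2
    exact h2
  filter_upwards [h3] with ω hω
  obtain ⟨k, hk⟩ := Set.mem_iUnion.1 hω
  simp only [Set.mem_ofPred_eq] at hk
  rw [hk]; exact ENat.natCast_ne_top k

theorem pf_measurable_N (hX : ∀ i, Measurable (X i)) {B : Set (E d)} (hB : MeasurableSet B) :
    Measurable (pfN X B) := by
  refine measurable_to_countable' fun k => ?_
  by_cases hk : k = 0
  · subst hk
    have : pfN X B ⁻¹' {0} = {ω | cnt (fun j => X j ω) B = ((0 : ℕ) : ℕ∞)} ∪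
        (⋃ k : ℕ, {ω | cnt (fun j => X j ω) B = (k : ℕ∞)})ᶜ := by
      ext ω
      simp only [Set.mem_preimage, Set.mem_singleton_iff, pfN, Set.mem_union, Set.mem_ofPred_eq,
        Set.mem_compl_iff, Set.mem_iUnion, not_exists]
      constructor
      · intro h
        rcases ENat.toNat_eq_zero.1 h with h | h
        · left; simpa using h
        · right; intro k hk; rw [hk] at h; exact ENat.natCast_ne_top k h
      · rintro (h | h)
        · rw [h]; rfl
        · rw [ENat.toNat_eq_zero]
          right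
          by_contra h4
          obtain ⟨n, hn⟩ := ENat.ne_top_iff_exists.1 h4
          exact h n hn.symm
    rw [this]
    exact (pf_measurableSet_cnt hX hB 0).union
      (MeasurableSet.iUnion fun k => pf_measurableSet_cnt hX hB k).compl
  · have : pfN X B ⁻¹' {k} = {ω | cnt (fun j => X j ω) B = (k : ℕ∞)} := by
      ext ω
      simp only [Set.mem_preimage, Set.mem_singleton_iff, pfN, Set.mem_ofPred_eq]
      exact ENat.toNat_eq_iff hk
    rw [this]
    exact pf_measurableSet_cnt hX hB k

theorem pf_law (hlam : 0 ≤ lam) (hX : IsPoisson P lam X) {n : ℕ} {B : Fin n → Set (E d)}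
    (hB : ∀ i, MeasurableSet (B i)) (hb : ∀ i, Bornology.IsBounded (B i))
    (hd : Pairwise (Function.onFun Disjoint B)) :
    P.map (fun ω (i : Fin n) => pfN X (B i) ω) =
      Measure.pi (fun i => poissonMeasure ⟨lam * volume.real (B i), by positivity⟩) := by
  have := pf_prob hX
  have hm : Measurable (fun ω (i : Fin n) => pfN X (B i) ω) :=
    measurable_pi_lambda _ fun i => pf_measurable_N hX.meas (hB i)
  refine Measure.ext_of_singleton fun k => ?_
  rw [Measure.map_apply hm (measurableSet_singleton k), Measure.pi_singleton]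
  have h1 : P ((fun ω (i : Fin n) => pfN X (B i) ω) ⁻¹' {k}) =
      P {ω | ∀ i, cnt (fun j => X j ω) (B i) = (k i : ℕ∞)} := by
    refine measure_congr ?_
    have h2 : ∀ᵐ ω ∂P, ∀ i, cnt (fun j => X j ω) (B i) ≠ ⊤ :=
      ae_all_iff.2 fun i => pf_ae_finite hlam hX (hB i) (hb i)
    filter_upwards [h2] with ω hω
    apply propext
    change ω ∈ ((fun ω (i : Fin n) => pfN X (B i) ω) ⁻¹' {k}) ↔
      ω ∈ {ω | ∀ i, cnt (fun j => X j ω) (B i) = (k i : ℕ∞)}
    simp only [Set.mem_preimage, Set.mem_singleton_iff, Set.mem_ofPred_eq, funext_iff, pfN]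
    refine forall_congr' fun i => ?_
    constructor
    · intro h; rw [← h, ENat.natCast_toNat (hω i)]
    · intro h; rw [h]; rfl
  rw [h1, hX.law n B k hB hb hd, ENNReal.ofReal_prod_of_nonneg (fun i _ => by positivity)]
  refine Finset.prod_congr rfl fun i _ => ?_
  rw [poissonMeasure_singleton]
  rfl

/-- generating function of the Poisson law -/
theorem pf_gen (r : ℝ≥0) (c : ℝ≥0∞) (hc : c ≤ 1) :
    ∫⁻ k, (1 - c) ^ k ∂(poissonMeasure r) = ENNReal.ofReal (Real.exp (-(c.toReal * r))) := by
  rw [poissonMeasure, lintegral_sum_measure]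
  simp_rw [lintegral_smul_measure, lintegral_dirac]
  have hc' : c ≠ ⊤ := ne_top_of_le_ne_top ENNReal.one_ne_top hc
  have hc1 : c.toReal ≤ 1 := by
    have := ENNReal.toReal_mono ENNReal.one_ne_top hc
    simpa using this
  have e1 : (1 - c) = ENNReal.ofReal (1 - c.toReal) := by
    rw [ENNReal.ofReal_sub _ ENNReal.toReal_nonneg, ENNReal.ofReal_one, ENNReal.ofReal_toReal hc']
  have h0 : 0 ≤ 1 - c.toReal := by linarith
  have e2 : ∀ k : ℕ, ENNReal.ofReal (Real.exp (-(r : ℝ)) * (r : ℝ) ^ k / (k.factorial)) • (1 - c) ^ k =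
      ENNReal.ofReal (Real.exp (-(r : ℝ)) * (((1 - c.toReal) * r) ^ k / k.factorial)) := by
    intro k
    rw [smul_eq_mul, e1, ← ENNReal.ofReal_pow h0, ← ENNReal.ofReal_mul (by positivity)]
    congr 1
    rw [mul_pow]; ring
  simp_rw [e2]
  have h3 : HasSum (fun k : ℕ => Real.exp (-(r : ℝ)) * (((1 - c.toReal) * r) ^ k / k.factorial))
      (Real.exp (-(r : ℝ)) * Real.exp ((1 - c.toReal) * r)) := by
    refine HasSum.mul_left _ ?_
    have := NormedSpace.expSeries_div_hasSum_exp ((1 - c.toReal) * (r : ℝ))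
    rwa [← Real.exp_eq_exp_ℝ] at this
  rw [← ENNReal.ofReal_tsum_of_nonneg (fun k => by positivity) h3.summable, h3.tsum_eq,
    ← Real.exp_add]
  congr 2; ring

/-- expectation of a product of powers of counts -/
theorem pf_counts (hlam : 0 ≤ lam) (hX : IsPoisson P lam X) {n : ℕ} {B : Fin n → Set (E d)}
    (hB : ∀ i, MeasurableSet (B i)) (hb : ∀ i, Bornology.IsBounded (B i))
    (hd : Pairwise (Function.onFun Disjoint B)) (c : Fin n → ℝ≥0∞) (hc : ∀ i, c i ≤ 1) :
    ∫⁻ ω, ∏ i, (1 - c i) ^ (pfN X (B i) ω) ∂P =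
      ENNReal.ofReal (Real.exp (-(lam * ∑ i, (c i).toReal * volume.real (B i)))) := by
  have hm : Measurable (fun ω (i : Fin n) => pfN X (B i) ω) :=
    measurable_pi_lambda _ fun i => pf_measurable_N hX.meas (hB i)
  have h1 : ∫⁻ ω, ∏ i, (1 - c i) ^ (pfN X (B i) ω) ∂P =
      ∫⁻ k, ∏ i, (1 - c i) ^ (k i) ∂(P.map (fun ω (i : Fin n) => pfN X (B i) ω)) := by
    rw [lintegral_map (measurable_of_countable _) hm]
  rw [h1, pf_law hlam hX hB hb hd]
  have h2 := lintegral_prod_eq_prod_lintegral_of_indepFun Finset.univ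
    (fun (i : Fin n) (k : Fin n → ℕ) => (1 - c i) ^ (k i))
    (μ := Measure.pi (fun i => poissonMeasure ⟨lam * volume.real (B i), by positivity⟩))
    (iIndepFun_pi (X := fun (i : Fin n) (k : ℕ) => (1 - c i) ^ k)
      (fun i => (measurable_of_countable _).aemeasurable))
    (fun i => measurable_of_countable _)
  rw [h2]
  have h3 : ∀ i : Fin n, ∫⁻ k : Fin n → ℕ, (1 - c i) ^ (k i)
      ∂(Measure.pi (fun i => poissonMeasure ⟨lam * volume.real (B i), by positivity⟩)) =
      ENNReal.ofReal (Real.exp (-((c i).toReal * (lam * volume.real (B i))))) := by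
    intro i
    have := (measurePreserving_eval
      (fun i : Fin n => poissonMeasure ⟨lam * volume.real (B i), by positivity⟩) i).lintegral_comp
      (f := fun k : ℕ => (1 - c i) ^ k) (measurable_of_countable _)
    refine this.trans ?_
    exact pf_gen _ _ (hc i)
  rw [Finset.prod_congr rfl fun i _ => h3 i, ← ENNReal.ofReal_prod_of_nonneg
    (fun i _ => (Real.exp_pos _).le), ← Real.exp_sum]
  congr 2
  rw [Finset.mul_sum, ← Finset.sum_neg_distrib]
  exact Finset.sum_congr rfl fun i _ => by ring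

theorem pf_antitone {g : ℕ → ℝ≥0∞} (hg : ∀ i, g i ≤ 1) :
    Antitone (fun n => ∏ i ∈ Finset.range n, g i) := by
  refine antitone_nat_of_succ_le fun n => ?_
  rw [Finset.prod_range_succ]
  exact mul_le_of_le_one_right' (hg n)

/-- the unmarked functional for simple functions with bounded support -/
theorem pf_simple (hlam : 0 ≤ lam) (hX : IsPoisson P lam X) (s : E d → ℝ≥0∞) (hs : Measurable s)
    (T : Finset ℝ≥0∞) (hT : ∀ x, s x ∈ T) (hT1 : ∀ c ∈ T, c ≤ 1) (R : ℝ) :
    ∫⁻ ω, ⨅ n : ℕ, ∏ i ∈ Finset.range n, (1 - (Metric.ball (0 : E d) R).indicator s (X i ω)) ∂P =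
      ENNReal.ofReal (Real.exp (-(lam *
        (∫⁻ x, (Metric.ball (0 : E d) R).indicator s x).toReal))) := by
  set e : T ≃ Fin T.card := T.equivFin with he
  set c : Fin T.card → ℝ≥0∞ := fun j => (e.symm j : ℝ≥0∞) with hcdef
  have hc1 : ∀ j, c j ≤ 1 := fun j => hT1 _ (e.symm j).2
  have hcinj : Function.Injective c := Subtype.val_injective.comp e.symm.injective
  have hcsurj : ∀ x, ∃ j, c j = s x := fun x => ⟨e ⟨s x, hT x⟩, by simp [hcdef]⟩
  set B : Fin T.card → Set (E d) := fun j => Metric.ball 0 R ∩ s ⁻¹' {c j} with hBdef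
  have hB : ∀ j, MeasurableSet (B j) := fun j =>
    measurableSet_ball.inter (hs (measurableSet_singleton _))
  have hb : ∀ j, Bornology.IsBounded (B j) := fun j =>
    Metric.isBounded_ball.subset Set.inter_subset_left
  have hd : Pairwise (Function.onFun Disjoint B) := by
    intro i j hij
    rw [Function.onFun, Set.disjoint_left]
    rintro x ⟨_, h1⟩ ⟨_, h2⟩
    simp only [Set.mem_preimage, Set.mem_singleton_iff] at h1 h2
    exact hij (hcinj (h1.symm.trans h2))
  classical
  -- pointwise product decomposition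
  have hdec : ∀ x, (1 - (Metric.ball (0 : E d) R).indicator s x) =
      ∏ j, (if x ∈ B j then (1 - c j) else 1) := by
    intro x
    by_cases hx : x ∈ Metric.ball (0 : E d) R
    · obtain ⟨j, hj⟩ := hcsurj x
      rw [Set.indicator_of_mem hx, Finset.prod_eq_single j]
      · rw [if_pos, hj]
        exact ⟨hx, hj.symm⟩
      · intro i _ hij
        rw [if_neg]
        rintro ⟨_, h⟩
        simp only [Set.mem_preimage, Set.mem_singleton_iff] at h
        exact hij (hcinj (h.symm.trans hj.symm))
      · intro h; exact absurd (Finset.mem_univ j) h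
    · rw [Set.indicator_of_notMem hx]
      rw [Finset.prod_eq_one]
      · simp
      · intro i _
        rw [if_neg]
        exact fun h => hx h.1
  -- the integral of u
  have hint : (∫⁻ x, (Metric.ball (0 : E d) R).indicator s x).toReal =
      ∑ j, (c j).toReal * volume.real (B j) := by
    have h1 : ∀ x, (Metric.ball (0 : E d) R).indicator s x =
        ∑ j, (B j).indicator (fun _ => c j) x := by
      intro x
      by_cases hx : x ∈ Metric.ball (0 : E d) R
      · obtain ⟨j, hj⟩ := hcsurj x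
        rw [Set.indicator_of_mem hx, Finset.sum_eq_single j]
        · rw [Set.indicator_of_mem, hj]
          exact ⟨hx, hj.symm⟩
        · intro i _ hij
          rw [Set.indicator_of_notMem]
          rintro ⟨_, h⟩
          simp only [Set.mem_preimage, Set.mem_singleton_iff] at h
          exact hij (hcinj (h.symm.trans hj.symm))
        · intro h; exact absurd (Finset.mem_univ j) h
      · rw [Set.indicator_of_notMem hx, Finset.sum_eq_zero]
        intro i _
        rw [Set.indicator_of_notMem]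
        exact fun h => hx h.1
    simp_rw [h1]
    rw [lintegral_finsetSum _ (fun j _ => measurable_const.indicator (hB j))]
    rw [ENNReal.toReal_sum]
    · refine Finset.sum_congr rfl fun j _ => ?_
      rw [lintegral_indicator_const (hB j), ENNReal.toReal_mul]
      rfl
    · intro j _
      rw [lintegral_indicator_const (hB j)]
      exact ENNReal.mul_ne_top (ne_top_of_le_ne_top ENNReal.one_ne_top (hc1 j))
        (hb j).measure_lt_top.ne
  rw [hint, ← pf_counts hlam hX hB hb hd c hc1]
  refine lintegral_congr_ae ?_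
  have h2 : ∀ᵐ ω ∂P, ∀ i, cnt (fun j => X j ω) (B i) ≠ ⊤ :=
    ae_all_iff.2 fun i => pf_ae_finite hlam hX (hB i) (hb i)
  filter_upwards [h2] with ω hω
  have hfin : ∀ j, {i | X i ω ∈ B j}.Finite := fun j => Set.encard_ne_top_iff.1 (hω j)
  obtain ⟨M, hM⟩ : ∃ M, ∀ i ≥ M, ∀ j, X i ω ∉ B j := by
    obtain ⟨M, hM⟩ := (Set.finite_iUnion hfin).bddAbove
    refine ⟨M + 1, fun i hi j hij => ?_⟩
    have := hM (Set.mem_iUnion.2 ⟨j, hij⟩)
    omega
  set g : ℕ → ℝ≥0∞ := fun i => (1 - (Metric.ball (0 : E d) R).indicator s (X i ω)) with hg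
  have hanti : Antitone (fun n => ∏ i ∈ Finset.range n, g i) := pf_antitone fun i => tsub_le_self
  have hconst : ∀ n ≥ M, ∏ i ∈ Finset.range n, g i = ∏ i ∈ Finset.range M, g i := by
    intro n hn
    induction n, hn using Nat.le_induction with
    | base => rfl
    | succ n hn ih =>
      rw [Finset.prod_range_succ, ih]
      have : g n = 1 := by
        simp only [hg]
        rw [hdec]
        exact Finset.prod_eq_one fun j _ => if_neg (hM n hn j)
      rw [this, mul_one]
  have hinf : ⨅ n : ℕ, ∏ i ∈ Finset.range n, g i = ∏ i ∈ Finset.range M, g i := by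
    refine le_antisymm (iInf_le _ M) (le_iInf fun n => ?_)
    rcases le_total n M with h | h
    · exact hanti h
    · exact (hconst n h).ge
  rw [hinf]
  have : ∏ i ∈ Finset.range M, g i =
      ∏ i ∈ Finset.range M, ∏ j, (if X i ω ∈ B j then (1 - c j) else 1) :=
    Finset.prod_congr rfl fun i _ => hdec _
  rw [this, Finset.prod_comm]
  refine Finset.prod_congr rfl fun j _ => ?_
  rw [Finset.prod_ite, Finset.prod_const_one, mul_one, Finset.prod_const]
  congr 1
  unfold pfN cnt
  have h5 : {i | X i ω ∈ B j} = ((Finset.range M).filter (fun i => X i ω ∈ B j) : Set ℕ) := by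
    ext i
    simp only [Set.mem_ofPred_eq, Finset.coe_filter, Finset.mem_range]
    constructor
    · intro h
      refine ⟨?_, h⟩
      by_contra h6
      exact hM i (not_lt.1 h6) j h
    · exact fun h => h.2
  rw [h5, Set.encard_coe_eq_coe_finsetCard]
  rfl

/-- the unmarked functional -/
theorem pf_unmarked (hlam : 0 ≤ lam) (hX : IsPoisson P lam X) (u : E d → ℝ≥0∞)
    (hu : Measurable u) (hu1 : ∀ x, u x ≤ 1) (hfin : ∫⁻ x, u x ≠ ⊤) :
    ∫⁻ ω, ⨅ n : ℕ, ∏ i ∈ Finset.range n, (1 - u (X i ω)) ∂P =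
      ENNReal.ofReal (Real.exp (-(lam * (∫⁻ x, u x).toReal))) := by
  have := pf_prob hX
  set v : ℕ → E d → ℝ≥0∞ := fun m => (Metric.ball (0 : E d) m).indicator (SimpleFunc.eapprox u m)
    with hv
  have hvm : ∀ m, Measurable (v m) := fun m =>
    (SimpleFunc.eapprox u m).measurable.indicator measurableSet_ball
  have hvle : ∀ m x, (SimpleFunc.eapprox u m) x ≤ u x := fun m x => by
    rw [← SimpleFunc.iSup_eapprox_apply hu x]
    exact le_iSup (fun n => (SimpleFunc.eapprox u n) x) m
  have hvmono : Monotone v := by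
    intro a b hab x
    simp only [hv]
    by_cases hx : x ∈ Metric.ball (0 : E d) a
    · rw [Set.indicator_of_mem hx, Set.indicator_of_mem
        (Metric.ball_subset_ball (by exact_mod_cast hab) hx)]
      exact SimpleFunc.monotone_eapprox u hab x
    · rw [Set.indicator_of_notMem hx]; exact zero_le
  have hvu : ∀ m x, v m x ≤ u x := fun m x => by
    simp only [hv]
    by_cases hx : x ∈ Metric.ball (0 : E d) m
    · rw [Set.indicator_of_mem hx]; exact hvle m x
    · rw [Set.indicator_of_notMem hx]; exact zero_le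
  have hvlim : ∀ x, Tendsto (fun m => v m x) atTop (𝓝 (u x)) := by
    intro x
    have h1 : Tendsto (fun m => (SimpleFunc.eapprox u m) x) atTop (𝓝 (u x)) :=
      SimpleFunc.tendsto_eapprox hu x
    refine h1.congr' ?_
    obtain ⟨M, hM⟩ := exists_nat_gt ‖x‖
    filter_upwards [eventually_ge_atTop M] with m hm
    simp only [hv]
    rw [Set.indicator_of_mem]
    rw [mem_ball_zero_iff]
    exact lt_of_lt_of_le hM (by exact_mod_cast hm)
  have hvsup : ∀ x, ⨆ m, v m x = u x := fun x =>
    tendsto_nhds_unique (tendsto_atTop_iSup fun a b hab => hvmono hab x) (hvlim x)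
  -- formula for v m
  have hform : ∀ m, ∫⁻ ω, ⨅ n : ℕ, ∏ i ∈ Finset.range n, (1 - v m (X i ω)) ∂P =
      ENNReal.ofReal (Real.exp (-(lam * (∫⁻ x, v m x).toReal))) := by
    intro m
    refine pf_simple hlam hX _ (SimpleFunc.eapprox u m).measurable (SimpleFunc.eapprox u m).range
      (fun x => SimpleFunc.mem_range_self _ x) ?_ m
    intro c hc
    obtain ⟨x, rfl⟩ := SimpleFunc.mem_range.1 hc
    exact (hvle m x).trans (hu1 x)
  -- exchange of infima
  have hexch : ∀ ω, ⨅ n : ℕ, ∏ i ∈ Finset.range n, (1 - u (X i ω)) =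
      ⨅ m : ℕ, ⨅ n : ℕ, ∏ i ∈ Finset.range n, (1 - v m (X i ω)) := by
    intro ω
    rw [iInf_comm]
    refine iInf_congr fun n => ?_
    have h1 : Tendsto (fun m => ∏ i ∈ Finset.range n, (1 - v m (X i ω))) atTop
        (𝓝 (∏ i ∈ Finset.range n, (1 - u (X i ω)))) := by
      refine ENNReal.tendsto_finsetProd_of_ne_top _ (fun i _ => ?_) (fun i _ => ?_)
      · exact ENNReal.Tendsto.sub tendsto_const_nhds (hvlim _) (Or.inl ENNReal.one_ne_top)
      · exact ne_top_of_le_ne_top ENNReal.one_ne_top tsub_le_self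
    have h2 : Antitone (fun m => ∏ i ∈ Finset.range n, (1 - v m (X i ω))) := by
      intro a b hab
      exact Finset.prod_le_prod' fun i _ => tsub_le_tsub_left (hvmono hab _) _
    exact tendsto_nhds_unique h1 (tendsto_atTop_iInf h2)
  have hmeas : ∀ m, Measurable (fun ω => ⨅ n : ℕ, ∏ i ∈ Finset.range n, (1 - v m (X i ω))) := by
    intro m
    refine Measurable.iInf fun n => Finset.measurable_fun_prod _ fun i _ => ?_
    exact measurable_const.sub ((hvm m).comp (hX.meas i))
  have hanti : Antitone (fun m ω => ⨅ n : ℕ, ∏ i ∈ Finset.range n, (1 - v m (X i ω))) := by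
    intro a b hab ω
    exact iInf_mono fun n => Finset.prod_le_prod' fun i _ => tsub_le_tsub_left (hvmono hab _) _
  have hfin0 : ∫⁻ ω, ⨅ n : ℕ, ∏ i ∈ Finset.range n, (1 - v 0 (X i ω)) ∂P ≠ ⊤ := by
    rw [hform]; exact ENNReal.ofReal_ne_top
  simp_rw [hexch]
  rw [lintegral_iInf hmeas hanti hfin0]
  simp_rw [hform]
  have hlimI : Tendsto (fun m => ∫⁻ x, v m x) atTop (𝓝 (∫⁻ x, u x)) := by
    refine lintegral_tendsto_of_tendsto_of_monotone (fun m => (hvm m).aemeasurable) ?_ ?_
    · exact ae_of_all _ fun x a b hab => hvmono hab x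
    · exact ae_of_all _ hvlim
  have hlimR : Tendsto (fun m => (∫⁻ x, v m x).toReal) atTop (𝓝 (∫⁻ x, u x).toReal) :=
    (ENNReal.tendsto_toReal hfin).comp hlimI
  have h3 : Tendsto (fun m => ENNReal.ofReal (Real.exp (-(lam * (∫⁻ x, v m x).toReal)))) atTop
      (𝓝 (ENNReal.ofReal (Real.exp (-(lam * (∫⁻ x, u x).toReal))))) :=
    ENNReal.tendsto_ofReal ((Real.continuous_exp.tendsto _).comp (hlimR.const_mul lam).neg)
  have h4 : Antitone (fun m => ENNReal.ofReal (Real.exp (-(lam * (∫⁻ x, v m x).toReal)))) := by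
    intro a b hab
    refine ENNReal.ofReal_le_ofReal (Real.exp_le_exp.2 (neg_le_neg
      (mul_le_mul_of_nonneg_left ?_ hlam)))
    refine ENNReal.toReal_mono ?_ (lintegral_mono fun x => hvmono hab x)
    exact ne_top_of_le_ne_top hfin (lintegral_mono fun x => hvu b x)
  exact tendsto_nhds_unique (tendsto_atTop_iInf h4) h3

end Count

/-- `E ∏ (1 - f(X_i, W_i)) = exp (- lam ∫∫ f)`, where the marks `W_i` are iid with law `ν`,
independent of the Poisson process `X`. -/
theorem poisson_prod {Ω β : Type*} [MeasurableSpace Ω] [MeasurableSpace β] {P : Measure Ω} {d : ℕ}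
    {lam : ℝ} (hlam : 0 ≤ lam) {X : ℕ → Ω → E d} (hX : IsPoisson P lam X)
    {W : ℕ → Ω → β} (hW : ∀ i, Measurable (W i)) {ν : Measure β} (hν : ∀ i, P.map (W i) = ν)
    (hind : iIndepFun W P) (hXW : IndepFun (fun ω i => X i ω) (fun ω i => W i ω) P)
    (f : E d × β → ℝ≥0∞) (hf : Measurable f) (hf1 : ∀ x, f x ≤ 1)
    (hfin : ∫⁻ x, ∫⁻ w, f (x, w) ∂ν ∂(volume : Measure (E d)) ≠ ⊤) :
    ∫⁻ ω, ⨅ n : ℕ, ∏ i ∈ Finset.range n, (1 - f (X i ω, W i ω)) ∂P =
      ENNReal.ofReal (Real.exp (-(lam *
        (∫⁻ x, ∫⁻ w, f (x, w) ∂ν ∂(volume : Measure (E d))).toReal))) := by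
  have := pf_prob hX
  have hνp : IsProbabilityMeasure ν := by
    rw [← hν 0]; exact Measure.isProbabilityMeasure_map (hW 0).aemeasurable
  set u : E d → ℝ≥0∞ := fun x => ∫⁻ w, f (x, w) ∂ν with hu
  have hum : Measurable u := hf.lintegral_prod_right'
  have hu1 : ∀ x, u x ≤ 1 := by
    intro x
    calc u x ≤ ∫⁻ _, 1 ∂ν := lintegral_mono fun w => hf1 _
      _ = 1 := by simp
  rw [← pf_unmarked hlam hX u hum hu1 hfin]
  have hXm : Measurable (fun ω i => X i ω) := measurable_pi_lambda _ hX.meas
  have hWm : Measurable (fun ω i => W i ω) := measurable_pi_lambda _ hW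
  -- for finite products
  have hfinite : ∀ n : ℕ, ∫⁻ ω, ∏ i ∈ Finset.range n, (1 - f (X i ω, W i ω)) ∂P =
      ∫⁻ ω, ∏ i ∈ Finset.range n, (1 - u (X i ω)) ∂P := by
    intro n
    have hG : Measurable (fun p : (ℕ → E d) × (ℕ → β) =>
        ∏ i ∈ Finset.range n, (1 - f (p.1 i, p.2 i))) := by
      refine Finset.measurable_fun_prod _ fun i _ => ?_
      refine measurable_const.sub (hf.comp ?_)
      exact ((measurable_pi_apply i).comp measurable_fst).prodMk
        ((measurable_pi_apply i).comp measurable_snd)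
    have h1 : ∫⁻ ω, ∏ i ∈ Finset.range n, (1 - f (X i ω, W i ω)) ∂P =
        ∫⁻ p, ∏ i ∈ Finset.range n, (1 - f (p.1 i, p.2 i))
          ∂(P.map (fun ω => ((fun i => X i ω), (fun i => W i ω)))) := by
      rw [lintegral_map hG (hXm.prodMk hWm)]
    rw [h1, (indepFun_iff_map_prod_eq_prod_map_map hXm.aemeasurable hWm.aemeasurable).1 hXW,
      lintegral_prod _ hG.aemeasurable]
    have h2 : ∀ x : ℕ → E d, ∫⁻ w, ∏ i ∈ Finset.range n, (1 - f (x i, w i))
        ∂(P.map (fun ω i => W i ω)) = ∏ i ∈ Finset.range n, (1 - u (x i)) := by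
      intro x
      have hGx : Measurable (fun w : ℕ → β => ∏ i ∈ Finset.range n, (1 - f (x i, w i))) :=
        hG.comp measurable_prodMk_left
      rw [lintegral_map hGx hWm]
      have hfm : ∀ i, Measurable (fun w => 1 - f (x i, w)) := fun i =>
        measurable_const.sub (hf.comp measurable_prodMk_left)
      have h3 := lintegral_prod_eq_prod_lintegral_of_indepFun (μ := P) (Finset.range n)
        (fun i ω => 1 - f (x i, W i ω))
        (hind.comp (fun i w => 1 - f (x i, w)) hfm)
        (fun i => (hfm i).comp (hW i))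
      rw [h3]
      refine Finset.prod_congr rfl fun i _ => ?_
      have h4 : ∫⁻ ω, (1 - f (x i, W i ω)) ∂P = ∫⁻ w, (1 - f (x i, w)) ∂ν := by
        rw [← hν i, lintegral_map (hfm i) (hW i)]
      have h5 : Measurable (fun w => f (x i, w)) := hf.comp measurable_prodMk_left
      rw [h4, lintegral_sub h5
        (ne_top_of_le_ne_top ENNReal.one_ne_top (hu1 (x i))) (ae_of_all _ fun w => hf1 _)]
      simp [hu]
    simp_rw [h2]
    have hG2 : Measurable (fun x : ℕ → E d => ∏ i ∈ Finset.range n, (1 - u (x i))) :=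
      Finset.measurable_fun_prod _ fun i _ =>
        measurable_const.sub (hum.comp (measurable_pi_apply i))
    rw [lintegral_map hG2 hXm]
  rw [lintegral_iInf, lintegral_iInf]
  · exact iInf_congr hfinite
  · intro n
    exact Finset.measurable_fun_prod _ fun i _ => measurable_const.sub (hum.comp (hX.meas i))
  · intro a b hab ω
    exact pf_antitone (g := fun i => 1 - u (X i ω)) (fun i => tsub_le_self) hab
  · simp
  · intro n
    exact Finset.measurable_fun_prod _ fun i _ =>
      measurable_const.sub (hf.comp ((hX.meas i).prodMk (hW i)))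
  · intro a b hab ω
    exact pf_antitone (g := fun i => 1 - f (X i ω, W i ω)) (fun i => tsub_le_self) hab
  · simp

end Pool.Agent.F368
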