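import Pool.Agent.F368.Explore
import Pool.Agent.F368.Analysis

/-!
Sharpness: stretched exponential decay above the threshold.
-/

open Finset Filter Topology

namespace Pool.Agent.F368

variable {d : ℕ}

theorem ind_mul_self (S : Finset (V d)) (x : V d) (n : ℕ) (s : Finset (V d)) :
    ind S x n s * ind S x n s = ind S x n s := by
  unfold ind; split_ifs <;> norm_num

/-- the influences are controlled by the discrete derivative -/
theorem Infl_le {F : Finset (V d)} {p : ℝ} (h0 : 0 ≤ p) (h1 : p ≤ 1) (S : Finset (V d))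
    (n : ℕ) (c : V d) :
    Infl F p c (ind S 0 n) ≤ Ex F p (fun s => ind S 0 n (s.erase c) - ind S 0 n (insert c s)) := by
  refine Ex_mono h0 h1 fun s _ => ?_
  have a1 : ind S 0 n (insert c s) ≤ ind S 0 n s := ind_anti _ _ _ (Finset.subset_insert _ _)
  have a2 : ind S 0 n s ≤ ind S 0 n (s.erase c) := ind_anti _ _ _ (Finset.erase_subset _ _)
  have h2 : 0 ≤ 1 - p := by linarith
  unfold avg
  rw [abs_le]
  constructor <;> nlinarith

open Classical in
theorem reveal_le {S : Finset (V d)} {K n k : ℕ} (hK : S ⊆ box d K) (hd : 1 ≤ d)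
    (hkn : k ≤ n) (c : V d) {j : ℕ}
    (hj : (j + nrm c = k ∨ j + k = nrm c)) {p : ℝ} (h0 : 0 ≤ p) (h1 : p ≤ 1) :
    reveal (box d (n + K)) p (tree S K n k) c * (1 - p) ^ (box d (2 * K + 1)).card ≤
      2 * theta S K j p := by
  have ha : 0 ≤ (1 - p) ^ (box d (2 * K + 1)).card := pow_nonneg (by linarith) _
  have h2 : reveal (box d (n + K)) p (tree S K n k) c ≤
      Ex (box d (n + K)) p (fun s => (if (k ≤ nrm c + K ∧ nrm c ≤ k + K) then (1 : ℝ) else 0) +
        (if Hit S K n k c (↑s) then 1 else 0)) := by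
    refine Ex_mono h0 h1 fun s hs => ?_
    by_cases hc : c ∈ (tree S K n k).queried s
    · rw [if_pos hc]
      rcases tree_queried hK hkn hs hc with h | h
      · rw [if_pos h]; split_ifs <;> norm_num
      · rw [if_pos h]; split_ifs <;> norm_num
    · rw [if_neg hc]; split_ifs <;> norm_num
  rw [Ex_add, Ex_const] at h2
  have h3 := Ex_Hit_le hK (n := n) (k := k) c (j := j) (by omega) h0 h1
  have h4 : (if (k ≤ nrm c + K ∧ nrm c ≤ k + K) then (1 : ℝ) else 0) *
      (1 - p) ^ (box d (2 * K + 1)).card ≤ theta S K j p := by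
    split_ifs with h
    · rw [one_mul]
      refine le_trans ?_ (theta_lower j h0 h1 hd)
      apply pow_le_pow_of_le_one (by linarith) (by linarith)
      apply Finset.card_le_card
      intro z hz
      rw [mem_box] at hz ⊢
      omega
    · rw [zero_mul]; exact theta_nonneg S K j h0 h1
  calc reveal (box d (n + K)) p (tree S K n k) c * (1 - p) ^ (box d (2 * K + 1)).card
      ≤ ((if (k ≤ nrm c + K ∧ nrm c ≤ k + K) then (1 : ℝ) else 0) +
        Ex (box d (n + K)) p (fun s => if Hit S K n k c (↑s) then 1 else 0)) *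
        (1 - p) ^ (box d (2 * K + 1)).card := mul_le_mul_of_nonneg_right h2 ha
    _ ≤ 2 * theta S K j p := by rw [add_mul]; linarith

theorem sum_theta_le {S : Finset (V d)} {K n : ℕ} (hK : S ⊆ box d K) {p : ℝ} (h0 : 0 ≤ p)
    (h1 : p ≤ 1) {m : ℕ} (hm : m ≤ n + K) :
    ∑ k ∈ Icc 1 n, theta S K (if m ≤ k then k - m else m - k) p ≤
      2 * (K + 1) * ∑ j ∈ range (n + 1), theta S K j p := by
  have hnn : ∀ j, 0 ≤ theta S K j p := fun j => theta_nonneg S K j h0 h1
  have e1 : ∑ k ∈ Icc 1 n, theta S K (if m ≤ k then k - m else m - k) p ≤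
      ∑ k ∈ (Icc 1 n).filter (fun k => m ≤ k), theta S K (k - m) p +
      ∑ k ∈ (Icc 1 n).filter (fun k => ¬ m ≤ k), theta S K (m - k) p := by
    rw [← Finset.sum_filter_add_sum_filter_not (Icc 1 n) (fun k => m ≤ k)]
    apply add_le_add
    · refine Finset.sum_le_sum fun k hk => ?_
      rw [if_pos (Finset.mem_filter.1 hk).2]
    · refine Finset.sum_le_sum fun k hk => ?_
      rw [if_neg (Finset.mem_filter.1 hk).2]
  have e2 : ∑ k ∈ (Icc 1 n).filter (fun k => m ≤ k), theta S K (k - m) p ≤
      ∑ j ∈ range (n + K + 1), theta S K j p := by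
    rw [← Finset.sum_image (s := (Icc 1 n).filter (fun k => m ≤ k)) (g := fun k => k - m)
      (f := fun j => theta S K j p)]
    · refine Finset.sum_le_sum_of_subset_of_nonneg ?_ fun j _ _ => hnn j
      intro j hj
      rw [Finset.mem_image] at hj
      obtain ⟨k, hk, rfl⟩ := hj
      rw [Finset.mem_filter, Finset.mem_Icc] at hk
      rw [Finset.mem_range]; omega
    · intro a ha b hb hab
      have ha' := (Finset.mem_filter.1 (by exact_mod_cast ha)).2
      have hb' := (Finset.mem_filter.1 (by exact_mod_cast hb)).2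
      simp only at hab; omega
  have e3 : ∑ k ∈ (Icc 1 n).filter (fun k => ¬ m ≤ k), theta S K (m - k) p ≤
      ∑ j ∈ range (n + K + 1), theta S K j p := by
    rw [← Finset.sum_image (s := (Icc 1 n).filter (fun k => ¬ m ≤ k)) (g := fun k => m - k)
      (f := fun j => theta S K j p)]
    · refine Finset.sum_le_sum_of_subset_of_nonneg ?_ fun j _ _ => hnn j
      intro j hj
      rw [Finset.mem_image] at hj
      obtain ⟨k, hk, rfl⟩ := hj
      rw [Finset.mem_filter, Finset.mem_Icc] at hk
      rw [Finset.mem_range]; omega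
    · intro a ha b hb hab
      have ha' := (Finset.mem_filter.1 (by exact_mod_cast ha)).2
      have hb' := (Finset.mem_filter.1 (by exact_mod_cast hb)).2
      simp only at hab; omega
  have e4 : ∀ K' : ℕ, ∑ j ∈ range (n + K' + 1), theta S K j p ≤
      (K' + 1) * ∑ j ∈ range (n + 1), theta S K j p := by
    intro K'
    induction K' with
    | zero => simp
    | succ K' ih =>
      have : n + (K' + 1) + 1 = (n + K' + 1) + 1 := by ring
      rw [this, Finset.sum_range_succ]
      have h5 : theta S K (n + K' + 1) p ≤ ∑ j ∈ range (n + 1), theta S K j p := by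
        refine (theta_anti_n hK (Nat.zero_le _) h0 h1).trans ?_
        exact Finset.single_le_sum (f := fun j => theta S K j p) (fun j _ => hnn j)
          (Finset.mem_range.2 (by omega))
      push_cast
      linarith
  have e5 := e4 K
  linarith

/-- the differential inequality -/
theorem diffineq {S : Finset (V d)} (hS : (0 : V d) ∈ S) {K : ℕ} (hK : S ⊆ box d K) (hd : 1 ≤ d)
    {n : ℕ} (hn : 1 ≤ n) {p : ℝ} (h0 : 0 ≤ p) (h1 : p ≤ 1) :
    p * (1 - p) ^ (box d (2 * K + 1)).card * n * theta S K n p ≤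
      4 * (K + 1) * (∑ j ∈ range (n + 1), theta S K j p) *
      (-(∑ i ∈ box d (n + K), Ex (box d (n + K)) p
        (fun s => ind S 0 n (insert i s) - ind S 0 n (s.erase i)))) := by
  set F := box d (n + K) with hF
  set a : ℝ := (1 - p) ^ (box d (2 * K + 1)).card with ha
  have ha0 : 0 ≤ a := pow_nonneg (by linarith) _
  set Dc : V d → ℝ := fun c => Ex F p (fun s => ind S 0 n (s.erase c) - ind S 0 n (insert c s))
    with hDc
  have hDc0 : ∀ c, 0 ≤ Dc c := fun c => Ex_nonneg h0 h1 fun s _ => by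
    have a1 : ind S 0 n (insert c s) ≤ ind S 0 n s := ind_anti _ _ _ (Finset.subset_insert _ _)
    have a2 : ind S 0 n s ≤ ind S 0 n (s.erase c) := ind_anti _ _ _ (Finset.erase_subset _ _)
    linarith
  have hsumD : -(∑ i ∈ F, Ex F p (fun s => ind S 0 n (insert i s) - ind S 0 n (s.erase i))) =
      ∑ c ∈ F, Dc c := by
    rw [← Finset.sum_neg_distrib]
    refine Finset.sum_congr rfl fun c _ => ?_
    simp only [hDc]
    rw [Ex_sub, Ex_sub]; ring
  set Θ := theta S K n p with hΘ
  have hΘ0 : 0 ≤ Θ := theta_nonneg S K n h0 h1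
  have hΘ1 : Θ ≤ 1 - p := theta_le_one_sub hS K n h0 h1
  -- OSSS for every k
  have hk : ∀ k ∈ Icc 1 n, Θ * (1 - Θ) ≤ ∑ c ∈ F, reveal F p (tree S K n k) c * Dc c := by
    intro k hk
    rw [Finset.mem_Icc] at hk
    have := osss h0 h1 (tree S K n k) F (ind S 0 n) (ind S 0 n) (tree_valid S K n k)
      (tree_det hK hk.1 hk.2) (fun s _ => by
        rw [abs_of_nonneg (ind_nonneg _ _ _ _)]; exact ind_le_one _ _ _ _)
    have e1 : Ex F p (fun s => ind S 0 n s * ind S 0 n s) = Θ :=
      Ex_congr fun s _ => ind_mul_self S 0 n s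
    have e2 : Ex F p (ind S 0 n) = Θ := rfl
    rw [e1, e2] at this
    have e3 : Θ - Θ * Θ = Θ * (1 - Θ) := by ring
    rw [e3] at this
    refine (le_abs_self _).trans (this.trans ?_)
    exact Finset.sum_le_sum fun c _ =>
      mul_le_mul_of_nonneg_left (Infl_le h0 h1 S n c) (reveal_nonneg h0 h1 _ _)
  have hsum := Finset.sum_le_sum hk
  rw [Finset.sum_const, Nat.card_Icc, Nat.add_sub_cancel, nsmul_eq_mul, Finset.sum_comm] at hsum
  -- bound of the total revealment
  have hrev : ∀ c ∈ F, (∑ k ∈ Icc 1 n, reveal F p (tree S K n k) c) * a ≤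
      4 * (K + 1) * ∑ j ∈ range (n + 1), theta S K j p := by
    intro c hc
    rw [Finset.sum_mul]
    have h2 : ∑ k ∈ Icc 1 n, reveal F p (tree S K n k) c * a ≤
        ∑ k ∈ Icc 1 n, 2 * theta S K (if nrm c ≤ k then k - nrm c else nrm c - k) p := by
      refine Finset.sum_le_sum fun k hk => ?_
      rw [Finset.mem_Icc] at hk
      refine reveal_le hK hd hk.2 c ?_ h0 h1
      split_ifs with h
      · left; omega
      · right; omega
    rw [← Finset.mul_sum] at h2
    have h3 := sum_theta_le hK h0 h1 (m := nrm c) (mem_box.1 hc)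
    linarith
  have hfin : (∑ c ∈ F, ∑ k ∈ Icc 1 n, reveal F p (tree S K n k) c * Dc c) * a ≤
      4 * (K + 1) * (∑ j ∈ range (n + 1), theta S K j p) * ∑ c ∈ F, Dc c := by
    rw [Finset.sum_mul, Finset.mul_sum]
    refine Finset.sum_le_sum fun c hc => ?_
    rw [← Finset.sum_mul]
    calc (∑ k ∈ Icc 1 n, reveal F p (tree S K n k) c) * Dc c * a
        = ((∑ k ∈ Icc 1 n, reveal F p (tree S K n k) c) * a) * Dc c := by ring
      _ ≤ _ := mul_le_mul_of_nonneg_right (hrev c hc) (hDc0 c)
  rw [hsumD]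
  refine le_trans ?_ hfin
  have h5 : (n : ℝ) * (Θ * (1 - Θ)) * a ≤
      (∑ c ∈ F, ∑ k ∈ Icc 1 n, reveal F p (tree S K n k) c * Dc c) * a :=
    mul_le_mul_of_nonneg_right hsum ha0
  refine le_trans ?_ h5
  have h6 : p * a * n * Θ = (n : ℝ) * (Θ * p) * a := by ring
  rw [h6]
  refine mul_le_mul_of_nonneg_right (mul_le_mul_of_nonneg_left ?_ (Nat.cast_nonneg _)) ha0
  exact mul_le_mul_of_nonneg_left (by linarith) hΘ0

theorem sharp (hd : 1 ≤ d) (S : Finset (V d)) (h0 : (0 : V d) ∈ S) (K : ℕ) (hK : S ⊆ box d K)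
    {p0 p1 : ℝ} (hp0 : 0 < p0) (h01 : p0 < p1) (hp1 : p1 < 1)
    (h : Tendsto (fun n => theta S K n p0) atTop (𝓝 0)) :
    ∃ C : ℝ, ∀ n : ℕ, theta S K n p1 ≤ C * Real.exp (-Real.sqrt n) := by
  set M := (box d (2 * K + 1)).card with hM
  set c : ℝ := p0 * (1 - p1) ^ M / (4 * (K + 1)) with hc
  have hcpos : 0 < c := by
    have : 0 < 1 - p1 := by linarith
    rw [hc]; positivity
  refine decay_of_diffineq (fun n p => theta S K n p)
    (fun n p => ∑ i ∈ box d (n + K), Ex (box d (n + K)) p
        (fun s => ind S 0 n (insert i s) - ind S 0 n (s.erase i))) h01 hcpos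
    ?_ ?_ ?_ ?_ ?_ ?_ ?_ h
  · intro n p h1 h2; exact theta_nonneg S K n (by linarith) (by linarith)
  · intro n p h1 h2; exact theta_le_one S K n (by linarith) (by linarith)
  · intro p h1 h2
    have : 0 < (1 - p) ^ (box d (0 + K)).card := pow_pos (by linarith) _
    exact this.trans_le (theta_lower 0 (by linarith) (by linarith) hd)
  · intro n p h1 h2; exact theta_anti_n hK (Nat.le_succ n) (by linarith) (by linarith)
  · intro n p q h1 h2 h3; exact theta_anti_p S K n (by linarith) h2 (by linarith)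
  · intro n p _ _; exact hasDerivAt_Ex _ _ _
  · intro n p hn h1 h2
    have hp0' : 0 ≤ p := by linarith
    have hp1' : p ≤ 1 := by linarith
    have key := diffineq h0 hK hd hn hp0' hp1'
    have h3 : 0 ≤ theta S K n p := theta_nonneg S K n hp0' hp1'
    have h4 : p0 * (1 - p1) ^ M ≤ p * (1 - p) ^ M := by
      apply mul_le_mul h1 _ _ hp0'
      · exact pow_le_pow_left₀ (by linarith) (by linarith) _
      · exact pow_nonneg (by linarith) _
    have h5 : (0 : ℝ) < 4 * (K + 1) := by positivity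
    have h6 : c * n * theta S K n p = (p0 * (1 - p1) ^ M * n * theta S K n p) / (4 * (K + 1)) := by
      rw [hc]; ring
    rw [h6, div_le_iff₀ h5]
    calc p0 * (1 - p1) ^ M * n * theta S K n p
        ≤ p * (1 - p) ^ M * n * theta S K n p := by
          apply mul_le_mul_of_nonneg_right _ h3
          exact mul_le_mul_of_nonneg_right h4 (Nat.cast_nonneg _)
      _ ≤ _ := key
      _ = _ := by ring

end Pool.Agent.F368
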