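import Pool.Agent.F368.Law
import Pool.Agent.F368.Markov
import Pool.Agent.F368.Determ
import Pool.Agent.F368.Zero
import Pool.Agent.F368.Brownian
import Pool.Agent.F368.PoissonFun

/-!
The law of the nodes at a fixed time: slow nodes and density of nodes.
-/

open MeasureTheory ProbabilityTheory Set Filter Topology
open scoped ENNReal NNReal

namespace Pool.Agent.F368

variable {d : ℕ}

/-- translation invariance -/
theorem lintegral_shift {ν : Measure (ℝ≥0 → E d)} [IsProbabilityMeasure ν] (s : ℝ≥0)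
    {Q : Set (E d)} (hQ : MeasurableSet Q) {M : Set (ℝ≥0 → E d)} (hM : MeasurableSet M)
    (c : ℝ≥0∞) :
    ∫⁻ x, ∫⁻ w, Set.indicator {q : E d × (ℝ≥0 → E d) | q.1 + q.2 s ∈ Q ∧ q.2 ∈ M}
      (fun _ => c) (x, w) ∂ν ∂(volume : Measure (E d)) = c * (volume Q * ν M) := by
  set A : Set (E d × (ℝ≥0 → E d)) := {q | q.1 + q.2 s ∈ Q ∧ q.2 ∈ M} with hA
  have hAm : MeasurableSet A := by
    have h1 : Measurable (fun q : E d × (ℝ≥0 → E d) => q.1 + q.2 s) :=
      measurable_fst.add ((measurable_pi_apply s).comp measurable_snd)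
    exact (h1 hQ).inter (measurable_snd hM)
  rw [lintegral_lintegral_swap]
  · have h2 : ∀ w : ℝ≥0 → E d, ∫⁻ x, A.indicator (fun _ => c) (x, w) ∂(volume : Measure (E d)) =
        M.indicator (fun _ => c * volume Q) w := by
      intro w
      by_cases hw : w ∈ M
      · rw [Set.indicator_of_mem hw]
        have h3 : (fun x : E d => A.indicator (fun _ => c) (x, w)) =
            ((fun x => x + w s) ⁻¹' Q).indicator (fun _ => c) := by
          funext x
          have h4 : (x, w) ∈ A ↔ x ∈ (fun x => x + w s) ⁻¹' Q := by simp [hA, hw]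
          by_cases hx : (x, w) ∈ A
          · rw [Set.indicator_of_mem hx, Set.indicator_of_mem (h4.1 hx)]
          · rw [Set.indicator_of_notMem hx, Set.indicator_of_notMem (fun h => hx (h4.2 h))]
        have h5 : Measurable (fun x : E d => x + w s) := measurable_id.add_const _
        rw [h3, lintegral_indicator_const (h5 hQ), measure_preimage_add_right]
      · rw [Set.indicator_of_notMem hw]
        have h3 : (fun x : E d => A.indicator (fun _ => c) (x, w)) = fun _ => 0 := by
          funext x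
          exact Set.indicator_of_notMem (fun h => hw h.2) _
        rw [h3, lintegral_zero]
    simp only [h2]
    rw [lintegral_indicator_const hM, mul_assoc]
  · exact (measurable_const.indicator hAm).aemeasurable

section

variable {Ω : Type*} [mΩ : MeasurableSpace Ω] {P : Measure Ω}

theorem measurable_path {ζ : ℕ → ℝ≥0 → Ω → E d} (h : IsBMFam P ζ) (i : ℕ) :
    Measurable (fun ω (t : ℝ≥0) => ζ i t ω) := measurable_pi_lambda _ fun t => h.meas i t

/-- the functional of the nodes at time `s` -/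
theorem mobile_prod {lam : ℝ} (hlam : 0 ≤ lam) {X : ℕ → Ω → E d} {ζ : ℕ → ℝ≥0 → Ω → E d}
    (h : IsMobile P lam X ζ) (s : ℝ≥0)
    {Q : Set (E d)} (hQ : MeasurableSet Q) (hQv : volume Q ≠ ⊤)
    {M : Set (ℝ≥0 → E d)} (hM : MeasurableSet M) {c : ℝ≥0∞} (hc : c ≤ 1) :
    ∫⁻ ω, ⨅ n : ℕ, ∏ i ∈ Finset.range n, (1 - Set.indicator
      {q : E d × (ℝ≥0 → E d) | q.1 + q.2 s ∈ Q ∧ q.2 ∈ M} (fun _ => c)
        (X i ω, fun t => ζ i t ω)) ∂P =
      ENNReal.ofReal (Real.exp (-(lam * (c.toReal *
        (volume.real Q * P.real {ω | (fun t => ζ 0 t ω) ∈ M}))))) := by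
  have hprob : IsProbabilityMeasure P := h.poisson.isProbabilityMeasure
  set ν : Measure (ℝ≥0 → E d) := P.map (fun ω t => ζ 0 t ω) with hν
  have hνp : IsProbabilityMeasure ν :=
    Measure.isProbabilityMeasure_map (measurable_path h.bm 0).aemeasurable
  set A : Set (E d × (ℝ≥0 → E d)) := {q | q.1 + q.2 s ∈ Q ∧ q.2 ∈ M} with hA
  have hAm : MeasurableSet A := by
    have h1 : Measurable (fun q : E d × (ℝ≥0 → E d) => q.1 + q.2 s) :=
      measurable_fst.add ((measurable_pi_apply s).comp measurable_snd)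
    exact (h1 hQ).inter (measurable_snd hM)
  have hval := lintegral_shift (ν := ν) s hQ hM c
  have hνM : ν M = P {ω | (fun t => ζ 0 t ω) ∈ M} := by
    rw [hν, Measure.map_apply (measurable_path h.bm 0) hM]; rfl
  have key := poisson_prod hlam h.poisson (W := fun i ω t => ζ i t ω)
    (fun i => measurable_path h.bm i) (ν := ν) (fun i => h.bm.law_eq i 0)
    h.bm.iIndepFun_nodes h.indep (A.indicator fun _ => c) (measurable_const.indicator hAm)
    (fun x => by
      by_cases hx : x ∈ A
      · rw [Set.indicator_of_mem hx]; exact hc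
      · rw [Set.indicator_of_notMem hx]; exact zero_le')
    (by
      rw [hval]
      exact ENNReal.mul_ne_top (ne_top_of_le_ne_top ENNReal.one_ne_top hc)
        (ENNReal.mul_ne_top hQv (measure_ne_top _ _)))
  rw [key, hval, hνM, ENNReal.toReal_mul, ENNReal.toReal_mul]
  rfl

/-- void probabilities -/
theorem mobile_void {lam : ℝ} (hlam : 0 ≤ lam) {X : ℕ → Ω → E d} {ζ : ℕ → ℝ≥0 → Ω → E d}
    (h : IsMobile P lam X ζ) (s : ℝ≥0)
    {Q : Set (E d)} (hQ : MeasurableSet Q) (hQv : volume Q ≠ ⊤)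
    {M : Set (ℝ≥0 → E d)} (hM : MeasurableSet M) :
    P.real {ω | ∀ i, ¬ (X i ω + ζ i s ω ∈ Q ∧ (fun t => ζ i t ω) ∈ M)} =
      Real.exp (-(lam * (volume.real Q * P.real {ω | (fun t => ζ 0 t ω) ∈ M}))) := by
  have h1 := mobile_prod hlam h s hQ hQv hM (c := 1) le_rfl
  set B : Set Ω := {ω | ∀ i, ¬ (X i ω + ζ i s ω ∈ Q ∧ (fun t => ζ i t ω) ∈ M)} with hB
  have hBm : MeasurableSet B := by
    have : B = ⋂ i, {ω | X i ω + ζ i s ω ∈ Q ∧ (fun t => ζ i t ω) ∈ M}ᶜ := by
      ext ω; simp [hB]
    rw [this]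
    refine MeasurableSet.iInter fun i => MeasurableSet.compl ?_
    exact (((h.poisson.meas i).add (h.bm.meas i s)) hQ).inter ((measurable_path h.bm i) hM)
  have h2 : ∀ ω, (⨅ n : ℕ, ∏ i ∈ Finset.range n, ((1 : ℝ≥0∞) - Set.indicator
      {q : E d × (ℝ≥0 → E d) | q.1 + q.2 s ∈ Q ∧ q.2 ∈ M} (fun _ => 1)
        (X i ω, fun t => ζ i t ω))) = B.indicator (fun _ => 1) ω := by
    intro ω
    by_cases hω : ω ∈ B
    · rw [Set.indicator_of_mem hω]
      have : ∀ n : ℕ, ∏ i ∈ Finset.range n, ((1 : ℝ≥0∞) - Set.indicator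
          {q : E d × (ℝ≥0 → E d) | q.1 + q.2 s ∈ Q ∧ q.2 ∈ M} (fun _ => 1)
          (X i ω, fun t => ζ i t ω)) = 1 := by
        intro n
        refine Finset.prod_eq_one fun i _ => ?_
        rw [Set.indicator_of_notMem (by exact hω i), tsub_zero]
      simp only [this, ciInf_const]
    · rw [Set.indicator_of_notMem hω]
      simp only [hB, Set.mem_setOf_eq, not_forall, not_not] at hω
      obtain ⟨i, hi⟩ := hω
      refine le_antisymm ((iInf_le _ (i + 1)).trans ?_) zero_le'
      rw [Finset.prod_eq_zero (Finset.self_mem_range_succ i)]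
      rw [Set.indicator_of_mem (by exact hi), tsub_self]
  simp only [h2] at h1
  rw [lintegral_indicator_const hBm, one_mul, ENNReal.toReal_one, one_mul] at h1
  rw [measureReal_def, h1, ENNReal.toReal_ofReal (Real.exp_pos _).le]

end

end Pool.Agent.F368
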