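import Mathlib

/-!
Upper tail of the number of successes among independent trials.
-/

open MeasureTheory ProbabilityTheory Set Filter Topology
open scoped ENNReal NNReal

namespace Pool.Agent.F368

open Classical in
theorem binom_tail {Ω ι C : Type*} [MeasurableSpace Ω] {P : Measure Ω} [IsProbabilityMeasure P]
    [MeasurableSpace C] (I : Finset ι) (Y : ι → Ω → C) (hY : ∀ i, Measurable (Y i))
    (hind : iIndepFun Y P) {F : Set C} (hF : MeasurableSet F) (k : ℕ) {b : ℝ}
    (hb : ∀ i ∈ I, P.real {ω | Y i ω ∈ F} ≤ b) :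
    P.real {ω | k ≤ (I.filter (fun i => Y i ω ∈ F)).card} ≤
      Real.exp (I.card * b) / 2 ^ k := by
  set G : C → ℝ≥0∞ := fun c => 1 + F.indicator (fun _ => 1) c with hG
  have hGi : Measurable (fun c => F.indicator (fun _ => (1 : ℝ≥0∞)) c) :=
    measurable_const.indicator hF
  have hGm : Measurable G := hGi.const_add 1
  have h1 := lintegral_prod_eq_prod_lintegral_of_indepFun I (fun i ω => G (Y i ω))
    (hind.comp (fun _ => G) (fun _ => hGm)) (fun i => hGm.comp (hY i))
  have h2 : ∀ i, ∫⁻ ω, G (Y i ω) ∂P = 1 + P {ω | Y i ω ∈ F} := by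
    intro i
    simp only [hG]
    rw [lintegral_add_left measurable_const, lintegral_const, measure_univ, mul_one]
    congr 1
    have : (fun ω => F.indicator (fun _ => (1 : ℝ≥0∞)) (Y i ω)) =
        (Y i ⁻¹' F).indicator (fun _ => 1) := by
      funext ω; rfl
    rw [this, lintegral_indicator_const (hY i hF), one_mul]
    rfl
  have h3 : ∀ ω, ∏ i ∈ I, G (Y i ω) = 2 ^ (I.filter (fun i => Y i ω ∈ F)).card := by
    intro ω
    rw [← Finset.prod_const, Finset.prod_filter]
    refine Finset.prod_congr rfl fun i _ => ?_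
    by_cases hi : Y i ω ∈ F
    · rw [if_pos hi]; simp only [hG, Set.indicator_of_mem hi]; norm_num
    · rw [if_neg hi]; simp only [hG, Set.indicator_of_notMem hi, add_zero]
  have h4 : ∏ i ∈ I, ∫⁻ ω, G (Y i ω) ∂P ≤ ENNReal.ofReal (Real.exp (I.card * b)) := by
    calc ∏ i ∈ I, ∫⁻ ω, G (Y i ω) ∂P ≤ ∏ _i ∈ I, ENNReal.ofReal (Real.exp b) := by
          refine Finset.prod_le_prod' fun i hi => ?_
          rw [h2 i]
          have h5 : P {ω | Y i ω ∈ F} ≤ ENNReal.ofReal b := by
            rw [← ofReal_measureReal]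
            exact ENNReal.ofReal_le_ofReal (hb i hi)
          have hb0 : 0 ≤ b := measureReal_nonneg.trans (hb i hi)
          refine (add_le_add le_rfl h5).trans ?_
          rw [← ENNReal.ofReal_one, ← ENNReal.ofReal_add zero_le_one hb0]
          apply ENNReal.ofReal_le_ofReal
          have := Real.add_one_le_exp b
          linarith
      _ = ENNReal.ofReal (Real.exp (I.card * b)) := by
          rw [Finset.prod_const, ← ENNReal.ofReal_pow (Real.exp_pos _).le, ← Real.exp_nat_mul]
  set B : Set Ω := {ω | k ≤ (I.filter (fun i => Y i ω ∈ F)).card} with hB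
  have h5 : (2 : ℝ≥0∞) ^ k * P B ≤ ENNReal.ofReal (Real.exp (I.card * b)) := by
    refine le_trans ?_ h4
    rw [← h1]
    simp only [h3]
    calc (2 : ℝ≥0∞) ^ k * P B ≤
        2 ^ k * P {ω | (2 : ℝ≥0∞) ^ k ≤ 2 ^ (I.filter (fun i => Y i ω ∈ F)).card} := by
          gcongr
          intro ω hω
          have h12 : (1 : ℝ≥0∞) ≤ 2 := by norm_num
          exact pow_le_pow_right₀ h12 hω
      _ ≤ _ := by
          refine mul_meas_ge_le_lintegral₀ ?_ _
          have : (fun ω => (2 : ℝ≥0∞) ^ (I.filter (fun i => Y i ω ∈ F)).card) =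
              fun ω => ∏ i ∈ I, G (Y i ω) := by funext ω; rw [h3]
          rw [this]
          exact (Finset.measurable_fun_prod _ fun i _ => hGm.comp (hY i)).aemeasurable
  rw [le_div_iff₀ (by positivity), mul_comm]
  have h6 := ENNReal.toReal_mono ENNReal.ofReal_ne_top h5
  rw [ENNReal.toReal_mul, ENNReal.toReal_pow, ENNReal.toReal_ofReal (Real.exp_pos _).le] at h6
  simpa [measureReal_def] using h6

end Pool.Agent.F368
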