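import Pool.Agent.F368.Events

/-!
One window: the survival probability is multiplied by at most `1 - κ/2`.
-/

open MeasureTheory ProbabilityTheory Set Filter Topology
open scoped ENNReal NNReal

namespace Pool.Agent.F368

variable {d : ℕ} {Ω : Type*} [mΩ : MeasurableSpace Ω] {P : Measure Ω}

theorem window_prob [IsProbabilityMeasure P] {G H Mx Kl : Set Ω} (hMx : MeasurableSet Mx)
    (hKl : MeasurableSet Kl) {κ1 : ℝ} (h0 : 0 ≤ κ1) (h1 : κ1 ≤ 1) (hHG : H ⊆ G)
    (hbad : P.real (G ∩ Mx) ≤ 1 / 2 * P.real G)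
    (hkill : κ1 * P.real (H ∩ Mxᶜ) ≤ P.real (H ∩ Mxᶜ ∩ Kl)) :
    P.real (H \ (Mxᶜ ∩ Kl)) ≤ (1 - κ1 / 2) * P.real G := by
  have e1 : P.real (H ∩ (Mxᶜ ∩ Kl)) + P.real (H \ (Mxᶜ ∩ Kl)) = P.real H :=
    measureReal_inter_add_sdiff (s := H) (hMx.compl.inter hKl)
  have e2 : P.real (H ∩ Mx) + P.real (H \ Mx) = P.real H := measureReal_inter_add_sdiff (s := H) hMx
  have e3 : P.real (H ∩ Mx) ≤ P.real (G ∩ Mx) :=
    measureReal_mono (Set.inter_subset_inter_left _ hHG)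
  have e4 : P.real H ≤ P.real G := measureReal_mono hHG
  have e5 : H \ Mx = H ∩ Mxᶜ := rfl
  have e6 : H ∩ (Mxᶜ ∩ Kl) = H ∩ Mxᶜ ∩ Kl := (Set.inter_assoc _ _ _).symm
  rw [e5] at e2
  rw [e6] at e1
  have e7 : P.real H - 1 / 2 * P.real G ≤ P.real (H ∩ Mxᶜ) := by linarith
  have e8 := mul_le_mul_of_nonneg_left e7 h0
  have e9 : 0 ≤ (1 - κ1) * (P.real G - P.real H) := mul_nonneg (by linarith) (by linarith)
  nlinarith

theorem measurable_incrfun {ζ : ℕ → ℝ≥0 → Ω → E d} (hζ : ∀ i t, Measurable (ζ i t)) (s : ℝ≥0) :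
    Measurable (fun ω i t => incr ζ s i t ω) :=
  measurable_pi_lambda _ fun i => measurable_pi_lambda _ fun t => (hζ i (s + t)).sub (hζ i s)

theorem mix_le {lam : ℝ} {X : ℕ → Ω → E d} {ζ : ℕ → ℝ≥0 → Ω → E d} (h : IsMobile P lam X ζ)
    {g : Ω → ℝ≥0 → E d} (hg : IsNonAnticipating X ζ g) (p : Par d) (ha : 0 < p.a)
    (hm : 0 < p.m) (hK : p.S ⊆ box d p.K) {ε0 : ℝ}
    (hmix : ∀ (s : ℝ≥0) (z : V d) (y : ℕ → E d), nrm z ≤ p.N * p.R →
      (∀ c, nrm c ≤ p.N * p.R + p.Nq → (p.n : ℕ∞) ≤ cnt y (cellSet (p.m * p.a) c)) →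
      P.real {ω | Reach p.S (occ p.a (fun i => y i + incr ζ s i p.Δ ω)) z p.L} ≤ ε0)
    (heps : (box d p.R).card * ε0 ≤ 1 / 2) {k : ℕ} (hk : k < p.N) {B : Set Ω}
    (hB : MeasurableSet[Fs X ζ (p.win k)] B) :
    P.real (evG p X ζ g k B ∩ evMix p X ζ g k) ≤ 1 / 2 * P.real (evG p X ζ g k B) := by
  classical
  have hprob : IsProbabilityMeasure P := h.bm.indep.isProbabilityMeasure
  have hfs := Fs_le h.poisson.meas h.bm.meas (p.win k)
  set A : Set ((V d × (ℕ → E d)) × (ℕ → ℝ≥0 → E d)) :=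
    {q | ∃ z', nrm (z' - q.1.1) ≤ p.R ∧
      Reach p.S (occ p.a (fun i => q.1.2 i + q.2 i p.Δ)) z' p.L} with hA
  have hAm : MeasurableSet A := by
    have h1 : Measurable (fun q : (V d × (ℕ → E d)) × (ℕ → ℝ≥0 → E d) =>
        (q.1.1, fun i => q.1.2 i + q.2 i p.Δ)) := by
      refine (measurable_fst.comp measurable_fst).prodMk ?_
      refine measurable_pi_lambda _ fun i => ?_
      have h2 : Measurable (fun q : (V d × (ℕ → E d)) × (ℕ → ℝ≥0 → E d) => q.1.2 i) :=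
        (measurable_pi_apply i).comp (measurable_snd.comp measurable_fst)
      have h3 : Measurable (fun q : (V d × (ℕ → E d)) × (ℕ → ℝ≥0 → E d) => q.2 i p.Δ) :=
        (measurable_pi_apply p.Δ).comp ((measurable_pi_apply i).comp measurable_snd)
      exact h2.add h3
    exact h1 (measurableSet_zy (fun z => measurableSet_mix hK ha p.R p.L z))
  set Y : Ω → V d × (ℕ → E d) := fun ω => (cell p.a (g ω (p.win k)), pos X ζ (p.win k) ω) with hY
  have hYm : Measurable[Fs X ζ (p.win k)] Y :=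
    Measurable.prodMk (m := Fs X ζ (p.win k)) (measurable_g hg ha le_rfl)
      (measurable_posfun le_rfl)
  have hGm := measurableSet_evG p ha hm hg k le_rfl hB
  have key := prob_pair_le (P := P) hfs (measurable_incrfun h.bm.meas (p.win k))
    (indep_incr h (p.win k)) hYm hGm hAm (c := ENNReal.ofReal (1 / 2)) (by
      intro ω hω
      have hz : nrm (cell p.a (g ω (p.win k))) ≤ k * p.R := hω.2
      have hdens := hω.1.2
      have h1 : {ω' | (Y ω, fun i t => incr ζ (p.win k) i t ω') ∈ A} ⊆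
          ⋃ z' ∈ (box d p.R).map ⟨fun x => cell p.a (g ω (p.win k)) + x,
            add_right_injective _⟩,
          {ω' | Reach p.S (occ p.a (fun i => pos X ζ (p.win k) ω i +
            incr ζ (p.win k) i p.Δ ω')) z' p.L} := by
        intro ω' hω'
        obtain ⟨z', hz1, hz2⟩ := hω'
        rw [Set.mem_iUnion₂]
        refine ⟨z', ?_, hz2⟩
        rw [Finset.mem_map]
        exact ⟨z' - cell p.a (g ω (p.win k)), mem_box.2 hz1, by simp⟩
      have h2 : P.real {ω' | (Y ω, fun i t => incr ζ (p.win k) i t ω') ∈ A} ≤ 1 / 2 := by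
        refine (measureReal_mono h1 (measure_ne_top _ _)).trans
          ((measureReal_biUnion_finset_le _ _).trans ?_)
        refine le_trans (Finset.sum_le_sum (g := fun _ => ε0) fun z' hz' => ?_) ?_
        · refine hmix (p.win k) z' _ ?_ hdens
          rw [Finset.mem_map] at hz'
          obtain ⟨x, hx, rfl⟩ := hz'
          have h3 := mem_box.1 hx
          have h4 : nrm (cell p.a (g ω (p.win k)) + x) ≤ k * p.R + p.R :=
            (nrm_add_le _ _).trans (add_le_add hz h3)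
          have h5 : (k + 1) * p.R ≤ p.N * p.R := Nat.mul_le_mul_right _ hk
          have h6 : (k + 1) * p.R = k * p.R + p.R := by ring
          exact le_trans h4 (by omega)
        · rw [Finset.sum_const, Finset.card_map, nsmul_eq_mul]
          exact heps
      rw [← ofReal_measureReal]
      exact ENNReal.ofReal_le_ofReal h2)
  have h3 : {ω | (Y ω, fun i t => incr ζ (p.win k) i t ω) ∈ A} = evMix p X ζ g k := by
    ext ω
    have h4 : (fun i => pos X ζ (p.win k) ω i + incr ζ (p.win k) i p.Δ ω) =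
        pos X ζ (p.win k + p.Δ) ω := by
      funext i
      simp only [pos, incr]
      abel
    have h5 : ω ∈ {ω | (Y ω, fun i t => incr ζ (p.win k) i t ω) ∈ A} ↔
        ∃ z', nrm (z' - cell p.a (g ω (p.win k))) ≤ p.R ∧
          Reach p.S (occ p.a (fun i => pos X ζ (p.win k) ω i +
            incr ζ (p.win k) i p.Δ ω)) z' p.L := Iff.rfl
    rw [h5, h4]
    exact Iff.rfl
  rw [h3] at key
  have h6 := ENNReal.toReal_mono (ENNReal.mul_ne_top ENNReal.ofReal_ne_top (measure_ne_top _ _)) key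
  rw [ENNReal.toReal_mul, ENNReal.toReal_ofReal (by norm_num)] at h6
  exact h6

theorem kill_ge {lam : ℝ} {X : ℕ → Ω → E d} {ζ : ℕ → ℝ≥0 → Ω → E d} (h : IsMobile P lam X ζ)
    {g : Ω → ℝ≥0 → E d} (hg : IsNonAnticipating X ζ g) (p : Par d) (ha : 0 < p.a) {κ1 : ℝ}
    (h0 : 0 ≤ κ1)
    (hkill : ∀ (s : ℝ≥0) (z : V d) (y : ℕ → E d), ENNReal.ofReal κ1 ≤
      P {ω | FollowEv p.a p.κ0 p.δ (p.L + p.K) z y (fun i t => incr ζ s i t ω)})
    (k : ℕ) {B : Set Ω} (hB : MeasurableSet[Fs X ζ (p.win k + p.Δ)] B) :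
    κ1 * P.real B ≤ P.real (B ∩ evKill p X ζ g k) := by
  have hprob : IsProbabilityMeasure P := h.bm.indep.isProbabilityMeasure
  set s : ℝ≥0 := p.win k + p.Δ with hs
  have hfs := Fs_le h.poisson.meas h.bm.meas s
  set Y : Ω → V d × (ℕ → E d) := fun ω => (cell p.a (g ω s), pos X ζ s ω) with hY
  have hYm : Measurable[Fs X ζ s] Y :=
    Measurable.prodMk (m := Fs X ζ s) (measurable_g hg ha le_rfl) (measurable_posfun le_rfl)
  have hAm := measurableSet_zyu (d := d)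
    (Q := fun z y u => FollowEv p.a p.κ0 p.δ (p.L + p.K) z y u)
    (fun z => measurableSet_follow ha p.κ0 p.δ (p.L + p.K) z)
  have key := le_prob_pair (P := P) hfs (measurable_incrfun h.bm.meas s)
    (indep_incr h s) hYm hB hAm (c := ENNReal.ofReal κ1)
    (fun ω _ => hkill s (cell p.a (g ω s)) (pos X ζ s ω))
  have h6 := ENNReal.toReal_mono (measure_ne_top _ _) key
  rw [ENNReal.toReal_mul, ENNReal.toReal_ofReal h0] at h6
  exact h6

theorem surv_step {lam : ℝ} {X : ℕ → Ω → E d} {ζ : ℕ → ℝ≥0 → Ω → E d} (h : IsMobile P lam X ζ)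
    {g : Ω → ℝ≥0 → E d} (hg : IsNonAnticipating X ζ g) (p : Par d) (ha : 0 < p.a)
    (hm : 0 < p.m) (hK : p.S ⊆ box d p.K) {ε0 : ℝ}
    (hmix : ∀ (s : ℝ≥0) (z : V d) (y : ℕ → E d), nrm z ≤ p.N * p.R →
      (∀ c, nrm c ≤ p.N * p.R + p.Nq → (p.n : ℕ∞) ≤ cnt y (cellSet (p.m * p.a) c)) →
      P.real {ω | Reach p.S (occ p.a (fun i => y i + incr ζ s i p.Δ ω)) z p.L} ≤ ε0)
    (heps : (box d p.R).card * ε0 ≤ 1 / 2) {κ1 : ℝ} (h0 : 0 ≤ κ1) (h1 : κ1 ≤ 1)
    (hkill : ∀ (s : ℝ≥0) (z : V d) (y : ℕ → E d), ENNReal.ofReal κ1 ≤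
      P {ω | FollowEv p.a p.κ0 p.δ (p.L + p.K) z y (fun i t => incr ζ s i t ω)})
    {k : ℕ} (hk : k < p.N) :
    P.real (surv p X ζ g (k + 1)) ≤ (1 - κ1 / 2) * P.real (surv p X ζ g k) := by
  have hprob : IsProbabilityMeasure P := h.bm.indep.isProbabilityMeasure
  have hBm := measurableSet_surv p ha hm hK hg k
  have hle : ∀ t, Fs X ζ t ≤ mΩ := Fs_le h.poisson.meas h.bm.meas
  have hΔ : p.win k ≤ p.win k + p.Δ := le_add_of_nonneg_right zero_le'
  have hBm' : MeasurableSet[Fs X ζ (p.win k + p.Δ)] (surv p X ζ g k) :=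
    Fs_mono X ζ hΔ _ hBm
  have hMx := measurableSet_evMix p ha hK hg k (le_refl (p.win k + p.Δ))
  have hKl := measurableSet_evKill p ha hg k (le_refl (p.win k + p.Δ + 1))
  have hH := measurableSet_evH p ha hm hg k (le_refl (p.win k + p.Δ)) hBm'
  have h2 := window_prob (P := P) (G := evG p X ζ g k (surv p X ζ g k))
    (H := evH p X ζ g k (surv p X ζ g k)) (hle _ _ hMx) (hle _ _ hKl) h0 h1
    Set.inter_subset_left
    (mix_le h hg p ha hm hK hmix heps hk hBm)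
    (kill_ge h hg p ha h0 hkill k (hH.inter hMx.compl))
  have h3 : P.real (evG p X ζ g k (surv p X ζ g k)) ≤ P.real (surv p X ζ g k) :=
    measureReal_mono (Set.inter_subset_left.trans Set.inter_subset_left)
  calc P.real (surv p X ζ g (k + 1))
      ≤ (1 - κ1 / 2) * P.real (evG p X ζ g k (surv p X ζ g k)) := h2
    _ ≤ _ := mul_le_mul_of_nonneg_left h3 (by linarith)

theorem surv_le {lam : ℝ} {X : ℕ → Ω → E d} {ζ : ℕ → ℝ≥0 → Ω → E d} (h : IsMobile P lam X ζ)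
    {g : Ω → ℝ≥0 → E d} (hg : IsNonAnticipating X ζ g) (p : Par d) (ha : 0 < p.a)
    (hm : 0 < p.m) (hK : p.S ⊆ box d p.K) {ε0 : ℝ}
    (hmix : ∀ (s : ℝ≥0) (z : V d) (y : ℕ → E d), nrm z ≤ p.N * p.R →
      (∀ c, nrm c ≤ p.N * p.R + p.Nq → (p.n : ℕ∞) ≤ cnt y (cellSet (p.m * p.a) c)) →
      P.real {ω | Reach p.S (occ p.a (fun i => y i + incr ζ s i p.Δ ω)) z p.L} ≤ ε0)
    (heps : (box d p.R).card * ε0 ≤ 1 / 2) {κ1 : ℝ} (h0 : 0 ≤ κ1) (h1 : κ1 ≤ 1)
    (hkill : ∀ (s : ℝ≥0) (z : V d) (y : ℕ → E d), ENNReal.ofReal κ1 ≤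
      P {ω | FollowEv p.a p.κ0 p.δ (p.L + p.K) z y (fun i t => incr ζ s i t ω)}) :
    ∀ k ≤ p.N, P.real (surv p X ζ g k) ≤ (1 - κ1 / 2) ^ k := by
  have hprob : IsProbabilityMeasure P := h.bm.indep.isProbabilityMeasure
  intro k
  induction k with
  | zero => intro _; simp [surv]
  | succ k ih =>
    intro hk
    have h2 := ih (by omega)
    have h3 := surv_step h hg p ha hm hK hmix heps h0 h1 hkill (show k < p.N by omega)
    rw [pow_succ, mul_comm]
    exact h3.trans (mul_le_mul_of_nonneg_left h2 (by linarith))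

end Pool.Agent.F368
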